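import Pool.Agent.HF.AUnb

set_option autoImplicit false

/-!
HF-AExcl. Exclusion of pairs of rays (the proof of `HE/Excl.lean` for parabolic flat charts).
-/

namespace Pool.Agent.HF

open Set Topology Filter Pool.Agent.HE

variable {F : ℂ ≃ₜ ℂ} {γ : ℝ → ℂ} {lam h : ℝ} {s : ℝ → ℝ} {lm lp : ℝ}

namespace PF

private lemma pexcl_norm_le (z : ℂ) : ‖z‖ ≤ |z.re| + |z.im| := Complex.norm_le_abs_re_add_abs_im z

private lemma pexcl_esq {e : ℝ} (he : e = 1 ∨ e = -1) : e * e = 1 := by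
  rcases he with rfl | rfl <;> norm_num

private lemma pexcl_abs {e : ℝ} (he : e = 1 ∨ e = -1) : |e| = 1 := by
  rcases he with rfl | rfl <;> norm_num

private lemma pexcl_re (e m y : ℝ) : (ray e m y).re = e * y := rfl

private lemma pexcl_im (e m y : ℝ) : (ray e m y).im = m * y := rfl

/-- the segment is preconnected -/
private lemma pexcl_seg_pre (e m x : ℝ) : IsPreconnected (seg e m x) := by
  unfold seg
  refine isPreconnected_Ioo.image _ (Continuous.continuousOn ?_)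
  have h1 : ray e m = fun y : ℝ => ((e * y : ℝ) : ℂ) + ((m * y : ℝ) : ℂ) * Complex.I := by
    funext y
    apply Complex.ext
    · simp [ray]
    · simp [ray]
  rw [h1]
  fun_prop

/-- the segment has points near `0` -/
private lemma pexcl_seg_near {e : ℝ} (he : e = 1 ∨ e = -1) (m : ℝ) {x ε : ℝ} (hx : 0 < x) (hε : 0 < ε) :
    ∃ y ∈ Ioo 0 x, ‖ray e m y‖ < ε := by
  have h0 : 0 < 2 * (1 + |m|) := by positivity
  refine ⟨min (x / 2) (ε / (2 * (1 + |m|))), ⟨by positivity, ?_⟩, ?_⟩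
  · exact lt_of_le_of_lt (min_le_left _ _) (by linarith)
  · set y := min (x / 2) (ε / (2 * (1 + |m|))) with hy
    have hy0 : 0 < y := by positivity
    have hy1 : y ≤ ε / (2 * (1 + |m|)) := min_le_right _ _
    have h1 := pexcl_norm_le (ray e m y)
    rw [pexcl_re, pexcl_im, abs_mul, abs_mul, pexcl_abs he, abs_of_pos hy0] at h1
    have h2 : y * (2 * (1 + |m|)) ≤ ε := by
      rwa [le_div_iff₀ h0] at hy1
    have h3 : 0 ≤ |m| * y := by positivity
    linarith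

/-- the sector `SR` has points near `0` -/
private lemma pexcl_sr_near {e : ℝ} (he : e = 1 ∨ e = -1) (m : ℝ) {ε : ℝ} (hε : 0 < ε) :
    ∃ z ∈ SR e m, ‖z‖ < ε := by
  set a : ℝ := ε / (2 * (|m| + 2)) with ha
  have h0 : 0 < 2 * (|m| + 2) := by positivity
  have ha0 : 0 < a := by positivity
  refine ⟨⟨e * a, (|m| + 1) * a⟩, ⟨?_, ?_⟩, ?_⟩
  · change 0 < e * (e * a)
    rw [← mul_assoc, pexcl_esq he, one_mul]
    exact ha0
  · change m * (e * (e * a)) < (|m| + 1) * a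
    rw [← mul_assoc e e a, pexcl_esq he, one_mul]
    have := le_abs_self m
    nlinarith
  · refine (pexcl_norm_le _).trans_lt ?_
    change |e * a| + |(|m| + 1) * a| < ε
    rw [abs_mul, pexcl_abs he, abs_of_pos ha0, abs_of_pos (by positivity)]
    have h1 : a * (2 * (|m| + 2)) = ε := by
      rw [ha]
      field_simp
    linarith

/-- not both components are unbounded -/
private lemma pexcl_fin (H : PF F γ lam h s lm lp) {e m u x : ℝ} (h1 : FH γ h e m u x)
    {A B : Set ℂ} (hA : IsA γ e m u x A) (hB : IsB γ e m u x B) (hAu : ¬ Bornology.IsBounded A)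
    (hBu : ¬ Bornology.IsBounded B) : False := by
  have hd := ab_disj H h1 hA hB
  obtain ⟨C, hC⟩ := (yy_compact H h1).isBounded.exists_norm_le
  have hR : ∀ z ∈ YY γ e m u x, ‖z‖ ≤ max C 0 := fun z hz => (hC z hz).trans (le_max_left _ _)
  obtain ⟨⟨a, ha, rfl⟩, -⟩ := hA
  obtain ⟨⟨b, hb, rfl⟩, -⟩ := hB
  have he := unb_eq (le_max_right _ _) hR hAu hBu
  rw [he] at hd
  exact disjoint_left.1 hd (mem_cmp hb) (mem_cmp hb)

/-- the arcs increase -/
private lemma pexcl_arc (H : PF F γ lam h s lm lp) {u : ℝ} (hu : 0 ≤ u) (k : ℕ) :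
    0 ≤ u / lam ^ k ∧ γ '' Icc 0 u ⊆ γ '' Icc 0 (u / lam ^ k) := by
  have h0 := H.lam0
  have hp : 0 < lam ^ k := by positivity
  have hp1 : lam ^ k ≤ 1 := pow_le_one₀ h0.le H.lam1.le
  refine ⟨by positivity, image_mono (Icc_subset_Icc_right ?_)⟩
  rw [le_div_iff₀ hp]
  nlinarith

private lemma pexcl_fh (H : PF F γ lam h s lm lp) {e m u x : ℝ} (h1 : FH γ h e m u x) (k : ℕ) :
    ∃ y, FH γ h e m (u / lam ^ k) y := by
  obtain ⟨a1, a2⟩ := pexcl_arc H h1.hu k
  obtain ⟨y, -, hy⟩ := fh_exists H h1.he h1.hm a1 h1.pos h1.xh h1.mh (a2 h1.mem)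
  exact ⟨y, hy⟩

theorem excl1 (H : PF F γ lam h s lm lp) {e m1 m2 u x1 x2 : ℝ} (hm1 : 0 < m1)
    (hm2 : 0 < m2) (h1 : FH γ h e m1 u x1) (h2 : FH γ h (-e) m2 u x2) : False := by
  obtain ⟨kA, hkA⟩ := unbA H hm1 h1
  obtain ⟨kB, hkB⟩ := unbA H hm2 h2
  set k := max kA kB with hk
  obtain ⟨y1, hy1⟩ := pexcl_fh H h1 k
  obtain ⟨y2, hy2⟩ := pexcl_fh H h2 k
  obtain ⟨A1, hA1⟩ := isA_exists H hy1
  obtain ⟨B1, hB1⟩ := isB_exists H hy1
  obtain ⟨A2, hA2⟩ := isA_exists H hy2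
  obtain ⟨B2, hB2⟩ := isB_exists H hy2
  have uA1 := hkA k (le_max_left _ _) y1 A1 hy1 hA1
  have uA2 := hkB k (le_max_right _ _) y2 A2 hy2 hA2
  have hee := pexcl_esq h1.he
  -- the second segment is in `B1`
  have hw : seg (-e) m2 y2 ⊆ B1 := by
    refine hB1.1.sub (pexcl_seg_pre _ _ _) ?_ ?_
    · rw [disjoint_left]
      rintro z ⟨y, hy, rfl⟩ (hz | ⟨y', hy', hz⟩)
      · exact hy2.free y hy hz
      · have h3 := congrArg (fun z : ℂ => e * z.re) hz
        simp only [pexcl_re] at h3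
        have h4 : e * (e * y') = y' := by rw [← mul_assoc, hee, one_mul]
        have h5 : e * (-e * y) = -y := by
          have : e * (-e * y) = -(e * e) * y := by ring
          rw [this, hee]; ring
        rw [h4, h5] at h3
        have := hy.1
        have := hy'.1
        linarith
    · obtain ⟨ε, hε, hB⟩ := hB1.2
      obtain ⟨y, hy, hn⟩ := pexcl_seg_near h2.he m2 hy2.pos hε
      refine ⟨ray (-e) m2 y, ⟨y, hy, rfl⟩, hB _ (Or.inl ?_) hn⟩
      rw [pexcl_re]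
      have : e * (-e * y) = -(e * e) * y := by ring
      rw [this, hee]
      have := hy.1
      linarith
  have hd1 := ab_disj H hy1 hA1 hB1
  -- `A1` is in `B2`
  have hAB : A1 ⊆ B2 := by
    refine hB2.1.sub hA1.1.pre ?_ ?_
    · rw [disjoint_left]
      rintro z hz (hz' | hz')
      · exact disjoint_left.1 hA1.1.disj hz (Or.inl hz')
      · exact disjoint_left.1 hd1 hz (hw hz')
    · obtain ⟨ε, hε, hA⟩ := hA1.2
      obtain ⟨ε', hε', hB⟩ := hB2.2
      obtain ⟨z, hz, hn⟩ := pexcl_sr_near h1.he m1 (lt_min hε hε')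
      refine ⟨z, hA z hz (hn.trans_le (min_le_left _ _)),
        hB z (Or.inl ?_) (hn.trans_le (min_le_right _ _))⟩
      have := hz.1
      linarith
  exact pexcl_fin H hy2 hA2 hB2 uA2 fun hb => uA1 (hb.subset hAB)

theorem excl2 (H : PF F γ lam h s lm lp) {e m1 m2 u x1 x2 : ℝ} (hm1 : 0 < m1)
    (hm2 : m2 < 0) (h1 : FH γ h e m1 u x1) (h2 : FH γ h e m2 u x2) : False := by
  obtain ⟨kA, hkA⟩ := unbA H hm1 h1
  obtain ⟨kB, hkB⟩ := unbB H hm2 h2
  set k := max kA kB with hk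
  obtain ⟨y1, hy1⟩ := pexcl_fh H h1 k
  obtain ⟨y2, hy2⟩ := pexcl_fh H h2 k
  obtain ⟨A1, hA1⟩ := isA_exists H hy1
  obtain ⟨B1, hB1⟩ := isB_exists H hy1
  obtain ⟨A2, hA2⟩ := isA_exists H hy2
  obtain ⟨B2, hB2⟩ := isB_exists H hy2
  have uA1 := hkA k (le_max_left _ _) y1 A1 hy1 hA1
  have uB2 := hkB k (le_max_right _ _) y2 B2 hy2 hB2
  have hee := pexcl_esq h1.he
  -- the second segment is in `B1`
  have hw : seg e m2 y2 ⊆ B1 := by
    refine hB1.1.sub (pexcl_seg_pre _ _ _) ?_ ?_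
    · rw [disjoint_left]
      rintro z ⟨y, hy, rfl⟩ (hz | ⟨y', hy', hz⟩)
      · exact hy2.free y hy hz
      · have h3 := congrArg Complex.im hz
        simp only [pexcl_im] at h3
        have h4 : m2 * y < 0 := mul_neg_of_neg_of_pos hm2 hy.1
        have h5 : 0 < m1 * y' := mul_pos hm1 hy'.1
        linarith
    · obtain ⟨ε, hε, hB⟩ := hB1.2
      obtain ⟨y, hy, hn⟩ := pexcl_seg_near h2.he m2 hy2.pos hε
      refine ⟨ray e m2 y, ⟨y, hy, rfl⟩, hB _ (Or.inr ?_) hn⟩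
      rw [pexcl_re, pexcl_im, ← mul_assoc e e y, hee, one_mul]
      have h4 : m2 * y < 0 := mul_neg_of_neg_of_pos hm2 hy.1
      have h5 : 0 < m1 * y := mul_pos hm1 hy.1
      linarith
  have hd1 := ab_disj H hy1 hA1 hB1
  -- `A1` is in `A2`
  have hAB : A1 ⊆ A2 := by
    refine hA2.1.sub hA1.1.pre ?_ ?_
    · rw [disjoint_left]
      rintro z hz (hz' | hz')
      · exact disjoint_left.1 hA1.1.disj hz (Or.inl hz')
      · exact disjoint_left.1 hd1 hz (hw hz')
    · obtain ⟨ε, hε, hA⟩ := hA1.2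
      obtain ⟨ε', hε', hB⟩ := hA2.2
      obtain ⟨z, hz, hn⟩ := pexcl_sr_near h1.he m1 (lt_min hε hε')
      refine ⟨z, hA z hz (hn.trans_le (min_le_left _ _)),
        hB z ⟨hz.1, ?_⟩ (hn.trans_le (min_le_right _ _))⟩
      have h3 := hz.1
      have h4 := hz.2
      have h5 : m2 * (e * z.re) < 0 := mul_neg_of_neg_of_pos hm2 h3
      have h6 : 0 < m1 * (e * z.re) := mul_pos hm1 h3
      linarith
  exact pexcl_fin H hy2 hA2 hB2 (fun hb => uA1 (hb.subset hAB)) uB2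

end PF

end Pool.Agent.HF
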