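import Pool.Agent.HF.Defs
import Pool.Agent.HE.NoSep

set_option autoImplicit false

/-!
HF-AFlatB. Basic facts on a bounded stable branch in a topological chart at its own semi-neutral point.
-/

namespace Pool.Agent.HF

open Set Topology Filter Pool.Agent.HE

variable {F : ℂ ≃ₜ ℂ} {γ : ℝ → ℂ} {lam h : ℝ} {s : ℝ → ℝ} {lm lp : ℝ}

namespace PF

theorem xx_compact (H : PF F γ lam h s lm lp) : IsCompact (XX γ) :=
  H.bdd.isCompact_closure

theorem sub_xx (H : PF F γ lam h s lm lp) (u : ℝ) : γ '' Icc 0 u ⊆ XX γ := by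
  rintro _ ⟨t, ht, rfl⟩
  have h1 : t ∈ closure (Ioi (0 : ℝ)) := by
    rw [closure_Ioi]
    exact ht.1
  exact map_mem_closure H.cont h1 fun s hs => mem_image_of_mem γ hs

theorem xx_nonsep (H : PF F γ lam h s lm lp) : NonSep (XX γ) := by
  have hsymm : ∀ t, F.symm (γ t) = γ (t / lam) := by
    intro t
    rw [Homeomorph.symm_apply_eq, H.conj, mul_div_cancel₀ t H.lam0.ne']
  have h1 : MapsTo (F.symm : ℂ → ℂ) (γ '' Ioi 0) (γ '' Ioi 0) := by
    rintro _ ⟨t, ht, rfl⟩
    rw [hsymm]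
    exact mem_image_of_mem γ (div_pos ht H.lam0)
  have h2 : MapsTo (F.symm : ℂ → ℂ) (XX γ) (XX γ) := h1.closure F.symm.continuous
  obtain ⟨R, hR⟩ := H.xx_compact.isBounded.exists_norm_le
  refine nonsep_of_NO H.no H.xx_compact (R := R) fun k z hz => hR _ ?_
  exact h2.iterate k hz

theorem near0 (H : PF F γ lam h s lm lp) (u : ℝ) :
    ∃ ε > 0, ∀ z ∈ γ '' Icc 0 u, ‖z‖ < ε → z.re = 0 ∧ 0 ≤ z.im := by
  obtain ⟨t0, ht0, hax⟩ := H.ax
  have hK : IsClosed (γ '' Icc t0 u) := (isCompact_Icc.image H.cont).isClosed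
  have h0 : (0 : ℂ) ∈ (γ '' Icc t0 u)ᶜ := by
    rintro ⟨t, ht, hz⟩
    have h1 : t = 0 := H.inj (hz.trans H.g0.symm)
    have h2 := ht.1
    rw [h1] at h2
    exact absurd ht0 (not_lt.2 h2)
  obtain ⟨ε, hε, hball⟩ := Metric.isOpen_iff.1 hK.isOpen_compl 0 h0
  refine ⟨ε, hε, ?_⟩
  rintro _ ⟨t, ht, rfl⟩ hz
  rcases le_total t t0 with h1 | h1
  · exact hax t ⟨ht.1, h1⟩
  · exfalso
    have h2 : γ t ∈ Metric.ball (0 : ℂ) ε := by
      rw [mem_ball_zero_iff]
      exact hz
    exact hball h2 (mem_image_of_mem γ ⟨h1, ht.2⟩)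

theorem neg (H : PF F γ lam h s lm lp) {t : ℝ} (ht : 0 < t) (h1 : |(γ t).re| < h)
    (h2 : |(γ t).im| < h) (h0 : (γ t).re = 0) : 0 < (γ t).im := by
  have _ := h1
  by_contra hcon
  have hcon' : (γ t).im ≤ 0 := not_lt.1 hcon
  obtain ⟨t0, ht0, hax⟩ := H.ax
  have key : ∀ k : ℕ, (γ (lam ^ k * t)).re = 0 ∧ (γ (lam ^ k * t)).im ≤ 0 ∧
      |(γ (lam ^ k * t)).im| < h := by
    intro k
    induction k with
    | zero =>
      rw [pow_zero, one_mul]
      exact ⟨h0, hcon', h2⟩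
    | succ k ih =>
      obtain ⟨i1, i2, i3⟩ := ih
      have hs : lam ^ (k + 1) * t = lam * (lam ^ k * t) := by
        rw [pow_succ]
        ring
      rw [hs, ← H.conj]
      set z : ℂ := γ (lam ^ k * t) with hz
      have hre : |z.re| < h := by
        rw [i1, abs_zero]
        exact H.hh
      have a1 := H.re_eq 1 (Or.inl rfl) z hre i3 (by rw [i1, mul_zero])
      rw [i1, mul_zero] at a1
      have a2 := H.im_up z hre i3
      have a3 : |(F z).im| ≤ |z.im| :=
        a2.trans (mul_le_of_le_one_left (abs_nonneg _) H.hlp.le)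
      refine ⟨a1, ?_, a3.trans_lt i3⟩
      rcases i2.eq_or_lt with h4 | h4
      · rw [h4, abs_zero] at a3
        exact (abs_nonpos_iff.1 a3).le
      · have a4 := H.im_sign z hre i3
        by_contra h5
        have h6 : z.im * (F z).im < 0 := mul_neg_of_neg_of_pos h4 (not_le.1 h5)
        linarith
  have hlim : Tendsto (fun k : ℕ => lam ^ k * t) atTop (𝓝 (0 * t)) :=
    (tendsto_pow_atTop_nhds_zero_of_lt_one H.lam0.le H.lam1).mul_const t
  rw [zero_mul] at hlim
  obtain ⟨k, hk⟩ := (hlim.eventually (gt_mem_nhds ht0)).exists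
  have hpos : 0 < lam ^ k * t := mul_pos (pow_pos H.lam0 k) ht
  obtain ⟨b1, b2⟩ := hax _ ⟨hpos.le, hk.le⟩
  have h3 : γ (lam ^ k * t) = 0 := Complex.ext b1 (le_antisymm (key k).2.1 b2)
  have h4 : lam ^ k * t = 0 := H.inj (h3.trans H.g0.symm)
  exact hpos.ne' h4

theorem axis (H : PF F γ lam h s lm lp) :
    ∃ t1, ∃ η > 0, ∀ t > 0, (γ t).re = 0 → |(γ t).im| < η → t ≤ t1 := by
  obtain ⟨t0, ht0, hax⟩ := H.ax
  have h1 : 0 < (γ t0).im := by
    obtain ⟨b1, b2⟩ := hax t0 ⟨ht0.le, le_rfl⟩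
    rcases b2.eq_or_lt with h | h
    · exfalso
      have h3 : γ t0 = 0 := Complex.ext b1 h.symm
      have h4 : t0 = 0 := H.inj (h3.trans H.g0.symm)
      exact ht0.ne' h4
    · exact h
  refine ⟨t0, min (γ t0).im h, lt_min h1 H.hh, fun t ht hre him => ?_⟩
  have hre' : |(γ t).re| < h := by
    rw [hre, abs_zero]
    exact H.hh
  have hpos := H.neg ht hre' (him.trans_le (min_le_right _ _)) hre
  have hlt : (γ t).im < (γ t0).im := (le_abs_self _).trans_lt (him.trans_le (min_le_left _ _))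
  have hc : ContinuousOn (fun s => (γ s).im) (Icc 0 t0) :=
    (Complex.continuous_im.comp H.cont).continuousOn
  have h0 : (γ 0).im = 0 := by
    rw [H.g0]
    rfl
  obtain ⟨s, hs, hs'⟩ := intermediate_value_Icc ht0.le hc
    (show (γ t).im ∈ Icc ((γ 0).im) ((γ t0).im) from ⟨by rw [h0]; exact hpos.le, hlt.le⟩)
  have hs2 : (γ s).im = (γ t).im := hs'
  have h5 : γ s = γ t := Complex.ext ((hax s hs).1.trans hre.symm) hs2
  rw [← H.inj h5]
  exact hs.2

theorem att_free (H : PF F γ lam h s lm lp) {i : ℝ} (hi : i = 1 ∨ i = -1) (hs : s i = 1 / 2) {t : ℝ}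
    (ht : 0 < t) (h1 : |(γ t).re| < h) (h2 : |(γ t).im| < h) (h3 : 0 < i * (γ t).re) : False := by
  obtain ⟨t0, ht0, hax⟩ := H.ax
  have key : ∀ k : ℕ, (γ (lam ^ k * t)).re = (γ t).re / 2 ^ k ∧
      |(γ (lam ^ k * t)).im| ≤ |(γ t).im| := by
    intro k
    induction k with
    | zero =>
      rw [pow_zero, one_mul, pow_zero, div_one]
      exact ⟨rfl, le_rfl⟩
    | succ k ih =>
      obtain ⟨i1, i2⟩ := ih
      have hs' : lam ^ (k + 1) * t = lam * (lam ^ k * t) := by
        rw [pow_succ]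
        ring
      rw [hs', ← H.conj]
      set z : ℂ := γ (lam ^ k * t) with hz
      have hpk : (1 : ℝ) ≤ 2 ^ k := one_le_pow₀ (by norm_num)
      have hre : |z.re| < h := by
        rw [i1, abs_div, abs_of_pos (by positivity : (0 : ℝ) < 2 ^ k)]
        exact lt_of_le_of_lt (div_le_self (abs_nonneg _) hpk) h1
      have him : |z.im| < h := lt_of_le_of_lt i2 h2
      have hnn : 0 ≤ i * z.re := by
        rw [i1, ← mul_div_assoc]
        positivity
      have a1 := H.re_eq i hi z hre him hnn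
      have a2 := H.im_up z hre him
      refine ⟨?_, (a2.trans (mul_le_of_le_one_left (abs_nonneg _) H.hlp.le)).trans i2⟩
      rw [a1, hs, i1, pow_succ]
      field_simp
  have hlim : Tendsto (fun k : ℕ => lam ^ k * t) atTop (𝓝 (0 * t)) :=
    (tendsto_pow_atTop_nhds_zero_of_lt_one H.lam0.le H.lam1).mul_const t
  rw [zero_mul] at hlim
  obtain ⟨k, hk⟩ := (hlim.eventually (gt_mem_nhds ht0)).exists
  have hpos : 0 < lam ^ k * t := mul_pos (pow_pos H.lam0 k) ht
  obtain ⟨b1, -⟩ := hax _ ⟨hpos.le, hk.le⟩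
  rw [(key k).1] at b1
  have h4 : (γ t).re = 0 := by
    rcases div_eq_zero_iff.1 b1 with h | h
    · exact h
    · exact absurd h (by positivity)
  rw [h4, mul_zero] at h3
  exact lt_irrefl _ h3

theorem fh_s (H : PF F γ lam h s lm lp) {e m u x : ℝ} (h1 : FH γ h e m u x) : s e = 2 := by
  rcases H.hs e h1.he with h2 | h2
  · exact h2
  exfalso
  obtain ⟨t, ht, hte⟩ := h1.mem
  have hre : (γ t).re = e * x := by rw [hte]; rfl
  have him : (γ t).im = m * x := by rw [hte]; rfl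
  have hx := h1.pos
  have hee : e * e = 1 := by
    rcases h1.he with h | h <;> rw [h] <;> norm_num
  have hea : |e| = 1 := by
    rcases h1.he with h | h <;> rw [h] <;> norm_num
  have hex : 0 < e * (γ t).re := by
    rw [hre, ← mul_assoc, hee, one_mul]
    exact hx
  have ht0 : 0 < t := by
    rcases lt_or_eq_of_le ht.1 with h | h
    · exact h
    · exfalso
      rw [← h, H.g0] at hex
      simp at hex
  refine H.att_free h1.he h2 ht0 ?_ ?_ hex
  · rw [hre, abs_mul, hea, one_mul, abs_of_pos hx]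
    exact h1.xh
  · rw [him, abs_mul, abs_of_pos hx]
    exact h1.mh

end PF

end Pool.Agent.HF
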