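import Pool.Agent.HF.ASep
import Pool.Agent.HF.AUAx
import Pool.Agent.HE.Rays

set_option autoImplicit false

/-!
HF-AInc. The components increase: the sector component of the complement of `YY γ e m u x` is
contained in the image under `F` of the sector component for `u / lam` (adapted from HE/IncA).
-/

namespace Pool.Agent.HF

open Set Topology Filter Pool.Agent.HE

variable {F : ℂ ≃ₜ ℂ} {γ : ℝ → ℂ} {lam h : ℝ} {s : ℝ → ℝ} {lm lp : ℝ}

private lemma inc_sq {e : ℝ} (he : e = 1 ∨ e = -1) : e * e = 1 := by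
  rcases he with rfl | rfl <;> norm_num

private lemma inc_abs {e : ℝ} (he : e = 1 ∨ e = -1) : |e| = 1 := by
  rcases he with rfl | rfl <;> norm_num

private lemma inc_re (H : PF F γ lam h s lm lp) {e : ℝ} (he : e = 1 ∨ e = -1) (hse : s e = 2)
    {z : ℂ} (h1 : |z.re| < h) (h2 : |z.im| < h) {y : ℝ} (hy : 0 < y) (hz : z.re = e * y) :
    e * (F z).re = 2 * y := by
  have h3 : 0 ≤ e * z.re := by
    rw [hz, ← mul_assoc, inc_sq he, one_mul]
    exact hy.le
  rw [H.re_eq e he z h1 h2 h3, hse, hz]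
  have h4 : e * (2 * (e * y)) = 2 * ((e * e) * y) := by ring
  rw [h4, inc_sq he, one_mul]

private lemma inc_neg (H : PF F γ lam h s lm lp) {e : ℝ} (he : e = 1 ∨ e = -1)
    {z : ℂ} (h1 : |z.re| < h) (h2 : |z.im| < h) {y : ℝ} (hy : 0 < y) (hz : z.re = e * y) :
    0 < e * (F z).re := by
  have h3 : 0 ≤ e * z.re := by
    rw [hz, ← mul_assoc, inc_sq he, one_mul]
    exact hy.le
  rw [H.re_eq e he z h1 h2 h3, hz]
  have h4 : e * (s e * (e * y)) = s e * ((e * e) * y) := by ring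
  rw [h4, inc_sq he, one_mul]
  rcases H.hs e he with h5 | h5
  · rw [h5]
    linarith
  · rw [h5]
    linarith

private lemma inc_im (H : PF F γ lam h s lm lp) {e : ℝ} (he : e = 1 ∨ e = -1) {z : ℂ}
    (h1 : |z.re| < h) (h2 : |z.im| < h) {y : ℝ} (hy : 0 < y) (hz : z.im = e * y) :
    lm * y ≤ e * (F z).im ∧ e * (F z).im ≤ lp * y := by
  have h3 := H.im_sign z h1 h2
  have h4 := H.im_low z h1 h2
  have h5 := H.im_up z h1 h2
  have h6 : |z.im| = y := by rw [hz, abs_mul, inc_abs he, one_mul, abs_of_pos hy]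
  have h7 : 0 ≤ e * (F z).im := by
    rw [hz] at h3
    have h8 : e * y * (F z).im = y * (e * (F z).im) := by ring
    rw [h8] at h3
    exact nonneg_of_mul_nonneg_right h3 hy
  have h8 : |(F z).im| = e * (F z).im := by
    rw [← abs_of_nonneg h7, abs_mul, inc_abs he, one_mul]
  rw [h6, h8] at h4 h5
  exact ⟨h4, h5⟩

private lemma inc_small (H : PF F γ lam h s lm lp) (p q : ℝ) {ε ε' x : ℝ} (hε : 0 < ε)
    (hε' : 0 < ε') (hx : 0 < x) : ∃ t, 0 < t ∧ t < x ∧ |p * t| < h ∧ |q * t| < h ∧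
      ‖(⟨p * t, q * t⟩ : ℂ)‖ < ε ∧ ‖F (⟨p * t, q * t⟩ : ℂ)‖ < ε' := by
  have hw : Continuous fun t : ℝ => (⟨p * t, q * t⟩ : ℂ) := by
    have h1 : (fun t : ℝ => (⟨p * t, q * t⟩ : ℂ)) =
        fun t : ℝ => ((p * t : ℝ) : ℂ) + ((q * t : ℝ) : ℂ) * Complex.I := by
      funext t
      exact Complex.mk_eq_add_mul_I _ _
    rw [h1]
    fun_prop
  have hw0 : (⟨p * 0, q * 0⟩ : ℂ) = 0 := by
    apply Complex.ext <;> simp
  have e1 : ∀ᶠ t in 𝓝 (0 : ℝ), ‖(⟨p * t, q * t⟩ : ℂ)‖ < ε := by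
    have h1 : Tendsto (fun t : ℝ => ‖(⟨p * t, q * t⟩ : ℂ)‖) (𝓝 0) (𝓝 ‖(⟨p * 0, q * 0⟩ : ℂ)‖) :=
      (hw.norm.tendsto 0)
    rw [hw0, norm_zero] at h1
    exact h1.eventually (gt_mem_nhds hε)
  have e2 : ∀ᶠ t in 𝓝 (0 : ℝ), ‖F (⟨p * t, q * t⟩ : ℂ)‖ < ε' := by
    have h1 : Tendsto (fun t : ℝ => ‖F (⟨p * t, q * t⟩ : ℂ)‖) (𝓝 0)
        (𝓝 ‖F (⟨p * 0, q * 0⟩ : ℂ)‖) :=
      ((F.continuous.comp hw).norm.tendsto 0)
    rw [hw0, H.F0, norm_zero] at h1
    exact h1.eventually (gt_mem_nhds hε')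
  have e3 : ∀ᶠ t in 𝓝 (0 : ℝ), |p * t| < h := by
    have h1 : Tendsto (fun t : ℝ => |p * t|) (𝓝 0) (𝓝 |p * 0|) :=
      ((continuous_const.mul continuous_id).abs.tendsto 0)
    rw [mul_zero, abs_zero] at h1
    exact h1.eventually (gt_mem_nhds H.hh)
  have e4 : ∀ᶠ t in 𝓝 (0 : ℝ), |q * t| < h := by
    have h1 : Tendsto (fun t : ℝ => |q * t|) (𝓝 0) (𝓝 |q * 0|) :=
      ((continuous_const.mul continuous_id).abs.tendsto 0)
    rw [mul_zero, abs_zero] at h1
    exact h1.eventually (gt_mem_nhds H.hh)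
  have e5 : ∀ᶠ t in 𝓝 (0 : ℝ), t < x := gt_mem_nhds hx
  have e6 : ∀ᶠ t in 𝓝[>] (0 : ℝ), 0 < t := self_mem_nhdsWithin
  obtain ⟨t, h6, h1, h2, h3, h4, h5⟩ := (e6.and ((((e1.and (e2.and (e3.and (e4.and e5)))))).filter_mono
    nhdsWithin_le_nhds)).exists
  exact ⟨t, h6, h5, h3, h4, h1, h2⟩

private lemma inc_arc (H : PF F γ lam h s lm lp) (u : ℝ) :
    F '' (γ '' Icc 0 (u / lam)) = γ '' Icc 0 u := by
  have hl := H.lam0
  ext z
  constructor
  · rintro ⟨w, ⟨t, ht, rfl⟩, rfl⟩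
    rw [H.conj]
    refine ⟨lam * t, ⟨mul_nonneg hl.le ht.1, ?_⟩, rfl⟩
    have h1 := ht.2
    rw [le_div_iff₀ hl] at h1
    linarith
  · rintro ⟨t, ht, rfl⟩
    refine ⟨γ (t / lam), ⟨t / lam, ⟨div_nonneg ht.1 hl.le, ?_⟩, rfl⟩, ?_⟩
    · exact (div_le_div_iff_of_pos_right hl).2 ht.2
    · rw [H.conj]
      congr 1
      field_simp

private lemma inc_YY (H : PF F γ lam h s lm lp) (e m u x' : ℝ) :
    F '' YY γ e m (u / lam) x' = γ '' Icc 0 u ∪ F '' seg e m x' := by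
  unfold YY
  rw [image_union, inc_arc H]

private lemma inc_box {e m u x' y : ℝ} (h2 : FH γ h e m (u / lam) x') (hy : y ∈ Ioo 0 x') :
    |(ray e m y).re| < h ∧ |(ray e m y).im| < h := by
  have hxh := h2.xh
  have hmh := h2.mh
  have hy0 : |y| = y := abs_of_pos hy.1
  constructor
  · show |e * y| < h
    rw [abs_mul, inc_abs h2.he, one_mul, hy0]
    exact hy.2.trans hxh
  · show |m * y| < h
    rw [abs_mul, hy0]
    exact (mul_le_mul_of_nonneg_left hy.2.le (abs_nonneg m)).trans_lt hmh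

private lemma inc_arcfree (H : PF F γ lam h s lm lp) {e m u x' y : ℝ}
    (h2 : FH γ h e m (u / lam) x') (hy : y ∈ Ioo 0 x') :
    F (ray e m y) ∉ γ '' Icc 0 u := by
  rw [← inc_arc H u]
  rintro ⟨w, hw, hwe⟩
  have := F.injective hwe
  rw [this] at hw
  exact h2.free y hy hw

private lemma inc_pre (F : ℂ ≃ₜ ℂ) (e m x' : ℝ) : IsPreconnected (F '' seg e m x') := by
  unfold seg
  refine (isPreconnected_Ioo.image _ ?_).image _ F.continuous.continuousOn
  have h1 : ray e m = fun t : ℝ => ((e * t : ℝ) : ℂ) + ((m * t : ℝ) : ℂ) * Complex.I := by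
    funext t
    exact Complex.mk_eq_add_mul_I _ _
  rw [h1]
  fun_prop

/-- if the image of the segment is in a component different from `D` then `D` is in `F '' D'` -/
private lemma inc_fin (H : PF F γ lam h s lm lp) {e m u x x' : ℝ} {D D' B : Set ℂ}
    (hD : IsCmp (YY γ e m u x) D) (hD' : IsCmp (YY γ e m (u / lam) x') D')
    (hB : F '' seg e m x' ⊆ B) (hdis : Disjoint D B) (hne : (D ∩ F '' D').Nonempty) :
    D ⊆ F '' D' := by
  refine (isCmp_image F hD').sub hD.pre ?_ hne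
  rw [inc_YY H, disjoint_union_right]
  exact ⟨hD.disj.mono_right subset_union_left, hdis.mono_right hB⟩

namespace PF

theorem incA (H : PF F γ lam h s lm lp) {e m u x x' : ℝ} (hm : 0 < m)
    (h1 : FH γ h e m u x) (h2 : FH γ h e m (u / lam) x') {D D' : Set ℂ}
    (hD : IsA γ e m u x D) (hD' : IsA γ e m (u / lam) x' D') : D ⊆ F '' D' := by
  have he := h1.he
  have hse := H.fh_s h1
  have hsq := inc_sq he
  obtain ⟨B, hB⟩ := H.isB_exists h1
  have key : ∀ y ∈ Ioo 0 x', F (ray e m y) ∈ SL e m ∧ F (ray e m y) ∉ YY γ e m u x := by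
    intro y hy
    obtain ⟨b1, b2⟩ := inc_box h2 hy
    have r1 := inc_re H he hse b1 b2 hy.1 rfl
    obtain ⟨-, i2⟩ := inc_im H (Or.inl rfl) b1 b2 (y := m * y) (mul_pos hm hy.1)
      (by rw [one_mul]; rfl)
    rw [one_mul] at i2
    have hmy : 0 < m * y := mul_pos hm hy.1
    have hlt : (F (ray e m y)).im < m * (e * (F (ray e m y)).re) := by
      have h3 : lp * (m * y) < m * y := by
        have := H.hlp
        nlinarith
      have h4 : m * y ≤ m * (e * (F (ray e m y)).re) := by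
        apply mul_le_mul_of_nonneg_left _ hm.le
        nlinarith [hy.1]
      linarith
    refine ⟨Or.inr hlt, ?_⟩
    rintro (h3 | h3)
    · exact inc_arcfree H h2 hy h3
    · obtain ⟨y', -, hy'⟩ := h3
      rw [← hy'] at hlt
      have h4 : (ray e m y').im = m * (e * (ray e m y').re) := by
        show m * y' = m * (e * (e * y'))
        rw [← mul_assoc e e y', hsq, one_mul]
      rw [h4] at hlt
      exact lt_irrefl _ hlt
  have hsegB : F '' seg e m x' ⊆ B := by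
    refine hB.1.sub (inc_pre F e m x') ?_ ?_
    · rw [disjoint_left]
      rintro z ⟨w, ⟨y, hy, rfl⟩, rfl⟩
      exact (key y hy).2
    · obtain ⟨ε, hε, hεB⟩ := hB.2
      obtain ⟨t, ht0, htx, -, -, -, htF⟩ := inc_small H e m one_pos hε h2.pos
      exact ⟨F (ray e m t), ⟨_, ⟨t, ⟨ht0, htx⟩, rfl⟩, rfl⟩, hεB _ (key t ⟨ht0, htx⟩).1 htF⟩
  refine inc_fin H hD.1 hD'.1 hsegB (H.ab_disj h1 hD hB) ?_
  obtain ⟨ε, hε, hεD⟩ := hD.2
  obtain ⟨ε', hε', hεD'⟩ := hD'.2
  have hlm := H.hlm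
  obtain ⟨r, hr⟩ : ∃ r, r = min 1 lm / (2 * m * (2 + 1)) := ⟨_, rfl⟩
  have hmin : 0 < min 1 lm := lt_min one_pos hlm
  have hr0 : 0 < r := by rw [hr]; positivity
  have hr1 : m * r * (2 * (2 + 1)) = min 1 lm := by
    rw [hr]
    field_simp
  have hmr : 0 < m * r := mul_pos hm hr0
  have hr2 : m * r < 1 := by
    have h3 : min 1 lm ≤ 1 := min_le_left _ _
    linarith
  have hr3 : m * (2 * r) < lm := by
    have h3 : min 1 lm ≤ lm := min_le_right _ _
    linarith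
  obtain ⟨t, ht0, -, hb1, hb2, htn, htF⟩ := inc_small H (e * r) 1 hε' hε one_pos
  obtain ⟨z, hz⟩ : ∃ z : ℂ, z = ⟨e * r * t, 1 * t⟩ := ⟨_, rfl⟩
  have hzre : z.re = e * (r * t) := by rw [hz]; show e * r * t = _; ring
  have hzim : z.im = 1 * t := by rw [hz]
  rw [← hz] at htn htF
  have hst : 0 < r * t := mul_pos hr0 ht0
  have b1 : |z.re| < h := by rw [hz]; exact hb1
  have b2 : |z.im| < h := by rw [hz]; exact hb2
  have r1 := inc_re H he hse b1 b2 hst hzre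
  obtain ⟨i1, -⟩ := inc_im H (Or.inl rfl) b1 b2 ht0 hzim
  rw [one_mul] at i1
  refine ⟨F z, hεD _ ⟨?_, ?_⟩ htF, z, hεD' z ⟨?_, ?_⟩ htn, rfl⟩
  · rw [r1]
    linarith
  · have h3 : m * (e * (F z).re) = m * (2 * (r * t)) := by rw [r1]
    have h4 : m * (2 * (r * t)) = m * (2 * r) * t := by ring
    have h5 : m * (2 * r) * t < lm * t := mul_lt_mul_of_pos_right hr3 ht0
    linarith
  · rw [hzre, ← mul_assoc, hsq, one_mul]
    exact hst
  · rw [hzre, ← mul_assoc e e, hsq, one_mul, hzim, one_mul, ← mul_assoc]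
    nlinarith

theorem incB (H : PF F γ lam h s lm lp) {e m u x x' : ℝ} (hm : m < 0)
    (h1 : FH γ h e m u x) (h2 : FH γ h e m (u / lam) x') {D D' : Set ℂ}
    (hD : IsB γ e m u x D) (hD' : IsB γ e m (u / lam) x' D') : D ⊆ F '' D' := by
  have he := h1.he
  have hse := H.fh_s h1
  have hsq := inc_sq he
  obtain ⟨A, hA⟩ := H.isA_exists h1
  have key : ∀ y ∈ Ioo 0 x', F (ray e m y) ∈ SR e m ∧ F (ray e m y) ∉ YY γ e m u x := by
    intro y hy
    obtain ⟨b1, b2⟩ := inc_box h2 hy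
    have r1 := inc_re H he hse b1 b2 hy.1 rfl
    obtain ⟨-, i2⟩ := inc_im H (Or.inr rfl) b1 b2 (y := -m * y) (mul_pos (neg_pos.2 hm) hy.1)
      (by show m * y = _; ring)
    have hmy : m * y < 0 := mul_neg_of_neg_of_pos hm hy.1
    have hpos : 0 < e * (F (ray e m y)).re := by
      nlinarith [hy.1]
    have hlt : m * (e * (F (ray e m y)).re) < (F (ray e m y)).im := by
      have h3 : m * y < lp * (m * y) := by
        have := H.hlp
        nlinarith
      have h4 : m * (e * (F (ray e m y)).re) ≤ m * y := by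
        apply mul_le_mul_of_nonpos_left _ hm.le
        nlinarith [hy.1]
      have h5 : lp * (-m * y) = -(lp * (m * y)) := by ring
      rw [h5] at i2
      linarith
    refine ⟨⟨hpos, hlt⟩, ?_⟩
    rintro (h3 | h3)
    · exact inc_arcfree H h2 hy h3
    · obtain ⟨y', -, hy'⟩ := h3
      rw [← hy'] at hlt
      have h4 : (ray e m y').im = m * (e * (ray e m y').re) := by
        show m * y' = m * (e * (e * y'))
        rw [← mul_assoc e e y', hsq, one_mul]
      rw [h4] at hlt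
      exact lt_irrefl _ hlt
  have hsegA : F '' seg e m x' ⊆ A := by
    refine hA.1.sub (inc_pre F e m x') ?_ ?_
    · rw [disjoint_left]
      rintro z ⟨w, ⟨y, hy, rfl⟩, rfl⟩
      exact (key y hy).2
    · obtain ⟨ε, hε, hεA⟩ := hA.2
      obtain ⟨t, ht0, htx, -, -, -, htF⟩ := inc_small H e m one_pos hε h2.pos
      exact ⟨F (ray e m t), ⟨_, ⟨t, ⟨ht0, htx⟩, rfl⟩, rfl⟩, hεA _ (key t ⟨ht0, htx⟩).1 htF⟩
  refine inc_fin H hD.1 hD'.1 hsegA (H.ab_disj h1 hA hD).symm ?_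
  obtain ⟨ε, hε, hεD⟩ := hD.2
  obtain ⟨ε', hε', hεD'⟩ := hD'.2
  obtain ⟨t, ht0, -, hb1, hb2, htn, htF⟩ := inc_small H (-e) 0 hε' hε one_pos
  obtain ⟨z, hz⟩ : ∃ z : ℂ, z = ⟨-e * t, 0 * t⟩ := ⟨_, rfl⟩
  have hzre : z.re = -e * t := by rw [hz]
  rw [← hz] at htn htF
  have b1 : |z.re| < h := by rw [hz]; exact hb1
  have b2 : |z.im| < h := by rw [hz]; exact hb2
  have he' : -e = 1 ∨ -e = -1 := by
    rcases he with h3 | h3
    · right; rw [h3]
    · left; rw [h3, neg_neg]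
  have r1 := inc_neg H he' b1 b2 ht0 hzre
  refine ⟨F z, hεD _ (Or.inl ?_) htF, z, hεD' z (Or.inl ?_) htn, rfl⟩
  · have h3 : -e * (F z).re = -(e * (F z).re) := by ring
    rw [h3] at r1
    linarith
  · rw [hzre]
    have h3 : e * (-e * t) = -(e * e * t) := by ring
    rw [h3, hsq, one_mul]
    linarith

end PF

end Pool.Agent.HF
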