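import Pool.Agent.HF.AExcl

set_option autoImplicit false

/-!
HF-ANAcc. A bounded stable branch does not accumulate on its own semi-neutral point (flat form).

If it does then some open quadrant is visited arbitrarily close to the point, and by `excl1`, `excl2` a small square of
another quadrant is not visited at all. A path from this square to a far point avoids the closure of the branch, hence a
neighbourhood of the point, hence also the closed curve formed by an arc of the branch and a short segment, although it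
starts in a bounded component of the complement of this curve.
-/

namespace Pool.Agent.HF

open Set Topology Filter Pool.Agent.HE

variable {F : ℂ ≃ₜ ℂ} {γ : ℝ → ℂ} {lam h : ℝ} {s : ℝ → ℝ} {lm lp : ℝ}

private theorem sq_one {e : ℝ} (he : e = 1 ∨ e = -1) : e * e = 1 := by
  rcases he with rfl | rfl <;> norm_num

private theorem core (H : PF F γ lam h s lm lp) {e e' : ℝ} (he' : e' = 1 ∨ e' = -1)
    (hQ : ∀ s > 0, ¬ (0 < e' * (γ s).re ∧ e' * (γ s).re < h ∧ 0 < (γ s).im ∧ (γ s).im < h))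
    (hD : ∀ d > 0, ∃ m u x : ℝ, ∃ D : Set ℂ, IsCmp (YY γ e m u x) D ∧ Bornology.IsBounded D ∧
      (∃ ε > 0, ∀ z : ℂ, 0 < e' * z.re → 0 < z.im → ‖z‖ < ε → z ∈ D) ∧
      (∀ z ∈ seg e m x, ‖z‖ < d ∧ ¬ (0 < e' * z.re ∧ 0 < z.im))) : False := by
  have hh := H.hh
  have hee := sq_one he'
  set f : ℂ →ₗ[ℝ] ℝ := e' • Complex.reLm with hf
  have hfz : ∀ z : ℂ, f z = e' * z.re := fun z => by simp [hf]
  set g : ℂ →ₗ[ℝ] ℝ := Complex.imLm with hg
  have hgz : ∀ z : ℂ, g z = z.im := fun z => by simp [hg]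
  set Q : Set ℂ := f ⁻¹' Ioo 0 h ∩ g ⁻¹' Ioo 0 h with hQd
  have hQm : ∀ z : ℂ, z ∈ Q ↔ 0 < e' * z.re ∧ e' * z.re < h ∧ 0 < z.im ∧ z.im < h := by
    intro z
    rw [hQd, mem_inter_iff, mem_preimage, mem_preimage, hfz, hgz, mem_Ioo, mem_Ioo, and_assoc]
  have hQc : Convex ℝ Q :=
    ((convex_Ioo 0 h).linear_preimage f).inter ((convex_Ioo 0 h).linear_preimage g)
  have hQo : IsOpen Q := by
    have : Q = {z : ℂ | 0 < e' * z.re ∧ e' * z.re < h ∧ 0 < z.im ∧ z.im < h} := by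
      ext z
      exact hQm z
    rw [this]
    refine (isOpen_lt continuous_const (continuous_const.mul Complex.continuous_re)).inter
      ((isOpen_lt (continuous_const.mul Complex.continuous_re) continuous_const).inter
      ((isOpen_lt continuous_const Complex.continuous_im).inter
        (isOpen_lt Complex.continuous_im continuous_const)))
  have hQX : Disjoint Q (XX γ) := by
    refine Disjoint.closure_right ?_ hQo
    rw [disjoint_left]
    rintro z hz ⟨s, hs, rfl⟩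
    exact hQ s hs ((hQm _).1 hz)
  set l : ℂ := ⟨e' * (h / 2), h / 2⟩ with hl
  have hlQ : l ∈ Q := by
    rw [hQm]
    have h1 : e' * l.re = h / 2 := by
      change e' * (e' * (h / 2)) = h / 2
      rw [← mul_assoc, hee, one_mul]
    have h2 : l.im = h / 2 := rfl
    rw [h1, h2]
    exact ⟨by linarith, by linarith, by linarith, by linarith⟩
  have hlX : l ∉ XX γ := fun hx => disjoint_left.1 hQX hlQ hx
  obtain ⟨R0, hR0⟩ := H.xx_compact.isBounded.exists_norm_le
  set R : ℝ := max R0 h with hR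
  have hR0' : 0 ≤ R := hh.le.trans (le_max_right _ _)
  obtain ⟨P, hPk, hPp, hPX, hlP, w, hwP, hwR⟩ := exists_path H.xx_compact H.xx_nonsep hlX R
  have h0X : (0 : ℂ) ∈ XX γ := H.sub_xx 0 ⟨0, ⟨le_rfl, le_rfl⟩, H.g0⟩
  have h0P : (0 : ℂ) ∉ P := fun hx => disjoint_left.1 hPX hx h0X
  obtain ⟨d, hd, hdP⟩ := Metric.isOpen_iff.1 hPk.isClosed.isOpen_compl 0 h0P
  obtain ⟨m, u, x, D, hDc, hDb, ⟨ε, hε, hDε⟩, hseg⟩ := hD (min d h) (lt_min hd hh)
  have hYX : γ '' Icc 0 u ⊆ XX γ := H.sub_xx u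
  have hQY : Disjoint Q (YY γ e m u x) := by
    rw [disjoint_left]
    rintro z hz (hzY | hzY)
    · exact disjoint_left.1 hQX hz (hYX hzY)
    · have h1 := (hQm z).1 hz
      exact (hseg z hzY).2 ⟨h1.1, h1.2.2.1⟩
  have hQD : (Q ∩ D).Nonempty := by
    set a : ℝ := min (h / 2) (ε / 4) with ha
    have ha0 : 0 < a := lt_min (by linarith) (by linarith)
    have ha1 : a ≤ h / 2 := min_le_left _ _
    have ha2 : a ≤ ε / 4 := min_le_right _ _
    have h1 : e' * (e' * a) = a := by rw [← mul_assoc, hee, one_mul]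
    refine ⟨⟨e' * a, a⟩, (hQm _).2 ⟨?_, ?_, ha0, ?_⟩, hDε _ ?_ ha0 ?_⟩
    · change 0 < e' * (e' * a)
      rw [h1]
      exact ha0
    · change e' * (e' * a) < h
      rw [h1]
      linarith
    · change a < h
      linarith
    · change 0 < e' * (e' * a)
      rw [h1]
      exact ha0
    · refine (Complex.norm_le_abs_re_add_abs_im _).trans_lt ?_
      change |e' * a| + |a| < ε
      have h2 : |e'| = 1 := by rcases he' with rfl | rfl <;> simp
      rw [abs_mul, h2, one_mul, abs_of_pos ha0]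
      linarith
  have hQsub : Q ⊆ D := hDc.sub hQc.isPreconnected hQY hQD
  have hPY : Disjoint P (YY γ e m u x) := by
    rw [disjoint_left]
    rintro z hz (hzY | hzY)
    · exact disjoint_left.1 hPX hz (hYX hzY)
    · refine hdP ?_ hz
      rw [Metric.mem_ball, dist_zero_right]
      exact (hseg z hzY).1.trans_le (min_le_left _ _)
  have hPD : P ⊆ D := hDc.sub hPp hPY ⟨l, hlP, hQsub hlQ⟩
  have hYR : ∀ z ∈ YY γ e m u x, ‖z‖ ≤ R := by
    rintro z (hz | hz)
    · exact (hR0 z (hYX hz)).trans (le_max_left _ _)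
    · exact ((hseg z hz).1.le.trans (min_le_right _ _)).trans (le_max_right _ _)
  obtain ⟨a, ha, rfl⟩ := hDc
  exact absurd (cmp_sub_ball hR0' hYR hDb w (hPD hwP)) (not_le.2 hwR)

private theorem to_ray {e : ℝ} (he : e = 1 ∨ e = -1) {z : ℂ} (hz : 0 < e * z.re) :
    ray e (z.im / (e * z.re)) (e * z.re) = z := by
  apply Complex.ext
  · change e * (e * z.re) = z.re
    rw [← mul_assoc, sq_one he, one_mul]
  · change z.im / (e * z.re) * (e * z.re) = z.im
    exact div_mul_cancel₀ _ hz.ne'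

private theorem fh_of (H : PF F γ lam h s lm lp) {e t u : ℝ} (he : e = 1 ∨ e = -1)
    (ht : 0 ≤ t) (htu : t ≤ u) (h1 : 0 < e * (γ t).re) (h2 : e * (γ t).re < h)
    (h3 : |(γ t).im| < h) (h4 : (γ t).im ≠ 0) :
    ∃ x, x ≤ e * (γ t).re ∧ FH γ h e ((γ t).im / (e * (γ t).re)) u x := by
  refine H.fh_exists he (div_ne_zero h4 h1.ne') (ht.trans htu) h1 h2 ?_ ?_
  · rw [abs_div, abs_of_pos h1, div_mul_cancel₀ _ h1.ne']
    exact h3
  · rw [to_ray he h1]
    exact ⟨t, ⟨ht, htu⟩, rfl⟩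

private theorem re_lt {e : ℝ} (he : e = 1 ∨ e = -1) {z : ℂ} {a : ℝ} (hz : ‖z‖ < a) :
    e * z.re < a := by
  have h1 : |e| = 1 := by rcases he with rfl | rfl <;> simp
  calc e * z.re ≤ |e * z.re| := le_abs_self _
    _ = |z.re| := by rw [abs_mul, h1, one_mul]
    _ ≤ ‖z‖ := Complex.abs_re_le_norm z
    _ < a := hz

private theorem seg_norm {e m x y0 d : ℝ} (hy0 : 0 < y0) (hx : x ≤ y0) (hd : ‖ray e m y0‖ < d) :
    ∀ z ∈ seg e m x, ‖z‖ < d := by
  rintro z ⟨y, hy, rfl⟩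
  have h1 : ray e m y = ((y / y0 : ℝ) : ℂ) * ray e m y0 := by
    apply Complex.ext
    · rw [Complex.re_ofReal_mul]
      change e * y = y / y0 * (e * y0)
      field_simp
    · rw [Complex.im_ofReal_mul]
      change m * y = y / y0 * (m * y0)
      field_simp
  have h2 : 0 ≤ y / y0 := div_nonneg hy.1.le hy0.le
  have h3 : y / y0 ≤ 1 := (div_le_one hy0).2 (hy.2.le.trans hx)
  rw [h1, norm_mul, Complex.norm_real, Real.norm_of_nonneg h2]
  exact (mul_le_of_le_one_left (norm_nonneg _) h3).trans_lt hd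

/-- two components, one of them unbounded: the other one is bounded -/
private theorem other_bdd (H : PF F γ lam h s lm lp) {e m u x : ℝ} (h1 : FH γ h e m u x)
    {D D' : Set ℂ} (hD : IsCmp (YY γ e m u x) D) (hD' : IsCmp (YY γ e m u x) D')
    (hu : ¬ Bornology.IsBounded D) (hdis : Disjoint D D') : Bornology.IsBounded D' := by
  by_contra hcon
  obtain ⟨R, hR⟩ := (H.yy_compact h1).isBounded.exists_norm_le
  obtain ⟨a, ha, rfl⟩ := hD
  obtain ⟨b, hb, rfl⟩ := hD'
  have h2 := unb_eq (R := max R 0) (le_max_right _ _)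
    (fun z hz => (hR z hz).trans (le_max_left _ _)) hu hcon
  rw [h2] at hdis
  exact disjoint_left.1 hdis (mem_cmp hb) (mem_cmp hb)

private theorem case_pos (H : PF F γ lam h s lm lp) {e : ℝ} (he : e = 1 ∨ e = -1)
    (hV : ∀ δ > 0, ∃ t > 0, ‖γ t‖ < δ ∧ 0 < e * (γ t).re ∧ 0 < (γ t).im) : False := by
  have he' : -e = 1 ∨ -e = -1 := by rcases he with rfl | rfl <;> simp
  refine core H (e := e) (e' := -e) he' ?_ ?_
  · rintro s hs ⟨s1, s2, s3, s4⟩
    obtain ⟨t, ht, t1, t2, t3⟩ := hV h H.hh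
    obtain ⟨x1, -, f1⟩ := fh_of H (u := max s t) he ht.le (le_max_right _ _) t2 (re_lt he t1)
      ((Complex.abs_im_le_norm _).trans_lt t1) t3.ne'
    obtain ⟨x2, -, f2⟩ := fh_of H (u := max s t) he' hs.le (le_max_left _ _) s1 s2
      (by rw [abs_of_pos s3]; exact s4) s3.ne'
    exact H.excl1 (div_pos t3 t2) (div_pos s3 s1) f1 f2
  · intro d hd
    obtain ⟨t, ht, t1, t2, t3⟩ := hV (min d h) (lt_min hd H.hh)
    have t1h : ‖γ t‖ < h := t1.trans_le (min_le_right _ _)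
    have t1d : ‖γ t‖ < d := t1.trans_le (min_le_left _ _)
    set m : ℝ := (γ t).im / (e * (γ t).re) with hm
    have hm0 : 0 < m := div_pos t3 t2
    obtain ⟨x0, -, f0⟩ := fh_of H (u := t) he ht.le le_rfl t2 (re_lt he t1h)
      ((Complex.abs_im_le_norm _).trans_lt t1h) t3.ne'
    obtain ⟨k, hk⟩ := H.unbA hm0 f0
    have hlam : 0 < lam ^ k := pow_pos H.lam0 k
    have htu : t ≤ t / lam ^ k := by
      rw [le_div_iff₀ hlam]
      exact mul_le_of_le_one_right ht.le (pow_le_one₀ H.lam0.le H.lam1.le)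
    obtain ⟨x, hx, f⟩ := fh_of H (u := t / lam ^ k) he ht.le htu t2 (re_lt he t1h)
      ((Complex.abs_im_le_norm _).trans_lt t1h) t3.ne'
    obtain ⟨A, hA⟩ := H.isA_exists f
    obtain ⟨B, hB⟩ := H.isB_exists f
    have hAu := hk k le_rfl x A f hA
    have hBb := other_bdd H f hA.1 hB.1 hAu (H.ab_disj f hA hB)
    refine ⟨m, t / lam ^ k, x, B, hB.1, hBb, ?_, ?_⟩
    · obtain ⟨ε, hε, h5⟩ := hB.2
      refine ⟨ε, hε, fun z z1 _ z3 => h5 z (Or.inl ?_) z3⟩
      linarith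
    · intro z hz
      refine ⟨seg_norm t2 hx (by rw [hm, to_ray he t2]; exact t1d) z hz, ?_⟩
      rintro ⟨z1, -⟩
      obtain ⟨y, hy, rfl⟩ := hz
      have z1' : 0 < -e * (e * y) := z1
      have : -e * (e * y) = -y := by
        rw [neg_mul, ← mul_assoc, sq_one he, one_mul]
      rw [this] at z1'
      have := hy.1
      linarith

private theorem case_neg (H : PF F γ lam h s lm lp) {e : ℝ} (he : e = 1 ∨ e = -1)
    (hV : ∀ δ > 0, ∃ t > 0, ‖γ t‖ < δ ∧ 0 < e * (γ t).re ∧ (γ t).im < 0) : False := by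
  refine core H (e := e) (e' := e) he ?_ ?_
  · rintro s hs ⟨s1, s2, s3, s4⟩
    obtain ⟨t, ht, t1, t2, t3⟩ := hV h H.hh
    obtain ⟨x1, -, f1⟩ := fh_of H (u := max s t) he ht.le (le_max_right _ _) t2 (re_lt he t1)
      ((Complex.abs_im_le_norm _).trans_lt t1) t3.ne
    obtain ⟨x2, -, f2⟩ := fh_of H (u := max s t) he hs.le (le_max_left _ _) s1 s2
      (by rw [abs_of_pos s3]; exact s4) s3.ne'
    exact H.excl2 (div_pos s3 s1) (div_neg_of_neg_of_pos t3 t2) f2 f1
  · intro d hd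
    obtain ⟨t, ht, t1, t2, t3⟩ := hV (min d h) (lt_min hd H.hh)
    have t1h : ‖γ t‖ < h := t1.trans_le (min_le_right _ _)
    have t1d : ‖γ t‖ < d := t1.trans_le (min_le_left _ _)
    set m : ℝ := (γ t).im / (e * (γ t).re) with hm
    have hm0 : m < 0 := div_neg_of_neg_of_pos t3 t2
    obtain ⟨x0, -, f0⟩ := fh_of H (u := t) he ht.le le_rfl t2 (re_lt he t1h)
      ((Complex.abs_im_le_norm _).trans_lt t1h) t3.ne
    obtain ⟨k, hk⟩ := H.unbB hm0 f0
    have hlam : 0 < lam ^ k := pow_pos H.lam0 k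
    have htu : t ≤ t / lam ^ k := by
      rw [le_div_iff₀ hlam]
      exact mul_le_of_le_one_right ht.le (pow_le_one₀ H.lam0.le H.lam1.le)
    obtain ⟨x, hx, f⟩ := fh_of H (u := t / lam ^ k) he ht.le htu t2 (re_lt he t1h)
      ((Complex.abs_im_le_norm _).trans_lt t1h) t3.ne
    obtain ⟨A, hA⟩ := H.isA_exists f
    obtain ⟨B, hB⟩ := H.isB_exists f
    have hBu := hk k le_rfl x B f hB
    have hAb := other_bdd H f hB.1 hA.1 hBu (H.ab_disj f hA hB).symm
    refine ⟨m, t / lam ^ k, x, A, hA.1, hAb, ?_, ?_⟩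
    · obtain ⟨ε, hε, h5⟩ := hA.2
      refine ⟨ε, hε, fun z z1 z2 z3 => h5 z ⟨z1, ?_⟩ z3⟩
      exact (mul_neg_of_neg_of_pos hm0 z1).trans z2
    · intro z hz
      refine ⟨seg_norm t2 hx (by rw [hm, to_ray he t2]; exact t1d) z hz, ?_⟩
      rintro ⟨-, z2⟩
      obtain ⟨y, hy, rfl⟩ := hz
      have z2' : 0 < m * y := z2
      have := mul_neg_of_neg_of_pos hm0 hy.1
      linarith

theorem PF.nacc (H : PF F γ lam h s lm lp) : (0 : ℂ) ∉ AA γ := by
  intro hmem
  set L : Filter ℝ := atTop ⊓ comap γ (𝓝 0) with hL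
  have hLne : L.NeBot := by
    rw [hL, inf_neBot_iff]
    intro S hS S' hS'
    obtain ⟨T, hT⟩ := mem_atTop_sets.1 hS
    obtain ⟨U, hU, hUS⟩ := mem_comap.1 hS'
    have h1 : (0 : ℂ) ∈ closure (γ '' Ici T) := mem_iInter.1 hmem T
    obtain ⟨z, hzU, t, ht, rfl⟩ := mem_closure_iff_nhds.1 h1 U hU
    exact ⟨t, hT t ht, hUS hzU⟩
  have evT : ∀ T : ℝ, ∀ᶠ t in L, T < t := fun T =>
    (eventually_gt_atTop T).filter_mono inf_le_left
  have evd : ∀ δ > 0, ∀ᶠ t in L, ‖γ t‖ < δ := by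
    intro δ hδ
    have h1 : ∀ᶠ z : ℂ in 𝓝 0, ‖z‖ < δ := by
      filter_upwards [Metric.ball_mem_nhds (0 : ℂ) hδ] with z hz
      simpa using hz
    exact (h1.comap γ).filter_mono inf_le_right
  obtain ⟨t1, η, hη, hax⟩ := H.axis
  have hne : ∀ᶠ t in L, (γ t).re ≠ 0 ∧ (γ t).im ≠ 0 := by
    filter_upwards [evT 0, evT t1, evd η hη, evd h H.hh] with t a1 a2 a3 a4
    refine ⟨fun hre => ?_, H.uax a1 ((Complex.abs_re_le_norm _).trans_lt a4)
      ((Complex.abs_im_le_norm _).trans_lt a4)⟩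
    exact absurd (hax t a1 hre ((Complex.abs_im_le_norm _).trans_lt a3)) (not_le.2 a2)
  have hor : ∀ᶠ t in L, ((0 < 1 * (γ t).re ∧ 0 < (γ t).im) ∨ (0 < 1 * (γ t).re ∧ (γ t).im < 0)) ∨
      ((0 < -1 * (γ t).re ∧ 0 < (γ t).im) ∨ (0 < -1 * (γ t).re ∧ (γ t).im < 0)) := by
    filter_upwards [hne] with t ht
    rcases lt_or_gt_of_ne ht.1 with h1 | h1 <;> rcases lt_or_gt_of_ne ht.2 with h2 | h2
    · exact Or.inr (Or.inr ⟨by linarith, h2⟩)
    · exact Or.inr (Or.inl ⟨by linarith, h2⟩)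
    · exact Or.inl (Or.inr ⟨by linarith, h2⟩)
    · exact Or.inl (Or.inl ⟨by linarith, h2⟩)
  have hex : ∀ {p : ℝ → Prop}, (∃ᶠ t in L, p t) → ∀ δ > 0, ∃ t > 0, ‖γ t‖ < δ ∧ p t := by
    intro p hp δ hδ
    obtain ⟨t, h1, h2, h3⟩ := (hp.and_eventually ((evT 0).and (evd δ hδ))).exists
    exact ⟨t, h2, h3, h1⟩
  have hfr := hor.frequently
  rw [frequently_or_distrib, frequently_or_distrib, frequently_or_distrib] at hfr
  rcases hfr with (h1 | h1) | (h1 | h1)
  · exact case_pos H (Or.inl rfl) (hex h1)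
  · exact case_neg H (Or.inl rfl) (hex h1)
  · exact case_pos H (Or.inr rfl) (hex h1)
  · exact case_neg H (Or.inr rfl) (hex h1)

end Pool.Agent.HF
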