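import Pool.Agent.HF.AFlatB

set_option autoImplicit false

/-!
HF-ARays. First hits of rays and the two sectors at a semi-neutral point (as in HE/Rays.lean).
-/

namespace Pool.Agent.HF

open Set Topology Filter Pool.Agent.HE

variable {F : ℂ ≃ₜ ℂ} {γ : ℝ → ℂ} {lam h : ℝ} {s : ℝ → ℝ} {lm lp : ℝ}

namespace PF

private lemma ray_cont (e m : ℝ) : Continuous (ray e m) := by
  have h1 : ray e m = fun y : ℝ => ((e * y : ℝ) : ℂ) + ((m * y : ℝ) : ℂ) * Complex.I := by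
    funext y
    apply Complex.ext <;> simp [ray]
  rw [h1]
  exact (Complex.continuous_ofReal.comp (continuous_const.mul continuous_id)).add
    ((Complex.continuous_ofReal.comp (continuous_const.mul continuous_id)).mul continuous_const)

private lemma abs_e {e : ℝ} (he : e = 1 ∨ e = -1) : |e| = 1 := by
  rcases he with rfl | rfl <;> simp

private lemma ee {e : ℝ} (he : e = 1 ∨ e = -1) : e * e = 1 := by
  rcases he with rfl | rfl <;> norm_num

private lemma norm_mk_le (a b : ℝ) : ‖(⟨a, b⟩ : ℂ)‖ ≤ |a| + |b| := by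
  have := Complex.norm_le_abs_re_add_abs_im (⟨a, b⟩ : ℂ)
  simpa using this

private lemma norm_ray_le {e m y : ℝ} (he : e = 1 ∨ e = -1) (hy : 0 ≤ y) :
    ‖ray e m y‖ ≤ (1 + |m|) * y := by
  refine (norm_mk_le _ _).trans (le_of_eq ?_)
  rw [abs_mul, abs_mul, abs_e he, abs_of_nonneg hy]
  ring

theorem fh_exists (H : PF F γ lam h s lm lp) {e m u y0 : ℝ} (he : e = 1 ∨ e = -1)
    (hm : m ≠ 0) (hu : 0 ≤ u) (h0 : 0 < y0) (h1 : y0 < h) (h2 : |m| * y0 < h)
    (hmem : ray e m y0 ∈ γ '' Icc 0 u) : ∃ x, x ≤ y0 ∧ FH γ h e m u x := by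
  obtain ⟨ε, hε, hn⟩ := H.near0 u
  have hm1 : 0 < 1 + |m| := by positivity
  have hy1 : 0 < ε / (1 + |m|) := div_pos hε hm1
  have key : ∀ y, 0 < y → y < ε / (1 + |m|) → ray e m y ∉ γ '' Icc 0 u := by
    intro y hy hy2 hmem2
    have h3 : ‖ray e m y‖ < ε := by
      refine (norm_ray_le he hy.le).trans_lt ?_
      rw [lt_div_iff₀ hm1] at hy2
      linarith
    have h4 := (hn _ hmem2 h3).1
    have h5 : e * y = 0 := h4
    have h6 : e ≠ 0 := by rcases he with rfl | rfl <;> norm_num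
    rcases mul_eq_zero.1 h5 with h7 | h7
    · exact h6 h7
    · exact hy.ne' h7
  have hclosed : IsClosed (γ '' Icc 0 u) := (isCompact_Icc.image H.cont).isClosed
  set K : Set ℝ := Icc (min (ε / (1 + |m|)) y0) y0 ∩ (ray e m ⁻¹' (γ '' Icc 0 u)) with hK
  have hKc : IsCompact K := isCompact_Icc.inter_right (hclosed.preimage (ray_cont e m))
  have hKne : K.Nonempty := ⟨y0, ⟨min_le_right _ _, le_rfl⟩, hmem⟩
  obtain ⟨x, hxK, hxmin⟩ := hKc.exists_isLeast hKne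
  have hx0 : 0 < x := lt_of_lt_of_le (lt_min hy1 h0) hxK.1.1
  refine ⟨x, hxK.1.2, ⟨he, hm, hu, hx0, hxK.1.2.trans_lt h1, ?_, hxK.2, ?_⟩⟩
  · exact (mul_le_mul_of_nonneg_left hxK.1.2 (abs_nonneg m)).trans_lt h2
  · intro y hy hymem
    have h3 : ε / (1 + |m|) ≤ y := by
      by_contra hlt
      exact key y hy.1 (not_le.1 hlt) hymem
    have h4 : y ∈ K := ⟨⟨(min_le_left _ _).trans h3, hy.2.le.trans hxK.1.2⟩, hymem⟩
    exact absurd (hxmin h4) (not_le.2 hy.2)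

theorem yy_compact (H : PF F γ lam h s lm lp) {e m u x : ℝ} (h1 : FH γ h e m u x) :
    IsCompact (YY γ e m u x) := by
  have h2 : YY γ e m u x = γ '' Icc 0 u ∪ ray e m '' Icc 0 x := by
    apply Set.Subset.antisymm
    · exact union_subset_union_right _ (image_mono Ioo_subset_Icc_self)
    · rintro z (hz | ⟨y, hy, rfl⟩)
      · exact Or.inl hz
      · rcases eq_or_lt_of_le hy.1 with h3 | h3
        · left
          refine ⟨0, ⟨le_rfl, h1.hu⟩, ?_⟩
          rw [H.g0, ← h3]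
          simp [ray, Complex.ext_iff]
        · rcases eq_or_lt_of_le hy.2 with h4 | h4
          · left
            rw [h4]
            exact h1.mem
          · right
            exact ⟨y, ⟨h3, h4⟩, rfl⟩
  rw [h2]
  exact (isCompact_Icc.image H.cont).union (isCompact_Icc.image (ray_cont e m))

private lemma sr_seg {e m x : ℝ} (he : e = 1 ∨ e = -1) {z : ℂ} (hz : z ∈ SR e m) :
    z ∉ seg e m x := by
  rintro ⟨y, hy, rfl⟩
  have h1 : m * (e * (ray e m y).re) < (ray e m y).im := hz.2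
  have h2 : e * (ray e m y).re = y := by
    change e * (e * y) = y
    rw [← mul_assoc, ee he, one_mul]
  rw [h2] at h1
  exact lt_irrefl _ h1

private lemma sl_seg {e m x : ℝ} (he : e = 1 ∨ e = -1) {z : ℂ} (hz : z ∈ SL e m) :
    z ∉ seg e m x := by
  rintro ⟨y, hy, rfl⟩
  have h2 : e * (ray e m y).re = y := by
    change e * (e * y) = y
    rw [← mul_assoc, ee he, one_mul]
  rcases hz with h1 | h1
  · rw [h2] at h1
    exact absurd h1 (not_lt.2 hy.1.le)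
  · rw [h2] at h1
    exact lt_irrefl _ h1

theorem sr_free (H : PF F γ lam h s lm lp) {e m u x : ℝ} (h1 : FH γ h e m u x) :
    ∃ ε > 0, ∀ z ∈ SR e m, ‖z‖ < ε → z ∉ YY γ e m u x := by
  obtain ⟨ε, hε, hn⟩ := H.near0 u
  refine ⟨ε, hε, fun z hz hzε hzY => ?_⟩
  rcases hzY with h2 | h2
  · have h3 := (hn z h2 hzε).1
    have h4 : 0 < e * z.re := hz.1
    rw [h3, mul_zero] at h4
    exact lt_irrefl _ h4
  · exact sr_seg h1.he hz h2

theorem sl_free (H : PF F γ lam h s lm lp) {e m u x : ℝ} (h1 : FH γ h e m u x) :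
    ∃ ε > 0, ∀ z ∈ SL e m, ‖z‖ < ε → z ∉ YY γ e m u x := by
  obtain ⟨ε, hε, hn⟩ := H.near0 u
  refine ⟨ε, hε, fun z hz hzε hzY => ?_⟩
  rcases hzY with h2 | h2
  · obtain ⟨h3, h5⟩ := hn z h2 hzε
    rcases hz with h4 | h4
    · rw [h3, mul_zero] at h4
      exact lt_irrefl _ h4
    · rw [h3, mul_zero, mul_zero] at h4
      exact absurd h4 (not_lt.2 h5)
  · exact sl_seg h1.he hz h2

private lemma conv_pos {a b p q : ℝ} (ha : 0 ≤ a) (hb : 0 ≤ b) (hab : a + b = 1) (hp : 0 < p)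
    (hq : 0 < q) : 0 < a * p + b * q := by
  rcases eq_or_lt_of_le ha with h1 | h1
  · have h2 : b = 1 := by linarith
    rw [← h1, h2]
    linarith
  · have := mul_pos h1 hp
    have := mul_nonneg hb hq.le
    linarith

private lemma convex_sr (e m : ℝ) : Convex ℝ (SR e m) := by
  intro z1 h1 z2 h2 a b ha hb hab
  have e1 : (a • z1 + b • z2).re = a * z1.re + b * z2.re := by simp
  have e2 : (a • z1 + b • z2).im = a * z1.im + b * z2.im := by simp
  have p1 : 0 < e * z1.re := h1.1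
  have p2 : 0 < e * z2.re := h2.1
  have q1 : m * (e * z1.re) < z1.im := h1.2
  have q2 : m * (e * z2.re) < z2.im := h2.2
  refine ⟨?_, ?_⟩
  · rw [e1]
    have := conv_pos ha hb hab p1 p2
    nlinarith
  · rw [e1, e2]
    have := conv_pos ha hb hab (sub_pos.2 q1) (sub_pos.2 q2)
    nlinarith

private lemma convex_sl1 (e : ℝ) : Convex ℝ {z : ℂ | e * z.re < 0} := by
  intro z1 h1 z2 h2 a b ha hb hab
  have e1 : (a • z1 + b • z2).re = a * z1.re + b * z2.re := by simp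
  have p1 : e * z1.re < 0 := h1
  have p2 : e * z2.re < 0 := h2
  change e * (a • z1 + b • z2).re < 0
  rw [e1]
  have := conv_pos ha hb hab (neg_pos.2 p1) (neg_pos.2 p2)
  nlinarith

private lemma convex_sl2 (e m : ℝ) : Convex ℝ {z : ℂ | z.im < m * (e * z.re)} := by
  intro z1 h1 z2 h2 a b ha hb hab
  have e1 : (a • z1 + b • z2).re = a * z1.re + b * z2.re := by simp
  have e2 : (a • z1 + b • z2).im = a * z1.im + b * z2.im := by simp
  have q1 : z1.im < m * (e * z1.re) := h1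
  have q2 : z2.im < m * (e * z2.re) := h2
  change (a • z1 + b • z2).im < m * (e * (a • z1 + b • z2).re)
  rw [e1, e2]
  have := conv_pos ha hb hab (sub_pos.2 q1) (sub_pos.2 q2)
  nlinarith

private lemma sr_pt {e m : ℝ} (he : e = 1 ∨ e = -1) {ε : ℝ} (hε : 0 < ε) :
    ∃ z ∈ SR e m, ‖z‖ < ε := by
  have hm2 : 0 < |m| + 2 := by positivity
  have hδ : 0 < ε / (2 * (|m| + 2)) := by positivity
  refine ⟨⟨e * (ε / (2 * (|m| + 2))), (|m| + 1) * (ε / (2 * (|m| + 2)))⟩, ⟨?_, ?_⟩, ?_⟩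
  · change 0 < e * (e * (ε / (2 * (|m| + 2))))
    rw [← mul_assoc, ee he, one_mul]
    exact hδ
  · change m * (e * (e * (ε / (2 * (|m| + 2))))) < (|m| + 1) * (ε / (2 * (|m| + 2)))
    rw [← mul_assoc e, ee he, one_mul]
    refine mul_lt_mul_of_pos_right ?_ hδ
    have := le_abs_self m
    linarith
  · refine (norm_mk_le _ _).trans_lt ?_
    rw [abs_mul, abs_mul, abs_e he, abs_of_pos hδ, abs_of_nonneg (by positivity : 0 ≤ |m| + 1)]
    have h3 : 1 * (ε / (2 * (|m| + 2))) + (|m| + 1) * (ε / (2 * (|m| + 2))) = ε / 2 := by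
      field_simp
      ring
    rw [h3]
    linarith

private lemma sl_pt {e m : ℝ} (he : e = 1 ∨ e = -1) {ε : ℝ} (hε : 0 < ε) :
    ∃ z : ℂ, e * z.re < 0 ∧ z.im < m * (e * z.re) ∧ ‖z‖ < ε := by
  have hm2 : 0 < |m| + 2 := by positivity
  have hδ : 0 < ε / (2 * (|m| + 2)) := by positivity
  refine ⟨⟨-(e * (ε / (2 * (|m| + 2)))), -((|m| + 1) * (ε / (2 * (|m| + 2))))⟩, ?_, ?_, ?_⟩
  · change e * (-(e * (ε / (2 * (|m| + 2))))) < 0
    rw [mul_neg, ← mul_assoc, ee he, one_mul]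
    linarith
  · change -((|m| + 1) * (ε / (2 * (|m| + 2)))) < m * (e * (-(e * (ε / (2 * (|m| + 2))))))
    rw [mul_neg, ← mul_assoc e, ee he, one_mul]
    have h1 : m < |m| + 1 := by
      have := le_abs_self m
      linarith
    have h2 := mul_lt_mul_of_pos_right h1 hδ
    linarith
  · refine (norm_mk_le _ _).trans_lt ?_
    rw [abs_neg, abs_neg, abs_mul, abs_mul, abs_e he, abs_of_pos hδ,
      abs_of_nonneg (by positivity : 0 ≤ |m| + 1)]
    have h3 : 1 * (ε / (2 * (|m| + 2))) + (|m| + 1) * (ε / (2 * (|m| + 2))) = ε / 2 := by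
      field_simp
      ring
    rw [h3]
    linarith

private lemma pre_sr (e m ε : ℝ) : IsPreconnected (SR e m ∩ Metric.ball 0 ε) :=
  ((convex_sr e m).inter (convex_ball 0 ε)).isPreconnected

private lemma pre_sl {e m ε : ℝ} (he : e = 1 ∨ e = -1) (hε : 0 < ε) :
    IsPreconnected (SL e m ∩ Metric.ball 0 ε) := by
  have h1 : SL e m ∩ Metric.ball (0 : ℂ) ε = ({z : ℂ | e * z.re < 0} ∩ Metric.ball 0 ε) ∪
      ({z : ℂ | z.im < m * (e * z.re)} ∩ Metric.ball 0 ε) := by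
    rw [← union_inter_distrib_right]
    rfl
  rw [h1]
  obtain ⟨z, hz1, hz2, hz3⟩ := sl_pt (m := m) he hε
  have hz4 : z ∈ Metric.ball (0 : ℂ) ε := by rwa [mem_ball_zero_iff]
  exact IsPreconnected.union z ⟨hz1, hz4⟩ ⟨hz2, hz4⟩
    ((convex_sl1 e).inter (convex_ball 0 ε)).isPreconnected
    ((convex_sl2 e m).inter (convex_ball 0 ε)).isPreconnected

theorem isA_exists (H : PF F γ lam h s lm lp) {e m u x : ℝ} (h1 : FH γ h e m u x) :
    ∃ D, IsA γ e m u x D := by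
  obtain ⟨ε, hε, hf⟩ := sr_free H h1
  obtain ⟨z, hz, hzε⟩ := sr_pt (m := m) h1.he hε
  have hzY := hf z hz hzε
  refine ⟨Cmp (YY γ e m u x) z, isCmp_cmp hzY, ε, hε, fun w hw hwε => ?_⟩
  have hsub : SR e m ∩ Metric.ball 0 ε ⊆ Cmp (YY γ e m u x) z := by
    refine (isCmp_cmp hzY).sub (pre_sr e m ε) ?_ ⟨z, ⟨hz, by rwa [mem_ball_zero_iff]⟩, mem_cmp hzY⟩
    rw [disjoint_left]
    rintro w ⟨hw1, hw2⟩ hw3
    rw [mem_ball_zero_iff] at hw2
    exact hf w hw1 hw2 hw3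
  exact hsub ⟨hw, by rwa [mem_ball_zero_iff]⟩

theorem isB_exists (H : PF F γ lam h s lm lp) {e m u x : ℝ} (h1 : FH γ h e m u x) :
    ∃ D, IsB γ e m u x D := by
  obtain ⟨ε, hε, hf⟩ := sl_free H h1
  obtain ⟨z, hz1, hz2, hzε⟩ := sl_pt (m := m) h1.he hε
  have hz : z ∈ SL e m := Or.inl hz1
  have hzY := hf z hz hzε
  refine ⟨Cmp (YY γ e m u x) z, isCmp_cmp hzY, ε, hε, fun w hw hwε => ?_⟩
  have hsub : SL e m ∩ Metric.ball 0 ε ⊆ Cmp (YY γ e m u x) z := by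
    refine (isCmp_cmp hzY).sub (pre_sl h1.he hε) ?_
      ⟨z, ⟨hz, by rwa [mem_ball_zero_iff]⟩, mem_cmp hzY⟩
    rw [disjoint_left]
    rintro w ⟨hw1, hw2⟩ hw3
    rw [mem_ball_zero_iff] at hw2
    exact hf w hw1 hw2 hw3
  exact hsub ⟨hw, by rwa [mem_ball_zero_iff]⟩

theorem isA_of_meets (H : PF F γ lam h s lm lp) {e m u x : ℝ} (h1 : FH γ h e m u x)
    {D : Set ℂ} (hD : IsCmp (YY γ e m u x) D) (h2 : ∀ ε > 0, ∃ z ∈ SR e m, ‖z‖ < ε ∧ z ∈ D) :
    IsA γ e m u x D := by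
  obtain ⟨ε, hε, hf⟩ := sr_free H h1
  obtain ⟨z, hz, hzε, hzD⟩ := h2 ε hε
  refine ⟨hD, ε, hε, fun w hw hwε => ?_⟩
  have hsub : SR e m ∩ Metric.ball 0 ε ⊆ D := by
    refine hD.sub (pre_sr e m ε) ?_ ⟨z, ⟨hz, by rwa [mem_ball_zero_iff]⟩, hzD⟩
    rw [disjoint_left]
    rintro w ⟨hw1, hw2⟩ hw3
    rw [mem_ball_zero_iff] at hw2
    exact hf w hw1 hw2 hw3
  exact hsub ⟨hw, by rwa [mem_ball_zero_iff]⟩

theorem isB_of_meets (H : PF F γ lam h s lm lp) {e m u x : ℝ} (h1 : FH γ h e m u x)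
    {D : Set ℂ} (hD : IsCmp (YY γ e m u x) D) (h2 : ∀ ε > 0, ∃ z ∈ SL e m, ‖z‖ < ε ∧ z ∈ D) :
    IsB γ e m u x D := by
  obtain ⟨ε, hε, hf⟩ := sl_free H h1
  obtain ⟨z, hz, hzε, hzD⟩ := h2 ε hε
  refine ⟨hD, ε, hε, fun w hw hwε => ?_⟩
  have hsub : SL e m ∩ Metric.ball 0 ε ⊆ D := by
    refine hD.sub (pre_sl h1.he hε) ?_ ⟨z, ⟨hz, by rwa [mem_ball_zero_iff]⟩, hzD⟩
    rw [disjoint_left]
    rintro w ⟨hw1, hw2⟩ hw3
    rw [mem_ball_zero_iff] at hw2
    exact hf w hw1 hw2 hw3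
  exact hsub ⟨hw, by rwa [mem_ball_zero_iff]⟩

end PF

end Pool.Agent.HF
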