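import Pool.Agent.HF.AInc
import Pool.Agent.HE.Unb

set_option autoImplicit false

/-!
HF-AUnb. The components are unbounded for large arcs (as `HE/UnbA.lean`, with `PF` in place of `Flat`): otherwise all components
of the sequence are in a fixed ball and the component of index `0` is an open set with a bounded backward orbit.
-/

namespace Pool.Agent.HF

open Set Topology Filter Pool.Agent.HE

variable {F : ℂ ≃ₜ ℂ} {γ : ℝ → ℂ} {lam h : ℝ} {s : ℝ → ℝ} {lm lp : ℝ}

namespace PF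

private lemma unb_norm (H : PF F γ lam h s lm lp) {e m : ℝ} :
    ∃ R : ℝ, 0 ≤ R ∧ ∀ u x, FH γ h e m u x → ∀ z ∈ YY γ e m u x, ‖z‖ ≤ R := by
  obtain ⟨C, hC⟩ := H.bdd.exists_norm_le
  refine ⟨max C 0 + 2 * h, add_nonneg (le_max_right _ _) (by linarith [H.hh]), ?_⟩
  intro u x hf z hz
  have h0 : (0 : ℝ) ≤ max C 0 := le_max_right _ _
  have hh := H.hh
  rcases hz with ⟨t, ht, rfl⟩ | ⟨y, hy, rfl⟩
  · rcases ht.1.eq_or_lt with h1 | h1
    · rw [← h1, H.g0, norm_zero]
      linarith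
    · have h2 := hC _ ⟨t, h1, rfl⟩
      have h3 : C ≤ max C 0 := le_max_left _ _
      linarith
  · have h1 : ‖ray e m y‖ ≤ |e * y| + |m * y| := Complex.norm_le_abs_re_add_abs_im _
    have h2 : |e * y| < h := by
      have h3 : |e| = 1 := by
        rcases hf.he with h4 | h4
        · rw [h4, abs_one]
        · rw [h4, abs_neg, abs_one]
      rw [abs_mul, h3, one_mul, abs_of_pos hy.1]
      exact hy.2.trans hf.xh
    have h3 : |m * y| < h := by
      rw [abs_mul, abs_of_pos hy.1]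
      refine lt_of_le_of_lt ?_ hf.mh
      exact mul_le_mul_of_nonneg_left hy.2.le (abs_nonneg m)
    linarith

private lemma unb_seq (H : PF F γ lam h s lm lp) {e m : ℝ} {u x : ℕ → ℝ} {D : ℕ → Set ℂ}
    (hf : ∀ k, FH γ h e m (u k) (x k)) (hD : ∀ k, IsCmp (YY γ e m (u k) (x k)) (D k))
    (hi : ∀ k, D k ⊆ F '' D (k + 1)) : ∃ k0 : ℕ, ∀ k ≥ k0, ¬ Bornology.IsBounded (D k) := by
  obtain ⟨R, hR, hRY⟩ := unb_norm H (e := e) (m := m)
  have hex : ∃ k0 : ℕ, ¬ Bornology.IsBounded (D k0) := by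
    by_contra hcon
    push Not at hcon
    have hball : ∀ k, ∀ z ∈ D k, ‖z‖ ≤ R := by
      intro k z hz
      obtain ⟨a, -, ha⟩ := hD k
      have hb := hcon k
      rw [ha] at hb hz
      exact cmp_sub_ball hR (hRY _ _ (hf k)) hb z hz
    refine H.no (D 0) ((hD 0).isOpen (yy_compact H (hf 0)).isClosed) (hD 0).nonempty
      ⟨R, fun k z hz => hball k _ ?_⟩
    induction k with
    | zero => exact hz
    | succ k ih =>
      rw [Function.iterate_succ_apply']
      obtain ⟨w, hw, hwz⟩ := hi k ih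
      rw [← hwz, Homeomorph.symm_apply_apply]
      exact hw
  obtain ⟨k0, hk0⟩ := hex
  refine ⟨k0, fun k hk => ?_⟩
  induction k, hk using Nat.le_induction with
  | base => exact hk0
  | succ k _ ih => exact fun hb => ih ((bdd_image F hb).subset (hi k))

private lemma unb_fh (H : PF F γ lam h s lm lp) {e m u0 x0 : ℝ}
    (h0 : FH γ h e m u0 x0) (k : ℕ) : ∃ x, FH γ h e m (u0 / lam ^ k) x := by
  have hp : 0 < lam ^ k := pow_pos H.lam0 k
  have h1 : u0 ≤ u0 / lam ^ k := by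
    rw [le_div_iff₀ hp]
    exact mul_le_of_le_one_right h0.hu (pow_le_one₀ H.lam0.le H.lam1.le)
  obtain ⟨x, -, hx⟩ := fh_exists H h0.he h0.hm (h0.hu.trans h1) h0.pos h0.xh h0.mh
    (Set.image_mono (Icc_subset_Icc_right h1) h0.mem)
  exact ⟨x, hx⟩

private lemma unb_div (k : ℕ) (u0 : ℝ) : u0 / lam ^ (k + 1) = u0 / lam ^ k / lam := by
  rw [pow_succ, ← div_div]

theorem unbA (H : PF F γ lam h s lm lp) {e m u0 x0 : ℝ} (hm : 0 < m)
    (h0 : FH γ h e m u0 x0) : ∃ k0 : ℕ, ∀ k ≥ k0, ∀ x D, FH γ h e m (u0 / lam ^ k) x →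
      IsA γ e m (u0 / lam ^ k) x D → ¬ Bornology.IsBounded D := by
  choose x hx using unb_fh H h0
  have hex : ∀ k, ∃ D, IsA γ e m (u0 / lam ^ k) (x k) D := fun k => isA_exists H (hx k)
  choose D hD using hex
  have hi : ∀ k, D k ⊆ F '' D (k + 1) := by
    intro k
    have h1 := hx (k + 1)
    have h2 := hD (k + 1)
    rw [unb_div] at h1 h2
    exact incA H hm (hx k) h1 (hD k) h2
  obtain ⟨k0, hk0⟩ := unb_seq H hx (fun k => (hD k).1) hi
  refine ⟨k0, fun k hk x' D' hf hA => ?_⟩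
  have h1 : x' = x k := fh_unique hf (hx k)
  subst h1
  rw [isA_unique h0.he hA (hD k)]
  exact hk0 k hk

theorem unbB (H : PF F γ lam h s lm lp) {e m u0 x0 : ℝ} (hm : m < 0)
    (h0 : FH γ h e m u0 x0) : ∃ k0 : ℕ, ∀ k ≥ k0, ∀ x D, FH γ h e m (u0 / lam ^ k) x →
      IsB γ e m (u0 / lam ^ k) x D → ¬ Bornology.IsBounded D := by
  choose x hx using unb_fh H h0
  have hex : ∀ k, ∃ D, IsB γ e m (u0 / lam ^ k) (x k) D := fun k => isB_exists H (hx k)
  choose D hD using hex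
  have hi : ∀ k, D k ⊆ F '' D (k + 1) := by
    intro k
    have h1 := hx (k + 1)
    have h2 := hD (k + 1)
    rw [unb_div] at h1 h2
    exact incB H hm (hx k) h1 (hD k) h2
  obtain ⟨k0, hk0⟩ := unb_seq H hx (fun k => (hD k).1) hi
  refine ⟨k0, fun k hk x' D' hf hB => ?_⟩
  have h1 : x' = x k := fh_unique hf (hx k)
  subst h1
  rw [isB_unique h0.he hB (hD k)]
  exact hk0 k hk

end PF

end Pool.Agent.HF
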