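import Pool.Agent.HE.Flat
import Pool.Agent.HE.HDefs

set_option autoImplicit false

/-!
# Semi-neutral cycles of real Henon maps: definitions

Interface of the project HF (paper proof /team-store/hf_proof.md).
-/

namespace Pool.Agent.HF

open Set Topology Filter Pool.Agent.HE Pool.Agent.HD

/-- a bounded Lipschitz perturbation `(x, y) ↦ (x + f1 x y, β y + f2 x y)` of `(x, y) ↦ (x, β y)` -/
structure LP (β ε M : ℝ) (f1 f2 : ℝ → ℝ → ℝ) : Prop where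
  b0 : 0 < β
  e0 : 0 < ε
  e1 : 2 * ε < β
  e2 : β + 4 * ε < 1
  l1 : ∀ x y x' y', |f1 x y - f1 x' y'| ≤ ε * max |x - x'| |y - y'|
  l2 : ∀ x y x' y', |f2 x y - f2 x' y'| ≤ ε * max |x - x'| |y - y'|
  z1 : f1 0 0 = 0
  z2 : f2 0 0 = 0
  m1 : ∀ x y, |f1 x y| ≤ M
  m2 : ∀ x y, |f2 x y| ≤ M

/-- the perturbed map -/
def fm (β : ℝ) (f1 f2 : ℝ → ℝ → ℝ) (p : ℝ × ℝ) : ℝ × ℝ := (p.1 + f1 p.1 p.2, β * p.2 + f2 p.1 p.2)

/-- `y = h x` is an invariant Lipschitz graph, with the map `g` on it -/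
structure CG (β : ℝ) (f1 f2 : ℝ → ℝ → ℝ) (h : ℝ → ℝ) (g : ℝ ≃ₜ ℝ) : Prop where
  lip : ∀ x x', |h x - h x'| ≤ |x - x'|
  zero : h 0 = 0
  geq : ∀ x, g x = x + f1 x (h x)
  inv : ∀ x, h (g x) = β * h x + f2 x (h x)

/-- the projection to the centre curve along the strong stable curves -/
structure PR (β : ℝ) (f1 f2 : ℝ → ℝ → ℝ) (h : ℝ → ℝ) (g : ℝ ≃ₜ ℝ) (K : ℝ) (π : ℝ → ℝ → ℝ) : Prop where
  cont : Continuous fun p : ℝ × ℝ => π p.1 p.2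
  conj : ∀ x y, π (x + f1 x y) (β * y + f2 x y) = g (π x y)
  graph : ∀ x, π x (h x) = x
  near : ∀ x y, |π x y - x| ≤ K * |y - h x|

/-- the point with affine coordinates `x`, `y` -/
noncomputable def pt (q u v : ℂ) (x y : ℝ) : ℂ := q + x * u + y * v

/-- topological chart at a semi-neutral fixed point `q` with eigenvalues `1` and `β`: on the side
`i = ± 1` the first coordinate is multiplied by `s i`, which is `2` (repelling side) or `1 / 2`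
(attracting side), and the second one is contracted -/
structure PC (F Φ : ℂ ≃ₜ ℂ) (q : ℂ) (h : ℝ) (s : ℝ → ℝ) (lm lp : ℝ) : Prop where
  hh : 0 < h
  hs : ∀ i : ℝ, (i = 1 ∨ i = -1) → s i = 2 ∨ s i = 1 / 2
  hlm : 0 < lm
  hlp : lp < 1
  hll : lp ^ 2 < lm
  zero : Φ q = 0
  re_eq : ∀ i : ℝ, (i = 1 ∨ i = -1) → ∀ z, |(Φ z).re| < h → |(Φ z).im| < h →
    0 ≤ i * (Φ z).re → (Φ (F z)).re = s i * (Φ z).re
  im_sign : ∀ z, |(Φ z).re| < h → |(Φ z).im| < h → 0 ≤ (Φ z).im * (Φ (F z)).im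
  im_low : ∀ z, |(Φ z).re| < h → |(Φ z).im| < h → lm * |(Φ z).im| ≤ |(Φ (F z)).im|
  im_up : ∀ z, |(Φ z).re| < h → |(Φ z).im| < h → |(Φ (F z)).im| ≤ lp * |(Φ z).im|

/-- a bounded stable branch in a topological chart at its own semi-neutral point `0` -/
structure PF (F : ℂ ≃ₜ ℂ) (γ : ℝ → ℂ) (lam h : ℝ) (s : ℝ → ℝ) (lm lp : ℝ) : Prop where
  lam0 : 0 < lam
  lam1 : lam < 1
  cont : Continuous γ
  inj : Function.Injective γ
  conj : ∀ t, F (γ t) = γ (lam * t)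
  no : NO F
  bdd : Bornology.IsBounded (γ '' Ioi 0)
  g0 : γ 0 = 0
  hh : 0 < h
  hs : ∀ i : ℝ, (i = 1 ∨ i = -1) → s i = 2 ∨ s i = 1 / 2
  hlm : 0 < lm
  hlp : lp < 1
  re_eq : ∀ i : ℝ, (i = 1 ∨ i = -1) → ∀ z : ℂ, |z.re| < h → |z.im| < h →
    0 ≤ i * z.re → (F z).re = s i * z.re
  im_sign : ∀ z : ℂ, |z.re| < h → |z.im| < h → 0 ≤ z.im * (F z).im
  im_low : ∀ z : ℂ, |z.re| < h → |z.im| < h → lm * |z.im| ≤ |(F z).im|
  im_up : ∀ z : ℂ, |z.re| < h → |z.im| < h → |(F z).im| ≤ lp * |z.im|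
  ax : ∃ t0 > 0, ∀ t ∈ Icc 0 t0, (γ t).re = 0 ∧ 0 ≤ (γ t).im

lemma PF.F0 {F : ℂ ≃ₜ ℂ} {γ : ℝ → ℂ} {lam h : ℝ} {s : ℝ → ℝ} {lm lp : ℝ} (H : PF F γ lam h s lm lp) :
    F 0 = 0 := by
  have h1 := H.conj 0
  rw [mul_zero, H.g0] at h1
  exact h1

end Pool.Agent.HF
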