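import Pool.Agent.HF.FChart

set_option autoImplicit false

/-!
HF-FAx. The stable curve of a semi-neutral fixed point near the point, in the topological chart.
-/

namespace Pool.Agent.HF

open Set Topology Filter Pool.Agent.HE Pool.Agent.HD

private theorem par_lip {f : ℝ → ℂ} (hf : ContDiff ℝ 2 f) (T : ℝ) :
    ∃ M : ℝ, 0 ≤ M ∧ ∀ s, |s| ≤ T → dist (f s) (f 0) ≤ M * |s| := by
  obtain ⟨M, hM⟩ := (isCompact_Icc (a := -T) (b := T)).exists_bound_of_continuousOn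
    (hf.continuous_deriv (by norm_num)).continuousOn
  refine ⟨max M 0, le_max_right _ _, ?_⟩
  intro s hs
  have hT : 0 ≤ T := (abs_nonneg s).trans hs
  have h := Convex.norm_image_sub_le_of_norm_deriv_le (f := f) (C := max M 0)
    (s := Icc (-T) T) (x := 0) (y := s)
    (fun x _ => (hf.differentiable (by norm_num)).differentiableAt)
    (fun x hx => (hM x hx).trans (le_max_left _ _)) (convex_Icc _ _)
    ⟨by linarith, hT⟩ ⟨(abs_le.1 hs).1, (abs_le.1 hs).2⟩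
  rw [dist_eq_norm]
  simpa using h

theorem ax_par {F Φ : ℂ ≃ₜ ℂ} {p : ℂ} {h : ℝ} {γ : ℝ → ℂ} {lam : ℝ} (l0 : 0 < lam) (l1 : lam < 1)
    (hγ : ContDiff ℝ 2 γ) (h0 : γ 0 = p) (hF : ∀ t, F (γ t) = γ (lam * t)) (hh : 0 < h)
    (hΦ : Φ p = 0) (hx : XC F Φ p h) : ∃ t0 > 0, ∀ t, |t| ≤ t0 → (Φ (γ t)).re = 0 := by
  have hit : ∀ (k : ℕ) (t : ℝ), (F : ℂ → ℂ)^[k] (γ t) = γ (lam ^ k * t) := by
    intro k
    induction k with
    | zero => intro t; simp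
    | succ k ih =>
      intro t
      rw [Function.iterate_succ_apply', ih, hF]
      congr 1
      ring
  obtain ⟨M, hM0, hM⟩ := par_lip hγ 1
  have hcont : ContinuousAt (fun t => Φ (γ t)) 0 :=
    (Φ.continuous.comp hγ.continuous).continuousAt
  rw [Metric.continuousAt_iff] at hcont
  obtain ⟨δ, hδ, hδ'⟩ := hcont h hh
  have hbox : ∀ t : ℝ, |t| < δ → |(Φ (γ t)).re| < h ∧ |(Φ (γ t)).im| < h := by
    intro t ht
    have h1 := hδ' (x := t) (by rwa [Real.dist_eq, sub_zero])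
    rw [h0, hΦ, dist_zero_right] at h1
    exact ⟨(Complex.abs_re_le_norm _).trans_lt h1, (Complex.abs_im_le_norm _).trans_lt h1⟩
  refine ⟨min (δ / 2) 1, lt_min (by positivity) one_pos, fun t ht => ?_⟩
  have ht1 : |t| ≤ δ / 2 := ht.trans (min_le_left _ _)
  have ht2 : |t| ≤ 1 := ht.trans (min_le_right _ _)
  have hle : ∀ k : ℕ, |lam ^ k * t| ≤ |t| := by
    intro k
    rw [abs_mul, abs_of_nonneg (pow_pos l0 k).le]
    exact mul_le_of_le_one_left (abs_nonneg _) (pow_le_one₀ l0.le l1.le)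
  refine hx lam (M * |t|) (γ t) l0.le l1 (fun k => ?_) (fun k => ?_)
  · rw [hit k t]
    exact hbox _ (lt_of_le_of_lt ((hle k).trans ht1) (by linarith))
  · rw [hit k t, ← h0]
    refine (hM _ ((hle k).trans ht2)).trans (le_of_eq ?_)
    rw [abs_mul, abs_of_nonneg (pow_pos l0 k).le]
    ring

theorem cov_par {Φ : ℂ ≃ₜ ℂ} {p : ℂ} {γ : ℝ → ℂ} (hc : Continuous γ)
    (hi : Function.Injective γ) (h0 : γ 0 = p) (hΦ : Φ p = 0)
    (hax : ∃ t0 > 0, ∀ t, |t| ≤ t0 → (Φ (γ t)).re = 0) :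
    ∃ δ > 0, ∀ z, (Φ z).re = 0 → |(Φ z).im| < δ → ∃ t, γ t = z := by
  obtain ⟨t0, ht0, hre⟩ := hax
  have hgc : Continuous fun t => (Φ (γ t)).im :=
    Complex.continuous_im.comp (Φ.continuous.comp hc)
  have hgi : InjOn (fun t => (Φ (γ t)).im) (Icc (-t0) t0) := by
    intro s hs t ht hst
    have h1 : Φ (γ s) = Φ (γ t) := by
      apply Complex.ext
      · rw [hre s (abs_le.2 hs), hre t (abs_le.2 ht)]
      · exact hst
    exact hi (Φ.injective h1)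
  have hg0 : (Φ (γ 0)).im = 0 := by rw [h0, hΦ, Complex.zero_im]
  have key : ∀ y : ℝ, (∃ t ∈ Icc (-t0) t0, (Φ (γ t)).im = y) →
      ∀ z, (Φ z).re = 0 → (Φ z).im = y → ∃ t, γ t = z := by
    rintro y ⟨t, ht, hty⟩ z hz1 hz2
    refine ⟨t, Φ.injective ?_⟩
    apply Complex.ext
    · rw [hre t (abs_le.2 ht), hz1]
    · rw [hty, hz2]
  have hle : -t0 ≤ t0 := by linarith
  have m0 : (0 : ℝ) ∈ Icc (-t0) t0 := ⟨by linarith, ht0.le⟩
  have m1 : -t0 ∈ Icc (-t0) t0 := ⟨le_refl _, hle⟩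
  have m2 : t0 ∈ Icc (-t0) t0 := ⟨hle, le_refl _⟩
  rcases ContinuousOn.strictMonoOn_of_injOn_Icc' hle hgc.continuousOn hgi with hm | hm
  · have h1 : (Φ (γ (-t0))).im < (Φ (γ 0)).im := hm m1 m0 (by linarith)
    have h2 : (Φ (γ 0)).im < (Φ (γ t0)).im := hm m0 m2 ht0
    rw [hg0] at h1 h2
    refine ⟨min (-(Φ (γ (-t0))).im) (Φ (γ t0)).im, lt_min (by linarith) h2, fun z hz1 hz2 => ?_⟩
    rw [lt_min_iff, abs_lt, abs_lt] at hz2
    obtain ⟨t, ht, hty⟩ := intermediate_value_Icc hle hgc.continuousOn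
      (show (Φ z).im ∈ Icc (Φ (γ (-t0))).im (Φ (γ t0)).im from
        ⟨by linarith [hz2.1.1], by linarith [hz2.2.2]⟩)
    exact key _ ⟨t, ht, hty⟩ z hz1 rfl
  · have h1 : (Φ (γ 0)).im < (Φ (γ (-t0))).im := hm m1 m0 (by linarith)
    have h2 : (Φ (γ t0)).im < (Φ (γ 0)).im := hm m0 m2 ht0
    rw [hg0] at h1 h2
    refine ⟨min (Φ (γ (-t0))).im (-(Φ (γ t0)).im), lt_min h1 (by linarith), fun z hz1 hz2 => ?_⟩
    rw [lt_min_iff, abs_lt, abs_lt] at hz2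
    obtain ⟨t, ht, hty⟩ := intermediate_value_Icc' hle hgc.continuousOn
      (show (Φ z).im ∈ Icc (Φ (γ t0)).im (Φ (γ (-t0))).im from
        ⟨by linarith [hz2.2.1], by linarith [hz2.1.2]⟩)
    exact key _ ⟨t, ht, hty⟩ z hz1 rfl

end Pool.Agent.HF
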