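import Pool.Agent.HE.HArea
import Pool.Agent.HE.HCurve
import Pool.Agent.HE.HGerm
import Pool.Agent.HE.HDer

set_option autoImplicit false

/-!
HF-FCtx. The data `Ctx` of a bounded stable branch of an iterate of the real Henon map which does not accumulate on
its own periodic point.
-/

namespace Pool.Agent.HF

open Set Topology Filter Pool.Agent.HE Pool.Agent.HD

/-- forward invariance of the limit set -/
private lemma fc_map {F : ℂ ≃ₜ ℂ} {γ : ℝ → ℂ} {lam : ℝ} (l0 : 0 < lam)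
    (hF : ∀ t, F (γ t) = γ (lam * t)) {z : ℂ} (hz : z ∈ AA γ) : F z ∈ AA γ := by
  unfold AA at hz ⊢
  rw [mem_iInter] at hz ⊢
  intro T
  have h1 : F z ∈ closure (F '' (γ '' Ici (T / lam))) :=
    image_closure_subset_closure_image F.continuous (mem_image_of_mem F (hz (T / lam)))
  refine closure_mono ?_ h1
  rintro _ ⟨_, ⟨t, ht, rfl⟩, rfl⟩
  refine ⟨lam * t, ?_, (hF t).symm⟩
  rw [mem_Ici] at ht ⊢
  rw [div_le_iff₀ l0] at ht
  linarith

private lemma fc_closed (γ : ℝ → ℂ) : IsClosed (AA γ) :=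
  isClosed_iInter fun _ => isClosed_closure

theorem not_aa {F : ℂ ≃ₜ ℂ} {γ : ℝ → ℂ} {lam : ℝ} (l0 : 0 < lam) (l1 : lam < 1)
    (hγ : Continuous γ) (hF : ∀ t, F (γ t) = γ (lam * t)) (h0 : γ 0 ∉ AA γ) (t : ℝ) :
    γ t ∉ AA γ := by
  intro h
  have h1 : ∀ n : ℕ, γ (lam ^ n * t) ∈ AA γ := by
    intro n
    induction n with
    | zero => simpa using h
    | succ n ih =>
      have h2 := fc_map l0 hF ih
      rw [hF] at h2
      have h3 : lam ^ (n + 1) * t = lam * (lam ^ n * t) := by ring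
      rw [h3]
      exact h2
  have h2 : Tendsto (fun n : ℕ => lam ^ n * t) atTop (𝓝 (0 * t)) :=
    (tendsto_pow_atTop_nhds_zero_of_lt_one l0.le l1).mul_const t
  rw [zero_mul] at h2
  have h3 : Tendsto (fun n : ℕ => γ (lam ^ n * t)) atTop (𝓝 (γ 0)) :=
    (hγ.tendsto 0).comp h2
  exact h0 ((fc_closed γ).mem_of_tendsto h3 (Eventually.of_forall h1))

theorem mk_ctx {b c : ℝ} (hb : b ≠ 0) (hb1 : |b| < 1) {N : ℕ} (hN : 1 ≤ N) (hβ0 : 0 < b ^ N)
    {p : ℂ} {lam : ℝ} (l0 : 0 < lam) (l1 : lam < 1) {ψ : ℂ → ℂ × ℂ}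
    (E : Ent ((fC b c)^[N]) lam p ψ) (hbd : Bornology.IsBounded (crv ψ '' Ioi 0))
    (h0 : p ∉ AA (crv ψ)) : Ctx (fN b c hb N) (crv ψ) lam (col (crv ψ)) := by
  have hc : Continuous (crv ψ) := (crv_cd E).continuous
  have hi : Function.Injective (crv ψ) := crv_inj E
  have hF := crv_conj hb E
  have hp0 : crv ψ 0 = p := crv_zero E
  have hna : ∀ t, crv ψ t ∉ AA (crv ψ) := not_aa l0 l1 hc hF (by rwa [hp0])
  exact
    { lam0 := l0
      lam1 := l1
      cont := hc
      inj := hi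
      conj := hF
      no := no_fN hb hb1 hN
      bdd := hbd
      nacc := hna 0
      ellc := col_cont (crv_cd E)
      ell0 := fun t => by
        unfold col
        rw [Complex.ofReal_zero, zero_mul, add_zero]
      g1 := fun t ht => germ1 (crv_cd E) hi hbd ht (crv_der E t) (hna t)
      g3 := fun t _ => germ3 (crv_cd E) (hasStrict_fN b c hb N (crv ψ t)).hasFDerivAt
        (by rw [dt_mat]; exact hβ0) l0 hF (crv_der E t) (crv_der E (lam * t))
      circ := fun z hz ρ hρ => by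
        refine crv_circ E ?_
        unfold AA at hz
        rw [mem_iInter] at hz
        obtain ⟨y, ⟨t, -, rfl⟩, h1⟩ := Metric.mem_closure_iff.1 (hz 0) ρ hρ
        refine ⟨t, ?_⟩
        rw [dist_comm]
        exact h1.ne }

end Pool.Agent.HF
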