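import Pool.Agent.HF.Defs
import Pool.Agent.HE.HCurve
import Pool.Agent.HE.HDer
import Pool.Agent.HE.HTri

set_option autoImplicit false

/-!
Passing from a real Henon map `F ^ N` to `F ^ (2 * N)`: linearising curves, fixed points and the
trace of the monodromy matrix.
-/

namespace Pool.Agent.HF

open Set Topology Filter Pool.Agent.HE Pool.Agent.HD

theorem ent_two {b c : ℝ} {N : ℕ} {lam : ℝ} {p : ℂ} {ψ : ℂ → ℂ × ℂ}
    (E : Ent ((fC b c)^[N]) lam p ψ) : Ent ((fC b c)^[2 * N]) (lam ^ 2) p ψ := by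
  obtain ⟨h1, h2, h3, h4, h5, h6⟩ := E
  refine ⟨h1, h2, h3, ?_, h5, h6⟩
  intro z
  rw [two_mul, Function.iterate_add_apply, h4, h4]
  congr 1
  push_cast
  ring

theorem fN_two {b c : ℝ} (hb : b ≠ 0) {N : ℕ} {r : ℂ} (hr : fN b c hb N r = r) :
    fN b c hb (2 * N) r = r := by
  rw [fN_coe] at hr ⊢
  rw [two_mul, Function.iterate_add_apply, hr, hr]

theorem tr_two {b c : ℝ} (hb : b ≠ 0) {N : ℕ} {r : ℂ} (hr : fN b c hb N r = r) :
    tr (mat b c (2 * N) r) = tr (mat b c N r) ^ 2 - 2 * b ^ N := by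
  rw [two_mul, mat_add b c hb N N r, hr, tr_sq, dt_mat]

end Pool.Agent.HF
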