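import Pool.Agent.HF.FFa
import Pool.Agent.HE.HDer

set_option autoImplicit false

/-!
HF-FFb. An iterate of the complex Henon map has finitely many fixed points: the first coordinates along a periodic
orbit solve the cyclic system of quadratic equations of `fin_vals` over `Fin N`.
-/

namespace Pool.Agent.HF

open Set Topology Filter Pool.Agent.HE Pool.Agent.HD

private lemma orb_sys (b c : ℝ) {N : ℕ} (hN : 1 ≤ N) {w : ℂ × ℂ} (hw : (fC b c)^[N] w = w) :
    (∀ j : Fin N, ((fC b c)^[(j : ℕ)] w).1 ^ 2 =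
      ((fC b c)^[((j : ℕ) + 1) % N] w).1 + (b : ℂ) * ((fC b c)^[((j : ℕ) + (N - 1)) % N] w).1
        - (c : ℂ)) ∧ ((fC b c)^[N - 1] w).1 = w.2 := by
  have hp : Function.IsPeriodicPt (fC b c) N w := hw
  have h2 : ∀ k : ℕ, ((fC b c)^[k + (N - 1)] w).1 = ((fC b c)^[k] w).2 := by
    intro k
    have h3 : (fC b c)^[k + (N - 1) + 1] w = (fC b c)^[k] w := by
      have h4 : k + (N - 1) + 1 = k + N := by omega
      rw [h4, Function.iterate_add_apply, hw]
    rw [← h3, Function.iterate_succ_apply' (fC b c) (k + (N - 1)) w]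
    rfl
  refine ⟨fun j => ?_, ?_⟩
  · rw [hp.iterate_mod_apply, hp.iterate_mod_apply, h2, Function.iterate_succ_apply']
    simp only [fC]
    ring
  · have h5 := h2 0
    rw [Nat.zero_add] at h5
    exact h5

theorem fin_fix (b c : ℝ) {N : ℕ} (hN : 1 ≤ N) : {w : ℂ × ℂ | (fC b c)^[N] w = w}.Finite := by
  have hN0 : 0 < N := hN
  let nx : Fin N → Fin N := fun j => ⟨((j : ℕ) + 1) % N, Nat.mod_lt _ hN0⟩
  let pv : Fin N → Fin N := fun j => ⟨((j : ℕ) + (N - 1)) % N, Nat.mod_lt _ hN0⟩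
  have h1 := fin_vals nx pv (b : ℂ) (c : ℂ) ⟨0, hN0⟩
  have h2 := fin_vals nx pv (b : ℂ) (c : ℂ) ⟨N - 1, by omega⟩
  refine (h1.prod h2).subset ?_
  intro w hw
  obtain ⟨hs, hl⟩ := orb_sys b c hN hw
  refine ⟨⟨fun j => ((fC b c)^[(j : ℕ)] w).1, hs, rfl⟩,
    ⟨fun j => ((fC b c)^[(j : ℕ)] w).1, hs, hl⟩⟩

end Pool.Agent.HF
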