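import Mathlib

set_option autoImplicit false

/-!
# HF-ZDefs: petals of a semi-neutral fixed point in `ℂ²`, definitions
-/

namespace Pool.Agent.HF

open Set Topology Filter

/-- a holomorphic map of `ℂ²` with a semi-neutral fixed point at `0`, in linear coordinates -/
structure NF (β : ℝ) (K : ℂ × ℂ → ℂ × ℂ) : Prop where
  b0 : 0 < β
  b1 : β < 1
  cd : ContDiff ℂ 2 K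
  inj : Function.Injective K
  zero : K 0 = 0
  der : HasStrictFDerivAt K ((ContinuousLinearMap.fst ℂ ℂ ℂ).prod
    ((β : ℂ) • ContinuousLinearMap.snd ℂ ℂ ℂ)) 0
  real : ∀ x y : ℝ, ∃ x' y' : ℝ, K ((x : ℂ), (y : ℂ)) = ((x' : ℂ), (y' : ℂ))
  iso : ∃ δ > 0, ∀ w, K w = w → ‖w‖ < δ → w = 0

/-- the nullcline `y = c x` on the disc of radius `ρ` -/
structure NC (K : ℂ × ℂ → ℂ × ℂ) (c : ℂ → ℂ) (ρ : ℝ) : Prop where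
  pos : 0 < ρ
  diff : DifferentiableOn ℂ c (Metric.ball 0 ρ)
  zero : c 0 = 0
  eq : ∀ x : ℂ, ‖x‖ < ρ → (K (x, c x)).2 = c x
  real : ∀ x : ℝ, |x| < ρ → (c x).im = 0
  small : ∀ ε > 0, ∃ δ > 0, ∀ x x' : ℂ, ‖x‖ < δ → ‖x'‖ < δ → ‖c x - c x'‖ ≤ ε * ‖x - x'‖

/-- expansion at the fixed point along the nullcline -/
structure PX (β : ℝ) (K : ℂ × ℂ → ℂ × ℂ) (c : ℂ → ℂ) (ρ : ℝ) (m : ℕ) (α : ℝ) : Prop where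
  nc : NC K c ρ
  hm : 2 ≤ m
  e1 : ∀ ε > 0, ∃ δ > 0, ∀ x v : ℂ, ‖x‖ < δ → ‖v‖ < δ →
    ‖(K (x, c x + v)).1 - x - α * x ^ m‖ ≤ ε * (‖x‖ ^ m + ‖v‖)
  e2 : ∀ ε > 0, ∃ δ > 0, ∀ x v : ℂ, ‖x‖ < δ → ‖v‖ < δ →
    ‖(K (x, c x + v)).2 - c x - β * v‖ ≤ ε * ‖v‖

/-- the variable `x` as a function of the petal coordinate: `x ^ μ * (μ α ζ) = 1`, principal branch -/
noncomputable def xz (μ : ℕ) (α : ℝ) (ζ : ℂ) : ℂ :=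
  Complex.exp (-Complex.log ((μ : ℂ) * (α : ℂ) * ζ) / (μ : ℂ))

/-- the point with petal coordinates `ζ`, `w` -/
noncomputable def Th (c : ℂ → ℂ) (m : ℕ) (α : ℝ) (ζ w : ℂ) : ℂ × ℂ :=
  (xz (m - 1) α ζ, c (xz (m - 1) α ζ) + xz (m - 1) α ζ ^ m * w)

/-- a small perturbation of `(ζ, w) ↦ (ζ - 1, β w)` on `{R < Re ζ} × {‖w‖ ≤ 1}` -/
structure GT (β R ε : ℝ) (A B : ℂ → ℂ → ℂ) : Prop where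
  b0 : 0 < β
  e0 : 0 < ε
  e1 : ε ≤ 1 / 16
  e2 : β + 8 * ε < 1
  bA : ∀ ζ w : ℂ, R < ζ.re → ‖w‖ ≤ 1 → ‖A ζ w‖ ≤ ε
  bB : ∀ ζ w : ℂ, R < ζ.re → ‖w‖ ≤ 1 → ‖B ζ w‖ ≤ ε
  lA : ∀ ζ w ζ' w' : ℂ, R < ζ.re → R < ζ'.re → ‖w‖ ≤ 1 → ‖w'‖ ≤ 1 →
    ‖A ζ w - A ζ' w'‖ ≤ ε * (‖ζ - ζ'‖ + ‖w - w'‖)
  lB : ∀ ζ w ζ' w' : ℂ, R < ζ.re → R < ζ'.re → ‖w‖ ≤ 1 → ‖w'‖ ≤ 1 →
    ‖B ζ w - B ζ' w'‖ ≤ ε * (‖ζ - ζ'‖ + ‖w - w'‖)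
  dA : DifferentiableOn ℂ (fun p : ℂ × ℂ => A p.1 p.2) {p | R < p.1.re ∧ ‖p.2‖ < 2}
  dB : DifferentiableOn ℂ (fun p : ℂ × ℂ => B p.1 p.2) {p | R < p.1.re ∧ ‖p.2‖ < 2}

/-- a holomorphic graph `w = hh ζ` which is invariant under `(ζ, w) ↦ (ζ - 1 + A, β w + B)` -/
structure IG (β R : ℝ) (A B : ℂ → ℂ → ℂ) (hh : ℂ → ℂ) : Prop where
  diff : DifferentiableOn ℂ hh {ζ | R < ζ.re}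
  bd : ∀ ζ : ℂ, R < ζ.re → ‖hh ζ‖ ≤ 1
  lip : ∀ ζ ζ' : ℂ, R < ζ.re → R < ζ'.re → ‖hh ζ - hh ζ'‖ ≤ ‖ζ - ζ'‖
  inv : ∀ ζ : ℂ, R < ζ.re → R < (ζ - 1 + A ζ (hh ζ)).re →
    hh (ζ - 1 + A ζ (hh ζ)) = β * hh ζ + B ζ (hh ζ)
  cov : ∀ ζ' : ℂ, R < ζ'.re → ∃ ζ : ℂ, R < ζ.re ∧ ζ - 1 + A ζ (hh ζ) = ζ'

/-- the petal as a graph over `{R < Re ζ}` -/
structure GD (K : ℂ × ℂ → ℂ × ℂ) (c : ℂ → ℂ) (ρ : ℝ) (m : ℕ) (α R : ℝ) (hh : ℂ → ℂ) : Prop where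
  nc : NC K c ρ
  hm : 2 ≤ m
  ha : 0 < α
  hR : 0 < R
  dom : ∀ ζ : ℂ, R < ζ.re → ‖xz (m - 1) α ζ‖ < ρ
  diff : DifferentiableOn ℂ hh {ζ | R < ζ.re}
  bd : ∀ ζ : ℂ, R < ζ.re → ‖hh ζ‖ ≤ 1
  cov : ∀ ζ' : ℂ, R < ζ'.re → ∃ ζ : ℂ, R < ζ.re ∧ ‖ζ - ζ' - 1‖ ≤ 1 / 4 ∧
    K (Th c m α ζ (hh ζ)) = Th c m α ζ' (hh ζ')

/-- a curve which tends to `0` along the positive axis under the inverse map -/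
structure TL (K : ℂ × ℂ → ℂ × ℂ) (lam t0 : ℝ) (φ : ℂ → ℂ × ℂ) : Prop where
  l0 : 0 < lam
  l1 : lam < 1
  tp : 0 < t0
  conj : ∀ z, K (φ z) = φ (lam * z)
  real : ∀ t : ℝ, ∃ x y : ℝ, φ (t : ℂ) = ((x : ℂ), (y : ℂ))
  pos : ∀ t : ℝ, t0 ≤ t → 0 < (φ (t : ℂ)).1.re
  dec : ∀ t : ℝ, t0 ≤ t → (φ ((t / lam : ℝ) : ℂ)).1.re < (φ (t : ℂ)).1.re
  lim : Tendsto (fun t : ℝ => φ (t : ℂ)) atTop (𝓝 0)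

end Pool.Agent.HF
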