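import Pool.Agent.HF.FLin
import Pool.Agent.HF.FFb
import Pool.Agent.HF.ZDefs
import Pool.Agent.HE.HDer

set_option autoImplicit false

/-!
HF-FNF. An iterate of the complex Henon map at a real semi-neutral fixed point, in linear coordinates.

PLAN. `K w = SC r u v ((fC b c)^[N] (TC r u v w))`. `cd`: composition (`contDiff_fC`). `inj`: `TC` and `SC` are injective (`SC_TC`, `TC_SC`), `fC b c` is injective (`gC_fC`). `zero`: `TC 0 = cx r` and `fC_iter_cx`, `hr`. `der`: `hasStrict_fC b c N r : HasStrictFDerivAt ((fC b c)^[N]) (LC (mat b c N r)) (cx r)`; `TC` is affine with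
linear part `(x, y) ↦ x (u.re, u.im) + y (v.re, v.im)`, `SC` affine with the inverse linear part; the composition of the linear parts maps `(1, 0)` to `SCL (LC M (cx u)) = SCL (cx u) = (1, 0)` (`LC M (cx u) = cx (LR M u)`: `LC_apply`, `LR_apply`) and `(0, 1)` to `β (0, 1)`; a linear map of `ℂ × ℂ` is
determined by these two values. (Compute the strict derivative of `K` by `HasStrictFDerivAt.comp`, then `congr` of the derivative by `ContinuousLinearMap.ext` and `Prod`.) `real`: `TC_real`, `fC_iter_cx`, every real point is `pt r u v x y` (`exists_T` in LStrict, or `TC_SC` with explicit real formulas), `SC_real`.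
`iso`: `K w = w` iff `TC w` is a fixed point of `(fC b c)^[N]`; this set is finite (`fin_fix`), so its preimage under the injective map `TC` is finite, and `0` is isolated in a finite set: there is `δ` such that no other point of the finite set has norm `< δ` (`Set.Finite.isClosed` of the set without `0`, or `Finset.exists_min`).
`iso_real`: `fN b c hb N z = z` implies `(fC b c)^[N] (cx z) = cx z` (`fC_iter_cx`), `cx` is injective; the set of these `z` is finite.
-/

namespace Pool.Agent.HF

open Set Topology Filter Pool.Agent.HE Pool.Agent.HD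

private lemma iso_aux {X : Type*} [PseudoMetricSpace X] [T1Space X] {S : Set X} (hS : S.Finite)
    (q : X) : ∃ δ > 0, ∀ z ∈ S, dist z q < δ → z = q := by
  have h1 : (S \ {q}).Finite := hS.subset diff_subset
  have h2 : IsOpen (S \ {q})ᶜ := h1.isClosed.isOpen_compl
  have h3 : q ∈ (S \ {q})ᶜ := fun h => h.2 rfl
  obtain ⟨δ, hδ, h4⟩ := Metric.isOpen_iff.1 h2 q h3
  refine ⟨δ, hδ, fun z hz hd => ?_⟩
  by_contra hne
  exact h4 (Metric.mem_ball.2 hd) ⟨hz, hne⟩

private lemma fC_iter_inj {b c : ℝ} (hb : b ≠ 0) (N : ℕ) : Function.Injective ((fC b c)^[N]) :=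
  Function.Injective.iterate
    (Function.LeftInverse.injective (g := gC b c) (fun w => gC_fC hb w)) N

/-- the linear part of `TC` -/
private noncomputable def TCL (u v : ℂ) : (ℂ × ℂ) →L[ℂ] (ℂ × ℂ) :=
  ((u.re : ℂ) • ContinuousLinearMap.fst ℂ ℂ ℂ + (v.re : ℂ) • ContinuousLinearMap.snd ℂ ℂ ℂ).prod
    ((u.im : ℂ) • ContinuousLinearMap.fst ℂ ℂ ℂ + (v.im : ℂ) • ContinuousLinearMap.snd ℂ ℂ ℂ)

/-- the linear part of `SC` -/
private noncomputable def SCL (u v : ℂ) : (ℂ × ℂ) →L[ℂ] (ℂ × ℂ) :=
  ((((u.re * v.im - u.im * v.re : ℝ) : ℂ)⁻¹ * (v.im : ℂ)) • ContinuousLinearMap.fst ℂ ℂ ℂ -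
      (((u.re * v.im - u.im * v.re : ℝ) : ℂ)⁻¹ * (v.re : ℂ)) •
        ContinuousLinearMap.snd ℂ ℂ ℂ).prod
    ((((u.re * v.im - u.im * v.re : ℝ) : ℂ)⁻¹ * (u.re : ℂ)) • ContinuousLinearMap.snd ℂ ℂ ℂ -
      (((u.re * v.im - u.im * v.re : ℝ) : ℂ)⁻¹ * (u.im : ℂ)) • ContinuousLinearMap.fst ℂ ℂ ℂ)

private lemma TC_eq (q u v : ℂ) : TC q u v = fun w => TCL u v w + cx q := by
  funext w
  refine Prod.ext ?_ ?_
  · simp [TC, TCL, cx]
    ring
  · simp [TC, TCL, cx]
    ring

private lemma SC_eq (q u v : ℂ) : SC q u v = fun w => SCL u v w - SCL u v (cx q) := by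
  funext w
  refine Prod.ext ?_ ?_
  · simp [SC, SCL, cx]
    ring
  · simp [SC, SCL, cx]
    ring

private lemma TC_strict (q u v : ℂ) (w : ℂ × ℂ) : HasStrictFDerivAt (TC q u v) (TCL u v) w := by
  rw [TC_eq]
  exact (TCL u v).hasStrictFDerivAt.add_const _

private lemma SC_strict (q u v : ℂ) (w : ℂ × ℂ) : HasStrictFDerivAt (SC q u v) (SCL u v) w := by
  rw [SC_eq]
  exact (SCL u v).hasStrictFDerivAt.sub_const _

theorem nf {b c : ℝ} (hb : b ≠ 0) {N : ℕ} (hN : 1 ≤ N) {r : ℂ} (hr : fN b c hb N r = r) {β : ℝ}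
    (hβ0 : 0 < β) (hβ1 : β < 1) {u v : ℂ} (hu : LR (mat b c N r) u = u)
    (hv : LR (mat b c N r) v = β • v) (hd : u.re * v.im - u.im * v.re ≠ 0) :
    NF β (fun w => SC r u v ((fC b c)^[N] (TC r u v w))) := by
  have hT0 : TC r u v 0 = cx r := by
    refine Prod.ext ?_ ?_
    · simp [TC, cx]
    · simp [TC, cx]
  have hfr : (fC b c)^[N] (cx r) = cx r := by rw [fC_iter_cx b c hb, hr]
  have hTinj : Function.Injective (TC r u v) :=
    Function.LeftInverse.injective (g := SC r u v) (fun w => SC_TC hd w)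
  have hSinj : Function.Injective (SC r u v) :=
    Function.LeftInverse.injective (g := TC r u v) (fun w => TC_SC hd w)
  have hdC : ((u.re : ℂ) * (v.im : ℂ) - (u.im : ℂ) * (v.re : ℂ)) ≠ 0 := by
    exact_mod_cast hd
  refine ⟨hβ0, hβ1, ?_, ?_, ?_, ?_, ?_, ?_⟩
  · exact (SC_cd r u v).comp ((contDiff_fC b c N).comp (TC_cd r u v))
  · exact hSinj.comp ((fC_iter_inj hb N).comp hTinj)
  · show SC r u v ((fC b c)^[N] (TC r u v 0)) = 0
    rw [hT0, hfr, ← hT0, SC_TC hd]
  · have h1 : HasStrictFDerivAt (TC r u v) (TCL u v) 0 := TC_strict r u v 0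
    have h2 : HasStrictFDerivAt ((fC b c)^[N]) (LC (mat b c N r)) (TC r u v 0) := by
      rw [hT0]
      exact hasStrict_fC b c N r
    have h3 : HasStrictFDerivAt (SC r u v) (SCL u v) ((fC b c)^[N] (TC r u v 0)) :=
      SC_strict r u v _
    have h4 := h3.comp (0 : ℂ × ℂ) (h2.comp (0 : ℂ × ℂ) h1)
    refine h4.congr_fderiv ?_
    generalize mat b c N r = M at hu hv
    obtain ⟨⟨m1, m2⟩, ⟨m3, m4⟩⟩ := M
    rw [LR_apply] at hu hv
    have e1 : m1 * u.re + m2 * u.im = u.re := congrArg Complex.re hu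
    have e2 : m3 * u.re + m4 * u.im = u.im := congrArg Complex.im hu
    have e3 : m1 * v.re + m2 * v.im = β * v.re := by
      have := congrArg Complex.re hv
      simpa using this
    have e4 : m3 * v.re + m4 * v.im = β * v.im := by
      have := congrArg Complex.im hv
      simpa using this
    have f1 : (m1 : ℂ) * u.re + m2 * u.im = u.re := by exact_mod_cast e1
    have f2 : (m3 : ℂ) * u.re + m4 * u.im = u.im := by exact_mod_cast e2
    have f3 : (m1 : ℂ) * v.re + m2 * v.im = β * v.re := by exact_mod_cast e3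
    have f4 : (m3 : ℂ) * v.re + m4 * v.im = β * v.im := by exact_mod_cast e4
    refine ContinuousLinearMap.ext fun w => ?_
    obtain ⟨x, y⟩ := w
    simp only [ContinuousLinearMap.comp_apply]
    have g1 : LC ((m1, m2), (m3, m4)) (TCL u v (x, y)) =
        (x * u.re + β * y * v.re, x * u.im + β * y * v.im) := by
      rw [LC_apply]
      refine Prod.ext ?_ ?_
      · simp only [TCL, ContinuousLinearMap.prod_apply, ContinuousLinearMap.add_apply,
          ContinuousLinearMap.smul_apply, ContinuousLinearMap.coe_fst',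
          ContinuousLinearMap.coe_snd', smul_eq_mul]
        linear_combination x * f1 + y * f3
      · simp only [TCL, ContinuousLinearMap.prod_apply, ContinuousLinearMap.add_apply,
          ContinuousLinearMap.smul_apply, ContinuousLinearMap.coe_fst',
          ContinuousLinearMap.coe_snd', smul_eq_mul]
        linear_combination x * f2 + y * f4
    rw [g1]
    refine Prod.ext ?_ ?_
    · simp only [SCL, ContinuousLinearMap.prod_apply, ContinuousLinearMap.sub_apply,
        ContinuousLinearMap.smul_apply, ContinuousLinearMap.coe_fst',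
        ContinuousLinearMap.coe_snd', smul_eq_mul]
      push_cast
      field_simp
      ring
    · simp only [SCL, ContinuousLinearMap.prod_apply, ContinuousLinearMap.sub_apply,
        ContinuousLinearMap.smul_apply, ContinuousLinearMap.coe_fst',
        ContinuousLinearMap.coe_snd', smul_eq_mul]
      push_cast
      field_simp
      ring
  · intro x y
    show ∃ x' y' : ℝ, SC r u v ((fC b c)^[N] (TC r u v ((x : ℂ), (y : ℂ)))) =
      ((x' : ℂ), (y' : ℂ))
    rw [TC_real, fC_iter_cx b c hb]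
    generalize fN b c hb N (pt r u v x y) = z
    refine ⟨((z.re - r.re) * v.im - (z.im - r.im) * v.re) / (u.re * v.im - u.im * v.re),
      ((z.im - r.im) * u.re - (z.re - r.re) * u.im) / (u.re * v.im - u.im * v.re), ?_⟩
    refine Prod.ext ?_ ?_
    · simp only [SC, cx]
      push_cast
      rfl
    · simp only [SC, cx]
      push_cast
      rfl
  · have hfin : {w : ℂ × ℂ | SC r u v ((fC b c)^[N] (TC r u v w)) = w}.Finite := by
      refine ((fin_fix b c hN).preimage (f := TC r u v) hTinj.injOn).subset fun w hw => ?_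
      show (fC b c)^[N] (TC r u v w) = TC r u v w
      have h1 : SC r u v ((fC b c)^[N] (TC r u v w)) = w := hw
      have h2 := congrArg (TC r u v) h1
      rwa [TC_SC hd] at h2
    obtain ⟨δ, hδ, h⟩ := iso_aux hfin 0
    refine ⟨δ, hδ, fun w hw hn => h w hw ?_⟩
    rwa [dist_zero_right]

theorem iso_real {b c : ℝ} (hb : b ≠ 0) {N : ℕ} (hN : 1 ≤ N) (r : ℂ) :
    ∃ δ > 0, ∀ z, fN b c hb N z = z → dist z r < δ → z = r := by
  have hfin : {z : ℂ | fN b c hb N z = z}.Finite := by
    refine ((fin_fix b c hN).preimage (f := cx) cx_inj.injOn).subset fun z hz => ?_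
    show (fC b c)^[N] (cx z) = cx z
    have h1 : fN b c hb N z = z := hz
    rw [fC_iter_cx b c hb, h1]
  exact iso_aux hfin r

end Pool.Agent.HF
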