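import Pool.Agent.HF.ZPet
import Pool.Agent.HF.FNF
import Pool.Agent.HE.ZFilt
import Pool.Agent.HE.HCurve

set_option autoImplicit false

/-!
HF-FZ. The tail of a stable branch is not contained in the centre curve of a semi-neutral point.

On a dense set of parameters the orbit of a point of the curve is bounded in both time directions, so it is in the
filtration ball; so the entire curve is bounded and constant by the theorem of Liouville.
-/

namespace Pool.Agent.HF

open Set Topology Filter Pool.Agent.HE Pool.Agent.HD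

/-- every real point has real coordinates -/
private theorem fz_real (r u v z : ℂ) :
    ∃ x y : ℝ, SC r u v (cx z) = ((x : ℂ), (y : ℂ)) := by
  refine ⟨((z.re - r.re) * v.im - (z.im - r.im) * v.re) / (u.re * v.im - u.im * v.re),
    ((z.im - r.im) * u.re - (z.re - r.re) * u.im) / (u.re * v.im - u.im * v.re), ?_⟩
  unfold SC cx
  push_cast
  rfl

private theorem fz_zero (r u v : ℂ) : TC r u v 0 = cx r := by
  unfold TC cx
  simp

private theorem cx_cont : Continuous cx := by
  unfold cx
  exact (Complex.continuous_ofReal.comp Complex.continuous_re).prodMk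
    (Complex.continuous_ofReal.comp Complex.continuous_im)

theorem no_centre {b c : ℝ} (hb : b ≠ 0) {N : ℕ} (hN : 1 ≤ N) {r p : ℂ}
    (hr : fN b c hb N r = r) {β : ℝ} (hβ0 : 0 < β) (hβ1 : β < 1) {u v : ℂ}
    (hu : LR (mat b c N r) u = u) (hv : LR (mat b c N r) v = β • v)
    (hd : u.re * v.im - u.im * v.re ≠ 0) {lam : ℝ} (l0 : 0 < lam) (l1 : lam < 1)
    {ψ : ℂ → ℂ × ℂ} (E : Ent ((fC b c)^[N]) lam p ψ) {t0 : ℝ} (ht0 : 0 < t0)
    (hx : ∀ t : ℝ, t0 ≤ t → ∃ x y x' y' : ℝ, crv ψ t = pt r u v x y ∧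
      crv ψ (t / lam) = pt r u v x' y' ∧ 0 < x ∧ x' < x)
    (hlim : Tendsto (crv ψ) atTop (𝓝 r)) : False := by
  set φ : ℂ → ℂ × ℂ := fun z => SC r u v (ψ z) with hφ
  have hTφ : ∀ z, TC r u v (φ z) = ψ z := fun z => TC_SC hd (ψ z)
  have hφr : ∀ t : ℝ, φ (t : ℂ) = SC r u v (cx (crv ψ t)) := by
    intro t
    show SC r u v (ψ t) = _
    rw [E.real t]
    rfl
  have hSC : Differentiable ℂ (SC r u v) := (SC_cd r u v).differentiable (by norm_num)
  have hTC : Differentiable ℂ (TC r u v) := (TC_cd r u v).differentiable (by norm_num)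
  have hφd : Differentiable ℂ φ := hSC.comp E.diff
  have hSi : Function.Injective (SC r u v) :=
    Function.LeftInverse.injective (g := TC r u v) (TC_SC hd)
  have hφi : Function.Injective φ := hSi.comp E.inj
  have hφn : ∀ z, deriv φ z ≠ 0 := by
    intro z h0
    have h1 : HasDerivAt φ 0 z := by
      rw [← h0]
      exact (hφd z).hasDerivAt
    have h2 := (hTC (φ z)).hasFDerivAt.comp_hasDerivAt z h1
    rw [map_zero] at h2
    have h3 : (TC r u v ∘ φ) = ψ := funext hTφ
    rw [h3] at h2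
    exact E.der z h2.deriv
  have TT : TL (fun w => SC r u v ((fC b c)^[N] (TC r u v w))) lam t0 φ := by
    refine ⟨l0, l1, ht0, ?_, ?_, ?_, ?_, ?_⟩
    · intro z
      show SC r u v ((fC b c)^[N] (TC r u v (φ z))) = SC r u v (ψ (lam * z))
      rw [hTφ, E.conj]
    · intro t
      rw [hφr]
      exact fz_real r u v _
    · intro t ht
      obtain ⟨x, y, x', y', h1, h2, h3, h4⟩ := hx t ht
      rw [hφr, h1, SC_real hd]
      exact h3
    · intro t ht
      obtain ⟨x, y, x', y', h1, h2, h3, h4⟩ := hx t ht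
      rw [hφr, hφr, h1, h2, SC_real hd, SC_real hd]
      exact h4
    · have h1 : Tendsto (fun t : ℝ => SC r u v (cx (crv ψ t))) atTop (𝓝 (SC r u v (cx r))) :=
        ((hSC.continuous.comp cx_cont).tendsto r).comp hlim
      have h2 : SC r u v (cx r) = 0 := by
        rw [← fz_zero r u v, SC_TC hd]
      rw [h2] at h1
      exact h1.congr fun t => (hφr t).symm
  obtain ⟨D, hDd, hD⟩ := petal (nf hb hN hr hβ0 hβ1 hu hv hd) TT hφd hφi hφn
  have hlam : (lam : ℂ) ≠ 0 := Complex.ofReal_ne_zero.2 l0.ne'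
  -- forward iterates
  have hf : ∀ (n : ℕ) (t : ℂ), (fC b c)^[N * n] (ψ t) = ψ ((lam : ℂ) ^ n * t) := by
    intro n
    rw [Function.iterate_mul]
    induction n with
    | zero => intro t; simp
    | succ n ih =>
      intro t
      rw [Function.iterate_succ_apply, E.conj, ih]
      congr 1
      ring
  have hg1 : ∀ t : ℂ, (gC b c)^[N] (ψ t) = ψ (t / (lam : ℂ)) := by
    intro t
    have h1 := E.conj (t / (lam : ℂ))
    rw [mul_div_cancel₀ _ hlam] at h1
    rw [← h1]
    exact (Function.LeftInverse.iterate (fun w => gC_fC hb w) N) _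
  have hg : ∀ (n : ℕ) (t : ℂ), (gC b c)^[N * n] (ψ t) = ψ (t / (lam : ℂ) ^ n) := by
    intro n
    rw [Function.iterate_mul]
    induction n with
    | zero => intro t; simp
    | succ n ih =>
      intro t
      rw [Function.iterate_succ_apply, hg1, ih, div_div, pow_succ']
  have hNt : Tendsto (fun n : ℕ => N * n) atTop atTop :=
    tendsto_id.const_mul_atTop' hN
  have hbd : ∀ t ∈ D, ‖ψ t‖ ≤ |c| + 2 * |b| + 3 := by
    intro t ht
    have h1 : Tendsto (fun n : ℕ => ψ ((lam : ℂ) ^ n * t)) atTop (𝓝 (ψ 0)) := by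
      have h2 : Tendsto (fun n : ℕ => (lam : ℂ) ^ n * t) atTop (𝓝 (0 * t)) := by
        refine Tendsto.mul_const t (tendsto_pow_atTop_nhds_zero_of_norm_lt_one ?_)
        rw [Complex.norm_real, Real.norm_of_nonneg l0.le]
        exact l1
      rw [zero_mul] at h2
      exact (E.diff.continuous.tendsto 0).comp h2
    have h3 : Tendsto (fun n : ℕ => ψ (t / (lam : ℂ) ^ n)) atTop (𝓝 (cx r)) := by
      have h4 := (hTC.continuous.tendsto 0).comp (hD t ht)
      rw [fz_zero] at h4
      exact h4.congr fun n => hTφ _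
    have h5 : ∀ᶠ n : ℕ in atTop, ‖ψ ((lam : ℂ) ^ n * t)‖ ≤ max (‖ψ 0‖ + 1) (‖cx r‖ + 1) := by
      filter_upwards [h1.norm.eventually_lt_const (lt_add_one ‖ψ 0‖)] with n hn
      exact hn.le.trans (le_max_left _ _)
    have h6 : ∀ᶠ n : ℕ in atTop, ‖ψ (t / (lam : ℂ) ^ n)‖ ≤ max (‖ψ 0‖ + 1) (‖cx r‖ + 1) := by
      filter_upwards [h3.norm.eventually_lt_const (lt_add_one ‖cx r‖)] with n hn
      exact hn.le.trans (le_max_right _ _)
    refine filtC hb (M := max (‖ψ 0‖ + 1) (‖cx r‖ + 1)) ?_ ?_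
    · refine hNt.frequently (Eventually.frequently ?_)
      filter_upwards [h5] with n hn
      rw [hf]
      exact hn
    · refine hNt.frequently (Eventually.frequently ?_)
      filter_upwards [h6] with n hn
      rw [hg]
      exact hn
  have hall : ∀ z, ‖ψ z‖ ≤ |c| + 2 * |b| + 3 := by
    have h1 : closure D ⊆ {z | ‖ψ z‖ ≤ |c| + 2 * |b| + 3} :=
      closure_minimal hbd (isClosed_le E.diff.continuous.norm continuous_const)
    rw [hDd.closure_eq] at h1
    exact fun z => h1 (mem_univ z)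
  have hrange : Bornology.IsBounded (range ψ) := by
    rw [isBounded_iff_forall_norm_le]
    exact ⟨_, fun w ⟨z, hz⟩ => hz ▸ hall z⟩
  exact zero_ne_one (E.inj (E.diff.apply_eq_apply_of_bounded hrange 0 1))

end Pool.Agent.HF
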