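import Pool.Agent.HF.SB
import Pool.Agent.HE.Cross
import Pool.Agent.HE.NoSep

set_option autoImplicit false

/-!
HF-SH. If the branch meets the centre axis of the chart then it is contained in the centre axis from there on.

The backward orbit of the point of the centre axis lies on the centre axis; over each period the branch stays in the
compact arc of the axis between two consecutive points, by `cross` and `nonsep_of_NO`.
-/

namespace Pool.Agent.HF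

open Set Topology Filter Pool.Agent.HE

variable {F Φ : ℂ ≃ₜ ℂ} {γ : ℝ → ℂ} {lam : ℝ} {ell : ℝ → ℝ → ℂ} {r : ℂ} {h : ℝ} {s : ℝ → ℝ} {lm lp : ℝ}

/-- backward iterates on the branch -/
private theorem sh_iter (C : Ctx F γ lam ell) (m : ℕ) :
    ∀ t : ℝ, (F.symm : ℂ → ℂ)^[m] (γ t) = γ (t / lam ^ m) := by
  induction m with
  | zero => intro t; simp
  | succ m ih =>
    intro t
    have h1 : F.symm (γ t) = γ (t / lam) := by
      rw [Homeomorph.symm_apply_eq, C.conj, mul_div_cancel₀ _ C.lam0.ne']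
    rw [Function.iterate_succ_apply, h1, ih, div_div, pow_succ']

/-- the centre axis -/
private noncomputable def shc (Φ : ℂ ≃ₜ ℂ) (i σ : ℝ) : ℂ := Φ.symm ((i * σ : ℝ) : ℂ)

private theorem shc_cont (Φ : ℂ ≃ₜ ℂ) (i : ℝ) : Continuous (shc Φ i) := by
  unfold shc
  exact Φ.symm.continuous.comp (Complex.continuous_ofReal.comp (continuous_const.mul continuous_id))

private theorem shc_ap (Φ : ℂ ≃ₜ ℂ) (i σ : ℝ) : Φ (shc Φ i σ) = ((i * σ : ℝ) : ℂ) := by
  unfold shc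
  exact Φ.apply_symm_apply _

private theorem sh_sq {i : ℝ} (hi : i = 1 ∨ i = -1) : i * i = 1 := by
  rcases hi with rfl | rfl <;> norm_num

private theorem sh_abs {i : ℝ} (hi : i = 1 ∨ i = -1) (σ : ℝ) : |i * σ| = |σ| := by
  rcases hi with rfl | rfl
  · rw [one_mul]
  · rw [neg_one_mul, abs_neg]

private theorem shc_iter (P : PC F Φ r h s lm lp) {i : ℝ} (hi : i = 1 ∨ i = -1) (hs : s i = 2)
    {σ : ℝ} (h0 : 0 ≤ σ) (h1 : σ < h) (m : ℕ) :
    (F.symm : ℂ → ℂ)^[m] (shc Φ i σ) = shc Φ i (σ / 2 ^ m) := by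
  have hre : (Φ (shc Φ i σ)).re = i * σ := by rw [shc_ap, Complex.ofReal_re]
  have him : (Φ (shc Φ i σ)).im = 0 := by rw [shc_ap, Complex.ofReal_im]
  have h2 := P.c_back hi hs (w := shc Φ i σ) (by
    rw [hre, ← mul_assoc, sh_sq hi, one_mul]; exact h0) him (by
    rw [hre, sh_abs hi, abs_of_nonneg h0]; exact h1) m
  apply Φ.injective
  rw [shc_ap]
  apply Complex.ext
  · rw [h2.2, Complex.ofReal_re, hre]
    ring
  · rw [h2.1, Complex.ofReal_im]

theorem hit_centre (C : Ctx F γ lam ell) (P : PC F Φ r h s lm lp) (hr : r ∈ AA γ)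
    (hd : Differentiable ℝ γ) (hdn : ∀ t, deriv γ t ≠ 0) {t0 : ℝ} (ht0 : 0 < t0)
    (h1 : |(Φ (γ t0)).re| < h) (h2 : |(Φ (γ t0)).im| < h) (h3 : (Φ (γ t0)).im = 0) :
    ∃ i : ℝ, (i = 1 ∨ i = -1) ∧ s i = 2 ∧
      (∀ t ≥ t0, (Φ (γ t)).im = 0 ∧ 0 < i * (Φ (γ t)).re ∧ |(Φ (γ t)).re| < h ∧
        (Φ (γ (t / lam))).re = (Φ (γ t)).re / 2) ∧
      Tendsto (fun t => Φ (γ t)) atTop (𝓝 0) := by
  obtain ⟨i, hi, hix⟩ : ∃ i : ℝ, (i = 1 ∨ i = -1) ∧ 0 < i * (Φ (γ t0)).re := by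
    rcases lt_or_gt_of_ne (P.s_axis C hr ht0.le h1 h2) with hx | hx
    · exact ⟨-1, Or.inr rfl, by linarith⟩
    · exact ⟨1, Or.inl rfl, by linarith⟩
  have hs2 : s i = 2 := by
    rcases P.hs i hi with h' | h'
    · exact h'
    · exact (P.att_free C hr hi h' ht0.le h1 h2 hix.le).elim
  set X : ℝ := i * (Φ (γ t0)).re with hX
  have hl0 := C.lam0
  have hl1 := C.lam1
  have hXh : X < h := by
    have h4 : |X| < h := by rw [hX, sh_abs hi]; exact h1
    exact (le_abs_self X).trans_lt h4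
  have hγ0 : γ t0 = shc Φ i X := by
    apply Φ.injective
    rw [shc_ap]
    apply Complex.ext
    · rw [Complex.ofReal_re, hX, ← mul_assoc, sh_sq hi, one_mul]
    · rw [h3, Complex.ofReal_im]
  have hγk : ∀ k : ℕ, γ (t0 / lam ^ k) = shc Φ i (X / 2 ^ k) := by
    intro k
    rw [← sh_iter C k t0, hγ0, shc_iter P hi hs2 hix.le hXh]
  have hpow2 : ∀ k : ℕ, X / 2 ^ (k + 1) ≤ X / 2 ^ k := by
    intro k
    apply div_le_div_of_nonneg_left hix.le (by positivity)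
    exact pow_le_pow_right₀ (by norm_num) (Nat.le_succ k)
  have hXk : ∀ k : ℕ, X / 2 ^ k ≤ X := by
    intro k
    exact div_le_self hix.le (one_le_pow₀ (by norm_num))
  have hstep : ∀ k : ℕ, ∀ t ∈ Icc (t0 / lam ^ k) (t0 / lam ^ (k + 1)),
      γ t ∈ shc Φ i '' Icc (X / 2 ^ (k + 1)) (X / 2 ^ k) := by
    intro k τ hτ
    by_contra hk
    have hJc : IsCompact (shc Φ i '' Icc (X / 2 ^ (k + 1)) (X / 2 ^ k)) :=
      isCompact_Icc.image (shc_cont Φ i)
    have hJcon : IsConnected (shc Φ i '' Icc (X / 2 ^ (k + 1)) (X / 2 ^ k)) :=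
      (isConnected_Icc (hpow2 k)).image _ (shc_cont Φ i).continuousOn
    have hScl : IsClosed {t : ℝ | γ t ∈ shc Φ i '' Icc (X / 2 ^ (k + 1)) (X / 2 ^ k)} :=
      hJc.isClosed.preimage C.cont
    have he1 : γ (t0 / lam ^ k) ∈ shc Φ i '' Icc (X / 2 ^ (k + 1)) (X / 2 ^ k) := by
      rw [hγk]
      exact ⟨_, ⟨hpow2 k, le_refl _⟩, rfl⟩
    have he2 : γ (t0 / lam ^ (k + 1)) ∈ shc Φ i '' Icc (X / 2 ^ (k + 1)) (X / 2 ^ k) := by
      rw [hγk]
      exact ⟨_, ⟨le_refl _, hpow2 k⟩, rfl⟩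
    obtain ⟨k1, hk1, hk1m⟩ := ((isCompact_Icc (a := t0 / lam ^ k) (b := τ)).inter_right
      hScl).exists_isGreatest ⟨t0 / lam ^ k, ⟨le_refl _, hτ.1⟩, he1⟩
    obtain ⟨k2, hk2, hk2m⟩ := ((isCompact_Icc (a := τ) (b := t0 / lam ^ (k + 1))).inter_right
      hScl).exists_isLeast ⟨t0 / lam ^ (k + 1), ⟨hτ.2, le_refl _⟩, he2⟩
    have h10 : k1 < τ := by
      refine lt_of_le_of_ne hk1.1.2 ?_
      rintro rfl
      exact hk hk1.2
    have h02 : τ < k2 := by
      refine lt_of_le_of_ne hk2.1.1 ?_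
      rintro rfl
      exact hk hk2.2
    have hdis : ∀ u ∈ Ioo k1 k2, γ u ∉ shc Φ i '' Icc (X / 2 ^ (k + 1)) (X / 2 ^ k) := by
      intro u hu hmem
      rcases le_total u τ with h4 | h4
      · exact absurd (hk1m ⟨⟨hk1.1.1.trans hu.1.le, h4⟩, hmem⟩) (not_le.2 hu.1)
      · exact absurd (hk2m ⟨⟨h4, hu.2.le.trans hk2.1.2⟩, hmem⟩) (not_le.2 hu.2)
    refine cross hJc hJcon h10 h02 C.cont.continuousOn C.inj.injOn hk1.2 hk2.2 hdis
      (hd τ).hasDerivAt (hdn τ) ?_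
    have hcomp : IsCompact (shc Φ i '' Icc (X / 2 ^ (k + 1)) (X / 2 ^ k) ∪ γ '' Icc k1 k2) :=
      hJc.union (isCompact_Icc.image C.cont)
    obtain ⟨R1, hR1⟩ := C.bdd.exists_norm_le
    obtain ⟨R2, hR2⟩ := ((isCompact_Icc (a := (0 : ℝ)) (b := X)).image
      (shc_cont Φ i)).isBounded.exists_norm_le
    refine nonsep_of_NO C.no hcomp (R := max R1 R2) ?_
    intro m z hz
    rcases hz with ⟨σ, hσ, rfl⟩ | ⟨u, hu, rfl⟩
    · have hσ0 : 0 ≤ σ := (by positivity : (0 : ℝ) ≤ X / 2 ^ (k + 1)).trans hσ.1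
      have hσX : σ ≤ X := hσ.2.trans (hXk k)
      rw [shc_iter P hi hs2 hσ0 (hσX.trans_lt hXh)]
      refine (hR2 _ ⟨_, ⟨by positivity, ?_⟩, rfl⟩).trans (le_max_right _ _)
      exact (div_le_self hσ0 (one_le_pow₀ (by norm_num))).trans hσX
    · rw [sh_iter C]
      refine (hR1 _ ⟨_, ?_, rfl⟩).trans (le_max_left _ _)
      have h4 : 0 < t0 / lam ^ k := by positivity
      have h5 : 0 < u := h4.trans_le (hk1.1.1.trans hu.1)
      exact div_pos h5 (pow_pos hl0 m)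
  have hnear : ∀ t ≥ t0, ∃ k : ℕ, t0 / lam ^ k ≤ t ∧ t < t0 / lam ^ (k + 1) := by
    intro t ht
    obtain ⟨k, hk1, hk2⟩ := exists_nat_pow_near (x := t / t0) (y := lam⁻¹)
      ((one_le_div ht0).2 ht) ((one_lt_inv₀ hl0).2 hl1)
    refine ⟨k, ?_, ?_⟩
    · rw [le_div_iff₀ ht0] at hk1
      rw [div_eq_mul_inv, ← inv_pow, mul_comm]
      exact hk1
    · rw [div_lt_iff₀ ht0] at hk2
      rw [div_eq_mul_inv, ← inv_pow, mul_comm]
      exact hk2
  have hall : ∀ t ≥ t0, ∃ k : ℕ, t < t0 / lam ^ (k + 1) ∧ ∃ σ : ℝ, 0 < σ ∧ σ ≤ X / 2 ^ k ∧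
      Φ (γ t) = ((i * σ : ℝ) : ℂ) := by
    intro t ht
    obtain ⟨k, hk1, hk2⟩ := hnear t ht
    obtain ⟨σ, hσ, hσe⟩ := hstep k t ⟨hk1, hk2.le⟩
    refine ⟨k, hk2, σ, lt_of_lt_of_le (by positivity) hσ.1, hσ.2, ?_⟩
    rw [← hσe, shc_ap]
  refine ⟨i, hi, hs2, ?_, ?_⟩
  · intro t ht
    obtain ⟨k, _, σ, hσ0, hσ1, he⟩ := hall t ht
    have hre : (Φ (γ t)).re = i * σ := by rw [he, Complex.ofReal_re]
    have him : (Φ (γ t)).im = 0 := by rw [he, Complex.ofReal_im]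
    have hpos : 0 < i * (Φ (γ t)).re := by
      rw [hre, ← mul_assoc, sh_sq hi, one_mul]
      exact hσ0
    have hlt : |(Φ (γ t)).re| < h := by
      rw [hre, sh_abs hi, abs_of_pos hσ0]
      exact (hσ1.trans (hXk k)).trans_lt hXh
    refine ⟨him, hpos, hlt, ?_⟩
    have h4 := (P.c_back hi hs2 hpos.le him hlt 1).2
    rw [sh_iter C 1 t, pow_one, pow_one] at h4
    exact h4
  · rw [Metric.tendsto_atTop]
    intro ε hε
    obtain ⟨K, hK⟩ := exists_pow_lt_of_lt_one (div_pos hε hix) (by norm_num : (1 / 2 : ℝ) < 1)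
    refine ⟨max t0 (t0 / lam ^ K), fun t ht => ?_⟩
    have ht1 : t0 ≤ t := (le_max_left _ _).trans ht
    have ht2 : t0 / lam ^ K ≤ t := (le_max_right _ _).trans ht
    obtain ⟨k, hk, σ, hσ0, hσ1, he⟩ := hall t ht1
    have hKk : K ≤ k := by
      by_contra hc
      push Not at hc
      have h5 : t0 / lam ^ (k + 1) ≤ t0 / lam ^ K := by
        apply div_le_div_of_nonneg_left ht0.le (pow_pos hl0 _)
        exact pow_le_pow_of_le_one hl0.le hl1.le hc
      linarith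
    rw [dist_zero_right, he, Complex.norm_real, Real.norm_eq_abs, sh_abs hi, abs_of_pos hσ0]
    have h6 : X / 2 ^ k ≤ X / 2 ^ K := by
      apply div_le_div_of_nonneg_left hix.le (by positivity)
      exact pow_le_pow_right₀ (by norm_num) hKk
    have h7 : X / 2 ^ K < ε := by
      have h8 : (1 / 2 : ℝ) ^ K * X < ε := by
        have := mul_lt_mul_of_pos_right hK hix
        rwa [div_mul_cancel₀ _ hix.ne'] at this
      have h9 : X / 2 ^ K = (1 / 2 : ℝ) ^ K * X := by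
        rw [one_div, inv_pow]
        ring
      rw [h9]
      exact h8
    linarith

end Pool.Agent.HF
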