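import Pool.Agent.HF.FChart
import Pool.Agent.HF.FZ
import Pool.Agent.HF.SH

/-!
HF-FHu. A bounded stable branch does not meet the centre axis of a semi-neutral point of its limit set.

PLAN. By contradiction: `(Φ (crv ψ t)).im = 0` with `t > 0` in the box. `hit_centre C P hr ((crv_cd E).differentiable (by norm_num)) (crv_der E) ht h1 h2 h3` gives `i = ± 1`, `s i = 2`, for all `t' ≥ t`: `(Φ (γ t')).im = 0`, `0 < i * re`, `(Φ (γ (t' / lam))).re = (Φ (γ t')).re / 2`, and `Φ (γ t') → 0` as `t' → ∞`.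
Apply `no_centre hb hN (PC.fix P)` with the basis `i * u`, `v` (`i = ± 1` as a complex number): `LR M (i u) = i u` (`LR M` is real linear: write `i • u` or split `i = ± 1` first), the determinant is `i * det`. `hlim`: `crv ψ t' = Φ.symm (Φ (crv ψ t')) → Φ.symm 0 = r`. `hx`: for `t' ≥ t` (take `t0 = t`),
`hpt` gives `crv ψ t' = pt r u v x y`, `(Φ ..).re = η x`, and `crv ψ (t' / lam) = pt r u v x' y'` with `η x' = η x / 2` (`(Φ (γ (t' / lam))).im = 0` since `t' / lam ≥ t`). `pt r (i u) v (i x) y = pt r u v x y` (`i * i = 1`). `0 < i * η x` and `η` strictly monotone, `η 0 = 0` give `0 < i x`; `i x' < i x`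
because otherwise `i η x' ≥ i η x > i η x / 2`. The end is `False`.
-/

set_option autoImplicit false

/-!
HF-FHu. A bounded stable branch does not meet the centre axis of a semi-neutral point of its limit set.

The tail of the branch would be contained in the centre curve, on its repelling side, which is excluded by `no_centre`.
-/

namespace Pool.Agent.HF

open Set Topology Filter Pool.Agent.HE Pool.Agent.HD

theorem hu_par {b c : ℝ} (hb : b ≠ 0) {N : ℕ} (hN : 1 ≤ N) (hβ0 : 0 < b ^ N) (hβ1 : b ^ N < 1)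
    {p r : ℂ} {lam : ℝ} {ψ : ℂ → ℂ × ℂ} (E : Ent ((fC b c)^[N]) lam p ψ) {ell : ℝ → ℝ → ℂ}
    (C : Ctx (fN b c hb N) (crv ψ) lam ell) (hr : r ∈ AA (crv ψ)) {u v : ℂ}
    (hu : LR (mat b c N r) u = u) (hv : LR (mat b c N r) v = (b ^ N) • v)
    (hd : u.re * v.im - u.im * v.re ≠ 0) {Φ : ℂ ≃ₜ ℂ} {h : ℝ} {s : ℝ → ℝ} {lm lp : ℝ}
    (P : PC (fN b c hb N) Φ r h s lm lp) {η : ℝ → ℝ} (hη : StrictMono η) (hη0 : η 0 = 0)
    (hpt : ∀ z, (Φ z).im = 0 → ∃ x y : ℝ, z = pt r u v x y ∧ (Φ z).re = η x) :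
    ∀ t > 0, |(Φ (crv ψ t)).re| < h → |(Φ (crv ψ t)).im| < h → (Φ (crv ψ t)).im ≠ 0 := by
  intro t ht h1 h2 h3
  obtain ⟨i, hi, -, hall, hlim0⟩ := hit_centre C P hr ((crv_cd E).differentiable (by norm_num))
    (crv_der E) ht h1 h2 h3
  have hi2 : i * i = 1 := by rcases hi with rfl | rfl <;> norm_num
  have hi0 : i ≠ 0 := by rcases hi with rfl | rfl <;> norm_num
  have hu' : LR (mat b c N r) (i • u) = i • u := by rw [map_smul, hu]
  have hre : (i • u).re = i * u.re := by simp
  have him : (i • u).im = i * u.im := by simp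
  have hd' : (i • u).re * v.im - (i • u).im * v.re ≠ 0 := by
    rw [hre, him]
    have : i * u.re * v.im - i * u.im * v.re = i * (u.re * v.im - u.im * v.re) := by ring
    rw [this]
    exact mul_ne_zero hi0 hd
  have hlim : Tendsto (crv ψ) atTop (𝓝 r) := by
    have h4 : Tendsto (fun t => Φ.symm (Φ (crv ψ t))) atTop (𝓝 (Φ.symm 0)) :=
      (Φ.symm.continuous.tendsto 0).comp hlim0
    have h5 : Φ.symm 0 = r := by rw [← P.zero]; simp
    rw [h5] at h4
    exact h4.congr fun t => by simp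
  have hpt' : ∀ x y : ℝ, pt r (i • u) v (i * x) y = pt r u v x y := by
    intro x y
    unfold pt
    have h6 : ((i * x : ℝ) : ℂ) * (i • u) = (x : ℂ) * u := by
      rw [Complex.real_smul]
      push_cast
      have h7 : ((i : ℂ) * (i : ℂ)) = 1 := by
        rw [← Complex.ofReal_mul, hi2]; simp
      linear_combination (x : ℂ) * u * h7
    rw [h6]
  have hη' : ∀ x : ℝ, 0 < i * η x → 0 < i * x := by
    intro x hx
    rcases hi with rfl | rfl
    · rw [one_mul] at hx ⊢
      rw [← hη0] at hx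
      exact hη.lt_iff_lt.1 hx
    · have h8 : η x < η 0 := by rw [hη0]; linarith
      have := hη.lt_iff_lt.1 h8
      linarith
  have hη2 : ∀ x x' : ℝ, 0 < i * η x → η x' = η x / 2 → i * x' < i * x := by
    intro x x' hx hx'
    rcases hi with rfl | rfl
    · rw [one_mul] at hx
      have h9 : η x' < η x := by rw [hx']; linarith
      have := hη.lt_iff_lt.1 h9
      linarith
    · have h9 : η x < η x' := by rw [hx']; linarith
      have := hη.lt_iff_lt.1 h9
      linarith
  have hl0 := C.lam0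
  have hl1 := C.lam1
  refine no_centre hb hN (PC.fix P) hβ0 hβ1 hu' hv hd' hl0 hl1 E (t0 := t) ht ?_ hlim
  intro t' ht'
  obtain ⟨ha, hb1, -, hc⟩ := hall t' ht'
  have ht'' : t' ≤ t' / lam := by
    rw [le_div_iff₀ hl0]
    have h0 : 0 < t' := lt_of_lt_of_le ht ht'
    nlinarith
  obtain ⟨ha', hb1', -, -⟩ := hall (t' / lam) (ht'.trans ht'')
  obtain ⟨x, y, hxy, hx⟩ := hpt (crv ψ t') ha
  obtain ⟨x', y', hxy', hx'⟩ := hpt (crv ψ (t' / lam)) ha'
  refine ⟨i * x, y, i * x', y', ?_, ?_, ?_, ?_⟩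
  · rw [hpt']; exact hxy
  · rw [hpt']; exact hxy'
  · apply hη'
    rw [← hx]
    exact hb1
  · apply hη2
    · rw [← hx]; exact hb1
    · rw [← hx', ← hx]; exact hc

end Pool.Agent.HF
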