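import Pool.Agent.HF.SC
import Pool.Agent.HE.SQGap
import Pool.Agent.HE.Transf
import Pool.Agent.HE.Star
import Pool.Agent.HE.FixP
import Pool.Agent.HE.PLogH

set_option autoImplicit false

/-!
HF-SF. No semi-neutral point in the limit set which is missed by the centre axis.

A small closed curve around the semi-neutral point has a good gap, which is contained in one open quadrant of the
chart and disjoint from its image: a contradiction. Same proof as `no_saddle` in Pool/Agent/HE/SFin.lean.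
-/

namespace Pool.Agent.HF

open Set Topology Filter Pool.Agent.HE

variable {F Φ : ℂ ≃ₜ ℂ} {γ : ℝ → ℂ} {lam : ℝ} {ell : ℝ → ℝ → ℂ} {r : ℂ} {h : ℝ} {s : ℝ → ℝ} {lm lp : ℝ}

private theorem sign_ex {x : ℝ} (hx : x ≠ 0) : ∃ i : ℝ, (i = 1 ∨ i = -1) ∧ 0 < i * x := by
  rcases lt_or_gt_of_ne hx with h | h
  · exact ⟨-1, Or.inr rfl, by linarith⟩
  · exact ⟨1, Or.inl rfl, by linarith⟩

private theorem box_small {Φ : ℂ ≃ₜ ℂ} {r : ℂ} (h0 : Φ.symm 0 = r) {δ0 : ℝ} (hδ0 : 0 < δ0) :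
    ∃ δ1 > 0, ∀ w : ℂ, |w.re| < δ1 → |w.im| < δ1 → dist (Φ.symm w) r < δ0 := by
  have hc : ContinuousAt Φ.symm 0 := Φ.symm.continuous.continuousAt
  obtain ⟨δ, hδ, h⟩ := Metric.continuousAt_iff.1 hc δ0 hδ0
  refine ⟨δ / 2, half_pos hδ, fun w h1 h2 => ?_⟩
  have h3 := h (x := w) (by
    rw [dist_zero_right]
    have := Complex.norm_le_abs_re_add_abs_im w
    linarith)
  rwa [h0] at h3

theorem no_par (C : Ctx F γ lam ell) (P : PC F Φ r h s lm lp) (hr : r ∈ AA γ)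
    (hu : ∀ t > 0, |(Φ (γ t)).re| < h → |(Φ (γ t)).im| < h → (Φ (γ t)).im ≠ 0)
    (hg : ∀ ε > 0, ∃ κ D t0, Good γ ell κ D t0 ∧ ∀ z ∈ κ, dist z r < ε) : False := by
  obtain ⟨δ0, hδ0, htr⟩ := transf C hg
  have hs0 : Φ.symm 0 = r := by
    rw [← P.zero, Φ.symm_apply_apply]
  obtain ⟨δ1, hδ1, hcl⟩ := box_small (Φ := Φ) hs0 hδ0
  have hvis : ∀ i j : ℝ, ∃ δ > 0, ¬ Vis Φ γ i j → ∀ t > 0, 0 < i * (Φ (γ t)).re →
      0 < j * (Φ (γ t)).im → |(Φ (γ t)).re| < δ → |(Φ (γ t)).im| < δ → False := by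
    intro i j
    by_cases hv : Vis Φ γ i j
    · exact ⟨1, one_pos, fun h' => absurd hv h'⟩
    · unfold Vis at hv
      push Not at hv
      obtain ⟨δ, hδ, hv⟩ := hv
      refine ⟨δ, hδ, fun _ t ht h1 h2 h3 h4 => ?_⟩
      exact absurd (hv t ht h1 h2 h3) (not_le.2 h4)
  choose dv hdv hdv2 using hvis
  obtain ⟨δ, hδ, hδh, hδδ1, hδv⟩ : ∃ δ > 0, δ ≤ h ∧ δ ≤ δ1 ∧
      ∀ i j : ℝ, (i = 1 ∨ i = -1) → (j = 1 ∨ j = -1) → δ ≤ dv i j := by
    refine ⟨min (min h δ1) (min (min (dv 1 1) (dv 1 (-1))) (min (dv (-1) 1) (dv (-1) (-1)))),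
      lt_min (lt_min P.hh hδ1) (lt_min (lt_min (hdv _ _) (hdv _ _)) (lt_min (hdv _ _) (hdv _ _))),
      (min_le_left _ _).trans (min_le_left _ _), (min_le_left _ _).trans (min_le_right _ _), ?_⟩
    rintro i j (rfl | rfl) (rfl | rfl)
    · exact (min_le_right _ _).trans ((min_le_left _ _).trans (min_le_left _ _))
    · exact (min_le_right _ _).trans ((min_le_left _ _).trans (min_le_right _ _))
    · exact (min_le_right _ _).trans ((min_le_right _ _).trans (min_le_left _ _))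
    · exact (min_le_right _ _).trans ((min_le_right _ _).trans (min_le_right _ _))
  obtain ⟨c, hc, hc0, hcb, hcl2, hcX, hq⟩ := curve_par C P hr hu hδ hδh
  have hc' : Closed1 (fun s => Φ.symm (c s)) :=
    ⟨Φ.symm.continuous.comp hc.cont, fun s => by rw [hc.per]⟩
  have hne : ∀ s, Φ.symm (c s) ≠ r := by
    intro s hs
    rw [← hs0] at hs
    exact hc0 s (Φ.symm.injective hs)
  have hnl : ¬ PLog fun s => Φ.symm (c s) - r := by
    intro hP
    have h1 := plog_homeo hc' Φ P.zero hP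
    have h2 : (fun s => Φ (Φ.symm (c s))) = c := by
      funext s
      exact Φ.apply_symm_apply (c s)
    rw [h2] at h1
    exact hcl2 h1
  obtain ⟨κ, D, t0, hgap, G⟩ := htr (fun s => Φ.symm (c s)) hc' hnl hne hcX (fun s =>
    ⟨r, hr, hcl (c s) ((hcb s).1.trans_le hδδ1) ((hcb s).2.trans_le hδδ1)⟩)
  have ht0 := G.pos
  obtain ⟨e1, e2, -, -, -, hrange, -⟩ := gap_ends hc' hgap
  obtain ⟨s, hs⟩ := hrange G.mem
  have hs' : Φ (γ t0) = c s := by
    rw [← hs]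
    exact Φ.apply_symm_apply (c s)
  have hre : |(Φ (γ t0)).re| < δ := by
    rw [hs']
    exact (hcb s).1
  have him : |(Φ (γ t0)).im| < δ := by
    rw [hs']
    exact (hcb s).2
  have hre0 := PC.s_axis C P hr ht0.le (hre.trans_le hδh) (him.trans_le hδh)
  have him0 := hu t0 ht0 (hre.trans_le hδh) (him.trans_le hδh)
  obtain ⟨i, hi, hi2⟩ := sign_ex hre0
  obtain ⟨j, hj, hj2⟩ := sign_ex him0
  have hV : Vis Φ γ i j := by
    by_contra hV
    exact hdv2 i j hV t0 ht0 hi2 hj2 (hre.trans_le (hδv i j hi hj)) (him.trans_le (hδv i j hi hj))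
  obtain ⟨a, p, α, β, Q, K⟩ := hq i j hi hj hV
  have hsub := quad_gap hc Q K hgap (w := Φ (γ t0)) (by
    rw [Φ.symm_apply_apply]
    exact G.mem) (by
    rw [Φ.symm_apply_apply]
    exact mem_xx C ht0.le) hi2 hj2
  refine star C G ?_
  rw [disjoint_left]
  rintro _ ⟨z, hz, rfl⟩ hz'
  obtain ⟨x, hx, hxz⟩ := hsub hz
  obtain ⟨y, hy, hyz⟩ := hsub hz'
  have h1 : F (Φ.symm (a x)) = Φ.symm (a y) := by
    rw [show Φ.symm (a x) = z from hxz, show Φ.symm (a y) = F z from hyz]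
  have h2 := K.free x hx y hy h1
  rw [show Φ.symm (a y) = F z from hyz] at h2
  exact disjoint_left.1 G.cut.disj hz' h2

end Pool.Agent.HF
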