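import Pool.Agent.HF.FAx
import Pool.Agent.HF.FHu
import Pool.Agent.HF.FDb
import Pool.Agent.HF.FCtx
import Pool.Agent.HF.SF
import Pool.Agent.HF.ANAccT
import Pool.Agent.HE.HBr

set_option autoImplicit false

/-!
HF-FBr. The stable branches of a saddle or semi-neutral periodic point are unbounded.

A bounded branch does not accumulate on its own periodic point `p`, so it satisfies all conditions of `Ctx`, and good crosscuts accumulate at
a fixed point `r` of its limit set, `r ≠ p`. The point `r` is not a sink (`not_sink`), not a saddle (`no_saddle`: the branch does not meet the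
local unstable curve), not semi-neutral with eigenvalue `1` (`no_par`: the branch does not meet the centre axis) nor with eigenvalue `-1`
(pass to the second iterate).
-/

namespace Pool.Agent.HF

open Set Topology Filter Pool.Agent.HE Pool.Agent.HD

private lemma abs_sgn {e x : ℝ} (he : e = 1 ∨ e = -1) (h : 0 < e * x) : |x| = e * x := by
  rcases he with rfl | rfl
  · rw [one_mul] at h ⊢
    exact abs_of_pos h
  · rw [neg_one_mul] at h ⊢
    exact abs_of_neg (by linarith)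

private lemma strict_crv {b c : ℝ} {N : ℕ} {μ : ℝ} {q : ℂ} {ψ : ℂ → ℂ × ℂ}
    (E : Ent ((fC b c)^[N]) μ q ψ) (t : ℝ) :
    HasStrictDerivAt (crv ψ) (deriv (crv ψ) t) t :=
  (crv_cd E).contDiffAt.hasStrictDerivAt (by norm_num)

/-- no point of the limit set near which there are good crosscuts is semi-neutral with eigenvalue `1` -/
private lemma no_one {b c : ℝ} (hb : b ≠ 0) {N : ℕ} (hN : 1 ≤ N) (hβ0 : 0 < b ^ N)
    (hβ1 : b ^ N < 1) {p r : ℂ} {lam : ℝ} {ψ : ℂ → ℂ × ℂ} (E : Ent ((fC b c)^[N]) lam p ψ)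
    {ell : ℝ → ℝ → ℂ} (C : Ctx (fN b c hb N) (crv ψ) lam ell) (hr : r ∈ AA (crv ψ))
    (hFr : fN b c hb N r = r) (ht : tr (mat b c N r) = 1 + b ^ N)
    (hg : ∀ ε > 0, ∃ κ D t0, Good (crv ψ) ell κ D t0 ∧ ∀ z ∈ κ, dist z r < ε) : False := by
  obtain ⟨u, v, hu, hv, hd, Φ, h, s, lm, lp, η, P, h1, h2, h3, -⟩ :=
    chart_par hb hN hFr hβ0 hβ1 ht
  exact no_par C P hr (hu_par hb hN hβ0 hβ1 E C hr hu hv hd P h1 h2 h3) hg

/-- the branch does not accumulate on its own periodic point -/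
private lemma nacc_p {b c : ℝ} (hb : b ≠ 0) (hb1 : |b| < 1) {N : ℕ} (hN : 1 ≤ N)
    (hβ0 : 0 < b ^ N) (hβ1 : b ^ N < 1) {p : ℂ} {lam σ : ℝ} (l0 : 0 < lam) (l1 : lam < 1)
    (hσ : 1 ≤ σ) (ht : tr (mat b c N p) = σ + lam) (hd : b ^ N = σ * lam)
    {ψ : ℂ → ℂ × ℂ} (E : Ent ((fC b c)^[N]) lam p ψ)
    (hbd : Bornology.IsBounded (crv ψ '' Ioi 0)) : p ∉ AA (crv ψ) := by
  have hc : Continuous (crv ψ) := (crv_cd E).continuous
  have hi : Function.Injective (crv ψ) := crv_inj E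
  have hF := crv_conj hb E
  have hp0 : crv ψ 0 = p := crv_zero E
  have hp : fN b c hb N p = p := by
    have h1 := hF 0
    rwa [mul_zero, hp0] at h1
  have no : NO (fN b c hb N) := no_fN hb hb1 hN
  rcases hσ.eq_or_lt with h1 | hσ
  · -- semi-neutral
    rw [← h1] at ht hd
    rw [one_mul] at hd
    obtain ⟨u, v, -, -, -, Φ, h, s, lm, lp, η, P, -, -, -, hx⟩ :=
      chart_par hb hN hp hβ0 hβ1 (by rw [ht, hd])
    obtain ⟨t0, ht0, h4⟩ := ax_par l0 l1 (crv_cd E) hp0 hF P.hh P.zero hx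
    exact nacc_par P no l0 l1 hc hi hF hbd hp0 ⟨t0, ht0, fun t ht => h4 t (by
      rw [abs_of_nonneg ht.1]
      exact ht.2)⟩
  · -- saddle
    have hσ' : 1 < |σ| := by rwa [abs_of_pos (by linarith)]
    have hl' : |lam| < |σ| := by
      rw [abs_of_pos l0]
      linarith
    obtain ⟨ψu, Eu⟩ := ent_u hb hp ht hd hσ' hl'
    obtain ⟨Φ, h, sm, sp, lm, lp, ch, -, -, t0, ht0, h4⟩ :=
      exists_chart (hasStrict_fN b c hb N p) (e := 1) (μ := σ) (ν := lam) (Or.inl rfl)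
        (by rwa [one_mul]) (by rwa [one_mul]) (by rwa [one_mul])
        (crv_zero Eu) hp0 (crv_der Eu 0) (crv_der E 0) (strict_crv Eu 0)
        (strict_crv E 0) (crv_conj hb Eu) hF
    exact nacc ch no l0 l1 hc hi hF hbd hp0 ⟨t0, ht0, fun t ht => h4 t (by
      rw [abs_of_nonneg ht.1]
      exact ht.2)⟩

theorem branch_par {b c : ℝ} (hb : b ≠ 0) (hb1 : |b| < 1) {n : ℕ} (hn : 1 ≤ n) {p : ℂ}
    {lam σ : ℝ} (l0 : 0 < lam) (l1 : lam < 1) (hσ : 1 ≤ σ)
    (ht : tr (mat b c (2 * n) p) = σ + lam) (hd : b ^ (2 * n) = σ * lam)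
    {ψ : ℂ → ℂ × ℂ} (E : Ent ((fC b c)^[2 * n]) lam p ψ) :
    ¬ Bornology.IsBounded (crv ψ '' Ioi 0) := by
  intro hbd
  have hpow : ∀ m : ℕ, 1 ≤ m → 0 < b ^ (2 * m) ∧ b ^ (2 * m) < 1 := by
    intro m hm
    have h1 : b ^ 2 < 1 := (sq_lt_one_iff_abs_lt_one b).2 hb1
    have h2 : 0 < b ^ 2 := by positivity
    rw [pow_mul]
    exact ⟨by positivity, pow_lt_one₀ (sq_nonneg b) h1 (by omega)⟩
  obtain ⟨hβ0, hβ1⟩ := hpow n hn
  have hN : 1 ≤ 2 * n := by omega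
  have hc : Continuous (crv ψ) := (crv_cd E).continuous
  have hi : Function.Injective (crv ψ) := crv_inj E
  have hF := crv_conj hb E
  have hp0 : crv ψ 0 = p := crv_zero E
  have no : NO (fN b c hb (2 * n)) := no_fN hb hb1 hN
  have hnacc : p ∉ AA (crv ψ) := nacc_p hb hb1 hN hβ0 hβ1 l0 l1 hσ ht hd E hbd
  have hna : ∀ t, crv ψ t ∉ AA (crv ψ) := not_aa l0 l1 hc hF (by rwa [hp0])
  have C : Ctx (fN b c hb (2 * n)) (crv ψ) lam (col (crv ψ)) :=
    mk_ctx hb hb1 hN hβ0 l0 l1 E hbd hnacc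
  obtain ⟨r, hr, hFr, hg⟩ := fixp C
  have hrp : p ≠ r := by
    rintro rfl
    exact hnacc hr
  rcases tri (T := tr (mat b c (2 * n) r)) hβ0 hβ1 with h1 | h1 | ⟨e, μ, ν, he, hT, hβ, hμ, hν0, hν⟩
  · apply hrp
    rw [← hp0]
    exact not_sink hFr (hasStrict_fN b c hb (2 * n) r) (by rw [dt_mat]; exact hβ0)
      (by rw [dt_mat]; exact hβ1) (by rw [dt_mat]; exact h1) l0 l1 hc hF hr
  · rcases (abs_eq (by linarith)).1 h1 with h2 | h2
    · exact no_one hb hN hβ0 hβ1 E C hr hFr h2 hg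
    · obtain ⟨hγ0, hγ1⟩ := hpow (2 * n) hN
      have hN2 : 1 ≤ 2 * (2 * n) := by omega
      have E2 := ent_two E
      have C2 : Ctx (fN b c hb (2 * (2 * n))) (crv ψ) (lam ^ 2) (col (crv ψ)) :=
        mk_ctx hb hb1 hN2 hγ0 (by positivity) (pow_lt_one₀ l0.le l1 (by norm_num)) E2 hbd hnacc
      refine no_one hb hN2 hγ0 hγ1 E2 C2 hr (fN_two hb hFr) ?_ hg
      rw [tr_two hb hFr, h2]
      ring
  · obtain ⟨Φ, h, sm, sp, lm, lp, ψu, ch, Eu, h3⟩ := chart_s hb hFr he hT hβ hμ hν0 hν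
    refine no_saddle C ch hr (fun t ht h1 h2 h0 => ?_) hg
    obtain ⟨τ0, hτ⟩ := h3 (crv ψ t) h1 h2 h0
    have hμ' : 1 < |μ| := by rwa [abs_sgn he (by linarith)]
    have hτ0 : τ0 ≠ 0 := by
      rintro rfl
      rw [crv_zero Eu] at hτ
      rw [hτ] at hr
      exact hna t hr
    have h5 := no_hit no l0 l1 hμ' hc hi ((crv_cd Eu).differentiable (by norm_num)) (crv_inj Eu)
      (crv_der Eu) hF (crv_conj hb Eu) hbd ht hτ0 hτ.symm
    refine no_common hb hN hrp l0 l1 hμ' E Eu (s1 := lam ^ 2 * t) (s2 := t) (by positivity) ?_ h5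
    have h6 : lam ^ 2 < 1 := pow_lt_one₀ l0.le l1 (by norm_num)
    nlinarith

end Pool.Agent.HF
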