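import Pool.Agent.HF.LChart
import Pool.Agent.HF.FNF

set_option autoImplicit false

/-!
HF-FChart. Topological chart at a semi-neutral fixed point of an iterate of the real Henon map.
-/

namespace Pool.Agent.HF

open Set Topology Filter Pool.Agent.HE Pool.Agent.HD

/-- points in the box which converge exponentially to `q` have first coordinate `0` -/
def XC (F Φ : ℂ ≃ₜ ℂ) (q : ℂ) (h : ℝ) : Prop :=
  ∀ ρ C : ℝ, ∀ z : ℂ, 0 ≤ ρ → ρ < 1 →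
    (∀ k : ℕ, |(Φ ((F : ℂ → ℂ)^[k] z)).re| < h ∧ |(Φ ((F : ℂ → ℂ)^[k] z)).im| < h) →
    (∀ k : ℕ, dist ((F : ℂ → ℂ)^[k] z) q ≤ C * ρ ^ k) → (Φ z).re = 0

theorem chart_par {b c : ℝ} (hb : b ≠ 0) {N : ℕ} (hN : 1 ≤ N) {q : ℂ} (hq : fN b c hb N q = q)
    (hβ0 : 0 < b ^ N) (hβ1 : b ^ N < 1) (ht : tr (mat b c N q) = 1 + b ^ N) :
    ∃ u v : ℂ, LR (mat b c N q) u = u ∧ LR (mat b c N q) v = (b ^ N) • v ∧
      u.re * v.im - u.im * v.re ≠ 0 ∧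
      ∃ (Φ : ℂ ≃ₜ ℂ) (h : ℝ) (s : ℝ → ℝ) (lm lp : ℝ) (η : ℝ → ℝ),
        PC (fN b c hb N) Φ q h s lm lp ∧ StrictMono η ∧ η 0 = 0 ∧
        (∀ z, (Φ z).im = 0 → ∃ x y : ℝ, z = pt q u v x y ∧ (Φ z).re = η x) ∧
        XC (fN b c hb N) Φ q h := by
  obtain ⟨u, v, hu, hv, hd⟩ := eigs hβ1 ht (dt_mat b c N q)
  obtain ⟨Φ, h, s, lm, lp, η, P, h1, h2, h3, h4⟩ :=
    exists_pc (hasStrict_fN b c hb N q) hq hβ0 hβ1 hu hv hd (iso_real hb hN q)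
  exact ⟨u, v, hu, hv, hd, Φ, h, s, lm, lp, η, P, h1, h2, h3, h4⟩

end Pool.Agent.HF
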