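import Mathlib

set_option autoImplicit false

/-!
HF-FMeas. Ergodic measures with an atom: the set of atoms is countable, invariant and charged,
hence of full measure, and every atom is periodic. Only Mathlib.
-/

namespace Pool.Agent.HF

open MeasureTheory Set Topology Filter

theorem atom {f : ℝ × ℝ → ℝ × ℝ} (hf : Function.Injective f) {μ : Measure (ℝ × ℝ)}
    [IsProbabilityMeasure μ] (hμ : Ergodic f μ) {p : ℝ × ℝ} (hp : μ {p} ≠ 0) :
    ∀ᵐ q ∂μ, μ {q} ≠ 0 ∧ ∃ n : ℕ, 1 ≤ n ∧ f^[n] q = q := by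
  have hmp : MeasurePreserving f μ μ := hμ.toMeasurePreserving
  have hAc : {q : ℝ × ℝ | μ {q} ≠ 0}.Countable := by
    have h := Measure.countable_meas_pos_of_disjoint_iUnion (μ := μ)
      (As := fun q : ℝ × ℝ => ({q} : Set (ℝ × ℝ))) (fun q => measurableSet_singleton q)
      (fun a b hab => by simpa [Function.onFun] using hab)
    exact h.mono (fun q hq => pos_iff_ne_zero.2 hq)
  have hAm : MeasurableSet {q : ℝ × ℝ | μ {q} ≠ 0} := hAc.measurableSet
  have hfq : ∀ q, f ⁻¹' {f q} = {q} := fun q => by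
    ext x
    simp [hf.eq_iff]
  have hinv : ∀ q, μ {f q} = μ {q} := fun q => by
    have h := hmp.measure_preimage (measurableSet_singleton (f q)).nullMeasurableSet
    rw [hfq q] at h
    exact h.symm
  have hpre : f ⁻¹' {q : ℝ × ℝ | μ {q} ≠ 0} = {q : ℝ × ℝ | μ {q} ≠ 0} := by
    ext q
    simp only [mem_preimage, mem_setOf_eq, hinv]
  have hA1 : μ {q : ℝ × ℝ | μ {q} ≠ 0} = 1 := by
    rcases hμ.toPreErgodic.prob_eq_zero_or_one hAm hpre with h | h
    · exfalso
      apply hp
      have hsub : ({p} : Set (ℝ × ℝ)) ⊆ {q : ℝ × ℝ | μ {q} ≠ 0} := by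
        intro x hx
        rw [mem_singleton_iff] at hx
        subst hx
        exact hp
      exact measure_mono_null hsub h
    · exact h
  have hae : ∀ᵐ q ∂μ, μ {q} ≠ 0 := by
    have h0 : μ {q : ℝ × ℝ | μ {q} ≠ 0}ᶜ = 0 := (prob_compl_eq_zero_iff hAm).2 hA1
    exact mem_ae_iff.2 h0
  filter_upwards [hae] with q hq
  refine ⟨hq, ?_⟩
  by_contra hno
  push Not at hno
  have hit : ∀ k : ℕ, μ {f^[k] q} = μ {q} := by
    intro k
    induction k with
    | zero => simp
    | succ k ih => rw [Function.iterate_succ_apply', hinv, ih]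
  have key : ∀ j k : ℕ, j < k → f^[j] q ≠ f^[k] q := by
    intro j k hjk h
    have h2 : f^[j] (f^[k - j] q) = f^[j] q := by
      rw [← Function.iterate_add_apply, Nat.add_sub_cancel' hjk.le, h]
    exact hno (k - j) (by omega) ((hf.iterate j) h2)
  have hdis : Pairwise (Function.onFun Disjoint (fun k : ℕ => ({f^[k] q} : Set (ℝ × ℝ)))) := by
    intro j k hjk
    rw [Function.onFun, disjoint_singleton]
    rcases lt_or_gt_of_ne hjk with h | h
    · exact key j k h
    · exact (key k j h).symm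
  have hU := measure_iUnion (μ := μ) hdis (fun k => measurableSet_singleton (f^[k] q))
  simp only [hit] at hU
  rw [ENNReal.tsum_const_eq_top_of_ne_zero hq] at hU
  have hle : μ (⋃ k : ℕ, ({f^[k] q} : Set (ℝ × ℝ))) ≤ 1 := prob_le_one
  rw [hU] at hle
  exact absurd hle (by simp)

end Pool.Agent.HF
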