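import Pool.Agent.HF.FMain
import Pool.Agent.HF.FMeas
import Pool.Agent.HD.Main

set_option autoImplicit false

/-!
HF-FErg. Mild dissipation for all ergodic measures which have an atom or a positive exponent.
-/

namespace Pool.Agent.HF

open MeasureTheory Set Topology Filter Pool.Agent.HE Pool.Agent.HD

theorem erg {b c : ℝ} (hb : b ≠ 0) (hb1 : |b| < 1) {μ : Measure (ℝ × ℝ)} [IsProbabilityMeasure μ]
    (hμ : Ergodic (G 1 b c) μ)
    (hs : ∀ (p : ℝ × ℝ) (n : ℕ), 1 ≤ n → (G 1 b c)^[n] p = p → μ {p} ≠ 0 →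
      ∃ m : ℝ, 1 ≤ |m| ∧ ∃ v : ℝ × ℝ, v ≠ 0 ∧ fderiv ℝ ((G 1 b c)^[n]) p v = m • v)
    (he : (∀ p, μ {p} = 0) →
      μ {p | 0 < limsup (fun n : ℕ => Real.log ‖fderiv ℝ ((G 1 b c)^[n]) p‖ / n) atTop} ≠ 0) :
    ∀ᵐ p ∂μ, ∃ γ : ℝ → ℝ × ℝ, Continuous γ ∧ Function.Injective γ ∧ γ 0 = p ∧
      Set.range γ = Ws (G 1 b c) p ∧ ¬ Bornology.IsBounded (γ '' Set.Ioi 0) ∧
      ¬ Bornology.IsBounded (γ '' Set.Iio 0) := by
  by_cases h : ∀ p, μ {p} = 0
  · exact Pool.Agent.HD.main hb hb1 hμ h (he h)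
  · push Not at h
    obtain ⟨p, hp⟩ := h
    have hinj : Function.Injective (G 1 b c) := by
      intro x y hxy
      have h1 : pr (fN b c hb 1 ⟨x.1, x.2⟩) = pr (fN b c hb 1 ⟨y.1, y.2⟩) := by
        rw [pr_fN, pr_fN, Function.iterate_one]
        exact hxy
      have h2 : (fN b c hb 1) (⟨x.1, x.2⟩ : ℂ) = (fN b c hb 1) (⟨y.1, y.2⟩ : ℂ) := by
        have h3 := congrArg Prod.fst h1
        have h4 := congrArg Prod.snd h1
        exact Complex.ext h3 h4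
      have h3 := (fN b c hb 1).injective h2
      exact Prod.ext (congrArg Complex.re h3) (congrArg Complex.im h3)
    filter_upwards [atom hinj hμ hp] with q hq
    obtain ⟨h1, n, hn, hqn⟩ := hq
    obtain ⟨m, hm, v, hv, hmv⟩ := hs q n hn hqn h1
    exact periodic hb hb1 hn hqn hm hv hmv

end Pool.Agent.HF
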