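import Mathlib

set_option autoImplicit false

/-!
HF-FFa. A system of quadratic equations with finitely many solutions: multiplication by a
coordinate acts on the square free monomials by a constant matrix, so the coordinate is an
eigenvalue of this matrix.
-/

namespace Pool.Agent.HF

open Set Topology Filter

private theorem mono_aux {ι : Type*} [Fintype ι] [DecidableEq ι] (nx pv : ι → ι) (b c : ℂ) :
    ∀ (n : ℕ) (i : ι) (S : Finset ι), S.card = n → ∃ C : Finset ι → ℂ, ∀ X : ι → ℂ,
      (∀ j, X j ^ 2 = X (nx j) + b * X (pv j) - c) →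
      X i * ∏ j ∈ S, X j = ∑ T, C T * ∏ j ∈ T, X j := by
  intro n
  induction n using Nat.strong_induction_on with
  | _ n ih =>
    intro i S hS
    by_cases hi : i ∈ S
    · have hc : (S.erase i).card < n := by
        rw [← hS]
        exact Finset.card_erase_lt_of_mem hi
      obtain ⟨C1, h1⟩ := ih _ hc (nx i) (S.erase i) rfl
      obtain ⟨C2, h2⟩ := ih _ hc (pv i) (S.erase i) rfl
      refine ⟨fun T => C1 T + b * C2 T - (if T = S.erase i then c else 0), ?_⟩
      intro X hX
      have e : ∑ T, (C1 T + b * C2 T - (if T = S.erase i then c else 0)) * ∏ j ∈ T, X j =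
          ∑ T, C1 T * ∏ j ∈ T, X j + b * ∑ T, C2 T * ∏ j ∈ T, X j -
            c * ∏ j ∈ S.erase i, X j := by
        have e1 : c * ∏ j ∈ S.erase i, X j =
            ∑ T : Finset ι, (if T = S.erase i then c else 0) * ∏ j ∈ T, X j := by
          rw [Finset.sum_eq_single (S.erase i)]
          · rw [if_pos rfl]
          · intro T _ hT
            rw [if_neg hT, zero_mul]
          · intro h
            exact absurd (Finset.mem_univ _) h
        rw [e1, Finset.mul_sum, ← Finset.sum_add_distrib, ← Finset.sum_sub_distrib]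
        refine Finset.sum_congr rfl fun T _ => ?_
        ring
      rw [← Finset.mul_prod_erase S X hi, e, ← h1 X hX, ← h2 X hX]
      linear_combination (∏ j ∈ S.erase i, X j) * hX i
    · refine ⟨fun T => if T = insert i S then 1 else 0, ?_⟩
      intro X _
      rw [Finset.sum_eq_single (insert i S)]
      · beta_reduce
        rw [if_pos rfl, one_mul, Finset.prod_insert hi]
      · intro T _ hT
        beta_reduce
        rw [if_neg hT, zero_mul]
      · intro h
        exact absurd (Finset.mem_univ _) h

theorem mono_mat {ι : Type*} [Fintype ι] [DecidableEq ι] (nx pv : ι → ι) (b c : ℂ) (i : ι) :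
    ∃ M : Matrix (Finset ι) (Finset ι) ℂ, ∀ X : ι → ℂ,
      (∀ j, X j ^ 2 = X (nx j) + b * X (pv j) - c) →
      ∀ S, X i * ∏ j ∈ S, X j = ∑ T, M S T * ∏ j ∈ T, X j := by
  choose C hC using fun S : Finset ι => mono_aux nx pv b c S.card i S rfl
  exact ⟨Matrix.of C, fun X hX S => hC S X hX⟩

theorem fin_vals {ι : Type*} [Fintype ι] [DecidableEq ι] (nx pv : ι → ι) (b c : ℂ) (i : ι) :
    {x : ℂ | ∃ X : ι → ℂ, (∀ j, X j ^ 2 = X (nx j) + b * X (pv j) - c) ∧ X i = x}.Finite := by
  obtain ⟨M, hM⟩ := mono_mat nx pv b c i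
  refine (Module.End.finite_hasEigenvalue (Matrix.toLin' M)).subset ?_
  rintro x ⟨X, hX, rfl⟩
  refine Module.End.hasEigenvalue_of_hasEigenvector (x := fun S => ∏ j ∈ S, X j) ?_
  rw [Module.End.hasEigenvector_iff, Module.End.mem_eigenspace_iff]
  refine ⟨?_, ?_⟩
  · rw [Matrix.toLin'_apply]
    funext S
    rw [Pi.smul_apply, smul_eq_mul, hM X hX S]
    rfl
  · intro h
    have h0 := congrFun h ∅
    simp at h0

end Pool.Agent.HF
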