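import Pool.Agent.HF.Defs
import Pool.Agent.HE.HTri

set_option autoImplicit false

/-!
HF-FLin. Eigenvectors of a semi-neutral matrix (eigenvalues `1` and `β`), and the complex affine
coordinates at a real point with two real basis vectors.
-/

namespace Pool.Agent.HF

open Set Topology Filter Pool.Agent.HE Pool.Agent.HD

/-- complex affine coordinates at the real point `q` with real basis vectors `u`, `v` -/
noncomputable def TC (q u v : ℂ) (w : ℂ × ℂ) : ℂ × ℂ :=
  ((q.re : ℂ) + w.1 * (u.re : ℂ) + w.2 * (v.re : ℂ),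
    (q.im : ℂ) + w.1 * (u.im : ℂ) + w.2 * (v.im : ℂ))

/-- the inverse of `TC` -/
noncomputable def SC (q u v : ℂ) (w : ℂ × ℂ) : ℂ × ℂ :=
  (((w.1 - q.re) * (v.im : ℂ) - (w.2 - q.im) * (v.re : ℂ)) / ((u.re * v.im - u.im * v.re : ℝ) : ℂ),
    ((w.2 - q.im) * (u.re : ℂ) - (w.1 - q.re) * (u.im : ℂ)) /
      ((u.re * v.im - u.im * v.re : ℝ) : ℂ))

private theorem ker_aux {p q r s : ℝ} (h : p * s - q * r = 0) :
    ∃ v : ℝ × ℝ, v ≠ 0 ∧ p * v.1 + q * v.2 = 0 ∧ r * v.1 + s * v.2 = 0 := by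
  by_cases h1 : q = 0 ∧ p = 0
  · by_cases h2 : r = 0 ∧ s = 0
    · refine ⟨(1, 0), ?_, ?_, ?_⟩
      · intro h3
        have := congrArg Prod.fst h3
        simp at this
      · rw [h1.1, h1.2]
        ring
      · rw [h2.1, h2.2]
        ring
    · refine ⟨(s, -r), ?_, ?_, ?_⟩
      · intro h3
        have e1 := congrArg Prod.fst h3
        have e2 := congrArg Prod.snd h3
        apply h2
        refine ⟨?_, e1⟩
        have e3 : -r = 0 := e2
        linarith
      · linear_combination h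
      · ring
  · refine ⟨(-q, p), ?_, ?_, ?_⟩
    · intro h3
      have e1 : -q = 0 := congrArg Prod.fst h3
      have e2 : p = 0 := congrArg Prod.snd h3
      exact h1 ⟨by linarith, e2⟩
    · ring
    · linear_combination h

theorem eigs {M : M2} {β : ℝ} (hβ1 : β < 1) (ht : tr M = 1 + β) (hd : dt M = β) :
    ∃ u v : ℂ, LR M u = u ∧ LR M v = β • v ∧ u.re * v.im - u.im * v.re ≠ 0 := by
  unfold tr at ht
  unfold dt at hd
  have k1 : (M.1.1 - 1) * (M.2.2 - 1) - M.1.2 * M.2.1 = 0 := by linear_combination hd - ht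
  have k2 : (M.1.1 - β) * (M.2.2 - β) - M.1.2 * M.2.1 = 0 := by
    linear_combination hd - β * ht
  obtain ⟨a, ha, a1, a2⟩ := ker_aux k1
  obtain ⟨b, hb, b1, b2⟩ := ker_aux k2
  refine ⟨⟨a.1, a.2⟩, ⟨b.1, b.2⟩, ?_, ?_, ?_⟩
  · rw [LR_apply]
    refine Complex.ext ?_ ?_
    · show M.1.1 * a.1 + M.1.2 * a.2 = a.1
      linear_combination a1
    · show M.2.1 * a.1 + M.2.2 * a.2 = a.2
      linear_combination a2
  · rw [LR_apply]
    refine Complex.ext ?_ ?_
    · rw [Complex.smul_re]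
      show M.1.1 * b.1 + M.1.2 * b.2 = β * b.1
      linear_combination b1
    · rw [Complex.smul_im]
      show M.2.1 * b.1 + M.2.2 * b.2 = β * b.2
      linear_combination b2
  · intro h
    have h' : a.1 * b.2 - a.2 * b.1 = 0 := h
    have hβ : (1 - β) ≠ 0 := by linarith
    -- a.1 * b = b.1 * a and a.2 * b = b.2 * a as vectors
    have c1 : (1 - β) * (a.1 * b.1) = 0 := by
      linear_combination (-(1 : ℝ)) * M.1.2 * h' - b.1 * a1 + a.1 * b1
    have c2 : (1 - β) * (a.1 * b.2) = 0 := by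
      linear_combination (-(1 : ℝ)) * (M.2.2 - 1) * h' - b.1 * a2 + a.1 * b2
    have c3 : (1 - β) * (a.2 * b.1) = 0 := by
      linear_combination (M.1.1 - 1) * h' - b.2 * a1 + a.2 * b1
    have c4 : (1 - β) * (a.2 * b.2) = 0 := by
      linear_combination M.2.1 * h' - b.2 * a2 + a.2 * b2
    have d1 := (mul_eq_zero.1 c1).resolve_left hβ
    have d2 := (mul_eq_zero.1 c2).resolve_left hβ
    have d3 := (mul_eq_zero.1 c3).resolve_left hβ
    have d4 := (mul_eq_zero.1 c4).resolve_left hβ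
    by_cases e1 : a.1 = 0
    · by_cases e2 : a.2 = 0
      · exact ha (Prod.ext e1 e2)
      · exact hb (Prod.ext ((mul_eq_zero.1 d3).resolve_left e2)
          ((mul_eq_zero.1 d4).resolve_left e2))
    · exact hb (Prod.ext ((mul_eq_zero.1 d1).resolve_left e1)
          ((mul_eq_zero.1 d2).resolve_left e1))

theorem SC_TC {q u v : ℂ} (hd : u.re * v.im - u.im * v.re ≠ 0) (w : ℂ × ℂ) :
    SC q u v (TC q u v w) = w := by
  have hd' : ((u.re * v.im - u.im * v.re : ℝ) : ℂ) ≠ 0 := Complex.ofReal_ne_zero.2 hd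
  have hd2 : (u.re : ℂ) * v.im - u.im * v.re ≠ 0 := by
    intro h
    apply hd'
    push_cast
    exact h
  unfold SC TC
  push_cast
  refine Prod.ext ?_ ?_
  · simp only
    rw [div_eq_iff hd2]
    ring
  · simp only
    rw [div_eq_iff hd2]
    ring

theorem TC_SC {q u v : ℂ} (hd : u.re * v.im - u.im * v.re ≠ 0) (w : ℂ × ℂ) :
    TC q u v (SC q u v w) = w := by
  have hd' : ((u.re * v.im - u.im * v.re : ℝ) : ℂ) ≠ 0 := Complex.ofReal_ne_zero.2 hd
  have hd2 : (u.re : ℂ) * v.im - u.im * v.re ≠ 0 := by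
    intro h
    apply hd'
    push_cast
    exact h
  unfold SC TC
  push_cast
  simp only [div_eq_mul_inv]
  have e := mul_inv_cancel₀ hd2
  refine Prod.ext ?_ ?_
  · show (q.re : ℂ) + ((w.1 - q.re) * (v.im : ℂ) - (w.2 - q.im) * (v.re : ℂ)) *
      ((u.re : ℂ) * v.im - u.im * v.re)⁻¹ * (u.re : ℂ) +
      ((w.2 - q.im) * (u.re : ℂ) - (w.1 - q.re) * (u.im : ℂ)) *
      ((u.re : ℂ) * v.im - u.im * v.re)⁻¹ * (v.re : ℂ) = w.1
    linear_combination (w.1 - q.re) * e
  · show (q.im : ℂ) + ((w.1 - q.re) * (v.im : ℂ) - (w.2 - q.im) * (v.re : ℂ)) *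
      ((u.re : ℂ) * v.im - u.im * v.re)⁻¹ * (u.im : ℂ) +
      ((w.2 - q.im) * (u.re : ℂ) - (w.1 - q.re) * (u.im : ℂ)) *
      ((u.re : ℂ) * v.im - u.im * v.re)⁻¹ * (v.im : ℂ) = w.2
    linear_combination (w.2 - q.im) * e

theorem TC_real (q u v : ℂ) (x y : ℝ) : TC q u v ((x : ℂ), (y : ℂ)) = cx (pt q u v x y) := by
  unfold TC cx pt
  refine Prod.ext ?_ ?_
  · simp
  · simp

theorem TC_cd (q u v : ℂ) : ContDiff ℂ 2 (TC q u v) := by
  unfold TC
  fun_prop

theorem SC_cd (q u v : ℂ) : ContDiff ℂ 2 (SC q u v) := by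
  unfold SC
  simp only [div_eq_mul_inv]
  fun_prop

theorem SC_real {q u v : ℂ} (hd : u.re * v.im - u.im * v.re ≠ 0) (x y : ℝ) :
    SC q u v (cx (pt q u v x y)) = ((x : ℂ), (y : ℂ)) := by
  rw [← TC_real, SC_TC hd]

end Pool.Agent.HF
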