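import Pool.Agent.HF.FAx
import Pool.Agent.HE.HCurve
import Pool.Agent.HD.Lit

set_option autoImplicit false

/-!
HF-FLit. The literal stable set of a semi-neutral periodic point is the real stable curve.

`F = fN b c hb (2 * n)`, `pr (F^[k] z) = (G 1 b c)^[2 * n * k] (pr z)`. A point `z` whose orbit is exponentially asymptotic to the
orbit of `p` has `dist (F^[k] z) p ≤ 2 D ρ ^ k` with `ρ = exp (- 2 n a) < 1`; in the topological chart at `p` the first coordinate
of `F^[k0] z` vanishes for some `k0` (property `XC`), so `F^[k0] z` is on the stable curve (`cov_par`), and so is `z`. Conversely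
the points of the curve converge exponentially because the curve and the iterates of the Henon map are `C¹`.
-/

namespace Pool.Agent.HF

open Set Topology Filter Pool.Agent.HE Pool.Agent.HD

private theorem flit_cd {γ : ℝ → ℂ} (hγ : ContDiff ℝ 2 γ) (b c : ℝ) (j : ℕ) :
    ContDiff ℝ 1 (fun s => (G 1 b c)^[j] (pr (γ s))) := by
  have h1 : ContDiff ℝ 1 (G 1 b c) := by
    unfold G
    fun_prop
  have h2 : ContDiff ℝ 1 (fun s => pr (γ s)) := by
    have h3 : ContDiff ℝ 1 γ := hγ.of_le (by norm_num)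
    exact (Complex.reCLM.contDiff.comp h3).prodMk (Complex.imCLM.contDiff.comp h3)
  have h4 : ContDiff ℝ 1 ((G 1 b c)^[j]) := by
    induction j with
    | zero => exact contDiff_id
    | succ j ih =>
      rw [Function.iterate_succ']
      exact h1.comp ih
  exact h4.comp h2

private theorem flit_lip {f : ℝ → ℝ × ℝ} (hf : ContDiff ℝ 1 f) (T : ℝ) :
    ∃ M : ℝ, 0 ≤ M ∧ ∀ s, |s| ≤ T → dist (f s) (f 0) ≤ M * |s| := by
  obtain ⟨M, hM⟩ := (isCompact_Icc (a := -T) (b := T)).exists_bound_of_continuousOn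
    (hf.continuous_deriv le_rfl).continuousOn
  refine ⟨max M 0, le_max_right _ _, ?_⟩
  intro s hs
  have hT : 0 ≤ T := (abs_nonneg s).trans hs
  have h := Convex.norm_image_sub_le_of_norm_deriv_le (f := f) (C := max M 0)
    (s := Icc (-T) T) (x := 0) (y := s)
    (fun x _ => (hf.differentiable (by norm_num)).differentiableAt)
    (fun x hx => (hM x hx).trans (le_max_left _ _)) (convex_Icc _ _)
    ⟨by linarith, hT⟩ ⟨(abs_le.1 hs).1, (abs_le.1 hs).2⟩
  rw [dist_eq_norm]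
  simpa using h

private theorem flit_exp {lam : ℝ} (l0 : 0 < lam) (l1 : lam < 1) {n : ℕ} (hn : 1 ≤ n) (m : ℕ) :
    lam ^ (m / (2 * n)) ≤ lam⁻¹ * Real.exp (-(-Real.log lam / (2 * n)) * m) := by
  have hlog : Real.log lam < 0 := Real.log_neg l0 l1
  have h1 : m < 2 * n * (m / (2 * n) + 1) := Nat.lt_mul_div_succ m (by omega)
  have hn0 : (0 : ℝ) < 2 * n := by
    have : (1 : ℝ) ≤ n := by exact_mod_cast hn
    linarith
  have h2 : (m : ℝ) ≤ 2 * n * (((m / (2 * n) : ℕ) : ℝ) + 1) := by exact_mod_cast h1.le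
  have h3 : lam ^ (m / (2 * n)) = Real.exp (((m / (2 * n) : ℕ) : ℝ) * Real.log lam) := by
    rw [Real.exp_nat_mul, Real.exp_log l0]
  have h4 : lam⁻¹ = Real.exp (-Real.log lam) := by
    rw [Real.exp_neg, Real.exp_log l0]
  rw [h3, h4, ← Real.exp_add]
  apply Real.exp_le_exp.2
  have h5 : (m : ℝ) / (2 * n) ≤ ((m / (2 * n) : ℕ) : ℝ) + 1 := by
    rw [div_le_iff₀ hn0]
    linarith
  have h6 : (((m / (2 * n) : ℕ) : ℝ) + 1) * Real.log lam ≤ (m : ℝ) / (2 * n) * Real.log lam :=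
    mul_le_mul_of_nonpos_right h5 hlog.le
  have h7 : -(-Real.log lam / (2 * n)) * (m : ℝ) = (m : ℝ) / (2 * n) * Real.log lam := by
    ring
  rw [h7]
  linarith

private theorem flit_two {b c : ℝ} (hb : b ≠ 0) {n : ℕ} (hn : 1 ≤ n) {p : ℂ} {lam : ℝ}
    (l0 : 0 < lam) (l1 : lam < 1) {γ : ℝ → ℂ} (hγ : ContDiff ℝ 2 γ) (h0 : γ 0 = p)
    (hc : ∀ s, fN b c hb (2 * n) (γ s) = γ (lam * s)) (t : ℝ) :
    ExpC (G 1 b c) (pr p) (pr (γ t)) := by
  have hit : ∀ k s, (G 1 b c)^[2 * n * k] (pr (γ s)) = pr (γ (lam ^ k * s)) := by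
    intro k
    induction k with
    | zero =>
      intro s
      simp
    | succ k ih =>
      intro s
      have e : 2 * n * (k + 1) = 2 * n * k + 2 * n := by ring
      rw [e, Function.iterate_add_apply, ← pr_fN b c hb (2 * n) (γ s), hc, ih, pow_succ,
        mul_assoc]
  choose M hM0 hM using fun j => flit_lip (flit_cd hγ b c j) |t|
  have hlog : Real.log lam < 0 := Real.log_neg l0 l1
  have hn0 : (0 : ℝ) < 2 * n := by
    have : (1 : ℝ) ≤ n := by exact_mod_cast hn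
    linarith
  refine ⟨-Real.log lam / (2 * n), div_pos (by linarith) hn0,
    (∑ j ∈ Finset.range (2 * n), M j) * |t| * lam⁻¹, fun m => ?_⟩
  have hj : m % (2 * n) < 2 * n := Nat.mod_lt _ (by omega)
  have hm : m = m % (2 * n) + 2 * n * (m / (2 * n)) := (Nat.mod_add_div m (2 * n)).symm
  have e1 : (G 1 b c)^[m] (pr (γ t)) =
      (G 1 b c)^[m % (2 * n)] (pr (γ (lam ^ (m / (2 * n)) * t))) := by
    conv_lhs => rw [hm]
    rw [Function.iterate_add_apply, hit]
  have e2 : (G 1 b c)^[m] (pr p) = (G 1 b c)^[m % (2 * n)] (pr (γ 0)) := by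
    conv_lhs => rw [hm]
    rw [← h0, Function.iterate_add_apply, hit, mul_zero]
  rw [e1, e2]
  have hp0 : 0 ≤ lam ^ (m / (2 * n)) := (pow_pos l0 _).le
  have hle : |lam ^ (m / (2 * n)) * t| ≤ |t| := by
    rw [abs_mul, abs_of_nonneg hp0]
    exact mul_le_of_le_one_left (abs_nonneg _) (pow_le_one₀ l0.le l1.le)
  have h1 := hM (m % (2 * n)) _ hle
  have h2 : M (m % (2 * n)) ≤ ∑ j ∈ Finset.range (2 * n), M j :=
    Finset.single_le_sum (f := M) (fun j _ => hM0 j) (Finset.mem_range.2 hj)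
  have hS : 0 ≤ ∑ j ∈ Finset.range (2 * n), M j := Finset.sum_nonneg fun j _ => hM0 j
  have h3 := flit_exp l0 l1 hn m
  calc dist ((G 1 b c)^[m % (2 * n)] (pr (γ (lam ^ (m / (2 * n)) * t))))
        ((G 1 b c)^[m % (2 * n)] (pr (γ 0)))
      ≤ M (m % (2 * n)) * |lam ^ (m / (2 * n)) * t| := h1
    _ ≤ (∑ j ∈ Finset.range (2 * n), M j) * |lam ^ (m / (2 * n)) * t| :=
        mul_le_mul_of_nonneg_right h2 (abs_nonneg _)
    _ = (∑ j ∈ Finset.range (2 * n), M j) * |t| * lam ^ (m / (2 * n)) := by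
        rw [abs_mul, abs_of_nonneg hp0]
        ring
    _ ≤ (∑ j ∈ Finset.range (2 * n), M j) * |t| *
          (lam⁻¹ * Real.exp (-(-Real.log lam / (2 * n)) * m)) :=
        mul_le_mul_of_nonneg_left h3 (mul_nonneg hS (abs_nonneg _))
    _ = (∑ j ∈ Finset.range (2 * n), M j) * |t| * lam⁻¹ *
          Real.exp (-(-Real.log lam / (2 * n)) * m) := by ring

private theorem flit_pr_iter (b c : ℝ) (hb : b ≠ 0) (N k : ℕ) (z : ℂ) :
    pr ((fN b c hb N)^[k] z) = (G 1 b c)^[N * k] (pr z) := by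
  rw [Function.iterate_mul]
  exact (Function.Semiconj.iterate_right (f := pr) (ga := fN b c hb N)
    (gb := (G 1 b c)^[N]) (fun z => pr_fN b c hb N z) k) z

private theorem flit_dist (z w : ℂ) : dist z w ≤ 2 * dist (pr z) (pr w) := by
  rw [dist_eq_norm, Prod.dist_eq]
  refine (Complex.norm_le_abs_re_add_abs_im _).trans ?_
  have h1 : |(z - w).re| ≤ max (dist (pr z).1 (pr w).1) (dist (pr z).2 (pr w).2) := by
    refine le_trans (le_of_eq ?_) (le_max_left _ _)
    rw [Real.dist_eq, Complex.sub_re]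
    rfl
  have h2 : |(z - w).im| ≤ max (dist (pr z).1 (pr w).1) (dist (pr z).2 (pr w).2) := by
    refine le_trans (le_of_eq ?_) (le_max_right _ _)
    rw [Real.dist_eq, Complex.sub_im]
    rfl
  linarith

private theorem flit_tends {b c : ℝ} (hb : b ≠ 0) {N : ℕ} (hN : 1 ≤ N) {p z : ℂ}
    (hp : fN b c hb N p = p) (h : ExpC (G 1 b c) (pr p) (pr z)) :
    Tendsto (fun k => (fN b c hb N)^[k] z) atTop (𝓝 p) := by
  rw [tendsto_iff_dist_tendsto_zero]
  have h1 : Tendsto (fun k : ℕ => N * k) atTop atTop :=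
    tendsto_atTop_mono (fun k => Nat.le_mul_of_pos_left k hN) tendsto_id
  have h2 := (h.tendsto.comp h1).const_mul 2
  rw [mul_zero] at h2
  refine squeeze_zero (fun k => dist_nonneg) (fun k => ?_) h2
  have h3 : (G 1 b c)^[N * k] (pr p) = pr p := by
    rw [← flit_pr_iter b c hb, Function.iterate_fixed hp]
  simp only [Function.comp_apply]
  rw [h3, ← flit_pr_iter b c hb]
  exact flit_dist _ _

private theorem flit_one {b c : ℝ} (hb : b ≠ 0) {n : ℕ} (hn : 1 ≤ n) (hβ0 : 0 < b ^ (2 * n))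
    (hβ1 : b ^ (2 * n) < 1) {p : ℂ} (hp : fN b c hb (2 * n) p = p)
    (ht : tr (mat b c (2 * n) p) = 1 + b ^ (2 * n))
    {ψ : ℂ → ℂ × ℂ} (E : Ent ((fC b c)^[2 * n]) (b ^ (2 * n) : ℝ) p ψ) {z : ℂ}
    (hz : ExpC (G 1 b c) (pr p) (pr z)) : ∃ t, crv ψ t = z := by
  obtain ⟨u, v, hu, hv, hd, Φ, h, s, lm, lp, η, P, hη, hη0, h3, hx⟩ :=
    chart_par hb (by omega : 1 ≤ 2 * n) hp hβ0 hβ1 ht
  have hax := ax_par hβ0 hβ1 (crv_cd E) (crv_zero E) (crv_conj hb E) P.hh P.zero hx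
  obtain ⟨δ, hδ, hcov⟩ := cov_par (crv_cd E).continuous (crv_inj E) (crv_zero E) P.zero hax
  have hT := flit_tends hb (by omega : 1 ≤ 2 * n) hp hz
  have hT2 : Tendsto (fun k => Φ ((fN b c hb (2 * n))^[k] z)) atTop (𝓝 0) := by
    have := (Φ.continuous.tendsto p).comp hT
    rwa [P.zero] at this
  have hb1 : ∀ᶠ k in atTop, ‖Φ ((fN b c hb (2 * n))^[k] z)‖ < min h δ := by
    have h1 := hT2.norm
    rw [norm_zero] at h1
    exact h1.eventually (gt_mem_nhds (lt_min P.hh hδ))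
  obtain ⟨k0, hk0⟩ := eventually_atTop.1 hb1
  obtain ⟨a, ha, D, hD⟩ := hz
  have hn0 : (0 : ℝ) < 2 * n := by
    have : (1 : ℝ) ≤ n := by exact_mod_cast hn
    linarith
  have hρ1 : Real.exp (-a * (2 * n)) < 1 := by
    rw [Real.exp_lt_one_iff]
    nlinarith
  have hdist : ∀ k : ℕ, dist ((fN b c hb (2 * n))^[k] z) p ≤ 2 * D * Real.exp (-a * (2 * n)) ^ k := by
    intro k
    have h1 := flit_dist ((fN b c hb (2 * n))^[k] z) p
    have h2 : (G 1 b c)^[2 * n * k] (pr p) = pr p := by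
      rw [← flit_pr_iter b c hb, Function.iterate_fixed hp]
    have h4 := hD (2 * n * k)
    rw [h2, ← flit_pr_iter b c hb] at h4
    have h5 : Real.exp (-a * ((2 * n * k : ℕ) : ℝ)) = Real.exp (-a * (2 * n)) ^ k := by
      rw [← Real.exp_nat_mul]
      congr 1
      push_cast
      ring
    rw [h5] at h4
    linarith
  have hre0 : (Φ ((fN b c hb (2 * n))^[k0] z)).re = 0 := by
    refine hx (Real.exp (-a * (2 * n))) (2 * D * Real.exp (-a * (2 * n)) ^ k0) _ (Real.exp_pos _).le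
      hρ1 (fun k => ?_) (fun k => ?_)
    · rw [← Function.iterate_add_apply]
      have h1 := (hk0 (k + k0) (by omega)).trans_le (min_le_left _ _)
      exact ⟨(Complex.abs_re_le_norm _).trans_lt h1, (Complex.abs_im_le_norm _).trans_lt h1⟩
    · rw [← Function.iterate_add_apply]
      have h1 := hdist (k + k0)
      rw [pow_add] at h1
      calc dist ((fN b c hb (2 * n))^[k + k0] z) p
          ≤ 2 * D * (Real.exp (-a * (2 * n)) ^ k * Real.exp (-a * (2 * n)) ^ k0) := h1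
        _ = 2 * D * Real.exp (-a * (2 * n)) ^ k0 * Real.exp (-a * (2 * n)) ^ k := by ring
  have him : |(Φ ((fN b c hb (2 * n))^[k0] z)).im| < δ :=
    (Complex.abs_im_le_norm _).trans_lt ((hk0 k0 le_rfl).trans_le (min_le_right _ _))
  obtain ⟨t, htz⟩ := hcov _ hre0 him
  have hit : ∀ k s, (fN b c hb (2 * n))^[k] (crv ψ s) = crv ψ ((b ^ (2 * n)) ^ k * s) := by
    intro k
    induction k with
    | zero =>
      intro s
      simp
    | succ k ih =>
      intro s
      rw [Function.iterate_succ_apply, crv_conj hb E, ih, pow_succ (b ^ (2 * n)), mul_assoc]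
  refine ⟨t / (b ^ (2 * n)) ^ k0, ?_⟩
  apply (fN b c hb (2 * n)).injective.iterate k0
  rw [hit, ← htz]
  congr 1
  rw [mul_div_cancel₀]
  exact (pow_pos hβ0 _).ne'

theorem lit_par {b c : ℝ} (hb : b ≠ 0) {n : ℕ} (hn : 1 ≤ n) (hβ1 : b ^ (2 * n) < 1) {p : ℂ}
    (hp : fN b c hb (2 * n) p = p) (ht : tr (mat b c (2 * n) p) = 1 + b ^ (2 * n))
    {ψ : ℂ → ℂ × ℂ} (E : Ent ((fC b c)^[2 * n]) (b ^ (2 * n) : ℝ) p ψ) :
    range (fun t => pr (crv ψ t)) = {q | ExpC (G 1 b c) (pr p) q} := by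
  have hβ0 : 0 < b ^ (2 * n) := by
    rw [pow_mul]
    exact pow_pos (by positivity) _
  ext q
  constructor
  · rintro ⟨t, rfl⟩
    exact flit_two hb hn hβ0 hβ1 (crv_cd E) (crv_zero E) (crv_conj hb E) t
  · intro hq
    obtain ⟨z, rfl⟩ : ∃ z : ℂ, pr z = q := ⟨⟨q.1, q.2⟩, rfl⟩
    obtain ⟨t, htz⟩ := flit_one hb hn hβ0 hβ1 hp ht E hq
    exact ⟨t, by rw [← htz]⟩

end Pool.Agent.HF
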