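import Pool.Agent.HF.LEh

set_option autoImplicit false

/-!
HF-LAtt. Elementary estimates for the invariant graph: the map `g` on the graph is bi-Lipschitz and increasing,
moves points by at most `M`, and the perturbed map contracts the vertical distance to the graph by a factor between
`β - 2 ε` and `β + 2 ε`.
-/

namespace Pool.Agent.HF

open Set Topology Filter

variable {β ε M : ℝ} {f1 f2 : ℝ → ℝ → ℝ} {h : ℝ → ℝ} {g : ℝ ≃ₜ ℝ}

theorem CG.gbd (C : CG β f1 f2 h g) (H : LP β ε M f1 f2) (x x' : ℝ) :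
    (1 - ε) * |x - x'| ≤ |g x - g x'| ∧ |g x - g x'| ≤ (1 + ε) * |x - x'| := by
  obtain ⟨e, he, _, hb⟩ := eh H C.lip
  have hge : ∀ x, g x = e x := fun x => by rw [C.geq, he]
  rw [hge, hge]
  exact hb x x'

theorem CG.gmono (C : CG β f1 f2 h g) (H : LP β ε M f1 f2) : StrictMono g := by
  obtain ⟨e, he, hm, _⟩ := eh H C.lip
  have hge : ∀ x, g x = e x := fun x => by rw [C.geq, he]
  intro a b hab
  rw [hge, hge]
  exact hm hab

theorem CG.g0 (C : CG β f1 f2 h g) (H : LP β ε M f1 f2) : g 0 = 0 := by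
  rw [C.geq, C.zero, H.z1, add_zero]

theorem CG.gM (C : CG β f1 f2 h g) (H : LP β ε M f1 f2) (x : ℝ) : |g x - x| ≤ M := by
  rw [C.geq, add_sub_cancel_left]
  exact H.m1 _ _

theorem CG.att (C : CG β f1 f2 h g) (H : LP β ε M f1 f2) (x y : ℝ) :
    |β * y + f2 x y - h (x + f1 x y) - β * (y - h x)| ≤ 2 * ε * |y - h x| := by
  have h1 : |f2 x y - f2 x (h x)| ≤ ε * |y - h x| := by
    have := H.l2 x y x (h x)
    rwa [sub_self, abs_zero, max_eq_right (abs_nonneg _)] at this
  have h2 : |h (g x) - h (x + f1 x y)| ≤ ε * |y - h x| := by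
    refine (C.lip _ _).trans ?_
    rw [C.geq, add_sub_add_left_eq_sub, abs_sub_comm]
    have := H.l1 x y x (h x)
    rwa [sub_self, abs_zero, max_eq_right (abs_nonneg _)] at this
  have h3 : β * y + f2 x y - h (x + f1 x y) - β * (y - h x) =
      (f2 x y - f2 x (h x)) + (h (g x) - h (x + f1 x y)) := by
    rw [C.inv]
    ring
  rw [h3]
  refine (abs_add_le _ _).trans ?_
  linarith

theorem CG.att_up (C : CG β f1 f2 h g) (H : LP β ε M f1 f2) (x y : ℝ) :
    |β * y + f2 x y - h (x + f1 x y)| ≤ (β + 2 * ε) * |y - h x| := by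
  have h1 := C.att H x y
  have h2 : |β * (y - h x)| = β * |y - h x| := by rw [abs_mul, abs_of_pos H.b0]
  have h3 := abs_add_le (β * y + f2 x y - h (x + f1 x y) - β * (y - h x)) (β * (y - h x))
  rw [sub_add_cancel, h2] at h3
  linarith

theorem CG.att_low (C : CG β f1 f2 h g) (H : LP β ε M f1 f2) (x y : ℝ) :
    (β - 2 * ε) * |y - h x| ≤ |β * y + f2 x y - h (x + f1 x y)| := by
  have h1 := C.att H x y
  have h2 : |β * (y - h x)| = β * |y - h x| := by rw [abs_mul, abs_of_pos H.b0]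
  have h3 := abs_sub_abs_le_abs_sub (β * (y - h x)) (β * y + f2 x y - h (x + f1 x y))
  rw [abs_sub_comm (β * (y - h x)), h2] at h3
  linarith

theorem CG.att_iter (C : CG β f1 f2 h g) (H : LP β ε M f1 f2) (p : ℝ × ℝ) (k : ℕ) :
    |((fm β f1 f2)^[k] p).2 - h ((fm β f1 f2)^[k] p).1| ≤ (β + 2 * ε) ^ k * |p.2 - h p.1| := by
  have hpos : 0 ≤ β + 2 * ε := by
    have h1 := H.b0
    have h2 := H.e0
    linarith
  induction k with
  | zero => simp
  | succ k ih =>
    rw [Function.iterate_succ_apply']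
    refine (C.att_up H ((fm β f1 f2)^[k] p).1 ((fm β f1 f2)^[k] p).2).trans ?_
    rw [pow_succ', mul_assoc]
    exact mul_le_mul_of_nonneg_left ih hpos

end Pool.Agent.HF
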