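import Mathlib

set_option autoImplicit false

/-!
HF-LExp. Points converging exponentially to a neutral fixed point on the line. Only Mathlib.

If `x ≠ 0` then no iterate of `x` is `0`, the iterates tend to `0` and decrease by a factor at
least `1 - ω > ρ` near `0`, which contradicts the bound `C * ρ ^ k`.
-/

namespace Pool.Agent.HF

open Set Topology Filter

theorem no_exp {g : ℝ ≃ₜ ℝ} (h0 : g 0 = 0)
    (hlo : ∀ ω > 0, ∃ δ > 0, ∀ x, |x| < δ → |g x - x| ≤ ω * |x|) {x C ρ : ℝ} (hρ0 : 0 ≤ ρ)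
    (hρ1 : ρ < 1) (hx : ∀ k : ℕ, |(g : ℝ → ℝ)^[k] x| ≤ C * ρ ^ k) : x = 0 := by
  by_contra hne
  have hk : ∀ k : ℕ, (g : ℝ → ℝ)^[k] x ≠ 0 := by
    intro k h
    have h1 : (g : ℝ → ℝ)^[k] 0 = 0 := Function.iterate_fixed h0 k
    exact hne ((g.injective.iterate k) (h.trans h1.symm))
  have hω : 0 < (1 - ρ) / 2 := by linarith
  obtain ⟨δ, hδ, hd⟩ := hlo _ hω
  have hlim : Tendsto (fun k : ℕ => C * ρ ^ k) atTop (𝓝 0) := by
    have := (tendsto_pow_atTop_nhds_zero_of_lt_one hρ0 hρ1).const_mul C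
    rwa [mul_zero] at this
  obtain ⟨k0, hk0⟩ := eventually_atTop.1 (hlim.eventually (gt_mem_nhds hδ))
  have hsmall : ∀ k ≥ k0, |(g : ℝ → ℝ)^[k] x| < δ := fun k hk' => (hx k).trans_lt (hk0 k hk')
  have hq : 0 < 1 - (1 - ρ) / 2 := by linarith
  have hlow : ∀ j : ℕ, (1 - (1 - ρ) / 2) ^ j * |(g : ℝ → ℝ)^[k0] x| ≤
      |(g : ℝ → ℝ)^[k0 + j] x| := by
    intro j
    induction j with
    | zero => simp
    | succ j ih =>
      have h1 := hd _ (hsmall (k0 + j) (Nat.le_add_right _ _))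
      have h2 : (g : ℝ → ℝ)^[k0 + (j + 1)] x = g ((g : ℝ → ℝ)^[k0 + j] x) := by
        rw [← add_assoc, Function.iterate_succ_apply']
      rw [h2]
      have h3 : |(g : ℝ → ℝ)^[k0 + j] x| - |g ((g : ℝ → ℝ)^[k0 + j] x)| ≤
          |g ((g : ℝ → ℝ)^[k0 + j] x) - (g : ℝ → ℝ)^[k0 + j] x| := by
        rw [abs_sub_comm]
        exact abs_sub_abs_le_abs_sub _ _
      calc (1 - (1 - ρ) / 2) ^ (j + 1) * |(g : ℝ → ℝ)^[k0] x|
          = (1 - (1 - ρ) / 2) * ((1 - (1 - ρ) / 2) ^ j * |(g : ℝ → ℝ)^[k0] x|) := by ring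
        _ ≤ (1 - (1 - ρ) / 2) * |(g : ℝ → ℝ)^[k0 + j] x| := mul_le_mul_of_nonneg_left ih hq.le
        _ = |(g : ℝ → ℝ)^[k0 + j] x| - (1 - ρ) / 2 * |(g : ℝ → ℝ)^[k0 + j] x| := by ring
        _ ≤ |g ((g : ℝ → ℝ)^[k0 + j] x)| := by linarith
  have hup : ∀ j : ℕ, |(g : ℝ → ℝ)^[k0] x| ≤
      C * ρ ^ k0 * (ρ / (1 - (1 - ρ) / 2)) ^ j := by
    intro j
    have h1 := (hlow j).trans (hx (k0 + j))
    rw [div_pow, ← mul_div_assoc, le_div_iff₀ (pow_pos hq j)]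
    calc |(g : ℝ → ℝ)^[k0] x| * (1 - (1 - ρ) / 2) ^ j
        = (1 - (1 - ρ) / 2) ^ j * |(g : ℝ → ℝ)^[k0] x| := mul_comm _ _
      _ ≤ C * ρ ^ (k0 + j) := h1
      _ = C * ρ ^ k0 * ρ ^ j := by rw [pow_add]; ring
  have hr0 : 0 ≤ ρ / (1 - (1 - ρ) / 2) := div_nonneg hρ0 hq.le
  have hr1 : ρ / (1 - (1 - ρ) / 2) < 1 := by
    rw [div_lt_one hq]
    linarith
  have hlim2 : Tendsto (fun j : ℕ => C * ρ ^ k0 * (ρ / (1 - (1 - ρ) / 2)) ^ j) atTop (𝓝 0) := by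
    have := (tendsto_pow_atTop_nhds_zero_of_lt_one hr0 hr1).const_mul (C * ρ ^ k0)
    rwa [mul_zero] at this
  have hle : |(g : ℝ → ℝ)^[k0] x| ≤ 0 := ge_of_tendsto' hlim2 hup
  exact hk k0 (abs_nonpos_iff.1 hle)

end Pool.Agent.HF
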