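import Pool.Agent.HF.LCone

set_option autoImplicit false

/-!
HF-LHomeo. The chart `(π x y, y - h x)` is a homeomorphism of the plane.

For fixed `v` the map `x ↦ π x (h x + v)` is an increasing bijection of the line, and its inverse depends continuously on `v`.
-/

namespace Pool.Agent.HF

open Set Topology Filter

variable {β ε M K : ℝ} {f1 f2 : ℝ → ℝ → ℝ} {h : ℝ → ℝ} {g : ℝ ≃ₜ ℝ} {π : ℝ → ℝ → ℝ}

theorem homeo (H : LP β ε M f1 f2) (C : CG β f1 f2 h g) (P : PR β f1 f2 h g K π) (hK : 0 ≤ K) :
    ∃ Ψ : (ℝ × ℝ) ≃ₜ (ℝ × ℝ), ∀ p, Ψ p = (π p.1 p.2, p.2 - h p.1) := by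
  have hh : Continuous h := by
    refine (LipschitzWith.of_dist_le_mul (K := 1) fun x x' => ?_).continuous
    rw [Real.dist_eq, Real.dist_eq, NNReal.coe_one, one_mul]
    exact C.lip x x'
  have hQc : Continuous fun p : ℝ × ℝ => π p.1 (h p.1 + p.2) := by
    have h1 : Continuous fun p : ℝ × ℝ => (p.1, h p.1 + p.2) := by fun_prop
    exact P.cont.comp h1
  have hQv : ∀ v, Continuous fun x => π x (h x + v) := by
    intro v
    have h1 : Continuous fun x : ℝ => (x, v) := by fun_prop
    exact hQc.comp h1
  have hQx : ∀ x, Continuous fun v => π x (h x + v) := by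
    intro x
    have h1 : Continuous fun v : ℝ => (x, v) := by fun_prop
    exact hQc.comp h1
  have hinj : ∀ v, Function.Injective fun x => π x (h x + v) := by
    intro v x x' hxx
    refine cone H C P hK ?_ hxx
    have h1 : h x + v - (h x' + v) = h x - h x' := by ring
    rw [h1]
    exact C.lip x x'
  have hnear : ∀ x v, |π x (h x + v) - x| ≤ K * |v| := by
    intro x v
    have h1 := P.near x (h x + v)
    rwa [add_sub_cancel_left] at h1
  have hmono : ∀ v, StrictMono fun x => π x (h x + v) := by
    intro v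
    rcases (hQv v).strictMono_of_inj (hinj v) with h1 | h1
    · exact h1
    · exfalso
      have hv : 0 ≤ K * |v| := mul_nonneg hK (abs_nonneg v)
      have h2 : (0 : ℝ) < 2 * (K * |v|) + 1 := by linarith
      have h3 := h1 h2
      simp only at h3
      have h4 := abs_le.1 (hnear 0 v)
      have h5 := abs_le.1 (hnear (2 * (K * |v|) + 1) v)
      linarith [h4.2, h5.1]
  have hsurj : ∀ a v, ∃ x, π x (h x + v) = a := by
    intro a v
    have h1 := abs_le.1 (hnear (a - K * |v|) v)
    have h2 := abs_le.1 (hnear (a + K * |v|) v)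
    exact mem_range_of_exists_le_of_exists_ge (hQv v) ⟨a - K * |v|, by linarith [h1.2]⟩
      ⟨a + K * |v|, by linarith [h2.1]⟩
  choose X hX using hsurj
  have hXc : Continuous fun p : ℝ × ℝ => X p.1 p.2 := by
    rw [continuous_iff_continuousAt]
    intro p
    refine tendsto_order.2 ⟨fun b hb => ?_, fun b hb => ?_⟩
    · have h1 : π b (h b + p.2) < p.1 := by
        have h2 := hmono p.2 hb
        simp only [hX] at h2
        exact h2
      have h3 : IsOpen {q : ℝ × ℝ | π b (h b + q.2) < q.1} :=
        isOpen_lt ((hQx b).comp continuous_snd) continuous_fst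
      filter_upwards [h3.mem_nhds h1] with q hq
      have h4 : π b (h b + q.2) < π (X q.1 q.2) (h (X q.1 q.2) + q.2) := by
        rw [hX]
        exact hq
      exact (hmono q.2).lt_iff_lt.1 h4
    · have h1 : p.1 < π b (h b + p.2) := by
        have h2 := hmono p.2 hb
        simp only [hX] at h2
        exact h2
      have h3 : IsOpen {q : ℝ × ℝ | q.1 < π b (h b + q.2)} :=
        isOpen_lt continuous_fst ((hQx b).comp continuous_snd)
      filter_upwards [h3.mem_nhds h1] with q hq
      have h4 : π (X q.1 q.2) (h (X q.1 q.2) + q.2) < π b (h b + q.2) := by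
        rw [hX]
        exact hq
      exact (hmono q.2).lt_iff_lt.1 h4
  refine ⟨⟨⟨fun p => (π p.1 p.2, p.2 - h p.1), fun q => (X q.1 q.2, h (X q.1 q.2) + q.2),
    fun p => ?_, fun q => ?_⟩, ?_, ?_⟩, fun p => rfl⟩
  · have h1 : X (π p.1 p.2) (p.2 - h p.1) = p.1 := by
      refine hinj (p.2 - h p.1) ?_
      simp only
      rw [hX]
      congr 1
      ring
    refine Prod.ext h1 ?_
    simp only
    rw [h1]
    ring
  · refine Prod.ext (hX q.1 q.2) ?_
    simp only
    ring
  · exact P.cont.prodMk (continuous_snd.sub (hh.comp continuous_fst))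
  · exact hXc.prodMk ((hh.comp hXc).add continuous_snd)

end Pool.Agent.HF
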