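import Pool.Agent.HF.LLin

set_option autoImplicit false

/-!
HF-LLinT. Linearisation of both sides of an isolated fixed point of a homeomorphism of the line.

One side: `g x - x` has a constant sign on `(0, x0]`; apply `lin1` to `g` or to its inverse. Both sides: glue the
linearisation of `g` on the right and the one of `- g (- x)` on the left.
-/

namespace Pool.Agent.HF

open Set Topology Filter

private lemma side {g : ℝ ≃ₜ ℝ} (hm : StrictMono g) (h0 : g 0 = 0) {M : ℝ} (hM : ∀ x, |g x - x| ≤ M)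
    {x0 : ℝ} (hx0 : 0 < x0) (hne : ∀ x, 0 < x → x ≤ x0 → g x ≠ x) :
    ∃ (η : ℝ → ℝ) (s : ℝ), Continuous η ∧ StrictMonoOn η (Ici 0) ∧ η 0 = 0 ∧ Tendsto η atTop atTop ∧
      (s = 2 ∨ s = 1 / 2) ∧ ∀ x, 0 ≤ x → x ≤ x0 → η (g x) = s * η x := by
  have hf : Continuous fun y => g y - y := g.continuous.sub continuous_id
  rcases lt_or_gt_of_ne (hne x0 hx0 le_rfl) with h | h
  · -- attracting side
    have hlt : ∀ x, 0 < x → x ≤ x0 → g x < x := by
      intro x hx hxx
      rcases lt_or_gt_of_ne (hne x hx hxx) with h1 | h1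
      · exact h1
      · exfalso
        have h2 := intermediate_value_Icc' hxx hf.continuousOn
        have h3 : (0 : ℝ) ∈ Icc (g x0 - x0) (g x - x) := ⟨by linarith, by linarith⟩
        obtain ⟨y, hy, hy0⟩ := h2 h3
        have hy0' : g y - y = 0 := hy0
        exact hne y (hx.trans_le hy.1) hy.2 (by linarith)
    have hms : StrictMono g.symm := by
      intro x y hxy
      rw [← hm.lt_iff_lt, g.apply_symm_apply, g.apply_symm_apply]
      exact hxy
    have h0s : g.symm 0 = 0 := by
      apply hm.injective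
      rw [g.apply_symm_apply, h0]
    have hMs : ∀ x, |g.symm x - x| ≤ M := by
      intro x
      have h1 := hM (g.symm x)
      rw [g.apply_symm_apply, abs_sub_comm] at h1
      exact h1
    have hrs : ∀ x, 0 < x → x ≤ x0 → x < g.symm x := by
      intro x hx hxx
      rw [← hm.lt_iff_lt, g.apply_symm_apply]
      exact hlt x hx hxx
    obtain ⟨η, hc, hmo, hη0, ht, he⟩ := lin1 hms h0s hMs hx0 hrs
    refine ⟨η, 1 / 2, hc, hmo, hη0, ht, Or.inr rfl, ?_⟩
    intro x hx hxx
    have hgx0 : 0 ≤ g x := by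
      rw [← h0]; exact hm.monotone hx
    have hgx : g x ≤ x := by
      rcases hx.eq_or_lt with h1 | h1
      · rw [← h1, h0]
      · exact (hlt x h1 hxx).le
    have h2 := he (g x) hgx0 (hgx.trans hxx)
    rw [g.symm_apply_apply] at h2
    rw [h2]; ring
  · have hlt : ∀ x, 0 < x → x ≤ x0 → x < g x := by
      intro x hx hxx
      rcases lt_or_gt_of_ne (hne x hx hxx) with h1 | h1
      · exfalso
        have h2 := intermediate_value_Icc hxx hf.continuousOn
        have h3 : (0 : ℝ) ∈ Icc (g x - x) (g x0 - x0) := ⟨by linarith, by linarith⟩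
        obtain ⟨y, hy, hy0⟩ := h2 h3
        have hy0' : g y - y = 0 := hy0
        exact hne y (hx.trans_le hy.1) hy.2 (by linarith)
      · exact h1
    obtain ⟨η, hc, hmo, hη0, ht, he⟩ := lin1 hm h0 hM hx0 hlt
    exact ⟨η, 2, hc, hmo, hη0, ht, Or.inl rfl, he⟩

theorem lin {g : ℝ ≃ₜ ℝ} (hm : StrictMono g) (h0 : g 0 = 0) {M : ℝ} (hM : ∀ x, |g x - x| ≤ M)
    {x0 : ℝ} (hx0 : 0 < x0) (hne : ∀ x, x ≠ 0 → |x| ≤ x0 → g x ≠ x) :
    ∃ (η : ℝ ≃ₜ ℝ) (s : ℝ → ℝ), StrictMono η ∧ η 0 = 0 ∧
      (∀ i : ℝ, (i = 1 ∨ i = -1) → s i = 2 ∨ s i = 1 / 2) ∧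
      ∀ i : ℝ, (i = 1 ∨ i = -1) → ∀ x, 0 ≤ i * x → |x| ≤ x0 → η (g x) = s i * η x := by
  classical
  set g' : ℝ ≃ₜ ℝ := (Homeomorph.neg ℝ).trans (g.trans (Homeomorph.neg ℝ)) with hg'
  have hg'a : ∀ x, g' x = - g (-x) := fun x => rfl
  have hm' : StrictMono g' := by
    intro x y hxy
    rw [hg'a, hg'a]
    have := hm (neg_lt_neg hxy)
    linarith
  have h0' : g' 0 = 0 := by rw [hg'a, neg_zero, h0, neg_zero]
  have hM' : ∀ x, |g' x - x| ≤ M := by
    intro x
    have h1 := hM (-x)
    rw [hg'a, show -g (-x) - x = -(g (-x) - -x) by ring, abs_neg]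
    exact h1
  obtain ⟨η1, s1, hc1, hmo1, hz1, ht1, hs1, he1⟩ := side hm h0 hM hx0
    (fun x hx hxx => hne x hx.ne' (by rw [abs_of_pos hx]; exact hxx))
  obtain ⟨η2, s2, hc2, hmo2, hz2, ht2, hs2, he2⟩ := side hm' h0' hM' hx0
    (fun x hx hxx h => hne (-x) (neg_ne_zero.2 hx.ne') (by rw [abs_neg, abs_of_pos hx]; exact hxx)
      (by rw [hg'a] at h; linarith))
  set η : ℝ → ℝ := fun x => if 0 ≤ x then η1 x else - η2 (-x) with hη
  have hp : ∀ x, 0 ≤ x → η x = η1 x := fun x hx => if_pos hx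
  have hn : ∀ x, x < 0 → η x = - η2 (-x) := fun x hx => if_neg (not_le.2 hx)
  have hz : η 0 = 0 := by rw [hp 0 le_rfl, hz1]
  have hcont : Continuous η := by
    refine Continuous.if_le hc1 ((hc2.comp continuous_neg).neg) continuous_const continuous_id ?_
    intro x hx
    have hx' : (0 : ℝ) = x := hx
    rw [← hx']
    simp [hz1, hz2]
  have hmono : StrictMono η := by
    intro x y hxy
    rcases le_or_gt 0 x with hx | hx
    · rw [hp x hx, hp y (hx.trans hxy.le)]
      exact hmo1 hx (hx.trans hxy.le) hxy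
    · rw [hn x hx]
      have hx2 : 0 < η2 (-x) := by
        rw [← hz2]
        exact hmo2 (mem_Ici.2 le_rfl) (mem_Ici.2 (by linarith)) (by linarith)
      rcases le_or_gt 0 y with hy | hy
      · rw [hp y hy]
        have h1 : η1 0 ≤ η1 y := hmo1.monotoneOn (mem_Ici.2 le_rfl) (mem_Ici.2 hy) hy
        rw [hz1] at h1
        linarith
      · rw [hn y hy]
        have h1 := hmo2 (mem_Ici.2 (by linarith : (0 : ℝ) ≤ -y)) (mem_Ici.2 (by linarith : (0 : ℝ) ≤ -x))
          (by linarith : -y < -x)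
        linarith
  have htop : Tendsto η atTop atTop := by
    refine ht1.congr' ?_
    filter_upwards [eventually_ge_atTop (0 : ℝ)] with x hx
    exact (hp x hx).symm
  have hbot : Tendsto η atBot atBot := by
    have h1 : Tendsto (fun x => - η2 (-x)) atBot atBot :=
      tendsto_neg_atTop_atBot.comp (ht2.comp tendsto_neg_atBot_atTop)
    refine h1.congr' ?_
    filter_upwards [eventually_lt_atBot (0 : ℝ)] with x hx
    exact (hn x hx).symm
  have hsurj : Function.Surjective η := hcont.surjective htop hbot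
  refine ⟨(StrictMono.orderIsoOfSurjective η hmono hsurj).toHomeomorph,
    fun i => if 0 < i then s1 else s2, hmono, hz, ?_, ?_⟩
  · intro i _
    change (if 0 < i then s1 else s2) = 2 ∨ (if 0 < i then s1 else s2) = 1 / 2
    by_cases h : 0 < i
    · rw [if_pos h]; exact hs1
    · rw [if_neg h]; exact hs2
  · intro i hi x hx hxx
    change η (g x) = (if 0 < i then s1 else s2) * η x
    rcases hi with rfl | rfl
    · rw [one_mul] at hx
      rw [if_pos one_pos, hp x hx, hp (g x) (by rw [← h0]; exact hm.monotone hx)]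
      exact he1 x hx ((le_abs_self x).trans hxx)
    · rw [if_neg (by norm_num)]
      have hx' : x ≤ 0 := by linarith
      rcases hx'.eq_or_lt with h1 | h1
      · rw [h1, h0, hz, mul_zero]
      · have hgx : g x < 0 := by
          rw [← h0]; exact hm h1
        rw [hn x h1, hn (g x) hgx]
        have h2 := he2 (-x) (by linarith) ((neg_le_abs x).trans hxx)
        rw [hg'a, neg_neg] at h2
        rw [h2]; ring

end Pool.Agent.HF
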