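import Pool.Agent.HF.LAtt

set_option autoImplicit false

/-!
HF-LProj. The projection to the centre curve: the limit of `g⁻ᵏ (X k)`, where `X k` is the first
coordinate of the `k`-th iterate.
-/

namespace Pool.Agent.HF

open Set Topology Filter

variable {β ε M : ℝ} {f1 f2 : ℝ → ℝ → ℝ} {h : ℝ → ℝ} {g : ℝ ≃ₜ ℝ}

private lemma eps_lt (H : LP β ε M f1 f2) : 0 < 1 - ε := by
  have h1 := H.e1
  have h2 := H.e2
  have h3 := H.e0
  linarith

private lemma symm_bd (H : LP β ε M f1 f2) (C : CG β f1 f2 h g) (u u' : ℝ) :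
    |g.symm u - g.symm u'| ≤ |u - u'| / (1 - ε) := by
  have h1 := (C.gbd H (g.symm u) (g.symm u')).1
  rw [g.apply_symm_apply, g.apply_symm_apply] at h1
  rw [le_div_iff₀ (eps_lt H)]
  linarith

private lemma symm_iter (H : LP β ε M f1 f2) (C : CG β f1 f2 h g) (k : ℕ) (u u' : ℝ) :
    |(g.symm)^[k] u - (g.symm)^[k] u'| ≤ |u - u'| / (1 - ε) ^ k := by
  have h0 := eps_lt H
  induction k with
  | zero => simp
  | succ k ih =>
    rw [Function.iterate_succ_apply', Function.iterate_succ_apply']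
    refine (symm_bd H C _ _).trans ?_
    rw [pow_succ, ← div_div]
    exact div_le_div_of_nonneg_right ih h0.le

/-- the approximations -/
private def ap (β : ℝ) (f1 f2 : ℝ → ℝ → ℝ) (g : ℝ ≃ₜ ℝ) (k : ℕ) (p : ℝ × ℝ) : ℝ :=
  (g.symm)^[k] ((fm β f1 f2)^[k] p).1

private lemma ap_step (H : LP β ε M f1 f2) (C : CG β f1 f2 h g) (k : ℕ) (p : ℝ × ℝ) :
    dist (ap β f1 f2 g k p) (ap β f1 f2 g (k + 1) p) ≤
      ε / (1 - ε) * |p.2 - h p.1| * ((β + 2 * ε) / (1 - ε)) ^ k := by
  have h0 := eps_lt H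
  have he := H.e0
  set P := (fm β f1 f2)^[k] p with hP
  have e1 : ap β f1 f2 g k p = (g.symm)^[k + 1] (g P.1) := by
    rw [Function.iterate_succ_apply, g.symm_apply_apply]
    rfl
  have e2 : ap β f1 f2 g (k + 1) p = (g.symm)^[k + 1] (P.1 + f1 P.1 P.2) := by
    unfold ap
    rw [Function.iterate_succ_apply' (fm β f1 f2)]
    rfl
  rw [e1, e2, Real.dist_eq]
  refine (symm_iter H C (k + 1) _ _).trans ?_
  have h1 : |g P.1 - (P.1 + f1 P.1 P.2)| ≤ ε * |P.2 - h P.1| := by
    rw [C.geq]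
    have h2 := H.l1 P.1 (h P.1) P.1 P.2
    rw [sub_self, abs_zero, max_eq_right (abs_nonneg _), abs_sub_comm (h P.1) P.2] at h2
    have h3 : P.1 + f1 P.1 (h P.1) - (P.1 + f1 P.1 P.2) = f1 P.1 (h P.1) - f1 P.1 P.2 := by ring
    rw [h3]
    exact h2
  have h4 := C.att_iter H p k
  rw [← hP] at h4
  have h5 : |g P.1 - (P.1 + f1 P.1 P.2)| ≤ ε * ((β + 2 * ε) ^ k * |p.2 - h p.1|) :=
    h1.trans (mul_le_mul_of_nonneg_left h4 he.le)
  refine (div_le_div_of_nonneg_right h5 (pow_pos h0 _).le).trans (le_of_eq ?_)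
  rw [div_pow, pow_succ]
  field_simp

private lemma ap_conj (k : ℕ) (p : ℝ × ℝ) :
    ap β f1 f2 g k (fm β f1 f2 p) = g (ap β f1 f2 g (k + 1) p) := by
  unfold ap
  rw [Function.iterate_succ_apply (fm β f1 f2), Function.iterate_succ_apply' g.symm,
    g.apply_symm_apply]

private lemma cont_of_lip {c : ℝ} (hc : 0 ≤ c) {f : ℝ → ℝ → ℝ}
    (hf : ∀ x y x' y', |f x y - f x' y'| ≤ c * max |x - x'| |y - y'|) :
    Continuous fun p : ℝ × ℝ => f p.1 p.2 := by
  have h1 : LipschitzWith ⟨c, hc⟩ fun p : ℝ × ℝ => f p.1 p.2 := by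
    refine LipschitzWith.of_dist_le_mul fun p q => ?_
    rw [Real.dist_eq, Prod.dist_eq, Real.dist_eq, Real.dist_eq]
    exact hf _ _ _ _
  exact h1.continuous

private lemma ap_cont (H : LP β ε M f1 f2) (k : ℕ) : Continuous (ap β f1 f2 g k) := by
  have h1 := cont_of_lip H.e0.le H.l1
  have h2 := cont_of_lip H.e0.le H.l2
  have h3 : Continuous (fm β f1 f2) := by
    unfold fm
    exact (continuous_fst.add h1).prodMk ((continuous_const.mul continuous_snd).add h2)
  have h4 := (h3.iterate k)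
  have h5 : Continuous ((g.symm : ℝ → ℝ)^[k]) := g.symm.continuous.iterate k
  exact h5.comp (continuous_fst.comp h4)

theorem proj (H : LP β ε M f1 f2) (C : CG β f1 f2 h g) :
    ∃ (K : ℝ) (π : ℝ → ℝ → ℝ), 0 ≤ K ∧ PR β f1 f2 h g K π := by
  have h0 := eps_lt H
  have he := H.e0
  have hb := H.b0
  have he2 := H.e2
  set κ : ℝ := (β + 2 * ε) / (1 - ε) with hκ
  have hκ0 : 0 ≤ κ := by positivity
  have hκ1 : κ < 1 := by
    rw [hκ, div_lt_one h0]
    linarith
  have hk1 : 0 < 1 - κ := by linarith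
  have hlim : ∀ p : ℝ × ℝ, ∃ l : ℝ, Tendsto (fun k => ap β f1 f2 g k p) atTop (𝓝 l) := by
    intro p
    have h1 := cauchySeq_of_le_geometric κ (ε / (1 - ε) * |p.2 - h p.1|) hκ1
      (fun k => ap_step H C k p)
    exact cauchySeq_tendsto_of_complete h1
  choose l hl using hlim
  have hest : ∀ p k, dist (ap β f1 f2 g k p) (l p) ≤
      ε / (1 - ε) * |p.2 - h p.1| * κ ^ k / (1 - κ) := fun p k =>
    dist_le_of_le_geometric_of_tendsto κ (ε / (1 - ε) * |p.2 - h p.1|) hκ1
      (fun k => ap_step H C k p) (hl p) k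
  have hnear : ∀ x y, |l (x, y) - x| ≤ ε / (1 - ε) / (1 - κ) * |y - h x| := by
    intro x y
    have h1 := hest (x, y) 0
    rw [dist_comm, Real.dist_eq, pow_zero, mul_one] at h1
    have h2 : ap β f1 f2 g 0 (x, y) = x := rfl
    rw [h2] at h1
    refine h1.trans (le_of_eq ?_)
    simp only
    ring
  have hcont : Continuous l := by
    have hh : Continuous h := by
      have h1 : LipschitzWith 1 h := by
        refine LipschitzWith.of_dist_le_mul fun x y => ?_
        rw [Real.dist_eq, Real.dist_eq, NNReal.coe_one, one_mul]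
        exact C.lip x y
      exact h1.continuous
    have hc1 : Continuous fun p : ℝ × ℝ => |p.2 - h p.1| :=
      (continuous_snd.sub (hh.comp continuous_fst)).abs
    have h1 : TendstoLocallyUniformly (fun k => ap β f1 f2 g k) l atTop := by
      rw [Metric.tendstoLocallyUniformly_iff]
      intro δ hδ p
      refine ⟨{q | |q.2 - h q.1| < |p.2 - h p.1| + 1},
        (isOpen_lt hc1 continuous_const).mem_nhds (by simp), ?_⟩
      have h2 : Tendsto (fun k : ℕ => ε / (1 - ε) * (|p.2 - h p.1| + 1) * κ ^ k / (1 - κ)) atTop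
          (𝓝 (ε / (1 - ε) * (|p.2 - h p.1| + 1) * 0 / (1 - κ))) :=
        ((tendsto_pow_atTop_nhds_zero_of_lt_one hκ0 hκ1).const_mul _).div_const _
      rw [mul_zero, zero_div] at h2
      filter_upwards [h2.eventually (gt_mem_nhds hδ)] with k hk q hq
      rw [dist_comm]
      refine lt_of_le_of_lt ((hest q k).trans ?_) hk
      have hq' : |q.2 - h q.1| ≤ |p.2 - h p.1| + 1 := le_of_lt hq
      gcongr
    exact h1.continuous (Frequently.of_forall fun k => ap_cont H k)
  refine ⟨ε / (1 - ε) / (1 - κ), fun x y => l (x, y), by positivity, hcont, ?_, ?_, hnear⟩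
  · intro x y
    have h1 := hl (fm β f1 f2 (x, y))
    have h2 : Tendsto (fun k => ap β f1 f2 g k (fm β f1 f2 (x, y))) atTop (𝓝 (g (l (x, y)))) := by
      have h3 : (fun k => ap β f1 f2 g k (fm β f1 f2 (x, y))) =
          fun k => g (ap β f1 f2 g (k + 1) (x, y)) := funext fun k => ap_conj k _
      rw [h3]
      exact (g.continuous.tendsto _).comp ((tendsto_add_atTop_iff_nat 1).2 (hl (x, y)))
    exact tendsto_nhds_unique h1 h2
  · intro x
    have h1 := hnear x (h x)
    rw [sub_self, abs_zero, mul_zero] at h1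
    have h2 := abs_nonpos_iff.1 h1
    linarith

end Pool.Agent.HF
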