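import Pool.Agent.HF.Defs

set_option autoImplicit false

/-!
HF-LStrict. Affine coordinates at a semi-neutral fixed point and the Lipschitz extension of the local map.
-/

namespace Pool.Agent.HF

open Set Topology Filter

/-- the first coordinate -/
private noncomputable def lsX (u v w : ℂ) : ℝ := (w.re * v.im - w.im * v.re) / (u.re * v.im - u.im * v.re)

/-- the second coordinate -/
private noncomputable def lsY (u v w : ℂ) : ℝ := (u.re * w.im - u.im * w.re) / (u.re * v.im - u.im * v.re)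

private lemma ls_X_cont (u v : ℂ) : Continuous (lsX u v) := by
  unfold lsX
  fun_prop

private lemma ls_Y_cont (u v : ℂ) : Continuous (lsY u v) := by
  unfold lsY
  fun_prop

private lemma ls_XY {u v : ℂ} (hd : u.re * v.im - u.im * v.re ≠ 0) (w : ℂ) :
    (lsX u v w : ℂ) * u + (lsY u v w : ℂ) * v = w := by
  apply Complex.ext
  · simp only [lsX, lsY, Complex.add_re, Complex.mul_re, Complex.ofReal_re, Complex.ofReal_im,
      zero_mul, sub_zero]
    rw [div_mul_eq_mul_div, div_mul_eq_mul_div, ← add_div, div_eq_iff hd]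
    ring
  · simp only [lsX, lsY, Complex.add_im, Complex.mul_im, Complex.ofReal_re, Complex.ofReal_im,
      zero_mul, add_zero]
    rw [div_mul_eq_mul_div, div_mul_eq_mul_div, ← add_div, div_eq_iff hd]
    ring

private lemma ls_X_comb {u v : ℂ} (hd : u.re * v.im - u.im * v.re ≠ 0) (x y : ℝ) :
    lsX u v ((x : ℂ) * u + (y : ℂ) * v) = x := by
  simp only [lsX, Complex.add_re, Complex.mul_re, Complex.add_im, Complex.mul_im,
    Complex.ofReal_re, Complex.ofReal_im, zero_mul, sub_zero, add_zero]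
  rw [div_eq_iff hd]
  ring

private lemma ls_Y_comb {u v : ℂ} (hd : u.re * v.im - u.im * v.re ≠ 0) (x y : ℝ) :
    lsY u v ((x : ℂ) * u + (y : ℂ) * v) = y := by
  simp only [lsY, Complex.add_re, Complex.mul_re, Complex.add_im, Complex.mul_im,
    Complex.ofReal_re, Complex.ofReal_im, zero_mul, sub_zero, add_zero]
  rw [div_eq_iff hd]
  ring

private lemma ls_X_sub (u v w w' : ℂ) : lsX u v (w - w') = lsX u v w - lsX u v w' := by
  simp only [lsX, Complex.sub_re, Complex.sub_im]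
  ring

private lemma ls_Y_sub (u v w w' : ℂ) : lsY u v (w - w') = lsY u v w - lsY u v w' := by
  simp only [lsY, Complex.sub_re, Complex.sub_im]
  ring

/-- the constant -/
private noncomputable def lsC (u v : ℂ) : ℝ := (2 * (‖u‖ + ‖v‖)) / |u.re * v.im - u.im * v.re|

private lemma ls_X_le (u v w : ℂ) : |lsX u v w| ≤ lsC u v * ‖w‖ := by
  unfold lsX lsC
  rw [abs_div, div_mul_eq_mul_div]
  refine div_le_div_of_nonneg_right ?_ (abs_nonneg _)
  calc |w.re * v.im - w.im * v.re| ≤ |w.re * v.im| + |w.im * v.re| := abs_sub _ _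
    _ = |w.re| * |v.im| + |w.im| * |v.re| := by rw [abs_mul, abs_mul]
    _ ≤ ‖w‖ * ‖v‖ + ‖w‖ * ‖v‖ :=
        add_le_add
          (mul_le_mul (Complex.abs_re_le_norm w) (Complex.abs_im_le_norm v) (abs_nonneg _)
            (norm_nonneg _))
          (mul_le_mul (Complex.abs_im_le_norm w) (Complex.abs_re_le_norm v) (abs_nonneg _)
            (norm_nonneg _))
    _ ≤ 2 * (‖u‖ + ‖v‖) * ‖w‖ := by
        have h1 := mul_nonneg (norm_nonneg u) (norm_nonneg w)
        nlinarith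

private lemma ls_Y_le (u v w : ℂ) : |lsY u v w| ≤ lsC u v * ‖w‖ := by
  unfold lsY lsC
  rw [abs_div, div_mul_eq_mul_div]
  refine div_le_div_of_nonneg_right ?_ (abs_nonneg _)
  calc |u.re * w.im - u.im * w.re| ≤ |u.re * w.im| + |u.im * w.re| := abs_sub _ _
    _ = |u.re| * |w.im| + |u.im| * |w.re| := by rw [abs_mul, abs_mul]
    _ ≤ ‖u‖ * ‖w‖ + ‖u‖ * ‖w‖ :=
        add_le_add
          (mul_le_mul (Complex.abs_re_le_norm u) (Complex.abs_im_le_norm w) (abs_nonneg _)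
            (norm_nonneg _))
          (mul_le_mul (Complex.abs_im_le_norm u) (Complex.abs_re_le_norm w) (abs_nonneg _)
            (norm_nonneg _))
    _ ≤ 2 * (‖u‖ + ‖v‖) * ‖w‖ := by
        have h1 := mul_nonneg (norm_nonneg v) (norm_nonneg w)
        nlinarith

theorem exists_T (q : ℂ) {u v : ℂ} (hd : u.re * v.im - u.im * v.re ≠ 0) :
    ∃ T : (ℝ × ℝ) ≃ₜ ℂ, ∀ p : ℝ × ℝ, T p = pt q u v p.1 p.2 := by
  refine ⟨{ toFun := fun p => pt q u v p.1 p.2
            invFun := fun w => (lsX u v (w - q), lsY u v (w - q))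
            left_inv := ?_
            right_inv := ?_
            continuous_toFun := ?_
            continuous_invFun := ?_ }, fun p => rfl⟩
  · intro p
    have h1 : pt q u v p.1 p.2 - q = (p.1 : ℂ) * u + (p.2 : ℂ) * v := by
      unfold pt
      ring
    simp only [h1, ls_X_comb hd, ls_Y_comb hd]
  · intro w
    have h1 := ls_XY hd (w - q)
    show pt q u v (lsX u v (w - q)) (lsY u v (w - q)) = w
    unfold pt
    rw [add_assoc, h1]
    ring
  · unfold pt
    fun_prop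
  · exact ((ls_X_cont u v).comp (continuous_id.sub continuous_const)).prodMk
      ((ls_Y_cont u v).comp (continuous_id.sub continuous_const))

/-- the residual of the map -/
private noncomputable def lsG (F : ℂ ≃ₜ ℂ) (q u v : ℂ) (β : ℝ) (x y : ℝ) : ℂ :=
  F (pt q u v x y) - q - ((x : ℂ) * u + ((β * y : ℝ) : ℂ) * v)

/-- the projection to the interval -/
private noncomputable def lsP (ρ t : ℝ) : ℝ := max (-ρ) (min t ρ)

private lemma ls_P_abs {ρ : ℝ} (hρ : 0 < ρ) (t : ℝ) : |lsP ρ t| ≤ ρ := by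
  unfold lsP
  rw [abs_le]
  exact ⟨le_max_left _ _, max_le (by linarith) (min_le_right _ _)⟩

private lemma ls_P_lip (ρ t t' : ℝ) : |lsP ρ t - lsP ρ t'| ≤ |t - t'| := by
  unfold lsP
  rw [max_comm (-ρ), max_comm (-ρ)]
  refine (abs_max_sub_max_le_abs _ _ _).trans ?_
  refine (abs_min_sub_min_le_max _ _ _ _).trans ?_
  rw [sub_self, abs_zero]
  exact max_le le_rfl (abs_nonneg _)

private lemma ls_P_id {ρ t : ℝ} (h : |t| ≤ ρ) : lsP ρ t = t := by
  unfold lsP
  rw [abs_le] at h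
  rw [min_eq_left h.2, max_eq_right h.1]

private lemma ls_loc {F : ℂ ≃ₜ ℂ} {q u v : ℂ} {L : ℂ →L[ℝ] ℂ} (hF : HasStrictFDerivAt F L q)
    {β : ℝ} (hu : L u = u) (hv : L v = β • v) {ω : ℝ} (hω : 0 < ω) :
    ∃ ρ > 0, ∀ x y x' y' : ℝ, |x| ≤ ρ → |y| ≤ ρ → |x'| ≤ ρ → |y'| ≤ ρ →
      ‖lsG F q u v β x y - lsG F q u v β x' y'‖ ≤ ω * max |x - x'| |y - y'| := by
  set S : ℝ := ‖u‖ + ‖v‖ with hS
  have hS0 : 0 ≤ S := by positivity
  have hc : 0 < ω / (S + 1) := by positivity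
  have h1 := hF.isLittleO.def hc
  rw [nhds_prod_eq, Filter.eventually_prod_self_iff'] at h1
  obtain ⟨t, ht, h2⟩ := h1
  obtain ⟨δ, hδ, h3⟩ := Metric.mem_nhds_iff.1 ht
  have hpt : ∀ x y : ℝ, pt q u v x y - q = (x : ℂ) * u + (y : ℂ) * v := by
    intro x y
    unfold pt
    ring
  have hn : ∀ (x y m : ℝ), |x| ≤ m → |y| ≤ m → ‖(x : ℂ) * u + (y : ℂ) * v‖ ≤ S * m := by
    intro x y m hx hy
    calc ‖(x : ℂ) * u + (y : ℂ) * v‖ ≤ ‖(x : ℂ) * u‖ + ‖(y : ℂ) * v‖ := norm_add_le _ _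
      _ = |x| * ‖u‖ + |y| * ‖v‖ := by
        rw [norm_mul, norm_mul, Complex.norm_real, Complex.norm_real, Real.norm_eq_abs,
          Real.norm_eq_abs]
      _ ≤ m * ‖u‖ + m * ‖v‖ := add_le_add (mul_le_mul_of_nonneg_right hx (norm_nonneg _))
          (mul_le_mul_of_nonneg_right hy (norm_nonneg _))
      _ = S * m := by rw [hS]; ring
  have hball : ∀ x y : ℝ, |x| ≤ δ / (S + 1) / 2 → |y| ≤ δ / (S + 1) / 2 → pt q u v x y ∈ t := by
    intro x y hx hy
    apply h3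
    rw [Metric.mem_ball, dist_eq_norm, hpt]
    refine lt_of_le_of_lt (hn x y _ hx hy) ?_
    have h4 : S * (δ / (S + 1) / 2) ≤ δ / 2 := by
      rw [show S * (δ / (S + 1) / 2) = (S / (S + 1)) * (δ / 2) by ring]
      have h5 : S / (S + 1) ≤ 1 := by
        rw [div_le_one (by linarith)]
        linarith
      have h6 : 0 ≤ δ / 2 := by linarith
      calc S / (S + 1) * (δ / 2) ≤ 1 * (δ / 2) := mul_le_mul_of_nonneg_right h5 h6
        _ = δ / 2 := one_mul _
    linarith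
  refine ⟨δ / (S + 1) / 2, by positivity, fun x y x' y' hx hy hx' hy' => ?_⟩
  have h4 := h2 (pt q u v x y) (hball x y hx hy) (pt q u v x' y') (hball x' y' hx' hy')
  have h5 : pt q u v x y - pt q u v x' y' = ((x - x' : ℝ) : ℂ) * u + ((y - y' : ℝ) : ℂ) * v := by
    unfold pt
    push_cast
    ring
  have h6 : L (pt q u v x y - pt q u v x' y') =
      ((x - x' : ℝ) : ℂ) * u + ((β * (y - y') : ℝ) : ℂ) * v := by
    rw [h5, map_add]
    have h7 : ((x - x' : ℝ) : ℂ) * u = (x - x') • u := by rw [Complex.real_smul]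
    have h8 : ((y - y' : ℝ) : ℂ) * v = (y - y') • v := by rw [Complex.real_smul]
    rw [h7, h8, map_smul, map_smul, hu, hv, smul_smul, Complex.real_smul, Complex.real_smul,
      mul_comm (y - y') β]
  have h7 : lsG F q u v β x y - lsG F q u v β x' y' =
      F (pt q u v x y) - F (pt q u v x' y') - L (pt q u v x y - pt q u v x' y') := by
    rw [h6]
    unfold lsG
    push_cast
    ring
  rw [h7]
  refine h4.trans ?_
  dsimp only
  rw [h5]
  calc ω / (S + 1) * ‖((x - x' : ℝ) : ℂ) * u + ((y - y' : ℝ) : ℂ) * v‖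
      ≤ ω / (S + 1) * (S * max |x - x'| |y - y'|) :=
        mul_le_mul_of_nonneg_left (hn _ _ _ (le_max_left _ _) (le_max_right _ _)) hc.le
    _ = (S / (S + 1)) * (ω * max |x - x'| |y - y'|) := by ring
    _ ≤ 1 * (ω * max |x - x'| |y - y'|) := by
        refine mul_le_mul_of_nonneg_right ?_ (by positivity)
        rw [div_le_one (by linarith)]
        linarith
    _ = ω * max |x - x'| |y - y'| := one_mul _

private lemma ls_locXY {F : ℂ ≃ₜ ℂ} {q u v : ℂ} {L : ℂ →L[ℝ] ℂ} (hF : HasStrictFDerivAt F L q)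
    {β : ℝ} (hu : L u = u) (hv : L v = β • v) {ω : ℝ} (hω : 0 < ω) :
    ∃ ρ > 0, ∀ x y x' y' : ℝ, |x| ≤ ρ → |y| ≤ ρ → |x'| ≤ ρ → |y'| ≤ ρ →
      |lsX u v (lsG F q u v β x y) - lsX u v (lsG F q u v β x' y')| ≤ ω * max |x - x'| |y - y'| ∧
      |lsY u v (lsG F q u v β x y) - lsY u v (lsG F q u v β x' y')| ≤ ω * max |x - x'| |y - y'| := by
  have hC0 : 0 ≤ lsC u v := by
    unfold lsC
    positivity
  obtain ⟨ρ, hρ, h1⟩ := ls_loc hF hu hv (ω := ω / (lsC u v + 1)) (by positivity)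
  refine ⟨ρ, hρ, fun x y x' y' hx hy hx' hy' => ?_⟩
  have h2 := h1 x y x' y' hx hy hx' hy'
  have h3 : lsC u v * ‖lsG F q u v β x y - lsG F q u v β x' y'‖ ≤ ω * max |x - x'| |y - y'| := by
    calc lsC u v * ‖lsG F q u v β x y - lsG F q u v β x' y'‖
        ≤ lsC u v * (ω / (lsC u v + 1) * max |x - x'| |y - y'|) := mul_le_mul_of_nonneg_left h2 hC0
      _ = (lsC u v / (lsC u v + 1)) * (ω * max |x - x'| |y - y'|) := by ring
      _ ≤ 1 * (ω * max |x - x'| |y - y'|) := by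
          refine mul_le_mul_of_nonneg_right ?_ (by positivity)
          rw [div_le_one (by linarith)]
          linarith
      _ = ω * max |x - x'| |y - y'| := one_mul _
  rw [← ls_X_sub, ← ls_Y_sub]
  exact ⟨(ls_X_le _ _ _).trans h3, (ls_Y_le _ _ _).trans h3⟩

theorem lp_of_strict {F : ℂ ≃ₜ ℂ} {q u v : ℂ} {L : ℂ →L[ℝ] ℂ} (hF : HasStrictFDerivAt F L q)
    (hq : F q = q) {β ε : ℝ} (hu : L u = u) (hv : L v = β • v) (hd : u.re * v.im - u.im * v.re ≠ 0)
    (hε : 0 < ε) (h1 : 2 * ε < β) (h2 : β + 4 * ε < 1) :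
    ∃ (f1 f2 : ℝ → ℝ → ℝ) (ρ M : ℝ), 0 < ρ ∧ LP β ε M f1 f2 ∧
      (∀ x y : ℝ, |x| ≤ ρ → |y| ≤ ρ →
        F (pt q u v x y) = pt q u v (x + f1 x y) (β * y + f2 x y)) ∧
      ∀ ω > 0, ∃ δ > 0, ∀ x y : ℝ, |x| < δ → |y| < δ → |f1 x y| ≤ ω * max |x| |y| := by
  obtain ⟨ρ, hρ, hloc⟩ := ls_locXY hF hu hv hε
  have hG0 : lsG F q u v β 0 0 = 0 := by
    unfold lsG pt
    simp [hq]
  have hX0 : lsX u v 0 = 0 := by simp [lsX]
  have hY0 : lsY u v 0 = 0 := by simp [lsY]
  have hP0 : lsP ρ 0 = 0 := ls_P_id (by rw [abs_zero]; exact hρ.le)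
  have hbd : ∀ x y : ℝ, max |lsP ρ x - 0| |lsP ρ y - 0| ≤ ρ := by
    intro x y
    rw [sub_zero, sub_zero]
    exact max_le (ls_P_abs hρ x) (ls_P_abs hρ y)
  have hlip : ∀ x y x' y' : ℝ, max |lsP ρ x - lsP ρ x'| |lsP ρ y - lsP ρ y'| ≤ max |x - x'| |y - y'| :=
    fun x y x' y' => max_le_max (ls_P_lip ρ x x') (ls_P_lip ρ y y')
  have h0ρ : |(0 : ℝ)| ≤ ρ := by
    rw [abs_zero]
    exact hρ.le
  refine ⟨fun x y => lsX u v (lsG F q u v β (lsP ρ x) (lsP ρ y)),
    fun x y => lsY u v (lsG F q u v β (lsP ρ x) (lsP ρ y)), ρ, ε * ρ, hρ, ?_, ?_, ?_⟩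
  · refine ⟨by linarith, hε, h1, h2, fun x y x' y' => ?_, fun x y x' y' => ?_, ?_, ?_,
      fun x y => ?_, fun x y => ?_⟩
    · exact ((hloc _ _ _ _ (ls_P_abs hρ x) (ls_P_abs hρ y) (ls_P_abs hρ x') (ls_P_abs hρ y')).1).trans
        (mul_le_mul_of_nonneg_left (hlip x y x' y') hε.le)
    · exact ((hloc _ _ _ _ (ls_P_abs hρ x) (ls_P_abs hρ y) (ls_P_abs hρ x') (ls_P_abs hρ y')).2).trans
        (mul_le_mul_of_nonneg_left (hlip x y x' y') hε.le)
    · show lsX u v (lsG F q u v β (lsP ρ 0) (lsP ρ 0)) = 0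
      rw [hP0, hG0, hX0]
    · show lsY u v (lsG F q u v β (lsP ρ 0) (lsP ρ 0)) = 0
      rw [hP0, hG0, hY0]
    · have h3 := (hloc (lsP ρ x) (lsP ρ y) 0 0 (ls_P_abs hρ x) (ls_P_abs hρ y) h0ρ h0ρ).1
      rw [hG0, hX0, sub_zero] at h3
      exact h3.trans (mul_le_mul_of_nonneg_left (hbd x y) hε.le)
    · have h3 := (hloc (lsP ρ x) (lsP ρ y) 0 0 (ls_P_abs hρ x) (ls_P_abs hρ y) h0ρ h0ρ).2
      rw [hG0, hY0, sub_zero] at h3
      exact h3.trans (mul_le_mul_of_nonneg_left (hbd x y) hε.le)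
  · intro x y hx hy
    dsimp only
    rw [ls_P_id hx, ls_P_id hy]
    have h3 := ls_XY hd (lsG F q u v β x y)
    have h4 : F (pt q u v x y) = q + ((x : ℂ) * u + ((β * y : ℝ) : ℂ) * v) + lsG F q u v β x y := by
      unfold lsG
      ring
    rw [h4]
    conv_lhs => rw [← h3]
    unfold pt
    push_cast
    ring
  · intro ω hω
    obtain ⟨ρ', hρ', hloc'⟩ := ls_locXY hF hu hv hω
    refine ⟨min ρ ρ', lt_min hρ hρ', fun x y hx hy => ?_⟩
    dsimp only
    rw [ls_P_id (hx.le.trans (min_le_left _ _)), ls_P_id (hy.le.trans (min_le_left _ _))]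
    have h3 := (hloc' x y 0 0 (hx.le.trans (min_le_right _ _)) (hy.le.trans (min_le_right _ _))
      (by rw [abs_zero]; exact hρ'.le) (by rw [abs_zero]; exact hρ'.le)).1
    rw [hG0, hX0, sub_zero, sub_zero, sub_zero] at h3
    exact h3

end Pool.Agent.HF
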