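import Pool.Agent.HF.LGraph
import Pool.Agent.HF.LProj
import Pool.Agent.HF.LHomeo
import Pool.Agent.HF.LLinT
import Pool.Agent.HF.LExp
import Pool.Agent.HF.LStrict

set_option autoImplicit false

/-!
HF-LChart. Topological chart at a semi-neutral fixed point: assembly of the affine coordinates (`LStrict`), the centre curve (`LGraph`),
the projection along the strong stable curves (`LProj`, `LHomeo`) and the linearisation on the line (`LLinT`). The first coordinate of the chart is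
`η (π x y)`, the second one is `y - h0 x`. Points converging exponentially to the fixed point have first coordinate `0` (`LExp`).
-/

namespace Pool.Agent.HF

open Set Topology Filter

private lemma eps_ok {β : ℝ} (hβ0 : 0 < β) (hβ1 : β < 1) :
    ∃ ε : ℝ, 0 < ε ∧ 2 * ε < β ∧ β + 4 * ε < 1 ∧ (β + 2 * ε) ^ 2 < β - 2 * ε := by
  refine ⟨β * (1 - β) / 10, by have := sub_pos.2 hβ1; positivity, by nlinarith, by nlinarith, ?_⟩
  obtain ⟨t, ht⟩ : ∃ t, t = (1 - β) / 5 := ⟨_, rfl⟩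
  have hb : β = 1 - 5 * t := by rw [ht]; ring
  have ht0 : 0 < t := by rw [ht]; linarith
  have e1 : β - 2 * (β * (1 - β) / 10) = β * (1 - t) := by rw [ht]; ring
  have e2 : β + 2 * (β * (1 - β) / 10) = β * (1 + t) := by rw [ht]; ring
  rw [e1, e2, mul_pow, pow_two β, mul_assoc]
  apply mul_lt_mul_of_pos_left _ hβ0
  rw [hb]
  nlinarith [mul_pos ht0 ht0, mul_pos (mul_pos ht0 ht0) ht0]

private lemma coord_bd (q : ℂ) {u v : ℂ} (hd : u.re * v.im - u.im * v.re ≠ 0) :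
    ∃ C1 : ℝ, 0 ≤ C1 ∧ ∀ a b : ℝ, max |a| |b| ≤ C1 * dist (pt q u v a b) q := by
  obtain ⟨d, hdd⟩ : ∃ d, d = u.re * v.im - u.im * v.re := ⟨_, rfl⟩
  rw [← hdd] at hd
  have hd0 : 0 < |d| := abs_pos.2 hd
  refine ⟨(|u.re| + |u.im| + |v.re| + |v.im|) / |d|, by positivity, fun a b => ?_⟩
  obtain ⟨w, hw⟩ : ∃ w : ℂ, w = a * u + b * v := ⟨_, rfl⟩
  have hdist : dist (pt q u v a b) q = ‖w‖ := by
    rw [dist_eq_norm, hw]
    congr 1
    unfold pt
    ring
  have hre : w.re = a * u.re + b * v.re := by rw [hw]; simp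
  have him : w.im = a * u.im + b * v.im := by rw [hw]; simp
  have h1 : |w.re| ≤ ‖w‖ := Complex.abs_re_le_norm w
  have h2 : |w.im| ≤ ‖w‖ := Complex.abs_im_le_norm w
  have ha : d * a = w.re * v.im - w.im * v.re := by rw [hre, him, hdd]; ring
  have hb : d * b = u.re * w.im - u.im * w.re := by rw [hre, him, hdd]; ring
  have hn : 0 ≤ ‖w‖ := norm_nonneg w
  rw [hdist, div_mul_eq_mul_div, le_div_iff₀ hd0]
  have ka : |a| * |d| ≤ (|u.re| + |u.im| + |v.re| + |v.im|) * ‖w‖ := by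
    have : |a| * |d| = |w.re * v.im - w.im * v.re| := by rw [← ha, abs_mul, mul_comm]
    rw [this]
    have t1 : |w.re * v.im - w.im * v.re| ≤ |w.re| * |v.im| + |w.im| * |v.re| := by
      rw [← abs_mul, ← abs_mul]; exact abs_sub _ _
    have t2 : |w.re| * |v.im| ≤ ‖w‖ * |v.im| := mul_le_mul_of_nonneg_right h1 (abs_nonneg _)
    have t3 : |w.im| * |v.re| ≤ ‖w‖ * |v.re| := mul_le_mul_of_nonneg_right h2 (abs_nonneg _)
    have t4 : 0 ≤ |u.re| * ‖w‖ := by positivity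
    have t5 : 0 ≤ |u.im| * ‖w‖ := by positivity
    nlinarith
  have kb : |b| * |d| ≤ (|u.re| + |u.im| + |v.re| + |v.im|) * ‖w‖ := by
    have : |b| * |d| = |u.re * w.im - u.im * w.re| := by rw [← hb, abs_mul, mul_comm]
    rw [this]
    have t1 : |u.re * w.im - u.im * w.re| ≤ |u.re| * |w.im| + |u.im| * |w.re| := by
      rw [← abs_mul, ← abs_mul]; exact abs_sub _ _
    have t2 : |u.re| * |w.im| ≤ |u.re| * ‖w‖ := mul_le_mul_of_nonneg_left h2 (abs_nonneg _)
    have t3 : |u.im| * |w.re| ≤ |u.im| * ‖w‖ := mul_le_mul_of_nonneg_left h1 (abs_nonneg _)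
    have t4 : 0 ≤ |v.re| * ‖w‖ := by positivity
    have t5 : 0 ≤ |v.im| * ‖w‖ := by positivity
    nlinarith
  rcases le_total |a| |b| with h | h
  · rw [max_eq_right h]; exact kb
  · rw [max_eq_left h]; exact ka

private lemma near_bd {β K : ℝ} {f1 f2 : ℝ → ℝ → ℝ} {h : ℝ → ℝ} {g : ℝ ≃ₜ ℝ} {π : ℝ → ℝ → ℝ}
    (C : CG β f1 f2 h g) (P : PR β f1 f2 h g K π) (hK : 0 ≤ K) (a b : ℝ) :
    |π a b| ≤ (1 + 2 * K) * max |a| |b| := by
  have h1 := P.near a b
  have h2 : |h a| ≤ |a| := by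
    have := C.lip a 0
    rwa [C.zero, sub_zero, sub_zero] at this
  have h3 : |b - h a| ≤ |b| + |h a| := abs_sub _ _
  have h4 : |π a b| ≤ |π a b - a| + |a| := by
    have := abs_add_le (π a b - a) a
    rwa [sub_add_cancel] at this
  have h5 := le_max_left |a| |b|
  have h6 := le_max_right |a| |b|
  have h7 : K * |b - h a| ≤ K * (max |a| |b| + max |a| |b|) :=
    mul_le_mul_of_nonneg_left (by linarith) hK
  nlinarith

private lemma conj_iter {β K : ℝ} {f1 f2 : ℝ → ℝ → ℝ} {h : ℝ → ℝ} {g : ℝ ≃ₜ ℝ} {π : ℝ → ℝ → ℝ}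
    (P : PR β f1 f2 h g K π) (p : ℝ × ℝ) (k : ℕ) :
    π ((fm β f1 f2)^[k] p).1 ((fm β f1 f2)^[k] p).2 = (g : ℝ → ℝ)^[k] (π p.1 p.2) := by
  induction k with
  | zero => rfl
  | succ k ih =>
    rw [Function.iterate_succ_apply', Function.iterate_succ_apply', ← ih]
    exact P.conj _ _

theorem exists_pc {F : ℂ ≃ₜ ℂ} {q u v : ℂ} {L : ℂ →L[ℝ] ℂ} (hF : HasStrictFDerivAt F L q)
    (hq : F q = q) {β : ℝ} (hβ0 : 0 < β) (hβ1 : β < 1) (hu : L u = u) (hv : L v = β • v)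
    (hd : u.re * v.im - u.im * v.re ≠ 0) (hiso : ∃ δ > 0, ∀ z, F z = z → dist z q < δ → z = q) :
    ∃ (Φ : ℂ ≃ₜ ℂ) (h : ℝ) (s : ℝ → ℝ) (lm lp : ℝ) (η : ℝ → ℝ), PC F Φ q h s lm lp ∧
      StrictMono η ∧ η 0 = 0 ∧
      (∀ z, (Φ z).im = 0 → ∃ x y : ℝ, z = pt q u v x y ∧ (Φ z).re = η x) ∧
      ∀ ρ C : ℝ, ∀ z : ℂ, 0 ≤ ρ → ρ < 1 →
        (∀ k : ℕ, |(Φ ((F : ℂ → ℂ)^[k] z)).re| < h ∧ |(Φ ((F : ℂ → ℂ)^[k] z)).im| < h) →
        (∀ k : ℕ, dist ((F : ℂ → ℂ)^[k] z) q ≤ C * ρ ^ k) → (Φ z).re = 0 := by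
  obtain ⟨ε, hε, h1, h2, h3⟩ := eps_ok hβ0 hβ1
  obtain ⟨f1, f2, ρ, M, hρ, H, hloc, hom⟩ := lp_of_strict hF hq hu hv hd hε h1 h2
  obtain ⟨T, hT⟩ := exists_T q hd
  obtain ⟨h0, g, C⟩ := cgraph H
  obtain ⟨K, π, hK, P⟩ := proj H C
  obtain ⟨Ψ, hΨ⟩ := homeo H C P hK
  have hh0 : ∀ x, |h0 x| ≤ |x| := fun x => by
    have := C.lip x 0
    rwa [C.zero, sub_zero, sub_zero] at this
  have hinj : ∀ x y x' y' : ℝ, pt q u v x y = pt q u v x' y' → x = x' ∧ y = y' := by
    intro x y x' y' hxy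
    have : T (x, y) = T (x', y') := by rw [hT, hT]; exact hxy
    have := T.injective this
    exact ⟨congrArg Prod.fst this, congrArg Prod.snd this⟩
  have hT0 : T (0, 0) = q := by rw [hT]; simp [pt]
  have hq0 : q = pt q u v 0 0 := by simp [pt]
  -- no fixed points of `g` near `0`
  obtain ⟨x0, hx0, hne⟩ : ∃ x0 > 0, ∀ x, x ≠ 0 → |x| ≤ x0 → g x ≠ x := by
    obtain ⟨δ, hδ, hfix⟩ := hiso
    have hc : ContinuousAt T (0, 0) := T.continuous.continuousAt
    obtain ⟨r, hr, hball⟩ := Metric.continuousAt_iff.1 hc δ hδ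
    refine ⟨min ρ (r / 2), lt_min hρ (half_pos hr), fun x hx hxx hgx => hx ?_⟩
    have hx1 : |x| ≤ ρ := hxx.trans (min_le_left _ _)
    have hx2 : |x| ≤ r / 2 := hxx.trans (min_le_right _ _)
    have e1 : f1 x (h0 x) = 0 := by
      have := C.geq x
      rw [hgx] at this
      linarith
    have e2 : β * h0 x + f2 x (h0 x) = h0 x := by
      have := C.inv x
      rw [hgx] at this
      exact this.symm
    have e3 := hloc x (h0 x) hx1 ((hh0 x).trans hx1)
    rw [e1, e2, add_zero] at e3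
    have e4 : dist (T (x, h0 x)) (T (0, 0)) < δ := by
      apply hball
      rw [Prod.dist_eq]
      simp only [dist_zero_right, Real.norm_eq_abs]
      exact max_lt (by linarith) (by have := hh0 x; linarith)
    rw [hT, hT0] at e4
    have e5 := hfix _ e3 e4
    rw [hq0] at e5
    nth_rewrite 1 [← hq0] at e5
    exact (hinj _ _ _ _ e5).1
  obtain ⟨η, s, hηm, hη0, hs, hηs⟩ := lin (C.gmono H) (C.g0 H) (fun x => C.gM H x) hx0 hne
  obtain ⟨Φ, hΦ⟩ : ∃ Φ : ℂ ≃ₜ ℂ, ∀ x y : ℝ,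
      Φ (pt q u v x y) = (η (π x y) : ℂ) + ((y - h0 x : ℝ) : ℂ) * Complex.I := by
    refine ⟨T.symm.trans (Ψ.trans ((η.prodCongr (Homeomorph.refl ℝ)).trans
      Complex.equivRealProdCLM.symm.toHomeomorph)), fun x y => ?_⟩
    have e1 : T.symm (pt q u v x y) = (x, y) := by
      rw [Homeomorph.symm_apply_eq, hT]
    rw [Homeomorph.trans_apply, Homeomorph.trans_apply, Homeomorph.trans_apply, e1, hΨ]
    simp [Complex.equivRealProdCLM_symm_apply]
  have hre : ∀ x y : ℝ, (Φ (pt q u v x y)).re = η (π x y) := fun x y => by rw [hΦ]; simp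
  have him : ∀ x y : ℝ, (Φ (pt q u v x y)).im = y - h0 x := fun x y => by rw [hΦ]; simp
  have hπ0 : π 0 0 = 0 := by
    have := P.graph 0
    rwa [C.zero] at this
  have hΦ0 : Φ q = 0 := by
    rw [hq0, hΦ, hπ0, hη0, C.zero]
    simp
  have hcoord : ∀ z, z = pt q u v (T.symm z).1 (T.symm z).2 := fun z => by
    rw [← hT]
    simp
  -- size of the box
  obtain ⟨h, hh, hbox⟩ : ∃ h > 0, ∀ z, |(Φ z).re| < h → |(Φ z).im| < h →
      ∃ x y : ℝ, z = pt q u v x y ∧ |x| ≤ ρ ∧ |y| ≤ ρ ∧ |π x y| ≤ x0 := by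
    have hc : ContinuousAt (fun w => T.symm (Φ.symm w)) 0 :=
      (T.symm.continuous.comp Φ.symm.continuous).continuousAt
    have hv0 : T.symm (Φ.symm 0) = (0, 0) := by
      rw [Homeomorph.symm_apply_eq, Homeomorph.symm_apply_eq, hT0, hΦ0]
    have hopen : {p : ℝ × ℝ | |p.1| < ρ ∧ |p.2| < ρ ∧ |π p.1 p.2| < x0} ∈ 𝓝 (T.symm (Φ.symm 0)) := by
      apply IsOpen.mem_nhds
      · exact (isOpen_lt (continuous_fst.abs) continuous_const).inter
          ((isOpen_lt (continuous_snd.abs) continuous_const).inter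
          (isOpen_lt P.cont.abs continuous_const))
      · rw [hv0]
        refine ⟨by simpa using hρ, by simpa using hρ, ?_⟩
        simp only [hπ0, abs_zero]
        exact hx0
    obtain ⟨r, hr, hball⟩ := Metric.mem_nhds_iff.1 (hc hopen)
    refine ⟨r / 2, half_pos hr, fun z hz1 hz2 => ?_⟩
    have hzb : Φ z ∈ Metric.ball (0 : ℂ) r := by
      rw [mem_ball_zero_iff]
      have := Complex.norm_le_abs_re_add_abs_im (Φ z)
      linarith
    have := hball hzb
    simp only [mem_preimage, Homeomorph.symm_apply_apply, Set.mem_ofPred_eq] at this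
    exact ⟨(T.symm z).1, (T.symm z).2, hcoord z, this.1.le, this.2.1.le, this.2.2.le⟩
  have hposiff : ∀ i : ℝ, (i = 1 ∨ i = -1) → ∀ a : ℝ, 0 ≤ i * η a → 0 ≤ i * a := by
    intro i hi a ha
    rcases hi with rfl | rfl
    · rw [one_mul] at ha ⊢
      rw [← hη0] at ha
      exact hηm.le_iff_le.1 ha
    · have hb : η a ≤ η 0 := by rw [hη0]; linarith
      have := hηm.le_iff_le.1 hb
      linarith
  refine ⟨Φ, h, s, β - 2 * ε, β + 2 * ε, η, ?_, hηm, hη0, ?_, ?_⟩
  · refine ⟨hh, hs, by linarith, by linarith, h3, hΦ0, ?_, ?_, ?_, ?_⟩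
    · intro i hi z hz1 hz2 hz3
      obtain ⟨x, y, rfl, hx, hy, hxy⟩ := hbox z hz1 hz2
      rw [hloc x y hx hy, hre, hre, P.conj]
      rw [hre] at hz3
      exact hηs i hi _ (hposiff i hi _ hz3) hxy
    · intro z hz1 hz2
      obtain ⟨x, y, rfl, hx, hy, hxy⟩ := hbox z hz1 hz2
      rw [hloc x y hx hy, him, him]
      have ha := C.att H x y
      generalize y - h0 x = Y at ha ⊢
      generalize β * y + f2 x y - h0 (x + f1 x y) = Y' at ha ⊢
      have hb := abs_le.1 ha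
      rcases le_total 0 Y with hY | hY
      · rw [abs_of_nonneg hY] at hb
        apply mul_nonneg hY
        nlinarith [hb.1]
      · rw [abs_of_nonpos hY] at hb
        apply mul_nonneg_of_nonpos_of_nonpos hY
        nlinarith [hb.2]
    · intro z hz1 hz2
      obtain ⟨x, y, rfl, hx, hy, hxy⟩ := hbox z hz1 hz2
      rw [hloc x y hx hy, him, him]
      exact C.att_low H x y
    · intro z hz1 hz2
      obtain ⟨x, y, rfl, hx, hy, hxy⟩ := hbox z hz1 hz2
      rw [hloc x y hx hy, him, him]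
      exact C.att_up H x y
  · intro z hz
    refine ⟨(T.symm z).1, (T.symm z).2, hcoord z, ?_⟩
    rw [hcoord z] at hz ⊢
    rw [him] at hz
    rw [hre]
    have hy : (T.symm z).2 = h0 (T.symm z).1 := by linarith
    rw [← hcoord z, hy, P.graph]
  · intro ρ' C' z hρ0 hρ1 hz1 hz2
    obtain ⟨C1, hC1, hbd⟩ := coord_bd q hd
    obtain ⟨x, y, hzxy, -, -, -⟩ := hbox z (hz1 0).1 (hz1 0).2
    have hit : ∀ k : ℕ, (F : ℂ → ℂ)^[k] z
        = pt q u v ((fm β f1 f2)^[k] (x, y)).1 ((fm β f1 f2)^[k] (x, y)).2 := by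
      intro k
      induction k with
      | zero => exact hzxy
      | succ k ih =>
        obtain ⟨a, b, hab, ha, hb, -⟩ := hbox _ (hz1 k).1 (hz1 k).2
        obtain ⟨ea, eb⟩ := hinj _ _ _ _ (ih.symm.trans hab)
        rw [Function.iterate_succ_apply', Function.iterate_succ_apply', ih]
        exact hloc _ _ (by rw [ea]; exact ha) (by rw [eb]; exact hb)
    have hzero : π x y = 0 := by
      refine no_exp (g := g) (C := (1 + 2 * K) * C1 * C') (ρ := ρ') (C.g0 H) ?_ hρ0 hρ1 ?_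
      · intro ω hω
        obtain ⟨δ, hδ, hd1⟩ := hom ω hω
        refine ⟨δ, hδ, fun t ht => ?_⟩
        have e1 := hd1 t (h0 t) ht ((hh0 t).trans_lt ht)
        rw [max_eq_left (hh0 t)] at e1
        have e2 : g t - t = f1 t (h0 t) := by rw [C.geq]; ring
        rw [e2]
        exact e1
      · intro k
        have e1 := conj_iter P (x, y) k
        rw [← e1]
        have e2 := near_bd C P hK ((fm β f1 f2)^[k] (x, y)).1 ((fm β f1 f2)^[k] (x, y)).2
        have e3 := hbd ((fm β f1 f2)^[k] (x, y)).1 ((fm β f1 f2)^[k] (x, y)).2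
        have e4 := hz2 k
        rw [hit k] at e4
        calc |π ((fm β f1 f2)^[k] (x, y)).1 ((fm β f1 f2)^[k] (x, y)).2|
            ≤ (1 + 2 * K) * max |((fm β f1 f2)^[k] (x, y)).1| |((fm β f1 f2)^[k] (x, y)).2| := e2
          _ ≤ (1 + 2 * K) * (C1 * (C' * ρ' ^ k)) := by
              apply mul_le_mul_of_nonneg_left _ (by positivity)
              exact e3.trans (mul_le_mul_of_nonneg_left e4 hC1)
          _ = (1 + 2 * K) * C1 * C' * ρ' ^ k := by ring
    rw [hzxy, hre, hzero, hη0]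

end Pool.Agent.HF
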