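import Pool.Agent.HF.LAtt

set_option autoImplicit false

/-!
HF-LCone. The projection separates the points of a horizontal cone.

Two points of a horizontal cone with the same projection are equal: the first difference shrinks at most by the factor
`1 - ε` in every step, the distance to the graph at least by `β + 2 ε`.
-/

namespace Pool.Agent.HF

open Set Topology Filter

variable {β ε M K : ℝ} {f1 f2 : ℝ → ℝ → ℝ} {h : ℝ → ℝ} {g : ℝ ≃ₜ ℝ} {π : ℝ → ℝ → ℝ}

private lemma step (H : LP β ε M f1 f2) {p q : ℝ × ℝ} (h : |p.2 - q.2| ≤ |p.1 - q.1|) :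
    (1 - ε) * |p.1 - q.1| ≤ |(fm β f1 f2 p).1 - (fm β f1 f2 q).1| ∧
      |(fm β f1 f2 p).2 - (fm β f1 f2 q).2| ≤ |(fm β f1 f2 p).1 - (fm β f1 f2 q).1| := by
  have h1 := H.l1 p.1 p.2 q.1 q.2
  have h2 := H.l2 p.1 p.2 q.1 q.2
  rw [max_eq_left h] at h1 h2
  have e0 := H.e0
  have e2 := H.e2
  have b0 := H.b0
  have ha : 0 ≤ |p.1 - q.1| := abs_nonneg _
  have h3 : (1 - ε) * |p.1 - q.1| ≤ |(fm β f1 f2 p).1 - (fm β f1 f2 q).1| := by
    have h4 : (fm β f1 f2 p).1 - (fm β f1 f2 q).1 =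
        (p.1 - q.1) - (-(f1 p.1 p.2 - f1 q.1 q.2)) := by
      simp only [fm]
      ring
    rw [h4]
    have h5 := abs_sub_abs_le_abs_sub (p.1 - q.1) (-(f1 p.1 p.2 - f1 q.1 q.2))
    rw [abs_neg] at h5
    linarith
  refine ⟨h3, ?_⟩
  have h6 : (fm β f1 f2 p).2 - (fm β f1 f2 q).2 =
      β * (p.2 - q.2) + (f2 p.1 p.2 - f2 q.1 q.2) := by
    simp only [fm]
    ring
  have h7 : |(fm β f1 f2 p).2 - (fm β f1 f2 q).2| ≤ β * |p.2 - q.2| + ε * |p.1 - q.1| := by
    rw [h6]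
    refine (abs_add_le _ _).trans ?_
    rw [abs_mul, abs_of_pos b0]
    linarith
  have h8 : β * |p.2 - q.2| ≤ β * |p.1 - q.1| := mul_le_mul_of_nonneg_left h b0.le
  have h9 : (β + ε) * |p.1 - q.1| ≤ (1 - ε) * |p.1 - q.1| :=
    mul_le_mul_of_nonneg_right (by linarith) ha
  linarith

private lemma iter (H : LP β ε M f1 f2) {p q : ℝ × ℝ} (h : |p.2 - q.2| ≤ |p.1 - q.1|) (k : ℕ) :
    |((fm β f1 f2)^[k] p).2 - ((fm β f1 f2)^[k] q).2| ≤
      |((fm β f1 f2)^[k] p).1 - ((fm β f1 f2)^[k] q).1| ∧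
      (1 - ε) ^ k * |p.1 - q.1| ≤ |((fm β f1 f2)^[k] p).1 - ((fm β f1 f2)^[k] q).1| := by
  induction k with
  | zero => simpa using h
  | succ k ih =>
    rw [Function.iterate_succ_apply', Function.iterate_succ_apply']
    obtain ⟨h1, h2⟩ := step H ih.1
    refine ⟨h2, ?_⟩
    have e0 : 0 ≤ 1 - ε := by
      have := H.e2
      have := H.b0
      have := H.e0
      linarith
    calc (1 - ε) ^ (k + 1) * |p.1 - q.1| = (1 - ε) * ((1 - ε) ^ k * |p.1 - q.1|) := by ring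
      _ ≤ (1 - ε) * |((fm β f1 f2)^[k] p).1 - ((fm β f1 f2)^[k] q).1| :=
          mul_le_mul_of_nonneg_left ih.2 e0
      _ ≤ _ := h1

private lemma conj_iter (P : PR β f1 f2 h g K π) (p : ℝ × ℝ) (k : ℕ) :
    π ((fm β f1 f2)^[k] p).1 ((fm β f1 f2)^[k] p).2 = (fun t => g t)^[k] (π p.1 p.2) := by
  induction k with
  | zero => rfl
  | succ k ih =>
    rw [Function.iterate_succ_apply', Function.iterate_succ_apply', ← ih]
    exact P.conj _ _

theorem cone (H : LP β ε M f1 f2) (C : CG β f1 f2 h g) (P : PR β f1 f2 h g K π) (hK : 0 ≤ K)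
    {x y x' y' : ℝ} (h1 : |y - y'| ≤ |x - x'|) (h2 : π x y = π x' y') : x = x' := by
  have hit := fun k => (iter H (p := (x, y)) (q := (x', y')) h1 k).2
  have e2 := H.e2
  have b0 := H.b0
  have e0 := H.e0
  have hpos : 0 < 1 - ε := by linarith
  have hb : 0 ≤ β + 2 * ε := by linarith
  have key : ∀ k : ℕ, (1 - ε) ^ k * |x - x'| ≤
      (β + 2 * ε) ^ k * (K * (|y - h x| + |y' - h x'|)) := by
    intro k
    have h3 := hit k
    have h4 := P.near ((fm β f1 f2)^[k] (x, y)).1 ((fm β f1 f2)^[k] (x, y)).2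
    have h5 := P.near ((fm β f1 f2)^[k] (x', y')).1 ((fm β f1 f2)^[k] (x', y')).2
    have h6 : π ((fm β f1 f2)^[k] (x, y)).1 ((fm β f1 f2)^[k] (x, y)).2 =
        π ((fm β f1 f2)^[k] (x', y')).1 ((fm β f1 f2)^[k] (x', y')).2 := by
      rw [conj_iter P, conj_iter P]
      change (fun t => g t)^[k] (π x y) = (fun t => g t)^[k] (π x' y')
      rw [h2]
    have h7 := mul_le_mul_of_nonneg_left (C.att_iter H (x, y) k) hK
    have h8 := mul_le_mul_of_nonneg_left (C.att_iter H (x', y') k) hK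
    rw [h6] at h4
    have h9 : |((fm β f1 f2)^[k] (x, y)).1 - ((fm β f1 f2)^[k] (x', y')).1| ≤
        |π ((fm β f1 f2)^[k] (x', y')).1 ((fm β f1 f2)^[k] (x', y')).2 -
          ((fm β f1 f2)^[k] (x, y)).1| +
        |π ((fm β f1 f2)^[k] (x', y')).1 ((fm β f1 f2)^[k] (x', y')).2 -
          ((fm β f1 f2)^[k] (x', y')).1| := by
      have h10 : ((fm β f1 f2)^[k] (x, y)).1 - ((fm β f1 f2)^[k] (x', y')).1 =
          -(π ((fm β f1 f2)^[k] (x', y')).1 ((fm β f1 f2)^[k] (x', y')).2 -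
            ((fm β f1 f2)^[k] (x, y)).1) +
          (π ((fm β f1 f2)^[k] (x', y')).1 ((fm β f1 f2)^[k] (x', y')).2 -
            ((fm β f1 f2)^[k] (x', y')).1) := by ring
      rw [h10]
      refine (abs_add_le _ _).trans ?_
      rw [abs_neg]
    simp only at h3 h7 h8
    calc (1 - ε) ^ k * |x - x'| ≤
          |((fm β f1 f2)^[k] (x, y)).1 - ((fm β f1 f2)^[k] (x', y')).1| := h3
      _ ≤ K * ((β + 2 * ε) ^ k * |y - h x|) + K * ((β + 2 * ε) ^ k * |y' - h x'|) := by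
          linarith
      _ = (β + 2 * ε) ^ k * (K * (|y - h x| + |y' - h x'|)) := by ring
  set D := K * (|y - h x| + |y' - h x'|) with hD
  have hρ0 : 0 ≤ (β + 2 * ε) / (1 - ε) := div_nonneg hb hpos.le
  have hρ1 : (β + 2 * ε) / (1 - ε) < 1 := by
    rw [div_lt_one hpos]
    linarith
  have hlim : Tendsto (fun k : ℕ => ((β + 2 * ε) / (1 - ε)) ^ k * D) atTop (𝓝 0) := by
    have := (tendsto_pow_atTop_nhds_zero_of_lt_one hρ0 hρ1).mul_const D
    rwa [zero_mul] at this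
  have hle : |x - x'| ≤ 0 := by
    refine ge_of_tendsto' hlim ?_
    intro k
    have h3 := key k
    rw [div_pow, div_mul_eq_mul_div, le_div_iff₀ (pow_pos hpos k)]
    linarith
  have h10 : |x - x'| = 0 := le_antisymm hle (abs_nonneg _)
  exact sub_eq_zero.1 (abs_eq_zero.1 h10)

end Pool.Agent.HF
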