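import Pool.Agent.HF.Defs

set_option autoImplicit false

/-!
HF-LEh. The first coordinate of the perturbed map on a Lipschitz graph is a bi-Lipschitz increasing homeomorphism of the line.
-/

namespace Pool.Agent.HF

open Set Topology Filter

variable {β ε M : ℝ} {f1 f2 : ℝ → ℝ → ℝ}

theorem eh (H : LP β ε M f1 f2) {h : ℝ → ℝ} (hl : ∀ x x', |h x - h x'| ≤ |x - x'|) :
    ∃ e : ℝ ≃ₜ ℝ, (∀ x, e x = x + f1 x (h x)) ∧ StrictMono e ∧
      ∀ x x', (1 - ε) * |x - x'| ≤ |e x - e x'| ∧ |e x - e x'| ≤ (1 + ε) * |x - x'| := by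
  have he : ε < 1 := by linarith [H.e2, H.b0, H.e0]
  have he0 := H.e0
  set e0 : ℝ → ℝ := fun x => x + f1 x (h x) with he0d
  have key : ∀ x x', |(e0 x - e0 x') - (x - x')| ≤ ε * |x - x'| := by
    intro x x'
    have h1 : (e0 x - e0 x') - (x - x') = f1 x (h x) - f1 x' (h x') := by
      simp only [he0d]
      ring
    rw [h1]
    refine (H.l1 x (h x) x' (h x')).trans ?_
    rw [max_eq_left (hl x x')]
  have hlo : ∀ x x', (1 - ε) * |x - x'| ≤ |e0 x - e0 x'| := by
    intro x x'
    have h1 := key x x'
    have h2 : |x - x'| ≤ |(e0 x - e0 x') - (x - x')| + |e0 x - e0 x'| := by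
      have h3 := abs_sub_abs_le_abs_sub (x - x') (e0 x - e0 x')
      rw [abs_sub_comm (x - x')] at h3
      linarith
    linarith
  have hup : ∀ x x', |e0 x - e0 x'| ≤ (1 + ε) * |x - x'| := by
    intro x x'
    have h1 := key x x'
    have h3 := abs_sub_abs_le_abs_sub (e0 x - e0 x') (x - x')
    linarith
  have hmono : StrictMono e0 := by
    intro x' x hx
    have h1 := key x x'
    rw [abs_of_pos (sub_pos.2 hx)] at h1
    have h2 := (abs_le.1 h1).1
    have h3 : 0 < (1 - ε) * (x - x') := mul_pos (by linarith) (sub_pos.2 hx)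
    linarith
  have hcont : Continuous e0 := by
    have h1 : LipschitzWith (Real.toNNReal (1 + ε)) e0 := by
      apply LipschitzWith.of_dist_le_mul
      intro x x'
      rw [Real.dist_eq, Real.dist_eq, Real.coe_toNNReal _ (by linarith)]
      exact hup x x'
    exact h1.continuous
  have hsurj : Function.Surjective e0 := by
    apply hcont.surjective
    · refine tendsto_atTop_mono (f := fun x => x + (-M)) (fun x => ?_)
        (tendsto_atTop_add_const_right _ _ tendsto_id)
      have h1 := (abs_le.1 (H.m1 x (h x))).1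
      simp only [he0d]
      linarith
    · refine tendsto_atBot_mono (g := e0) (f := fun x => x + M) (fun x => ?_)
        (tendsto_atBot_add_const_right _ _ tendsto_id)
      have h1 := (abs_le.1 (H.m1 x (h x))).2
      simp only [he0d]
      linarith
  refine ⟨(StrictMono.orderIsoOfSurjective e0 hmono hsurj).toHomeomorph, fun x => rfl, hmono,
    fun x x' => ⟨hlo x x', hup x x'⟩⟩

end Pool.Agent.HF
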