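import Pool.Agent.HF.LEh

set_option autoImplicit false

/-!
HF-LGraph. Existence of the invariant Lipschitz graph (centre curve), by the graph transform
`h' (x + f1 x (h x)) = β * h x + f2 x (h x)` on the `1`-Lipschitz functions `h` with `h 0 = 0` and
`|h x| ≤ M / (1 - β)`, a contraction with the factor `(β + ε) / (1 - ε)` in the supremum distance.
-/

namespace Pool.Agent.HF

open Set Topology Filter

variable {β ε M : ℝ} {f1 f2 : ℝ → ℝ → ℝ}

/-- admissible functions -/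
private def Adm (β M : ℝ) (h : ℝ → ℝ) : Prop :=
  (∀ x x', |h x - h x'| ≤ |x - x'|) ∧ h 0 = 0 ∧ ∀ x, |h x| ≤ M / (1 - β)

private theorem step1 (H : LP β ε M f1 f2) {h : ℝ → ℝ} (ha : Adm β M h) :
    ∃ h' : ℝ → ℝ, Adm β M h' ∧ ∀ x, h' (x + f1 x (h x)) = β * h x + f2 x (h x) := by
  obtain ⟨hl, h0, hb⟩ := ha
  obtain ⟨e, he, -, hee⟩ := eh H hl
  have b0 := H.b0
  have e0 := H.e0
  have e2 := H.e2
  have hM : 0 ≤ M := (abs_nonneg _).trans (H.m1 0 0)
  have hβ : 0 < 1 - β := by linarith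
  refine ⟨fun u => β * h (e.symm u) + f2 (e.symm u) (h (e.symm u)), ⟨?_, ?_, ?_⟩, ?_⟩
  · intro u u'
    obtain ⟨x, rfl⟩ := e.surjective u
    obtain ⟨x', rfl⟩ := e.surjective u'
    simp only [Homeomorph.symm_apply_apply]
    have h1 := hl x x'
    have h2 := H.l2 x (h x) x' (h x')
    have h3 : max |x - x'| |h x - h x'| ≤ |x - x'| := max_le le_rfl h1
    have h4 : |f2 x (h x) - f2 x' (h x')| ≤ ε * |x - x'| :=
      h2.trans (mul_le_mul_of_nonneg_left h3 e0.le)
    have h5 : |β * h x + f2 x (h x) - (β * h x' + f2 x' (h x'))| ≤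
        β * |h x - h x'| + |f2 x (h x) - f2 x' (h x')| := by
      have : β * h x + f2 x (h x) - (β * h x' + f2 x' (h x')) =
          β * (h x - h x') + (f2 x (h x) - f2 x' (h x')) := by ring
      rw [this]
      refine (abs_add_le _ _).trans ?_
      rw [abs_mul, abs_of_pos b0]
    have h6 : β * |h x - h x'| ≤ β * |x - x'| := mul_le_mul_of_nonneg_left h1 b0.le
    have h7 := (hee x x').1
    have h8 : 0 ≤ |x - x'| := abs_nonneg _
    nlinarith
  · have he0 : e 0 = 0 := by rw [he, h0, H.z1, add_zero]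
    have hs0 : e.symm 0 = 0 := by
      rw [Homeomorph.symm_apply_eq]
      exact he0.symm
    simp only [hs0, h0, H.z2]
    ring
  · intro u
    have h1 := hb (e.symm u)
    have h2 := H.m2 (e.symm u) (h (e.symm u))
    refine (abs_add_le _ _).trans ?_
    rw [abs_mul, abs_of_pos b0]
    have h3 : β * |h (e.symm u)| ≤ β * (M / (1 - β)) := mul_le_mul_of_nonneg_left h1 b0.le
    have h4 : β * (M / (1 - β)) + M = M / (1 - β) := by
      field_simp
      ring
    linarith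
  · intro x
    have h1 : e.symm (x + f1 x (h x)) = x := by
      rw [← he x]
      exact e.symm_apply_apply x
    simp only [h1]

private theorem step2 (H : LP β ε M f1 f2) {h1 h2 h1' h2' : ℝ → ℝ} (ha1 : Adm β M h1)
    (ha2 : Adm β M h2) (r1 : ∀ x, h1' (x + f1 x (h1 x)) = β * h1 x + f2 x (h1 x))
    (r2 : ∀ x, h2' (x + f1 x (h2 x)) = β * h2 x + f2 x (h2 x)) {D : ℝ}
    (hD : ∀ x, |h1 x - h2 x| ≤ D) (u : ℝ) : |h1' u - h2' u| ≤ (β + ε) / (1 - ε) * D := by
  obtain ⟨e1, he1, -, -⟩ := eh H ha1.1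
  obtain ⟨e2, he2, -, -⟩ := eh H ha2.1
  obtain ⟨x1, hx1⟩ := e1.surjective u
  obtain ⟨x2, hx2⟩ := e2.surjective u
  have b0 := H.b0
  have e0 := H.e0
  have e2' := H.e2
  have hD0 : 0 ≤ D := (abs_nonneg _).trans (hD 0)
  have hε : 0 < 1 - ε := by linarith
  rw [he1] at hx1
  rw [he2] at hx2
  have q1 : h1' u = β * h1 x1 + f2 x1 (h1 x1) := by rw [← r1 x1, hx1]
  have q2 : h2' u = β * h2 x2 + f2 x2 (h2 x2) := by rw [← r2 x2, hx2]
  have a1 : |h1 x1 - h2 x2| ≤ |x1 - x2| + D := by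
    have : h1 x1 - h2 x2 = (h1 x1 - h1 x2) + (h1 x2 - h2 x2) := by ring
    rw [this]
    refine (abs_add_le _ _).trans ?_
    exact add_le_add (ha1.1 x1 x2) (hD x2)
  have a2 : max |x1 - x2| |h1 x1 - h2 x2| ≤ |x1 - x2| + D := max_le (by linarith) a1
  have a3 : |x1 - x2| ≤ ε * (|x1 - x2| + D) := by
    have : x1 - x2 = -(f1 x1 (h1 x1) - f1 x2 (h2 x2)) := by linarith
    calc |x1 - x2| = |f1 x1 (h1 x1) - f1 x2 (h2 x2)| := by rw [this, abs_neg]
      _ ≤ ε * max |x1 - x2| |h1 x1 - h2 x2| := H.l1 _ _ _ _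
      _ ≤ ε * (|x1 - x2| + D) := mul_le_mul_of_nonneg_left a2 e0.le
  have a4 : |x1 - x2| + D ≤ D / (1 - ε) := by
    rw [le_div_iff₀ hε]
    nlinarith
  rw [q1, q2]
  have a5 : |f2 x1 (h1 x1) - f2 x2 (h2 x2)| ≤ ε * (|x1 - x2| + D) :=
    (H.l2 _ _ _ _).trans (mul_le_mul_of_nonneg_left a2 e0.le)
  have a6 : |β * h1 x1 + f2 x1 (h1 x1) - (β * h2 x2 + f2 x2 (h2 x2))| ≤
      β * |h1 x1 - h2 x2| + |f2 x1 (h1 x1) - f2 x2 (h2 x2)| := by
    have : β * h1 x1 + f2 x1 (h1 x1) - (β * h2 x2 + f2 x2 (h2 x2)) =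
        β * (h1 x1 - h2 x2) + (f2 x1 (h1 x1) - f2 x2 (h2 x2)) := by ring
    rw [this]
    refine (abs_add_le _ _).trans ?_
    rw [abs_mul, abs_of_pos b0]
  have a7 : β * |h1 x1 - h2 x2| ≤ β * (|x1 - x2| + D) := mul_le_mul_of_nonneg_left a1 b0.le
  calc |β * h1 x1 + f2 x1 (h1 x1) - (β * h2 x2 + f2 x2 (h2 x2))|
      ≤ (β + ε) * (|x1 - x2| + D) := by linarith
    _ ≤ (β + ε) * (D / (1 - ε)) := mul_le_mul_of_nonneg_left a4 (by linarith)
    _ = (β + ε) / (1 - ε) * D := by ring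

theorem cgraph (H : LP β ε M f1 f2) : ∃ (h : ℝ → ℝ) (g : ℝ ≃ₜ ℝ), CG β f1 f2 h g := by
  classical
  have b0 := H.b0
  have e0 := H.e0
  have e2 := H.e2
  have hM : 0 ≤ M := (abs_nonneg _).trans (H.m1 0 0)
  have hβ : 0 < 1 - β := by linarith
  have hε : 0 < 1 - ε := by linarith
  set κ : ℝ := (β + ε) / (1 - ε) with hκ
  have κ0 : 0 ≤ κ := div_nonneg (by linarith) hε.le
  have κ1 : κ < 1 := by
    rw [hκ, div_lt_one hε]
    linarith
  have hz : Adm β M (fun _ => 0) := by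
    refine ⟨fun x x' => ?_, rfl, fun x => ?_⟩
    · simp
    · rw [abs_zero]
      positivity
  -- the sequence
  choose! T hT1 hT2 using fun (h : ℝ → ℝ) (ha : Adm β M h) => step1 H ha
  set hs : ℕ → ℝ → ℝ := fun n => T^[n] (fun _ => 0) with hhs
  have hs1 : ∀ n, hs (n + 1) = T (hs n) := by
    intro n
    simp only [hhs, Function.iterate_succ_apply']
  have hsa : ∀ n, Adm β M (hs n) := by
    intro n
    induction n with
    | zero => exact hz
    | succ n ih =>
      rw [hs1]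
      exact hT1 _ ih
  have hsr : ∀ n x, hs (n + 1) (x + f1 x (hs n x)) = β * hs n x + f2 x (hs n x) := by
    intro n x
    rw [hs1]
    exact hT2 _ (hsa n) x
  set D0 : ℝ := 2 * (M / (1 - β)) with hD0
  have hgeo : ∀ n u, |hs n u - hs (n + 1) u| ≤ D0 * κ ^ n := by
    intro n
    induction n with
    | zero =>
      intro u
      rw [pow_zero, mul_one]
      have h1 := (hsa 0).2.2 u
      have h2 := (hsa 1).2.2 u
      calc |hs 0 u - hs (0 + 1) u| ≤ |hs 0 u| + |hs 1 u| := abs_sub _ _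
        _ ≤ D0 := by rw [hD0]; linarith
    | succ n ih =>
      intro u
      have h1 := step2 H (hsa n) (hsa (n + 1)) (hsr n) (hsr (n + 1)) ih u
      calc |hs (n + 1) u - hs (n + 1 + 1) u| ≤ κ * (D0 * κ ^ n) := h1
        _ = D0 * κ ^ (n + 1) := by ring
  have hlim : ∀ u, ∃ a, Tendsto (fun n => hs n u) atTop (𝓝 a) := by
    intro u
    apply cauchySeq_tendsto_of_complete
    apply cauchySeq_of_le_geometric κ D0 κ1
    intro n
    rw [Real.dist_eq]
    exact hgeo n u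
  choose h hh using hlim
  have hdist : ∀ n u, |hs n u - h u| ≤ D0 * κ ^ n / (1 - κ) := by
    intro n u
    have h1 := dist_le_of_le_geometric_of_tendsto κ D0 κ1
      (f := fun n => hs n u) (a := h u) (fun n => by rw [Real.dist_eq]; exact hgeo n u) (hh u) n
    rw [Real.dist_eq] at h1
    exact h1
  have ha : Adm β M h := by
    refine ⟨fun x x' => ?_, ?_, fun x => ?_⟩
    · refine le_of_tendsto ((hh x).sub (hh x')).abs (Eventually.of_forall fun n => ?_)
      exact (hsa n).1 x x'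
    · refine tendsto_nhds_unique (hh 0) ?_
      have : (fun n => hs n 0) = fun _ => (0 : ℝ) := by
        funext n
        exact (hsa n).2.1
      rw [this]
      exact tendsto_const_nhds
    · exact le_of_tendsto (hh x).abs (Eventually.of_forall fun n => (hsa n).2.2 x)
  have hinv : T h = h := by
    funext u
    have h1 : Tendsto (fun n => hs (n + 1) u) atTop (𝓝 (h u)) :=
      (hh u).comp (tendsto_add_atTop_nat 1)
    have h2 : Tendsto (fun n => hs (n + 1) u) atTop (𝓝 (T h u)) := by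
      rw [tendsto_iff_dist_tendsto_zero]
      have h3 : Tendsto (fun n : ℕ => κ * (D0 * κ ^ n / (1 - κ))) atTop (𝓝 0) := by
        have h4 := tendsto_pow_atTop_nhds_zero_of_lt_one κ0 κ1
        have h5 := ((h4.const_mul D0).div_const (1 - κ)).const_mul κ
        simpa using h5
      refine squeeze_zero (fun n => dist_nonneg) (fun n => ?_) h3
      rw [Real.dist_eq]
      exact step2 H (hsa n) ha (hsr n) (hT2 h ha) (hdist n) u
    exact tendsto_nhds_unique h2 h1
  obtain ⟨g, hg, -, -⟩ := eh H ha.1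
  refine ⟨h, g, ⟨ha.1, ha.2.1, hg, fun x => ?_⟩⟩
  have h1 := hT2 h ha x
  rw [hinv] at h1
  rw [hg]
  exact h1

end Pool.Agent.HF
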