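import Mathlib

set_option autoImplicit false

/-!
HF-LLin. Linearisation of a repelling side of a fixed point of a homeomorphism of the line by the series
`∑ k, max (g^[k] x - x0) 0 / 2 ^ k`. Only Mathlib.
-/

namespace Pool.Agent.HF

open Set Topology Filter

theorem lin1 {g : ℝ ≃ₜ ℝ} (hm : StrictMono g) (h0 : g 0 = 0) {M : ℝ} (hM : ∀ x, |g x - x| ≤ M)
    {x0 : ℝ} (hx0 : 0 < x0) (hr : ∀ x, 0 < x → x ≤ x0 → x < g x) :
    ∃ η : ℝ → ℝ, Continuous η ∧ StrictMonoOn η (Ici 0) ∧ η 0 = 0 ∧ Tendsto η atTop atTop ∧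
      ∀ x, 0 ≤ x → x ≤ x0 → η (g x) = 2 * η x := by
  have hM0 : 0 ≤ M := le_trans (abs_nonneg _) (hM 0)
  set u : ℕ → ℝ → ℝ := fun k x => max ((⇑g)^[k] x - x0) 0 / 2 ^ k with hu
  have hu0 : ∀ k x, 0 ≤ u k x := fun k x => by
    simp only [hu]
    exact div_nonneg (le_max_right _ _) (by positivity)
  have hit : ∀ (k : ℕ) (x : ℝ), |(⇑g)^[k] x| ≤ |x| + k * M := by
    intro k x
    induction k with
    | zero => simp
    | succ k ih =>
      rw [Function.iterate_succ_apply']
      have h1 := hM ((⇑g)^[k] x)
      have h2 : |g ((⇑g)^[k] x)| ≤ |g ((⇑g)^[k] x) - (⇑g)^[k] x| + |(⇑g)^[k] x| := by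
        have := abs_add_le (g ((⇑g)^[k] x) - (⇑g)^[k] x) ((⇑g)^[k] x)
        rwa [sub_add_cancel] at this
      push_cast
      nlinarith
  have hub : ∀ (R : ℝ) (k : ℕ) (x : ℝ), |x| ≤ R → ‖u k x‖ ≤
      R * (1 / 2 : ℝ) ^ k + M * ((k : ℝ) ^ 1 * (1 / 2 : ℝ) ^ k) := by
    intro R k x hx
    rw [Real.norm_of_nonneg (hu0 k x)]
    have h1 := hit k x
    have h2 : max ((⇑g)^[k] x - x0) 0 ≤ R + k * M := by
      apply max_le
      · have := le_abs_self ((⇑g)^[k] x)
        linarith
      · have : 0 ≤ |x| := abs_nonneg x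
        have h3 : 0 ≤ (k : ℝ) * M := by positivity
        linarith
    calc u k x = max ((⇑g)^[k] x - x0) 0 / 2 ^ k := rfl
      _ ≤ (R + k * M) / 2 ^ k := div_le_div_of_nonneg_right h2 (by positivity)
      _ = R * (1 / 2 : ℝ) ^ k + M * ((k : ℝ) ^ 1 * (1 / 2 : ℝ) ^ k) := by
        rw [one_div, inv_pow]
        field_simp
  have hsb : ∀ R : ℝ, Summable (fun k : ℕ => R * (1 / 2 : ℝ) ^ k +
      M * ((k : ℝ) ^ 1 * (1 / 2 : ℝ) ^ k)) := by
    intro R
    refine Summable.add ?_ ?_
    · exact (summable_geometric_of_lt_one (by norm_num) (by norm_num)).mul_left R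
    · exact (summable_pow_mul_geometric_of_norm_lt_one 1 (by
        rw [Real.norm_of_nonneg (by norm_num)]; norm_num)).mul_left M
  have hsum : ∀ x, Summable (fun k => u k x) := fun x =>
    Summable.of_norm_bounded (hsb |x|) (fun k => hub |x| k x le_rfl)
  have hgc : ∀ k : ℕ, Continuous ((⇑g)^[k]) := fun k => g.continuous.iterate k
  have huc : ∀ k, Continuous (u k) := by
    intro k
    simp only [hu]
    exact (((hgc k).sub continuous_const).max continuous_const).div_const _
  have hmon : ∀ k : ℕ, StrictMono ((⇑g)^[k]) := fun k => hm.iterate k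
  have humon : ∀ k x x', x ≤ x' → u k x ≤ u k x' := by
    intro k x x' hxx
    simp only [hu]
    apply div_le_div_of_nonneg_right _ (by positivity)
    exact max_le_max (by linarith [(hmon k).monotone hxx]) le_rfl
  refine ⟨fun x => ∑' k, u k x, ?_, ?_, ?_, ?_, ?_⟩
  · rw [continuous_iff_continuousAt]
    intro x
    have hon : ContinuousOn (fun x => ∑' k, u k x) (Metric.ball 0 (|x| + 1)) := by
      refine continuousOn_tsum (fun k => (huc k).continuousOn) (hsb (|x| + 1)) ?_
      intro k y hy
      rw [Metric.mem_ball, dist_zero_right, Real.norm_eq_abs] at hy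
      exact hub _ k y hy.le
    apply hon.continuousAt
    apply Metric.isOpen_ball.mem_nhds
    rw [Metric.mem_ball, dist_zero_right, Real.norm_eq_abs]
    linarith
  · intro x hx x' hx' hlt
    rw [mem_Ici] at hx hx'
    have hx'0 : 0 < x' := lt_of_le_of_lt hx hlt
    have hk : ∃ k : ℕ, x0 < (⇑g)^[k] x' := by
      by_contra hcon
      push Not at hcon
      have hpos : ∀ k : ℕ, 0 < (⇑g)^[k] x' := by
        intro k
        have h1 : (⇑g)^[k] 0 = 0 := Function.iterate_fixed h0 k
        have h2 := hmon k hx'0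
        rwa [h1] at h2
      have hmono : Monotone (fun k : ℕ => (⇑g)^[k] x') := by
        apply monotone_nat_of_le_succ
        intro k
        rw [Function.iterate_succ_apply']
        exact (hr _ (hpos k) (hcon k)).le
      have hbdd : BddAbove (range (fun k : ℕ => (⇑g)^[k] x')) := by
        refine ⟨x0, ?_⟩
        rintro y ⟨k, rfl⟩
        exact hcon k
      have htend := tendsto_atTop_ciSup hmono hbdd
      set L := ⨆ k : ℕ, (⇑g)^[k] x' with hL
      have hLx : x' ≤ L := by
        have := le_ciSup hbdd 0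
        simpa using this
      have hLx0 : L ≤ x0 := ciSup_le hcon
      have h3 : Tendsto (fun k : ℕ => (⇑g)^[k + 1] x') atTop (𝓝 L) :=
        htend.comp (tendsto_add_atTop_nat 1)
      have h4 : Tendsto (fun k : ℕ => (⇑g)^[k + 1] x') atTop (𝓝 (g L)) := by
        have : (fun k : ℕ => (⇑g)^[k + 1] x') = fun k : ℕ => g ((⇑g)^[k] x') := by
          funext k
          rw [Function.iterate_succ_apply']
        rw [this]
        exact (g.continuous.tendsto L).comp htend
      have h5 := tendsto_nhds_unique h3 h4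
      have h6 := hr L (by linarith) hLx0
      linarith
    obtain ⟨k, hk⟩ := hk
    have hlt' : u k x < u k x' := by
      simp only [hu]
      apply div_lt_div_of_pos_right _ (by positivity)
      apply lt_of_lt_of_le _ (le_max_left _ _)
      apply max_lt
      · have := hmon k hlt
        linarith
      · linarith
    exact Summable.tsum_lt_tsum (fun j => humon j x x' hlt.le) hlt' (hsum x) (hsum x')
  · have : ∀ k, u k 0 = 0 := by
      intro k
      simp only [hu]
      rw [Function.iterate_fixed h0 k, max_eq_right (by linarith), zero_div]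
    simp only [this, tsum_zero]
  · have h1 : Tendsto (fun x : ℝ => x - x0) atTop atTop := by
      simp only [sub_eq_add_neg]
      exact tendsto_atTop_add_const_right _ _ tendsto_id
    refine tendsto_atTop_mono (fun x => ?_) h1
    have h2 : u 0 x ≤ ∑' k, u k x := (hsum x).le_tsum 0 (fun j _ => hu0 j x)
    have h3 : x - x0 ≤ u 0 x := by
      simp only [hu, Function.iterate_zero, id_eq, pow_zero, div_one]
      exact le_max_left _ _
    linarith
  · intro x hx hxx
    have h1 : ∀ k, u k (g x) = 2 * u (k + 1) x := by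
      intro k
      simp only [hu, Function.iterate_succ_apply]
      rw [pow_succ]
      field_simp
    have h2 : ∑' k, u k x = u 0 x + ∑' k, u (k + 1) x := (hsum x).tsum_eq_zero_add
    have h3 : u 0 x = 0 := by
      simp only [hu, Function.iterate_zero, id_eq, pow_zero, div_one]
      exact max_eq_right (by linarith)
    show ∑' k, u k (g x) = 2 * ∑' k, u k x
    simp only [h1]
    rw [tsum_mul_left, h2, h3, zero_add]

end Pool.Agent.HF
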