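import Pool.Agent.HF.Defs
import Pool.Agent.HE.SBas

set_option autoImplicit false

/-!
HF-SB. Basic facts in a topological chart at a semi-neutral fixed point of the limit set.

`fix`: `re_eq`, `im_up` at `r`.  `lp_ge`: `im_low`, `im_up` at one point.  `back`: connectedness of the
image of a box; the set `0 ≤ i * re` is used on the repelling side `i`.  `c_back`: backward orbits on the
centre axis.  `att_free`, `s_axis`: the iterates converge to `r` and to `γ 0`.
-/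

namespace Pool.Agent.HF

open Set Topology Filter Pool.Agent.HE

variable {F Φ : ℂ ≃ₜ ℂ} {γ : ℝ → ℂ} {lam : ℝ} {ell : ℝ → ℝ → ℂ} {r : ℂ} {h : ℝ} {s : ℝ → ℝ} {lm lp : ℝ}

theorem PC.fix (P : PC F Φ r h s lm lp) : F r = r := by
  have h0 : |(Φ r).re| < h := by
    rw [P.zero, Complex.zero_re, abs_zero]
    exact P.hh
  have h1 : |(Φ r).im| < h := by
    rw [P.zero, Complex.zero_im, abs_zero]
    exact P.hh
  have h2 := P.re_eq 1 (Or.inl rfl) r h0 h1 (by rw [P.zero, Complex.zero_re, mul_zero])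
  have h3 := P.im_up r h0 h1
  rw [P.zero, Complex.zero_re, mul_zero] at h2
  rw [P.zero, Complex.zero_im, abs_zero, mul_zero] at h3
  have h5 : (Φ (F r)).im = 0 := abs_eq_zero.1 (le_antisymm h3 (abs_nonneg _))
  apply Φ.injective
  rw [P.zero]
  exact Complex.ext h2 h5

theorem PC.lp_ge (P : PC F Φ r h s lm lp) : lm ≤ lp := by
  have hh := P.hh
  have h0 : Φ (Φ.symm (⟨0, h / 2⟩ : ℂ)) = ⟨0, h / 2⟩ := Φ.apply_symm_apply _
  have h1 : |(Φ (Φ.symm (⟨0, h / 2⟩ : ℂ))).re| < h := by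
    rw [h0, abs_zero]
    exact hh
  have h2 : |(Φ (Φ.symm (⟨0, h / 2⟩ : ℂ))).im| = h / 2 := by
    rw [h0]
    exact abs_of_pos (by linarith)
  have h3 : |(Φ (Φ.symm (⟨0, h / 2⟩ : ℂ))).im| < h := by
    rw [h2]
    linarith
  have h4 := (P.im_low _ h1 h3).trans (P.im_up _ h1 h3)
  rw [h2] at h4
  exact le_of_mul_le_mul_right h4 (by linarith)

private theorem box_open (a b : ℝ) : IsOpen {z : ℂ | |z.re| < a ∧ |z.im| < b} := by
  have h1 : IsOpen {z : ℂ | |z.re| < a} :=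
    isOpen_lt (continuous_abs.comp Complex.continuous_re) continuous_const
  have h2 : IsOpen {z : ℂ | |z.im| < b} :=
    isOpen_lt (continuous_abs.comp Complex.continuous_im) continuous_const
  exact h1.inter h2

private theorem box_compact (a : ℝ) : IsCompact {z : ℂ | |z.re| ≤ a ∧ |z.im| ≤ a} := by
  have h1 : IsClosed {z : ℂ | |z.re| ≤ a} :=
    isClosed_le (continuous_abs.comp Complex.continuous_re) continuous_const
  have h2 : IsClosed {z : ℂ | |z.im| ≤ a} :=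
    isClosed_le (continuous_abs.comp Complex.continuous_im) continuous_const
  refine Metric.isCompact_of_isClosed_isBounded (h1.inter h2) ?_
  refine Metric.isBounded_closedBall.subset (t := Metric.closedBall (0 : ℂ) (a + a)) ?_
  rintro z ⟨h3, h4⟩
  rw [mem_closedBall_zero_iff]
  exact (Complex.norm_le_abs_re_add_abs_im z).trans (add_le_add h3 h4)

/-- half of a box -/
private theorem half_conv (i a b : ℝ) :
    Convex ℝ {z : ℂ | 0 ≤ i * z.re ∧ |z.re| < a ∧ |z.im| < b} := by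
  have h1 : {z : ℂ | 0 ≤ i * z.re ∧ |z.re| < a ∧ |z.im| < b} =
      (i • (Complex.reLm : ℂ →ₗ[ℝ] ℝ)) ⁻¹' Ici 0 ∩
      ((Complex.reLm : ℂ →ₗ[ℝ] ℝ) ⁻¹' Ioo (-a) a ∩
        (Complex.imLm : ℂ →ₗ[ℝ] ℝ) ⁻¹' Ioo (-b) b) := by
    ext z
    simp only [mem_inter_iff, mem_preimage, mem_Ioo]
    show 0 ≤ i * z.re ∧ |z.re| < a ∧ |z.im| < b ↔ _
    rw [abs_lt, abs_lt]
    rfl
  rw [h1]
  exact ((convex_Ici _).linear_preimage _).inter
    (((convex_Ioo _ _).linear_preimage _).inter ((convex_Ioo _ _).linear_preimage _))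

private theorem side (P : PC F Φ r h s lm lp) {i : ℝ} (hi : i = 1 ∨ i = -1) {z : ℂ}
    (h1 : |(Φ z).re| < h) (h2 : |(Φ z).im| < h) (h3 : 0 ≤ i * (Φ (F z)).re) :
    0 ≤ i * (Φ z).re := by
  by_contra hcon
  push Not at hcon
  have hi' : -i = 1 ∨ -i = -1 := by
    rcases hi with h | h
    · right; rw [h]
    · left; rw [h, neg_neg]
  have h4 := P.re_eq (-i) hi' z h1 h2 (by linarith)
  have h5 : 0 < s (-i) := by
    rcases P.hs (-i) hi' with h | h <;> rw [h] <;> norm_num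
  rw [h4] at h3
  have h6 : i * (s (-i) * (Φ z).re) = s (-i) * (i * (Φ z).re) := by ring
  rw [h6] at h3
  have := mul_neg_of_pos_of_neg h5 hcon
  linarith

theorem PC.back (P : PC F Φ r h s lm lp) {i : ℝ} (hi : i = 1 ∨ i = -1) (hs : s i = 2) {h1 : ℝ}
    (h0 : 0 < h1) (hh : h1 < h) {w : ℂ} (hw0 : 0 ≤ i * (Φ w).re) (hw1 : |(Φ w).re| < h1)
    (hw2 : |(Φ w).im| < lm * h1) :
    |(Φ (F.symm w)).re| < h1 ∧ |(Φ (F.symm w)).im| < h1 ∧ (Φ (F.symm w)).re = (Φ w).re / 2 := by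
  have hlm := P.hlm
  set B : Set ℂ := Φ ⁻¹' {z : ℂ | |z.re| < h1 ∧ |z.im| < h1} with hB
  set K : Set ℂ := Φ ⁻¹' {z : ℂ | |z.re| ≤ h1 ∧ |z.im| ≤ h1} with hK
  set W : Set ℂ := Φ ⁻¹' {z : ℂ | 0 ≤ i * z.re ∧ |z.re| < h1 ∧ |z.im| < lm * h1} with hW
  have hBo : IsOpen (F '' B) := F.isOpenMap _ ((box_open h1 h1).preimage Φ.continuous)
  have hKc : IsClosed (F '' K) := by
    have h2 : IsCompact K := Φ.isCompact_preimage.2 (box_compact h1)
    exact (h2.image F.continuous).isClosed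
  have hBK : B ⊆ K := fun z hz => ⟨hz.1.le, hz.2.le⟩
  have hWp : IsPreconnected W := by
    have h2 : W = Φ.symm '' {z : ℂ | 0 ≤ i * z.re ∧ |z.re| < h1 ∧ |z.im| < lm * h1} := by
      rw [hW, ← Φ.image_symm]
    rw [h2]
    exact (half_conv _ _ _).isPreconnected.image _ Φ.symm.continuous.continuousOn
  have hsub : W ⊆ F '' B ∪ (F '' K)ᶜ := by
    intro w' hw'
    by_cases hk : w' ∈ F '' K
    · left
      obtain ⟨z, hz, rfl⟩ := hk
      have hz1 : |(Φ z).re| ≤ h1 := hz.1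
      have hz2 : |(Φ z).im| ≤ h1 := hz.2
      have hw0' : 0 ≤ i * (Φ (F z)).re := hw'.1
      have hw1' : |(Φ (F z)).re| < h1 := hw'.2.1
      have hw2' : |(Φ (F z)).im| < lm * h1 := hw'.2.2
      refine ⟨z, ⟨?_, ?_⟩, rfl⟩
      · have h3 := side P hi (by linarith) (by linarith) hw0'
        have h4 := P.re_eq i hi z (by linarith) (by linarith) h3
        rw [hs] at h4
        rw [h4, abs_mul, abs_two] at hw1'
        have h5 := abs_nonneg (Φ z).re
        show |(Φ z).re| < h1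
        linarith
      · have h3 := P.im_low z (by linarith) (by linarith)
        show |(Φ z).im| < h1
        exact lt_of_mul_lt_mul_left (h3.trans_lt hw2') hlm.le
    · exact Or.inr hk
  have hr : r ∈ W ∩ F '' B := by
    constructor
    · show 0 ≤ i * (Φ r).re ∧ |(Φ r).re| < h1 ∧ |(Φ r).im| < lm * h1
      rw [P.zero, Complex.zero_re, Complex.zero_im, abs_zero, mul_zero]
      exact ⟨le_rfl, h0, mul_pos hlm h0⟩
    · refine ⟨r, ?_, P.fix⟩
      show |(Φ r).re| < h1 ∧ |(Φ r).im| < h1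
      rw [P.zero, Complex.zero_re, Complex.zero_im, abs_zero]
      exact ⟨h0, h0⟩
  have hdis : Disjoint (F '' B) (F '' K)ᶜ :=
    disjoint_left.2 fun x hx hx' => hx' (image_mono hBK hx)
  have h2 : W ⊆ F '' B :=
    hWp.subset_left_of_subset_union hBo hKc.isOpen_compl hdis hsub ⟨r, hr⟩
  obtain ⟨z, hz, hzw⟩ := h2 (show w ∈ W from ⟨hw0, hw1, hw2⟩)
  have h3 : F.symm w = z := by
    rw [← hzw, F.symm_apply_apply]
  rw [h3]
  have hz1 : |(Φ z).re| < h1 := hz.1
  have hz2 : |(Φ z).im| < h1 := hz.2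
  refine ⟨hz1, hz2, ?_⟩
  rw [← hzw] at hw0
  have h4 := side P hi (hz1.trans hh) (hz2.trans hh) hw0
  have h5 := P.re_eq i hi z (hz1.trans hh) (hz2.trans hh) h4
  rw [hs, hzw] at h5
  rw [h5]
  ring

theorem PC.c_back (P : PC F Φ r h s lm lp) {i : ℝ} (hi : i = 1 ∨ i = -1) (hs : s i = 2) {w : ℂ}
    (hw0 : 0 ≤ i * (Φ w).re) (hw : (Φ w).im = 0) (hw1 : |(Φ w).re| < h) (k : ℕ) :
    (Φ ((F.symm : ℂ → ℂ)^[k] w)).im = 0 ∧
      (Φ ((F.symm : ℂ → ℂ)^[k] w)).re = (Φ w).re / 2 ^ k := by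
  induction k with
  | zero =>
    rw [pow_zero, div_one]
    exact ⟨hw, rfl⟩
  | succ k ih =>
    rw [Function.iterate_succ_apply']
    obtain ⟨h1, h2⟩ := ih
    set w' := (F.symm : ℂ → ℂ)^[k] w with hw'
    have h2k : (0 : ℝ) < 2 ^ k := by positivity
    have h3 : |(Φ w').re| ≤ |(Φ w).re| := by
      rw [h2, abs_div, abs_of_pos h2k]
      exact div_le_self (abs_nonneg _) (one_le_pow₀ one_le_two)
    have h3' := abs_nonneg (Φ w').re
    have h4 : |(Φ w').re| < (|(Φ w').re| + h) / 2 := by linarith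
    have h5 : (|(Φ w').re| + h) / 2 < h := by linarith
    have h6 : 0 < (|(Φ w').re| + h) / 2 := by linarith [P.hh]
    have h0 : 0 ≤ i * (Φ w').re := by
      rw [h2, ← mul_div_assoc]
      exact div_nonneg hw0 h2k.le
    obtain ⟨h7, h8, h9⟩ := P.back hi hs h6 h5 h0 h4 (by
      rw [h1, abs_zero]
      exact mul_pos P.hlm h6)
    have h10 := P.im_low (F.symm w') (h7.trans h5) (h8.trans h5)
    rw [F.apply_symm_apply, h1, abs_zero] at h10
    have h11 := abs_nonneg (Φ (F.symm w')).im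
    constructor
    · have h15 : |(Φ (F.symm w')).im| ≤ 0 := by
        by_contra hcon
        push Not at hcon
        have := mul_pos P.hlm hcon
        linarith
      exact abs_eq_zero.1 (le_antisymm h15 h11)
    · rw [h9, h2, pow_succ, div_div]

private theorem conv_aux (C : Ctx F γ lam ell) (P : PC F Φ r h s lm lp) (hr : r ∈ AA γ) {i : ℝ}
    (hi : i = 1 ∨ i = -1) {t : ℝ} (hs : s i = 1 / 2 ∨ (Φ (γ t)).re = 0)
    (h1 : |(Φ (γ t)).re| < h) (h2 : |(Φ (γ t)).im| < h) (h3 : 0 ≤ i * (Φ (γ t)).re) : False := by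
  have hlp : 0 < lp := P.hlm.trans_le P.lp_ge
  have key : ∀ k : ℕ, 0 ≤ i * (Φ (γ (lam ^ k * t))).re ∧
      |(Φ (γ (lam ^ k * t))).re| ≤ (1 / 2) ^ k * |(Φ (γ t)).re| ∧
      |(Φ (γ (lam ^ k * t))).im| ≤ lp ^ k * |(Φ (γ t)).im| := by
    intro k
    induction k with
    | zero =>
      rw [pow_zero, pow_zero, pow_zero, one_mul, one_mul, one_mul]
      exact ⟨h3, le_rfl, le_rfl⟩
    | succ k ih =>
      obtain ⟨h4, h5, h6⟩ := ih
      have h7 : γ (lam ^ (k + 1) * t) = F (γ (lam ^ k * t)) := by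
        rw [C.conj, pow_succ', mul_assoc]
      have h8 : |(Φ (γ (lam ^ k * t))).re| < h := by
        have h9 : (1 / 2) ^ k * |(Φ (γ t)).re| ≤ 1 * |(Φ (γ t)).re| :=
          mul_le_mul_of_nonneg_right (pow_le_one₀ (by norm_num) (by norm_num)) (abs_nonneg _)
        linarith
      have h9 : |(Φ (γ (lam ^ k * t))).im| < h := by
        have h10 : lp ^ k * |(Φ (γ t)).im| ≤ 1 * |(Φ (γ t)).im| :=
          mul_le_mul_of_nonneg_right (pow_le_one₀ hlp.le P.hlp.le) (abs_nonneg _)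
        linarith
      have h10 := P.re_eq i hi _ h8 h9 h4
      have h11 := P.im_up _ h8 h9
      have h12 : 0 < s i := by
        rcases P.hs i hi with h | h <;> rw [h] <;> norm_num
      rw [h7]
      refine ⟨?_, ?_, ?_⟩
      · rw [h10]
        have h13 : i * (s i * (Φ (γ (lam ^ k * t))).re) =
          s i * (i * (Φ (γ (lam ^ k * t))).re) := by ring
        rw [h13]
        exact mul_nonneg h12.le h4
      · rw [h10]
        rcases hs with hs | hs
        · rw [hs, abs_mul, pow_succ', mul_assoc, abs_of_pos (by norm_num : (0 : ℝ) < 1 / 2)]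
          exact mul_le_mul_of_nonneg_left h5 (by norm_num)
        · rw [hs, abs_zero, mul_zero] at h5
          rw [abs_eq_zero.1 (le_antisymm h5 (abs_nonneg _)), mul_zero, hs, abs_zero, mul_zero]
      · refine h11.trans ?_
        rw [pow_succ', mul_assoc]
        exact mul_le_mul_of_nonneg_left h6 hlp.le
  have ht1 : Tendsto (fun k : ℕ => γ (lam ^ k * t)) atTop (𝓝 (γ 0)) := by
    have h4 : Tendsto (fun k : ℕ => lam ^ k * t) atTop (𝓝 (0 * t)) :=
      (tendsto_pow_atTop_nhds_zero_of_lt_one C.lam0.le C.lam1).mul_const t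
    rw [zero_mul] at h4
    exact (C.cont.tendsto 0).comp h4
  have ht2 : Tendsto (fun k : ℕ => Φ (γ (lam ^ k * t))) atTop (𝓝 0) := by
    rw [tendsto_zero_iff_norm_tendsto_zero]
    have h4 : Tendsto (fun k : ℕ => (1 / 2) ^ k * |(Φ (γ t)).re| + lp ^ k * |(Φ (γ t)).im|) atTop
        (𝓝 (0 * |(Φ (γ t)).re| + 0 * |(Φ (γ t)).im|)) :=
      ((tendsto_pow_atTop_nhds_zero_of_lt_one (by norm_num) (by norm_num)).mul_const _).add
        ((tendsto_pow_atTop_nhds_zero_of_lt_one hlp.le P.hlp).mul_const _)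
    rw [zero_mul, zero_mul, add_zero] at h4
    refine squeeze_zero (fun k => norm_nonneg _) (fun k => ?_) h4
    refine (Complex.norm_le_abs_re_add_abs_im _).trans ?_
    exact add_le_add (key k).2.1 (key k).2.2
  have ht3 : Tendsto (fun k : ℕ => γ (lam ^ k * t)) atTop (𝓝 r) := by
    have h4 := (Φ.symm.continuous.tendsto 0).comp ht2
    have h5 : Φ.symm 0 = r := by
      rw [← P.zero, Φ.symm_apply_apply]
    rw [h5] at h4
    have h6 : ((Φ.symm : ℂ → ℂ) ∘ fun k : ℕ => Φ (γ (lam ^ k * t))) =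
        fun k : ℕ => γ (lam ^ k * t) := by
      funext k
      exact Φ.symm_apply_apply _
    rwa [h6] at h4
  have h4 : r = γ 0 := tendsto_nhds_unique ht3 ht1
  rw [h4] at hr
  exact C.nacc hr

theorem PC.att_free (C : Ctx F γ lam ell) (P : PC F Φ r h s lm lp) (hr : r ∈ AA γ) {i : ℝ}
    (hi : i = 1 ∨ i = -1) (hs : s i = 1 / 2) {t : ℝ} (ht : 0 ≤ t) (h1 : |(Φ (γ t)).re| < h)
    (h2 : |(Φ (γ t)).im| < h) (h3 : 0 ≤ i * (Φ (γ t)).re) : False :=
  conv_aux C P hr hi (Or.inl hs) h1 h2 h3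

theorem PC.s_axis (C : Ctx F γ lam ell) (P : PC F Φ r h s lm lp) (hr : r ∈ AA γ) {t : ℝ}
    (ht : 0 ≤ t) (h1 : |(Φ (γ t)).re| < h) (h2 : |(Φ (γ t)).im| < h) : (Φ (γ t)).re ≠ 0 := by
  intro h3
  exact conv_aux C P hr (Or.inl rfl) (Or.inr h3) h1 h2 (by rw [h3, mul_zero])

end Pool.Agent.HF
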