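import Pool.Agent.HF.SR

set_option autoImplicit false

/-!
HF-SP. The path in a visited quadrant: a polygonal path through the axis-parallel segments determined by
a point `γ t` of the quadrant (`vis_ratio_par`) and its image; the first coordinate is doubled by `F`.
-/

namespace Pool.Agent.HF

open Set Topology Filter Pool.Agent.HE

variable {F Φ : ℂ ≃ₜ ℂ} {γ : ℝ → ℂ} {lam : ℝ} {ell : ℝ → ℝ → ℂ} {r : ℂ} {h : ℝ} {s : ℝ → ℝ} {lm lp : ℝ}

private lemma sp_sg_mul {i : ℝ} (hi : i = 1 ∨ i = -1) (x : ℝ) : i * (i * x) = x := by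
  rcases hi with rfl | rfl <;> ring

private lemma sp_sg_abs {i : ℝ} (hi : i = 1 ∨ i = -1) {x : ℝ} (hx : 0 ≤ x) : |i * x| = x := by
  rcases hi with rfl | rfl
  · rw [one_mul, abs_of_nonneg hx]
  · rw [neg_one_mul, abs_neg, abs_of_nonneg hx]

private lemma sp_sg_eq {i : ℝ} (hi : i = 1 ∨ i = -1) {x : ℝ} (hx : 0 ≤ i * x) : x = i * |x| := by
  rcases hi with rfl | rfl
  · rw [one_mul] at hx
    rw [one_mul, abs_of_nonneg hx]
  · have hx' : x ≤ 0 := by linarith
    rw [abs_of_nonpos hx']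
    ring

private lemma sp_cv_ge {a b l τ : ℝ} (h0 : 0 ≤ τ) (h1 : τ ≤ 1) (ha : l ≤ a) (hb : l ≤ b) :
    l ≤ a + (b - a) * τ := by
  have h2 := mul_nonneg (sub_nonneg.2 h1) (sub_nonneg.2 ha)
  have h3 := mul_nonneg h0 (sub_nonneg.2 hb)
  have h4 : (1 - τ) * (a - l) + τ * (b - l) = a + (b - a) * τ - l := by ring
  linarith

private lemma sp_cv_le {a b l τ : ℝ} (h0 : 0 ≤ τ) (h1 : τ ≤ 1) (ha : a ≤ l) (hb : b ≤ l) :
    a + (b - a) * τ ≤ l := by
  have h2 := mul_nonneg (sub_nonneg.2 h1) (sub_nonneg.2 ha)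
  have h3 := mul_nonneg h0 (sub_nonneg.2 hb)
  have h4 : (1 - τ) * (l - a) + τ * (l - b) = l - (a + (b - a) * τ) := by ring
  linarith

private lemma sp_cv_gt {a b l τ : ℝ} (h0 : 0 ≤ τ) (h1 : τ ≤ 1) (ha : l < a) (hb : l < b) :
    l < a + (b - a) * τ :=
  lt_of_lt_of_le (lt_min ha hb) (sp_cv_ge h0 h1 (min_le_left _ _) (min_le_right _ _))

private lemma sp_cv_lt {a b l τ : ℝ} (h0 : 0 ≤ τ) (h1 : τ ≤ 1) (ha : a < l) (hb : b < l) :
    a + (b - a) * τ < l :=
  lt_of_le_of_lt (sp_cv_le h0 h1 (le_max_left _ _) (le_max_right _ _)) (max_lt ha hb)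

theorem arc_par (C : Ctx F γ lam ell) (P : PC F Φ r h s lm lp) (hr : r ∈ AA γ) {i j δ u σ : ℝ}
    (hi : i = 1 ∨ i = -1) (hj : j = 1 ∨ j = -1) (V : Vis Φ γ i j) (hδ : δ ≤ h) (hu : 0 < u)
    (hu1 : u < δ) (hσ : 0 < σ) (hσ1 : σ / lp < δ) (m1 : Φ.symm ⟨0, j * σ⟩ ∈ XX γ)
    (m2 : ∀ x, 0 < x → x ≤ u → Φ.symm ⟨i * x, 0⟩ ∈ XX γ) :
    ∃ c, QPath i j δ u σ c ∧ ∃ α β, Core F Φ (XX γ) c α β := by
  have hh := P.hh
  have hlm := P.hlm
  have hlp1 := P.hlp
  have hs2 : s i = 2 := vis_s C P hr hi V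
  have hlp0 : 0 < lp := lt_of_lt_of_le hlm P.lp_ge
  obtain ⟨t, ht, hx1, hy1, hy2, hqi, hqj⟩ := vis_ratio_par C P hr hi hj V hσ
    (lt_of_lt_of_le hσ1 hδ) (half_pos hu)
  have hqx : (Φ (γ t)).re = i * |(Φ (γ t)).re| := sp_sg_eq hi hqi.le
  have hqy : (Φ (γ t)).im = j * |(Φ (γ t)).im| := sp_sg_eq hj hqj.le
  set x' := |(Φ (γ t)).re| with hx'
  set y' := |(Φ (γ t)).im| with hy'
  have hx0 : 0 < x' := by
    rw [hx', abs_pos]
    intro h0
    rw [h0, mul_zero] at hqi
    exact lt_irrefl _ hqi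
  have hy0 : 0 < y' := by
    rw [hy', abs_pos]
    intro h0
    rw [h0, mul_zero] at hqj
    exact lt_irrefl _ hqj
  have hxu : 2 * x' < u := by linarith
  have hys : lp * y' < σ := by
    rw [lt_div_iff₀ hlp0] at hy2
    linarith
  have hss : σ < δ := by
    have h1 : σ ≤ σ / lp := by
      rw [le_div_iff₀ hlp0]
      nlinarith
    linarith
  have hyδ : y' < δ := by linarith
  have hxx : x' < u := by nlinarith
  have hbx : |(Φ (γ t)).re| < h := by rw [← hx']; linarith
  have hby : |(Φ (γ t)).im| < h := by rw [← hy']; linarith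
  have hre2 := P.re_eq i hi (γ t) hbx hby hqi.le
  rw [hs2] at hre2
  obtain ⟨u1, hu1'⟩ : ∃ u1 : ℝ, u1 = 2 * x' := ⟨_, rfl⟩
  have hu1x : x' < u1 := by linarith
  have hu10 : 0 < u1 := by linarith
  have hu1u : u1 < u := by linarith
  have hX1 : (Φ (F (γ t))).re = i * u1 := by
    rw [hre2, hu1']
    nth_rewrite 1 [hqx]
    ring
  obtain ⟨x1, hx1'⟩ : ∃ x1 : ℝ, x1 = u1 / 4 := ⟨_, rfl⟩
  have hx10 : 0 < x1 := by
    rw [hx1']
    linarith
  have hx1u : x1 < u1 := by
    rw [hx1']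
    linarith
  obtain ⟨A, hA⟩ : ∃ A : ℝ → ℝ, A = fun x => x1 * clp (4 * x) + (u1 - x1) * clp (4 * x - 1) +
    (u - u1) * clp (4 * x - 3) := ⟨_, rfl⟩
  obtain ⟨B, hB⟩ : ∃ B : ℝ → ℝ, B = fun x => σ + (y' - σ) * clp (4 * x) -
    y' * clp (4 * x - 2) := ⟨_, rfl⟩
  have R1 : ∀ x, 0 ≤ x → x ≤ 1 / 4 → A x = x1 * (4 * x) ∧ B x = σ + (y' - σ) * (4 * x) := by
    intro x h0 h1
    rw [hA, hB]
    dsimp only
    rw [clp_of_mem (by linarith : (0 : ℝ) ≤ 4 * x) (by linarith),
      clp_of_nonpos (by linarith : 4 * x - 1 ≤ 0), clp_of_nonpos (by linarith : 4 * x - 3 ≤ 0),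
      clp_of_nonpos (by linarith : 4 * x - 2 ≤ 0)]
    constructor <;> ring
  have R2 : ∀ x, 1 / 4 ≤ x → x ≤ 1 / 2 → A x = x1 + (u1 - x1) * (4 * x - 1) ∧ B x = y' := by
    intro x h0 h1
    rw [hA, hB]
    dsimp only
    rw [clp_of_one_le (by linarith : (1 : ℝ) ≤ 4 * x),
      clp_of_mem (by linarith : 0 ≤ 4 * x - 1) (by linarith),
      clp_of_nonpos (by linarith : 4 * x - 3 ≤ 0),
      clp_of_nonpos (by linarith : 4 * x - 2 ≤ 0)]
    constructor <;> ring
  have R3 : ∀ x, 1 / 2 ≤ x → x ≤ 3 / 4 → A x = u1 ∧ B x = y' - y' * (4 * x - 2) := by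
    intro x h0 h1
    rw [hA, hB]
    dsimp only
    rw [clp_of_one_le (by linarith : (1 : ℝ) ≤ 4 * x),
      clp_of_one_le (by linarith : 1 ≤ 4 * x - 1),
      clp_of_nonpos (by linarith : 4 * x - 3 ≤ 0),
      clp_of_mem (by linarith : 0 ≤ 4 * x - 2) (by linarith)]
    constructor <;> ring
  have R4 : ∀ x, 3 / 4 ≤ x → x ≤ 1 → A x = u1 + (u - u1) * (4 * x - 3) ∧ B x = 0 := by
    intro x h0 h1
    rw [hA, hB]
    dsimp only
    rw [clp_of_one_le (by linarith : (1 : ℝ) ≤ 4 * x),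
      clp_of_one_le (by linarith : 1 ≤ 4 * x - 1),
      clp_of_mem (by linarith : 0 ≤ 4 * x - 3) (by linarith),
      clp_of_one_le (by linarith : 1 ≤ 4 * x - 2)]
    constructor <;> ring
  have hA4 : ∀ x, 0 ≤ x → x ≤ 1 / 4 → 0 ≤ x1 * (4 * x) ∧ x1 * (4 * x) ≤ x1 := by
    intro x h0 h1
    exact ⟨mul_nonneg hx10.le (by linarith), mul_le_of_le_one_right hx10.le (by linarith)⟩
  have hA0 : ∀ x ∈ Icc (0 : ℝ) 1, 0 ≤ A x ∧ A x ≤ u := by
    rintro x ⟨h0, h1⟩
    rcases le_total x (1 / 4) with h2 | h2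
    · rw [(R1 x h0 h2).1]
      have h5 := hA4 x h0 h2
      exact ⟨h5.1, by linarith⟩
    · rcases le_total x (1 / 2) with h3 | h3
      · rw [(R2 x h2 h3).1]
        exact ⟨sp_cv_ge (by linarith) (by linarith) hx10.le hu10.le,
          sp_cv_le (by linarith) (by linarith) (by linarith) hu1u.le⟩
      · rcases le_total x (3 / 4) with h4 | h4
        · rw [(R3 x h3 h4).1]
          exact ⟨hu10.le, hu1u.le⟩
        · rw [(R4 x h4 h1).1]
          exact ⟨sp_cv_ge (by linarith) (by linarith) hu10.le hu.le,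
            sp_cv_le (by linarith) (by linarith) hu1u.le le_rfl⟩
  have hA1 : ∀ x, 0 ≤ x → x ≤ 3 / 4 → A x ≤ u1 := by
    intro x h0 h1
    rcases le_total x (1 / 4) with h2 | h2
    · rw [(R1 x h0 h2).1]
      have h5 := hA4 x h0 h2
      linarith
    · rcases le_total x (1 / 2) with h3 | h3
      · rw [(R2 x h2 h3).1]
        exact sp_cv_le (by linarith) (by linarith) hx1u.le le_rfl
      · rw [(R3 x h3 h1).1]
  have hB0 : ∀ x ∈ Icc (0 : ℝ) 1, 0 ≤ B x ∧ B x < δ := by
    rintro x ⟨h0, h1⟩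
    rcases le_total x (1 / 4) with h2 | h2
    · rw [(R1 x h0 h2).2]
      exact ⟨sp_cv_ge (by linarith) (by linarith) hσ.le hy0.le,
        sp_cv_lt (by linarith) (by linarith) hss hyδ⟩
    · rcases le_total x (1 / 2) with h3 | h3
      · rw [(R2 x h2 h3).2]
        exact ⟨hy0.le, hyδ⟩
      · rcases le_total x (3 / 4) with h4 | h4
        · rw [(R3 x h3 h4).2]
          have h5 : 0 ≤ y' * (4 * x - 2) := mul_nonneg hy0.le (by linarith)
          have h6 : y' * (4 * x - 2) ≤ y' := mul_le_of_le_one_right hy0.le (by linarith)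
          exact ⟨by linarith, by linarith⟩
        · rw [(R4 x h4 h1).2]
          exact ⟨le_refl _, by linarith⟩
  have hcont : Continuous fun x => (⟨i * A x, j * B x⟩ : ℂ) := by
    have h1 : (fun x => (⟨i * A x, j * B x⟩ : ℂ)) =
        fun x => ((i * A x : ℝ) : ℂ) + ((j * B x : ℝ) : ℂ) * Complex.I := by
      funext x
      exact Complex.mk_eq_add_mul_I _ _
    rw [h1]
    have h2 := clp_cont
    have hAc : Continuous A := by
      rw [hA]
      fun_prop
    have hBc : Continuous B := by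
      rw [hB]
      fun_prop
    fun_prop
  refine ⟨fun x => ⟨i * A x, j * B x⟩, ⟨hcont, ?_, ?_, ?_, ?_, ?_⟩, 0, 3 / 4,
    ⟨le_refl _, by norm_num, by norm_num, ?_, ?_, ?_, ?_⟩⟩
  · intro x hx
    refine ⟨?_, ?_⟩
    · show 0 ≤ i * (i * A x)
      rw [sp_sg_mul hi]
      exact (hA0 x hx).1
    · show 0 ≤ j * (j * B x)
      rw [sp_sg_mul hj]
      exact (hB0 x hx).1
  · intro x hx
    refine ⟨?_, ?_⟩
    · show |i * A x| < δ
      rw [sp_sg_abs hi (hA0 x hx).1]
      have := (hA0 x hx).2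
      linarith
    · show |j * B x| < δ
      rw [sp_sg_abs hj (hB0 x hx).1]
      exact (hB0 x hx).2
  · rintro x ⟨h0, h1⟩ hc
    have hre : i * A x = 0 := congrArg Complex.re hc
    have him : j * B x = 0 := congrArg Complex.im hc
    have hAx : A x = 0 := by rw [← sp_sg_mul hi (A x), hre, mul_zero]
    have hBx : B x = 0 := by rw [← sp_sg_mul hj (B x), him, mul_zero]
    rcases le_total x (1 / 4) with h2 | h2
    · rw [(R1 x h0 h2).2] at hBx
      have h5 : 0 < σ + (y' - σ) * (4 * x) := sp_cv_gt (by linarith) (by linarith) hσ hy0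
      linarith
    · rcases le_total x (1 / 2) with h3 | h3
      · rw [(R2 x h2 h3).2] at hBx
        linarith
      · rcases le_total x (3 / 4) with h4 | h4
        · rw [(R3 x h3 h4).1] at hAx
          linarith
        · rw [(R4 x h4 h1).1] at hAx
          have h5 : 0 < u1 + (u - u1) * (4 * x - 3) :=
            sp_cv_gt (by linarith) (by linarith) hu10 hu
          linarith
  · have h1 := R1 0 le_rfl (by norm_num)
    show (⟨i * A 0, j * B 0⟩ : ℂ) = ⟨0, j * σ⟩
    rw [h1.1, h1.2]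
    simp
  · have h1 := R4 1 (by norm_num) le_rfl
    show (⟨i * A 1, j * B 1⟩ : ℂ) = ⟨i * u, 0⟩
    rw [h1.1, h1.2, mul_zero]
    congr 1
    ring
  · have h1 := R1 0 le_rfl (by norm_num)
    show Φ.symm ⟨i * A 0, j * B 0⟩ ∈ XX γ
    have h2 : (⟨i * A 0, j * B 0⟩ : ℂ) = ⟨0, j * σ⟩ := by
      rw [h1.1, h1.2]
      simp
    rw [h2]
    exact m1
  · have h1 := R3 (3 / 4) (by norm_num) le_rfl
    show Φ.symm ⟨i * A (3 / 4), j * B (3 / 4)⟩ ∈ XX γ
    have h2 : (⟨i * A (3 / 4), j * B (3 / 4)⟩ : ℂ) = ⟨i * u1, 0⟩ := by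
      rw [h1.1, h1.2]
      congr 1
      ring
    rw [h2]
    exact m2 u1 hu10 hu1u.le
  · rintro x ⟨h0, h1⟩ hx
    show i * A x * (j * B x) = 0
    rcases hx with hx | hx
    · have hx0' : x = 0 := le_antisymm hx h0
      subst hx0'
      rw [(R1 0 le_rfl (by norm_num)).1]
      ring
    · rw [(R4 x hx h1).2]
      ring
  · rintro x ⟨hxa, hxb⟩ y ⟨hya, hyb⟩ hF
    have hzx : Φ (Φ.symm ⟨i * A x, j * B x⟩) = ⟨i * A x, j * B x⟩ := Φ.apply_symm_apply _
    have hzy : Φ (F (Φ.symm ⟨i * A x, j * B x⟩)) = ⟨i * A y, j * B y⟩ := by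
      have h1 := congrArg Φ hF
      rw [h1]
      exact Φ.apply_symm_apply _
    have hxI : x ∈ Icc (0 : ℝ) 1 := ⟨hxa.le, by linarith⟩
    have hyI : y ∈ Icc (0 : ℝ) 1 := ⟨hya.le, by linarith⟩
    have hzr : |(Φ (Φ.symm ⟨i * A x, j * B x⟩)).re| = A x := by
      rw [hzx]
      exact sp_sg_abs hi (hA0 x hxI).1
    have hzi : |(Φ (Φ.symm ⟨i * A x, j * B x⟩)).im| = B x := by
      rw [hzx]
      exact sp_sg_abs hj (hB0 x hxI).1
    have hwr : |(Φ (F (Φ.symm ⟨i * A x, j * B x⟩))).re| = A y := by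
      rw [hzy]
      exact sp_sg_abs hi (hA0 y hyI).1
    have hwi : |(Φ (F (Φ.symm ⟨i * A x, j * B x⟩))).im| = B y := by
      rw [hzy]
      exact sp_sg_abs hj (hB0 y hyI).1
    have hb1 : |(Φ (Φ.symm ⟨i * A x, j * B x⟩)).re| < h := by
      rw [hzr]
      have := (hA0 x hxI).2
      linarith
    have hb2 : |(Φ (Φ.symm ⟨i * A x, j * B x⟩)).im| < h := by
      rw [hzi]
      have := (hB0 x hxI).2
      linarith
    have g1 := P.re_eq i hi _ hb1 hb2 (by
      rw [hzx]
      show 0 ≤ i * (i * A x)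
      rw [sp_sg_mul hi]
      exact (hA0 x hxI).1)
    have g4 := P.im_up _ hb1 hb2
    rw [hzx, hzy, hs2] at g1
    have g2 : A y = 2 * A x := by
      have g3 : i * A y = 2 * (i * A x) := g1
      have g5 : i * (i * A y) = 2 * (i * (i * A x)) := by rw [g3]; ring
      rw [sp_sg_mul hi, sp_sg_mul hi] at g5
      exact g5
    rw [hzi, hwi] at g4
    rcases le_total x (1 / 4) with h2 | h2
    · exfalso
      have hAx := (R1 x hxa.le h2).1
      have hBx := (R1 x hxa.le h2).2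
      have hAx1 : A x ≤ x1 := by rw [hAx]; exact (hA4 x hxa.le h2).2
      have hAy : A y < u1 := by
        rw [g2]
        linarith
      -- `B y` is smaller than `σ` and `y'`
      have hBm : B x ≤ max σ y' := by
        rw [hBx]
        exact sp_cv_le (by linarith) (by linarith) (le_max_left _ _) (le_max_right _ _)
      have hlB : lp * B x ≤ lp * max σ y' := mul_le_mul_of_nonneg_left hBm hlp0.le
      have hlm1 : lp * max σ y' < σ := by
        rcases max_cases σ y' with ⟨h6, _⟩ | ⟨h6, _⟩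
        · rw [h6]; nlinarith
        · rw [h6]; exact hys
      have hlm2 : lp * max σ y' < y' := by
        rcases max_cases σ y' with ⟨h6, _⟩ | ⟨h6, _⟩
        · rw [h6]; exact hy1
        · rw [h6]; nlinarith
      have hBs : B y < σ := by linarith
      have hBy' : B y < y' := by linarith
      rcases le_total y (1 / 4) with h3 | h3
      · have hBy := (R1 y hya.le h3).2
        rw [hBy] at hBs hBy'
        have h5 := sp_cv_ge (l := min σ y') (τ := 4 * y) (by linarith) (by linarith)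
          (min_le_left σ y') (min_le_right σ y')
        rcases min_cases σ y' with ⟨h6, _⟩ | ⟨h6, _⟩
        · rw [h6] at h5; linarith
        · rw [h6] at h5; linarith
      · rcases le_total y (1 / 2) with h4 | h4
        · rw [(R2 y h3 h4).2] at hBy'
          exact lt_irrefl _ hBy'
        · rw [(R3 y h4 hyb.le).1] at hAy
          exact lt_irrefl _ hAy
    · rcases le_total x (1 / 2) with h3 | h3
      · have hBx := (R2 x h2 h3).2
        rw [hBx] at g4
        have hBs : B y < σ := by linarith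
        have hBy' : B y < y' := by nlinarith
        have hy12 : 1 / 2 ≤ y := by
          by_contra hcon
          push Not at hcon
          rcases le_total y (1 / 4) with h4 | h4
          · have hBy := (R1 y hya.le h4).2
            rw [hBy] at hBs hBy'
            have h5 := sp_cv_ge (l := min σ y') (τ := 4 * y) (by linarith) (by linarith)
              (min_le_left σ y') (min_le_right σ y')
            rcases min_cases σ y' with ⟨h6, _⟩ | ⟨h6, _⟩
            · rw [h6] at h5; linarith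
            · rw [h6] at h5; linarith
          · rw [(R2 y h4 hcon.le).2] at hBy'
            exact lt_irrefl _ hBy'
        have hAy := (R3 y hy12 hyb.le).1
        have him : (Φ (Φ.symm ⟨i * A x, j * B x⟩)).im = (Φ (γ t)).im := by
          rw [hzx, hqy]
          show j * B x = j * y'
          rw [hBx]
        have hre : (Φ (Φ.symm ⟨i * A x, j * B x⟩)).re = (Φ (γ t)).re := by
          have h5 : A x = x' := by linarith
          rw [hzx, hqx]
          show i * A x = i * x'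
          rw [h5]
        have hzq : Φ.symm ⟨i * A x, j * B x⟩ = γ t := Φ.injective (Complex.ext hre him)
        show Φ.symm ⟨i * A y, j * B y⟩ ∈ XX γ
        have h7 : Φ.symm ⟨i * A y, j * B y⟩ = γ (lam * t) := by
          rw [← C.conj t, ← hzq]
          exact hF.symm
        rw [h7]
        exact subset_closure ⟨lam * t, mul_pos C.lam0 ht, rfl⟩
      · exfalso
        have hAx := (R3 x h3 hxb.le).1
        rw [hAx] at g2
        have := hA1 y hya.le hyb.le
        linarith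

end Pool.Agent.HF
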