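import Pool.Agent.HF.SB

set_option autoImplicit false

/-!
HF-SR. Backward iterates of points of a visited quadrant; points of the limit set on the stable axis.

`vis_s`: a visited side is repelling. `vis_ratio_par`: the backward orbit of a point of the branch near `0` in
the visited quadrant leaves the strip `|im| ≤ lp * σ` with `lp * σ < |im| < σ / lp` and still small `|re|`.
`stab_pt_par`: limit points of such points are in the limit set and on the stable axis.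
-/

namespace Pool.Agent.HF

open Set Topology Filter Pool.Agent.HE

variable {F Φ : ℂ ≃ₜ ℂ} {γ : ℝ → ℂ} {lam : ℝ} {ell : ℝ → ℝ → ℂ} {r : ℂ} {h : ℝ} {s : ℝ → ℝ} {lm lp : ℝ}

theorem vis_s (C : Ctx F γ lam ell) (P : PC F Φ r h s lm lp) (hr : r ∈ AA γ) {i j : ℝ}
    (hi : i = 1 ∨ i = -1) (V : Vis Φ γ i j) : s i = 2 := by
  rcases P.hs i hi with h1 | h1
  · exact h1
  · exfalso
    obtain ⟨t, ht, v1, -, v3, v4⟩ := V h P.hh
    exact P.att_free C hr hi h1 ht.le v3 v4 v1.le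

private theorem sign_aux {i x y : ℝ} (hi : i = 1 ∨ i = -1) (hx : 0 < i * x) (hy : y ≠ 0)
    (hxy : 0 ≤ y * x) : 0 < i * y := by
  have hii : i * i = 1 := by rcases hi with rfl | rfl <;> norm_num
  have h1 : 0 ≤ (i * y) * (i * x) := by
    have : (i * y) * (i * x) = (i * i) * (y * x) := by ring
    rw [this, hii, one_mul]
    exact hxy
  have h2 : 0 ≤ i * y := by
    by_contra hn
    have := mul_neg_of_neg_of_pos (not_le.1 hn) hx
    linarith
  rcases h2.lt_or_eq with h3 | h3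
  · exact h3
  · exfalso
    have h4 : i * y = 0 := h3.symm
    rcases mul_eq_zero.1 h4 with h5 | h5
    · rw [h5, zero_mul] at hii
      exact zero_ne_one hii
    · exact hy h5

private theorem back_it (C : Ctx F γ lam ell) (t : ℝ) (m : ℕ) :
    F (γ (t / lam ^ (m + 1))) = γ (t / lam ^ m) := by
  rw [C.conj]
  congr 1
  have := C.lam0.ne'
  field_simp
  ring

private theorem step_aux (C : Ctx F γ lam ell) (P : PC F Φ r h s lm lp) {i j : ℝ}
    (hi : i = 1 ∨ i = -1) (hj : j = 1 ∨ j = -1) (hsi : s i = 2) {σ h1 ε : ℝ} (hσ : 0 < σ)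
    (h1a : σ / lp < h1) (h1b : h1 < h) (hεh : ε ≤ h1) {t : ℝ} {m : ℕ}
    (p1 : |(Φ (γ (t / lam ^ m))).re| < ε) (p2 : 0 < i * (Φ (γ (t / lam ^ m))).re)
    (p3 : 0 < j * (Φ (γ (t / lam ^ m))).im) (p4 : |(Φ (γ (t / lam ^ m))).im| ≤ lp * σ) :
    |(Φ (γ (t / lam ^ (m + 1)))).re| < ε ∧
      |(Φ (γ (t / lam ^ m))).im| ≤ lp * |(Φ (γ (t / lam ^ (m + 1)))).im| ∧
      |(Φ (γ (t / lam ^ (m + 1)))).im| < σ / lp ∧
      0 < i * (Φ (γ (t / lam ^ (m + 1)))).re ∧ 0 < j * (Φ (γ (t / lam ^ (m + 1)))).im := by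
  have hlp : 0 < lp := P.hlm.trans_le P.lp_ge
  have hlm := P.hlm
  have hh1 : 0 < h1 := (div_pos hσ hlp).trans h1a
  have hs1 : σ < h1 * lp := (div_lt_iff₀ hlp).1 h1a
  have hlh : lp * σ < lm * h1 := by
    have a := P.hll
    nlinarith
  have hF := back_it C t m
  have hsym : F.symm (γ (t / lam ^ m)) = γ (t / lam ^ (m + 1)) := by
    rw [← hF]
    exact F.symm_apply_apply _
  obtain ⟨q1, q2, q3⟩ := P.back hi hsi hh1 h1b (w := γ (t / lam ^ m)) p2.le (p1.trans_le hεh)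
    (p4.trans_lt hlh)
  rw [hsym] at q1 q2 q3
  have q1' := q1.trans h1b
  have q2' := q2.trans h1b
  have r3 := P.im_low _ q1' q2'
  have r4 := P.im_up _ q1' q2'
  have r6 := P.im_sign _ q1' q2'
  rw [hF] at r3 r4 r6
  have x2 : 0 < |(Φ (γ (t / lam ^ m))).im| := by
    rw [abs_pos]
    intro h0
    rw [h0, mul_zero] at p3
    exact lt_irrefl _ p3
  have u2 : 0 < |(Φ (γ (t / lam ^ (m + 1)))).im| := by
    rcases (abs_nonneg (Φ (γ (t / lam ^ (m + 1)))).im).lt_or_eq with h2 | h2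
    · exact h2
    · rw [← h2, mul_zero] at r4
      linarith
  refine ⟨?_, r4, ?_, ?_, ?_⟩
  · rw [q3, abs_div, abs_of_pos (two_pos : (0 : ℝ) < 2)]
    have := abs_nonneg (Φ (γ (t / lam ^ m))).re
    linarith
  · rw [lt_div_iff₀ hlp]
    have a1 : lm * |(Φ (γ (t / lam ^ (m + 1)))).im| ≤ lp * σ := r3.trans p4
    have a2 : lp * (lm * |(Φ (γ (t / lam ^ (m + 1)))).im|) ≤ lp * (lp * σ) :=
      mul_le_mul_of_nonneg_left a1 hlp.le
    have a3 : lp * (lp * σ) < lm * σ := by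
      have a := P.hll
      nlinarith
    have a4 : lm * (|(Φ (γ (t / lam ^ (m + 1)))).im| * lp) < lm * σ := by
      calc lm * (|(Φ (γ (t / lam ^ (m + 1)))).im| * lp) =
          lp * (lm * |(Φ (γ (t / lam ^ (m + 1)))).im|) := by ring
        _ ≤ lp * (lp * σ) := a2
        _ < lm * σ := a3
    exact lt_of_mul_lt_mul_left a4 hlm.le
  · rw [q3]
    have : i * ((Φ (γ (t / lam ^ m))).re / 2) = (i * (Φ (γ (t / lam ^ m))).re) / 2 := by ring
    rw [this]
    exact half_pos p2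
  · exact sign_aux hj p3 (abs_pos.1 u2) r6

theorem vis_ratio_par (C : Ctx F γ lam ell) (P : PC F Φ r h s lm lp) (hr : r ∈ AA γ) {i j : ℝ}
    (hi : i = 1 ∨ i = -1) (hj : j = 1 ∨ j = -1) (V : Vis Φ γ i j) {σ : ℝ} (hσ : 0 < σ)
    (hσ1 : σ / lp < h) {ε : ℝ} (hε : 0 < ε) :
    ∃ t > 0, |(Φ (γ t)).re| < ε ∧ lp * σ < |(Φ (γ t)).im| ∧ |(Φ (γ t)).im| < σ / lp ∧
      0 < i * (Φ (γ t)).re ∧ 0 < j * (Φ (γ t)).im := by
  have hsi : s i = 2 := vis_s C P hr hi V
  have hlp : 0 < lp := P.hlm.trans_le P.lp_ge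
  obtain ⟨h1, h1a, h1b⟩ := exists_between hσ1
  have hh1 : 0 < h1 := (div_pos hσ hlp).trans h1a
  have hε' : 0 < min ε h1 := lt_min hε hh1
  have hls : 0 < lp * σ := mul_pos hlp hσ
  obtain ⟨t, ht, v1, v2, v3, v4⟩ := V (min (min ε h1) (lp * σ)) (lt_min hε' hls)
  have w3 : |(Φ (γ t)).re| < min ε h1 := v3.trans_le (min_le_left _ _)
  have w4 : |(Φ (γ t)).im| < lp * σ := v4.trans_le (min_le_right _ _)
  have x2 : 0 < |(Φ (γ t)).im| := by
    rw [abs_pos]
    rintro h0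
    rw [h0, mul_zero] at v2
    exact lt_irrefl _ v2
  -- the state after `m` steps
  have key : ∀ m : ℕ, (∀ k < m, |(Φ (γ (t / lam ^ k))).im| ≤ lp * σ) →
      |(Φ (γ (t / lam ^ m))).re| < min ε h1 ∧
      |(Φ (γ t)).im| ≤ lp ^ m * |(Φ (γ (t / lam ^ m))).im| ∧
      |(Φ (γ (t / lam ^ m))).im| < σ / lp ∧
      0 < i * (Φ (γ (t / lam ^ m))).re ∧ 0 < j * (Φ (γ (t / lam ^ m))).im := by
    intro m
    induction m with
    | zero =>
      intro _
      rw [pow_zero, div_one, pow_zero, one_mul]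
      refine ⟨w3, le_rfl, ?_, v1, v2⟩
      refine w4.trans ?_
      rw [lt_div_iff₀ hlp]
      have a := P.hlp
      nlinarith
    | succ m ih =>
      intro hk
      obtain ⟨q1, q3, q4, q5, q6⟩ := ih fun k hk' => hk k (hk'.trans (Nat.lt_succ_self m))
      have hpm : 0 < lp ^ m := pow_pos hlp m
      obtain ⟨a1, a3, a4, a5, a6⟩ := step_aux C P hi hj hsi hσ h1a h1b (min_le_right ε h1) q1 q5 q6
        (hk m (Nat.lt_succ_self m))
      refine ⟨a1, ?_, a4, a5, a6⟩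
      calc |(Φ (γ t)).im| ≤ lp ^ m * |(Φ (γ (t / lam ^ m))).im| := q3
        _ ≤ lp ^ m * (lp * |(Φ (γ (t / lam ^ (m + 1)))).im|) :=
            mul_le_mul_of_nonneg_left a3 hpm.le
        _ = lp ^ (m + 1) * |(Φ (γ (t / lam ^ (m + 1)))).im| := by ring
  have hex : ∃ m : ℕ, lp * σ < |(Φ (γ (t / lam ^ m))).im| := by
    by_contra hno
    push Not at hno
    have h2 : ∀ m : ℕ, |(Φ (γ t)).im| ≤ lp ^ m * (lp * σ) := by
      intro m
      exact (key m fun k _ => hno k).2.1.trans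
        (mul_le_mul_of_nonneg_left (hno m) (pow_pos hlp m).le)
    have h3 : Tendsto (fun m : ℕ => lp ^ m * (lp * σ)) atTop (𝓝 (0 * (lp * σ))) :=
      (tendsto_pow_atTop_nhds_zero_of_lt_one hlp.le P.hlp).mul_const _
    rw [zero_mul] at h3
    have h4 : |(Φ (γ t)).im| ≤ 0 := ge_of_tendsto' h3 h2
    linarith
  classical
  have hm := Nat.find_spec hex
  have hmin : ∀ k < Nat.find hex, |(Φ (γ (t / lam ^ k))).im| ≤ lp * σ := fun k hk =>
    not_lt.1 (Nat.find_min hex hk)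
  obtain ⟨q1, q3, q4, q5, q6⟩ := key _ hmin
  exact ⟨t / lam ^ Nat.find hex, div_pos ht (pow_pos C.lam0 _), q1.trans_le (min_le_left _ _), hm, q4,
    q5, q6⟩

theorem stab_pt_par (C : Ctx F γ lam ell) (P : PC F Φ r h s lm lp) (hr : r ∈ AA γ)
    {i j : ℝ} (hi : i = 1 ∨ i = -1) (hj : j = 1 ∨ j = -1) (V : Vis Φ γ i j) {δ : ℝ} (hδ : 0 < δ) :
    ∃ σ, 0 < σ ∧ σ < δ ∧ Φ.symm ⟨0, j * σ⟩ ∈ AA γ := by
  have hlp : 0 < lp := P.hlm.trans_le P.lp_ge
  have hjj : j * j = 1 := by rcases hj with rfl | rfl <;> norm_num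
  have hm : 0 < min δ h := lt_min hδ P.hh
  set s0 := lp * (min δ h / 2) with hs0
  have hs0p : 0 < s0 := mul_pos hlp (half_pos hm)
  have hs0d : s0 / lp = min δ h / 2 := by
    rw [hs0]
    exact mul_div_cancel_left₀ _ hlp.ne'
  have hs0h : s0 / lp < h := by
    rw [hs0d]
    exact (half_lt_self hm).trans_le (min_le_right _ _)
  have hs0δ : s0 / lp < δ := by
    rw [hs0d]
    exact (half_lt_self hm).trans_le (min_le_left _ _)
  have hv : ∀ n : ℕ, ∃ t > 0, |(Φ (γ t)).re| < 1 / ((n : ℝ) + 1) ∧ lp * s0 < |(Φ (γ t)).im| ∧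
      |(Φ (γ t)).im| < s0 / lp ∧ 0 < i * (Φ (γ t)).re ∧ 0 < j * (Φ (γ t)).im :=
    fun n => vis_ratio_par C P hr hi hj V hs0p hs0h Nat.one_div_pos_of_nat
  choose t ht t1 t2 t3 t4 t5 using hv
  obtain ⟨w, hw, φ, hφ, hlim⟩ := (xx_compact C).tendsto_subseq
    (x := fun n => γ (t n)) (fun n => mem_xx C (ht n).le)
  have hΦ : Tendsto (fun n => Φ (γ (t (φ n)))) atTop (𝓝 (Φ w)) :=
    (Φ.continuous.tendsto w).comp hlim
  have hre : Tendsto (fun n => |(Φ (γ (t (φ n)))).re|) atTop (𝓝 |(Φ w).re|) :=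
    ((Complex.continuous_re.abs).tendsto _).comp hΦ
  have him : Tendsto (fun n => |(Φ (γ (t (φ n)))).im|) atTop (𝓝 |(Φ w).im|) :=
    ((Complex.continuous_im.abs).tendsto _).comp hΦ
  have hre0 : (Φ w).re = 0 := by
    have h1 : Tendsto (fun n => 1 / (((φ n : ℕ) : ℝ) + 1)) atTop (𝓝 0) :=
      tendsto_one_div_add_atTop_nhds_zero_nat.comp hφ.tendsto_atTop
    have h2 : |(Φ w).re| ≤ 0 := le_of_tendsto_of_tendsto' hre h1 fun n => (t1 (φ n)).le
    exact abs_eq_zero.1 (le_antisymm h2 (abs_nonneg _))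
  have him1 : lp * s0 ≤ |(Φ w).im| := ge_of_tendsto' him fun n => (t2 (φ n)).le
  have him2 : |(Φ w).im| ≤ s0 / lp := le_of_tendsto' him fun n => (t3 (φ n)).le
  have himh : |(Φ w).im| < h := him2.trans_lt hs0h
  have hreh : |(Φ w).re| < h := by
    rw [hre0, abs_zero]
    exact P.hh
  have hAA : w ∈ AA γ := by
    have h1 : w ∈ γ '' Ici 0 ∪ AA γ := by rw [← xx_eq C]; exact hw
    rcases h1 with ⟨t', ht', rfl⟩ | h1
    · exact absurd hre0 (P.s_axis C hr ht' hreh himh)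
    · exact h1
  have himp : 0 < |(Φ w).im| := (mul_pos hlp hs0p).trans_le him1
  have h1 : Tendsto (fun n => j * (Φ (γ (t (φ n)))).im) atTop (𝓝 (j * (Φ w).im)) :=
    (((Complex.continuous_im.tendsto _).comp hΦ).const_mul j)
  have h2 : 0 ≤ j * (Φ w).im := ge_of_tendsto' h1 fun n => (t5 (φ n)).le
  have h3 : 0 < j * (Φ w).im := by
    rcases h2.lt_or_eq with h4 | h4
    · exact h4
    · exfalso
      rcases mul_eq_zero.1 h4.symm with h5 | h5
      · rw [h5, zero_mul] at hjj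
        exact zero_ne_one hjj
      · rw [h5, abs_zero] at himp
        exact lt_irrefl _ himp
  refine ⟨j * (Φ w).im, h3, ?_, ?_⟩
  · refine lt_of_le_of_lt (le_abs_self _) ?_
    rw [abs_mul]
    have h4 : |j| = 1 := by rcases hj with rfl | rfl <;> norm_num
    rw [h4, one_mul]
    exact him2.trans_lt hs0δ
  · have h4 : (⟨0, j * (j * (Φ w).im)⟩ : ℂ) = Φ w := by
      apply Complex.ext
      · exact hre0.symm
      · show j * (j * (Φ w).im) = (Φ w).im
        rw [← mul_assoc, hjj, one_mul]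
    rw [h4, Φ.symm_apply_apply]
    exact hAA

end Pool.Agent.HF
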