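import Pool.Agent.HF.SR
import Pool.Agent.HE.Cross
import Pool.Agent.HE.NoSep

set_option autoImplicit false

/-!
HF-SS. Segments of the centre axis contained in the closure of the branch.

Adaptation of HE/SSeg.
`seg_full_par`: a gap of the segment from `0` to `x0` would be a crosscut of the set `Φ '' XX γ`, which would separate
the plane by `cross`, but its backward iterates are bounded.
`unst_seg_par`: the iterates of points of the visited quadrant leave the box along the centre axis, so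
the axis contains a point of the branch closure on the side `i`.
-/

namespace Pool.Agent.HF

open Set Topology Filter Pool.Agent.HE

variable {F Φ : ℂ ≃ₜ ℂ} {γ : ℝ → ℂ} {lam : ℝ} {ell : ℝ → ℝ → ℂ} {r : ℂ} {h : ℝ} {s : ℝ → ℝ} {lm lp : ℝ}

private theorem symm_mem_xx (C : Ctx F γ lam ell) {w : ℂ} (hw : w ∈ XX γ) : F.symm w ∈ XX γ := by
  rw [← xx_image C] at hw
  obtain ⟨x, hx, rfl⟩ := hw
  rw [F.symm_apply_apply]
  exact hx

private theorem map_mem_xx (C : Ctx F γ lam ell) {w : ℂ} (hw : w ∈ XX γ) : F w ∈ XX γ := by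
  rw [← xx_image C]
  exact mem_image_of_mem _ hw

theorem seg_full_par (C : Ctx F γ lam ell) (P : PC F Φ r h s lm lp) (hr : r ∈ AA γ) {i : ℝ}
    (hi : i = 1 ∨ i = -1) (hs : s i = 2) {x0 : ℝ} (h0 : 0 < i * x0) (hx : |x0| < h)
    (hm : Φ.symm (x0 : ℂ) ∈ XX γ) {θ : ℝ} (hθ : θ ∈ Icc (0 : ℝ) 1) :
    Φ.symm ((θ * x0 : ℝ) : ℂ) ∈ XX γ := by
  have h00 : x0 ≠ 0 := by
    rintro rfl
    rw [mul_zero] at h0
    exact lt_irrefl _ h0
  have hs' := hs
  by_contra hcon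
  set ψ : ℝ → ℂ := fun s => ((s * x0 : ℝ) : ℂ) with hψ
  have hψc : Continuous ψ := by
    rw [hψ]
    fun_prop
  set Y : Set ℂ := Φ '' XX γ with hY
  have hYc : IsCompact Y := (xx_compact C).image Φ.continuous
  have hYn : IsConnected Y := (xx_conn C).image Φ Φ.continuous.continuousOn
  have hmemY : ∀ z, z ∈ Y ↔ Φ.symm z ∈ XX γ := by
    intro z
    constructor
    · rintro ⟨w, hw, rfl⟩
      rw [Φ.symm_apply_apply]
      exact hw
    · intro hz
      exact ⟨Φ.symm z, hz, Φ.apply_symm_apply z⟩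
  have hψ0 : ψ 0 ∈ Y := by
    refine ⟨r, aa_sub C hr, ?_⟩
    rw [P.zero, hψ]
    simp
  have hψ1 : ψ 1 ∈ Y := by
    rw [hmemY, hψ]
    simpa using hm
  have hψθ : ψ θ ∉ Y := by
    rw [hmemY]
    exact hcon
  have hSc : IsClosed {s : ℝ | ψ s ∈ Y} := hYc.isClosed.preimage hψc
  have c1 : IsCompact ({s : ℝ | ψ s ∈ Y} ∩ Icc 0 θ) := isCompact_Icc.inter_left hSc
  have c2 : IsCompact ({s : ℝ | ψ s ∈ Y} ∩ Icc θ 1) := isCompact_Icc.inter_left hSc
  obtain ⟨s1, ⟨hs1Y, hs1I⟩, hs1⟩ := c1.exists_isGreatest ⟨0, hψ0, le_refl _, hθ.1⟩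
  obtain ⟨s2, ⟨hs2Y, hs2I⟩, hs2⟩ := c2.exists_isLeast ⟨1, hψ1, hθ.2, le_refl _⟩
  have h10 : s1 < θ := by
    rcases lt_or_eq_of_le hs1I.2 with h | h
    · exact h
    · exact absurd (h ▸ hs1Y) hψθ
  have h02 : θ < s2 := by
    rcases lt_or_eq_of_le hs2I.1 with h | h
    · exact h
    · exact absurd (h ▸ hs2Y) hψθ
  have hfree : ∀ s ∈ Ioo s1 s2, ψ s ∉ Y := by
    intro s hs hsY
    rcases le_total s θ with h | h
    · have := hs1 ⟨hsY, hs1I.1.trans hs.1.le, h⟩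
      exact absurd this (not_le.mpr hs.1)
    · have := hs2 ⟨hsY, h, hs.2.le.trans hs2I.2⟩
      exact absurd this (not_le.mpr hs.2)
  have hinj : InjOn ψ (Ioo s1 s2) := by
    intro a _ b _ hab
    have hab' : ((a * x0 : ℝ) : ℂ) = ((b * x0 : ℝ) : ℂ) := hab
    have h1 : a * x0 = b * x0 := by exact_mod_cast hab'
    exact mul_right_cancel₀ h00 h1
  have hd : HasDerivAt ψ (x0 : ℂ) θ := by
    have h1 : HasDerivAt (fun s : ℝ => s * x0) x0 θ := by
      simpa using (hasDerivAt_id θ).mul_const x0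
    exact h1.ofReal_comp
  have hns := cross hYc hYn h10 h02 hψc.continuousOn hinj hs1Y hs2Y hfree hd
    (by exact_mod_cast h00)
  apply hns
  have hG := NO_conj C.no Φ
  have hsc : Function.Semiconj Φ (F.symm : ℂ → ℂ)
      (((Φ.symm.trans F).trans Φ).symm : ℂ → ℂ) := by
    intro z
    simp
  obtain ⟨R, hR⟩ := hYc.isBounded.exists_norm_le
  refine nonsep_of_NO hG (hYc.union (isCompact_Icc.image hψc)) (R := max R |x0|) ?_
  intro k z hz
  rcases hz with hz | ⟨s, hs, rfl⟩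
  · refine le_trans (hR _ ?_) (le_max_left _ _)
    obtain ⟨w, hw, rfl⟩ := hz
    have h1 := (hsc.iterate_right k) w
    rw [← h1]
    have h2 : MapsTo (F.symm : ℂ → ℂ) (XX γ) (XX γ) := fun w hw => symm_mem_xx C hw
    exact mem_image_of_mem _ (h2.iterate k hw)
  · refine le_trans ?_ (le_max_right _ _)
    have h1 := (hsc.iterate_right k) (Φ.symm (ψ s))
    rw [Φ.apply_symm_apply] at h1
    rw [← h1]
    have hs0 : 0 ≤ s := hs1I.1.trans hs.1
    have hs1' : s ≤ 1 := hs.2.trans hs2I.2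
    have hre : (Φ (Φ.symm (ψ s))).re = s * x0 := by
      rw [Φ.apply_symm_apply, hψ]
      simp
    have him : (Φ (Φ.symm (ψ s))).im = 0 := by
      rw [Φ.apply_symm_apply, hψ]
      simp
    have habs : |s * x0| ≤ |x0| := by
      rw [abs_mul, abs_of_nonneg hs0]
      nlinarith [abs_nonneg x0]
    obtain ⟨g1, g2⟩ := P.c_back hi hs' (by
      rw [hre]
      have : i * (s * x0) = s * (i * x0) := by ring
      rw [this]
      exact mul_nonneg hs0 h0.le) him (by rw [hre]; exact lt_of_le_of_lt habs hx) k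
    rw [hre] at g2
    refine le_trans (Complex.norm_le_abs_re_add_abs_im _) ?_
    rw [g1, abs_zero, add_zero, g2]
    have h2k : (1 : ℝ) ≤ 2 ^ k := one_le_pow₀ (by norm_num)
    rw [abs_div, abs_of_pos (by positivity : (0 : ℝ) < 2 ^ k)]
    exact (div_le_self (abs_nonneg _) h2k).trans habs

private theorem orb (P : PC F Φ r h s lm lp) {h' i : ℝ} (hi : i = 1 ∨ i = -1) (hs : s i = 2)
    (hh' : h' ≤ h) {z : ℂ} (hz1 : 0 < i * (Φ z).re) (hz2 : |(Φ z).im| < h) (n : ℕ)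
    (hn : ∀ k < n, |(Φ ((F : ℂ → ℂ)^[k] z)).re| < h') :
    |(Φ ((F : ℂ → ℂ)^[n] z)).im| ≤ |(Φ z).im| ∧
      (Φ ((F : ℂ → ℂ)^[n] z)).re = 2 ^ n * (Φ z).re := by
  induction n with
  | zero =>
    refine ⟨le_refl _, ?_⟩
    rw [pow_zero, one_mul]
    rfl
  | succ n ih =>
    obtain ⟨a1, a2⟩ := ih (fun k hk => hn k (hk.trans (Nat.lt_succ_self n)))
    have b1 : |(Φ ((F : ℂ → ℂ)^[n] z)).re| < h := lt_of_lt_of_le (hn n (Nat.lt_succ_self n)) hh'
    have b2 : |(Φ ((F : ℂ → ℂ)^[n] z)).im| < h := lt_of_le_of_lt a1 hz2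
    have b3 : 0 ≤ i * (Φ ((F : ℂ → ℂ)^[n] z)).re := by
      rw [a2]
      have : i * (2 ^ n * (Φ z).re) = 2 ^ n * (i * (Φ z).re) := by ring
      rw [this]
      exact mul_nonneg (by positivity) hz1.le
    rw [Function.iterate_succ_apply']
    have c1 := P.im_up _ b1 b2
    have c2 := P.re_eq i hi _ b1 b2 b3
    have hlp := P.hlp
    refine ⟨?_, ?_⟩
    · nlinarith [abs_nonneg (Φ ((F : ℂ → ℂ)^[n] z)).im]
    · rw [c2, hs, a2]
      ring

private theorem iter_mem_xx (C : Ctx F γ lam ell) {w : ℂ} (hw : w ∈ XX γ) (k : ℕ) :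
    (F : ℂ → ℂ)^[k] w ∈ XX γ := by
  have h2 : MapsTo (F : ℂ → ℂ) (XX γ) (XX γ) := fun w hw => map_mem_xx C hw
  exact h2.iterate k hw

private theorem exit (C : Ctx F γ lam ell) (P : PC F Φ r h s lm lp)
    {i j : ℝ} (hi : i = 1 ∨ i = -1) (hs : s i = 2) (V : Vis Φ γ i j) {ε : ℝ} (hε : 0 < ε) :
    ∃ w ∈ XX γ, |(Φ w).im| ≤ ε ∧ h / 4 ≤ |(Φ w).re| ∧ |(Φ w).re| ≤ h / 2 ∧
      0 ≤ i * (Φ w).re := by
  have hh := P.hh
  set h' : ℝ := h / 4 with hh'
  have hp : 0 < h' := by positivity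
  have hle2 : h' ≤ h := by linarith
  obtain ⟨t, ht, v1, v2, v3, v4⟩ := V (min h' (min ε h)) (lt_min hp (lt_min hε hh))
  have v3' : |(Φ (γ t)).re| < h' := lt_of_lt_of_le v3 (min_le_left _ _)
  have v4' : |(Φ (γ t)).im| < ε :=
    lt_of_lt_of_le v4 ((min_le_right _ _).trans (min_le_left _ _))
  have v4'' : |(Φ (γ t)).im| < h :=
    lt_of_lt_of_le v4 ((min_le_right _ _).trans (min_le_right _ _))
  have hre0 : (Φ (γ t)).re ≠ 0 := by
    intro h0
    rw [h0, mul_zero] at v1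
    exact lt_irrefl _ v1
  have hre : 0 < |(Φ (γ t)).re| := abs_pos.mpr hre0
  have habs : ∀ n : ℕ, |(2 : ℝ) ^ n * (Φ (γ t)).re| = 2 ^ n * |(Φ (γ t)).re| := by
    intro n
    rw [abs_mul, abs_of_pos (by positivity)]
  have hex : ∃ m, h' ≤ |(Φ ((F : ℂ → ℂ)^[m] (γ t))).re| := by
    by_contra hc
    push Not at hc
    obtain ⟨n, hn⟩ := pow_unbounded_of_one_lt (h' / |(Φ (γ t)).re|) (one_lt_two (α := ℝ))
    have h1 := (orb P hi hs hle2 v1 v4'' n (fun k _ => hc k)).2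
    have h2 := hc n
    rw [h1, habs] at h2
    rw [div_lt_iff₀ hre] at hn
    linarith
  classical
  set m := Nat.find hex with hmdef
  have hm := Nat.find_spec hex
  rw [← hmdef] at hm
  have hmin : ∀ k < m, |(Φ ((F : ℂ → ℂ)^[k] (γ t))).re| < h' := by
    intro k hk
    exact not_le.mp (Nat.find_min hex hk)
  obtain ⟨o1, o2⟩ := orb P hi hs hle2 v1 v4'' m hmin
  have hm0 : m ≠ 0 := by
    intro h0
    rw [h0] at hm
    exact absurd hm (not_le.mpr v3')
  obtain ⟨k, hk⟩ := Nat.exists_eq_succ_of_ne_zero hm0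
  have hkm : k < m := by omega
  obtain ⟨p1, p2⟩ := orb P hi hs hle2 v1 v4'' k (fun l hl => hmin l (hl.trans hkm))
  refine ⟨(F : ℂ → ℂ)^[m] (γ t), iter_mem_xx C (mem_xx C ht.le) m, (o1.trans v4'.le), hm, ?_, ?_⟩
  · have q1 := hmin k hkm
    rw [p2, habs] at q1
    rw [o2, hk, habs, pow_succ]
    have : h / 2 = 2 * h' := by
      rw [hh']
      ring
    rw [this]
    linarith
  · rw [o2]
    have : i * (2 ^ m * (Φ (γ t)).re) = 2 ^ m * (i * (Φ (γ t)).re) := by ring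
    rw [this]
    exact mul_nonneg (by positivity) v1.le

private theorem limit_pt (C : Ctx F γ lam ell) (P : PC F Φ r h s lm lp)
    {i j : ℝ} (hi : i = 1 ∨ i = -1) (hs : s i = 2) (V : Vis Φ γ i j) :
    ∃ w ∈ XX γ, (Φ w).im = 0 ∧ (Φ w).re ≠ 0 ∧ |(Φ w).re| < h ∧ 0 ≤ i * (Φ w).re := by
  have hh := P.hh
  set K : Set ℂ := XX γ ∩ {w | h / 4 ≤ |(Φ w).re| ∧ |(Φ w).re| ≤ h / 2 ∧
    0 ≤ i * (Φ w).re} with hK
  have cre : Continuous fun w : ℂ => (Φ w).re := Complex.continuous_re.comp Φ.continuous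
  have cim : Continuous fun w : ℂ => (Φ w).im := Complex.continuous_im.comp Φ.continuous
  have hcl : IsClosed {w : ℂ | h / 4 ≤ |(Φ w).re| ∧ |(Φ w).re| ≤ h / 2 ∧
      0 ≤ i * (Φ w).re} := by
    have k1 : IsClosed {w : ℂ | h / 4 ≤ |(Φ w).re|} := isClosed_le continuous_const cre.abs
    have k2 : IsClosed {w : ℂ | |(Φ w).re| ≤ h / 2} := isClosed_le cre.abs continuous_const
    have k3 : IsClosed {w : ℂ | 0 ≤ i * (Φ w).re} :=
      isClosed_le continuous_const (continuous_const.mul cre)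
    exact (k1.inter (k2.inter k3))
  have hKc : IsCompact K := (xx_compact C).inter_right hcl
  have hKn : K.Nonempty := by
    obtain ⟨w, w1, w2, w3, w4, w5⟩ := exit C P hi hs V one_pos
    exact ⟨w, w1, w3, w4, w5⟩
  obtain ⟨w0, hw0, hmin⟩ := hKc.exists_isMinOn hKn cim.abs.continuousOn
  have him : (Φ w0).im = 0 := by
    by_contra hne
    have hp : 0 < |(Φ w0).im| := abs_pos.mpr hne
    obtain ⟨w, w1, w2, w3, w4, w5⟩ := exit C P hi hs V (half_pos hp)
    have := hmin (show w ∈ K from ⟨w1, w3, w4, w5⟩)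
    have h2 : |(Φ w0).im| ≤ |(Φ w).im| := this
    linarith
  obtain ⟨g1, g2, g3, g4⟩ := hw0
  refine ⟨w0, g1, him, ?_, by linarith, g4⟩
  have : 0 < h / 4 := by positivity
  exact abs_pos.mp (lt_of_lt_of_le this g2)

private theorem from_pt (C : Ctx F γ lam ell) (P : PC F Φ r h s lm lp) (hr : r ∈ AA γ)
    {i : ℝ} (hi : i = 1 ∨ i = -1) (hs : s i = 2) {w : ℂ} (hw : w ∈ XX γ) (h1 : (Φ w).im = 0)
    (h2 : |(Φ w).re| < h) (h3 : 0 < i * (Φ w).re) :
    ∃ a > 0, ∀ x, 0 < x → x < a → Φ.symm ⟨i * x, 0⟩ ∈ XX γ := by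
  have hx0 : (Φ w).re ≠ 0 := by
    intro h0
    rw [h0, mul_zero] at h3
    exact lt_irrefl _ h3
  have hw' : Φ w = (((Φ w).re : ℝ) : ℂ) := by
    apply Complex.ext
    · simp
    · simp [h1]
  have hm : Φ.symm (((Φ w).re : ℝ) : ℂ) ∈ XX γ := by
    rw [← hw', Φ.symm_apply_apply]
    exact hw
  refine ⟨i * (Φ w).re, h3, fun x hx hxa => ?_⟩
  have hθ : x / (i * (Φ w).re) ∈ Icc (0 : ℝ) 1 :=
    ⟨div_nonneg hx.le h3.le, (div_le_one h3).mpr hxa.le⟩
  have := seg_full_par C P hr hi hs h3 h2 hm hθ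
  have hii : i * i = 1 := by
    rcases hi with rfl | rfl <;> norm_num
  have hi0 : i ≠ 0 := by
    rintro rfl
    norm_num at hii
  have he : x / (i * (Φ w).re) * (Φ w).re = i * x := by
    field_simp
    rw [pow_two, hii]
  rw [he] at this
  exact this

theorem unst_seg_par (C : Ctx F γ lam ell) (P : PC F Φ r h s lm lp) (hr : r ∈ AA γ)
    {i j : ℝ} (hi : i = 1 ∨ i = -1) (V : Vis Φ γ i j) :
    ∃ a > 0, ∀ x, 0 < x → x < a → Φ.symm ⟨i * x, 0⟩ ∈ XX γ := by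
  have hs := vis_s C P hr hi V
  obtain ⟨w, w1, w2, w3, w4, w5⟩ := limit_pt C P hi hs V
  have hi0 : i ≠ 0 := by
    rcases hi with rfl | rfl <;> norm_num
  exact from_pt C P hr hi hs w1 w2 w4 (lt_of_le_of_ne w5 (mul_ne_zero hi0 w3).symm)

end Pool.Agent.HF
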