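import Pool.Agent.HF.ZXz

set_option autoImplicit false

/-!
HF-ZAB. The map in the petal coordinates: `(ζ, w) ↦ (ζ - 1 + A ζ w, β w + B ζ w)` with `A`, `B` holomorphic and small for `Re ζ` large.
With `x = xz ζ` and `K (x, c x + x ^ m w) = (x (1 + s), y')`: `s = x ^ (m - 1) (α + E)` (`zab_point`), expansions of `(1 + s) ^ (1 - m)` (`zab_inv`)
and of `(1 + s) ^ (-m)` (`zab_one`), the branch of `xz` by `xz_branch`.
-/

namespace Pool.Agent.HF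

open Set Topology Filter

private theorem zab_poly (μ : ℕ) : ∃ q : ℂ → ℂ, Continuous q ∧
    ∀ s : ℂ, (1 + s) ^ μ = 1 + μ * s + s ^ 2 * q s := by
  induction μ with
  | zero =>
    refine ⟨fun _ => 0, continuous_const, fun s => ?_⟩
    simp
  | succ μ ih =>
    obtain ⟨q, hq, h⟩ := ih
    refine ⟨fun s => μ + q s * (1 + s), by fun_prop, fun s => ?_⟩
    rw [pow_succ, h]
    push_cast
    ring

/-- second order expansion of `(1 + s) ^ (-μ)` -/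
private theorem zab_inv (μ : ℕ) : ∃ C s0 : ℝ, 0 < C ∧ 0 < s0 ∧ ∀ s : ℂ, ‖s‖ < s0 →
    ‖((1 + s) ^ μ)⁻¹ - 1 + μ * s‖ ≤ C * ‖s‖ ^ 2 := by
  obtain ⟨q, hq, h⟩ := zab_poly μ
  have h1 : ContinuousAt (fun s : ℂ => ((μ : ℂ) ^ 2 - (1 - μ * s) * q s) * ((1 + s) ^ μ)⁻¹) 0 := by
    have h2 : ContinuousAt (fun s : ℂ => ((1 + s) ^ μ)⁻¹) 0 := by
      refine ContinuousAt.inv₀ (by fun_prop) ?_
      rw [add_zero, one_pow]
      exact one_ne_zero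
    exact (by fun_prop : ContinuousAt (fun s : ℂ => (μ : ℂ) ^ 2 - (1 - μ * s) * q s) 0).mul h2
  have h3 := h1.norm.eventually_lt_const
    (lt_add_one ‖((μ : ℂ) ^ 2 - (1 - μ * (0 : ℂ)) * q 0) * ((1 + (0 : ℂ)) ^ μ)⁻¹‖)
  have h4 : ∀ᶠ s : ℂ in 𝓝 0, ‖s‖ < 1 := by
    have h5 : Tendsto (fun s : ℂ => ‖s‖) (𝓝 0) (𝓝 ‖(0 : ℂ)‖) := continuous_norm.tendsto 0
    rw [norm_zero] at h5
    exact h5.eventually (gt_mem_nhds one_pos)
  obtain ⟨s0, hs0, hb⟩ := Metric.eventually_nhds_iff.1 (h3.and h4)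
  refine ⟨‖((μ : ℂ) ^ 2 - (1 - μ * (0 : ℂ)) * q 0) * ((1 + (0 : ℂ)) ^ μ)⁻¹‖ + 1, s0,
    by positivity, hs0, fun s hs => ?_⟩
  obtain ⟨b1, b2⟩ := hb (y := s) (by rwa [dist_zero_right])
  have hne : (1 + s) ^ μ ≠ 0 := by
    refine pow_ne_zero _ ?_
    intro h0
    have h6 : s = -1 := by linear_combination h0
    rw [h6, norm_neg, norm_one] at b2
    exact lt_irrefl _ b2
  have h5 : ((1 + s) ^ μ)⁻¹ - 1 + μ * s =
      s ^ 2 * (((μ : ℂ) ^ 2 - (1 - μ * s) * q s) * ((1 + s) ^ μ)⁻¹) := by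
    have h6 := h s
    field_simp
    linear_combination (-1 + μ * s) * h6
  rw [h5, norm_mul, norm_pow, mul_comm]
  exact mul_le_mul_of_nonneg_right b1.le (by positivity)

private theorem zab_one (m : ℕ) {η : ℝ} (hη : 0 < η) : ∃ s1 : ℝ, 0 < s1 ∧ ∀ s : ℂ, ‖s‖ < s1 →
    ‖((1 + s) ^ m)⁻¹ - 1‖ ≤ η := by
  have h1 : ContinuousAt (fun s : ℂ => ((1 + s) ^ m)⁻¹ - 1) 0 := by
    refine ContinuousAt.sub (ContinuousAt.inv₀ (by fun_prop) ?_) continuousAt_const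
    rw [add_zero, one_pow]
    exact one_ne_zero
  have h2 : ‖((1 + (0 : ℂ)) ^ m)⁻¹ - 1‖ < η := by
    rw [add_zero, one_pow, inv_one, sub_self, norm_zero]
    exact hη
  obtain ⟨s1, hs1, hb⟩ := Metric.eventually_nhds_iff.1 (h1.norm.eventually_lt_const h2)
  exact ⟨s1, hs1, fun s hs => (hb (y := s) (by rwa [dist_zero_right])).le⟩

/-- estimates at one point -/
private theorem zab_point {β : ℝ} {K : ℂ × ℂ → ℂ × ℂ} {c : ℂ → ℂ} {m : ℕ} {α e δ1 δ2 δ3 : ℝ}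
    (hm : 2 ≤ m) (hα : 0 < α) (he : 0 < e) (he1 : 3 * e ≤ 1)
    (e1 : ∀ x v : ℂ, ‖x‖ < δ1 → ‖v‖ < δ1 →
      ‖(K (x, c x + v)).1 - x - α * x ^ m‖ ≤ e * (‖x‖ ^ m + ‖v‖))
    (e2 : ∀ x v : ℂ, ‖x‖ < δ2 → ‖v‖ < δ2 → ‖(K (x, c x + v)).2 - c x - β * v‖ ≤ e * ‖v‖)
    (e3 : ∀ x x' : ℂ, ‖x‖ < δ3 → ‖x'‖ < δ3 → ‖c x - c x'‖ ≤ e * ‖x - x'‖)
    {x w : ℂ} (hx : x ≠ 0) (hw : ‖w‖ < 2) (hx1 : ‖x‖ ≤ 1) (hxd1 : 2 * ‖x‖ < δ1)
    (hxd2 : 2 * ‖x‖ < δ2) (hxd3 : 2 * ‖x‖ < δ3) (hxα : ‖x‖ * (α + 1) < 1) :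
    ∃ s E F : ℂ, (K (x, c x + x ^ m * w)).1 = x * (1 + s) ∧ s = x ^ (m - 1) * (α + E) ∧
      ‖E‖ ≤ 3 * e ∧ ‖s‖ ≤ ‖x‖ * (α + 1) ∧ ‖s‖ ≤ ‖x‖ ^ (m - 1) * (α + 1) ∧
      (K (x, c x + x ^ m * w)).2 - c (K (x, c x + x ^ m * w)).1 = x ^ m * (β * w + F) ∧
      ‖F‖ ≤ e * (α + 3) := by
  have hxn : 0 < ‖x‖ := norm_pos_iff.2 hx
  have hxm : x ^ m ≠ 0 := pow_ne_zero _ hx
  have hmm : x ^ m = x * x ^ (m - 1) := by
    conv_lhs => rw [show m = (m - 1) + 1 by omega, pow_succ, mul_comm]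
  have hpm : ‖x‖ ^ m ≤ ‖x‖ := by
    have := pow_le_pow_of_le_one hxn.le hx1 (show 1 ≤ m by omega)
    rwa [pow_one] at this
  have hpm1 : ‖x‖ ^ (m - 1) ≤ ‖x‖ := by
    have := pow_le_pow_of_le_one hxn.le hx1 (show 1 ≤ m - 1 by omega)
    rwa [pow_one] at this
  have hpm0 : 0 < ‖x‖ ^ m := by positivity
  have hv : ‖x ^ m * w‖ ≤ 2 * ‖x‖ ^ m := by
    rw [norm_mul, norm_pow, mul_comm]
    exact mul_le_mul_of_nonneg_right hw.le hpm0.le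
  have hv1 : ‖x ^ m * w‖ ≤ 2 * ‖x‖ := by linarith
  have g1 := e1 x (x ^ m * w) (by linarith) (by linarith)
  have g2 := e2 x (x ^ m * w) (by linarith) (by linarith)
  have g1' : ‖(K (x, c x + x ^ m * w)).1 - x - α * x ^ m‖ ≤ 3 * e * ‖x‖ ^ m := by
    refine g1.trans ?_
    have h1 : e * (‖x‖ ^ m + ‖x ^ m * w‖) ≤ e * (‖x‖ ^ m + 2 * ‖x‖ ^ m) := by gcongr
    linarith
  obtain ⟨E, hE⟩ : ∃ E : ℂ, E = ((K (x, c x + x ^ m * w)).1 - x - α * x ^ m) / x ^ m :=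
    ⟨_, rfl⟩
  have hEn : ‖E‖ ≤ 3 * e := by
    rw [hE, norm_div, norm_pow, div_le_iff₀ hpm0]
    exact g1'
  obtain ⟨s, hs⟩ : ∃ s : ℂ, s = x ^ (m - 1) * (α + E) := ⟨_, rfl⟩
  have hK1 : (K (x, c x + x ^ m * w)).1 = x * (1 + s) := by
    have h1 : x * (1 + s) = x + x ^ m * (α + E) := by rw [hs, hmm]; ring
    rw [h1, hE]
    field_simp
    ring
  have hαE : ‖(α : ℂ) + E‖ ≤ α + 1 := by
    refine (norm_add_le _ _).trans ?_
    rw [Complex.norm_real, Real.norm_eq_abs, abs_of_pos hα]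
    linarith
  have hsn : ‖s‖ ≤ ‖x‖ ^ (m - 1) * (α + 1) := by
    rw [hs, norm_mul, norm_pow]
    gcongr
  have hsn1 : ‖s‖ ≤ ‖x‖ * (α + 1) :=
    hsn.trans (mul_le_mul_of_nonneg_right hpm1 (by linarith))
  have hx' : ‖(K (x, c x + x ^ m * w)).1‖ ≤ 2 * ‖x‖ := by
    rw [hK1, norm_mul, mul_comm]
    refine mul_le_mul_of_nonneg_right ?_ hxn.le
    refine (norm_add_le _ _).trans ?_
    rw [norm_one]
    linarith
  have g3 := e3 (K (x, c x + x ^ m * w)).1 x (by linarith) (by linarith)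
  have hdx : ‖(K (x, c x + x ^ m * w)).1 - x‖ ≤ (α + 1) * ‖x‖ ^ m := by
    have h1 : (K (x, c x + x ^ m * w)).1 - x = x * s := by rw [hK1]; ring
    rw [h1, norm_mul]
    have h2 : ‖x‖ ^ m = ‖x‖ * ‖x‖ ^ (m - 1) := by
      rw [← norm_pow, hmm, norm_mul, norm_pow]
    rw [h2]
    calc ‖x‖ * ‖s‖ ≤ ‖x‖ * (‖x‖ ^ (m - 1) * (α + 1)) := by gcongr
      _ = (α + 1) * (‖x‖ * ‖x‖ ^ (m - 1)) := by ring
  refine ⟨s, E, ((K (x, c x + x ^ m * w)).2 - c (K (x, c x + x ^ m * w)).1) / x ^ m - β * w,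
    hK1, hs, hEn, hsn1, hsn, ?_, ?_⟩
  · field_simp
    ring
  · have h1 : ((K (x, c x + x ^ m * w)).2 - c (K (x, c x + x ^ m * w)).1) / x ^ m - β * w =
        (((K (x, c x + x ^ m * w)).2 - c x - β * (x ^ m * w)) -
          (c (K (x, c x + x ^ m * w)).1 - c x)) / x ^ m := by
      field_simp
      ring
    rw [h1, norm_div, norm_pow, div_le_iff₀ hpm0]
    refine (norm_sub_le _ _).trans ?_
    have h2 : e * ‖x ^ m * w‖ ≤ e * (2 * ‖x‖ ^ m) := by gcongr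
    have h3 : e * ‖(K (x, c x + x ^ m * w)).1 - x‖ ≤ e * ((α + 1) * ‖x‖ ^ m) := by gcongr
    have h4 : e * (α + 3) * ‖x‖ ^ m = e * (2 * ‖x‖ ^ m) + e * ((α + 1) * ‖x‖ ^ m) := by ring
    linarith

theorem ab {β : ℝ} {K : ℂ × ℂ → ℂ × ℂ} (H : NF β K) {c : ℂ → ℂ} {ρ : ℝ} {m : ℕ} {α : ℝ}
    (X : PX β K c ρ m α) (hα : 0 < α) {ε : ℝ} (hε : 0 < ε) (hε2 : ε ≤ 1 / 2) :
    ∃ (R : ℝ) (A B : ℂ → ℂ → ℂ), 2 ≤ R ∧ (∀ ζ : ℂ, R < ζ.re → ‖xz (m - 1) α ζ‖ < ρ) ∧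
      (∀ ζ w : ℂ, R < ζ.re → ‖w‖ < 2 → ‖A ζ w‖ ≤ ε ∧ ‖B ζ w‖ ≤ ε) ∧
      DifferentiableOn ℂ (fun p : ℂ × ℂ => A p.1 p.2) {p | R < p.1.re ∧ ‖p.2‖ < 2} ∧
      DifferentiableOn ℂ (fun p : ℂ × ℂ => B p.1 p.2) {p | R < p.1.re ∧ ‖p.2‖ < 2} ∧
      ∀ ζ w : ℂ, R < ζ.re → ‖w‖ < 2 →
        K (Th c m α ζ w) = Th c m α (ζ - 1 + A ζ w) (β * w + B ζ w) := by
  have hm := X.hm
  have hμ : 1 ≤ m - 1 := by omega
  have hβ := H.b0
  have hβ1 := H.b1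
  obtain ⟨C, s0, hC, hs0, hinv⟩ := zab_inv (m - 1)
  obtain ⟨s1, hs1, hone⟩ := zab_one m (η := ε / 8) (by positivity)
  obtain ⟨ε0, hε0, hbr⟩ := xz_branch hμ hα
  obtain ⟨e, hedef⟩ : ∃ e : ℝ, e = min (1 / 3) (min (ε * α / 6) (ε / (4 * (α + 3)))) :=
    ⟨_, rfl⟩
  have he : 0 < e := by
    rw [hedef]
    refine lt_min (by norm_num) (lt_min (by positivity) (by positivity))
  have he1 : 3 * e ≤ 1 := by
    have : e ≤ 1 / 3 := by rw [hedef]; exact min_le_left _ _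
    linarith
  have he2 : e ≤ ε * α / 6 := by
    rw [hedef]
    exact (min_le_right _ _).trans (min_le_left _ _)
  have he3 : e * (α + 3) ≤ ε / 4 := by
    have h1 : e ≤ ε / (4 * (α + 3)) := by
      rw [hedef]
      exact (min_le_right _ _).trans (min_le_right _ _)
    rw [le_div_iff₀ (by positivity)] at h1
    linarith
  obtain ⟨δ1, hδ1, e1⟩ := X.e1 e he
  obtain ⟨δ2, hδ2, e2⟩ := X.e2 e he
  obtain ⟨δ3, hδ3, e3⟩ := X.nc.small e he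
  have hρ := X.nc.pos
  obtain ⟨t, ht⟩ : ∃ t : ℝ, t = min (min s0 s1) (min ε0 (1 / 2)) := ⟨_, rfl⟩
  have ht0 : 0 < t := by
    rw [ht]
    exact lt_min (lt_min hs0 hs1) (lt_min hε0 (by norm_num))
  have hts0 : t ≤ s0 := by rw [ht]; exact (min_le_left _ _).trans (min_le_left _ _)
  have hts1 : t ≤ s1 := by rw [ht]; exact (min_le_left _ _).trans (min_le_right _ _)
  have htε0 : t ≤ ε0 := by rw [ht]; exact (min_le_right _ _).trans (min_le_left _ _)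
  have hth : t ≤ 1 / 2 := by rw [ht]; exact (min_le_right _ _).trans (min_le_right _ _)
  obtain ⟨δ, hδdef⟩ : ∃ δ : ℝ, δ = min (min (min 1 (δ1 / 2)) (min (δ2 / 2) (δ3 / 2)))
      (min (ρ / 2) (min (t / (α + 1)) (ε * α / (2 * C * (α + 1) ^ 2)))) := ⟨_, rfl⟩
  have hδ : 0 < δ := by
    rw [hδdef]
    refine lt_min (lt_min (lt_min one_pos (by positivity)) (lt_min (by positivity)
      (by positivity))) (lt_min (by positivity) (lt_min (by positivity) (by positivity)))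
  have d1 : δ ≤ 1 := by
    rw [hδdef]
    exact (min_le_left _ _).trans ((min_le_left _ _).trans (min_le_left _ _))
  have d2 : δ ≤ δ1 / 2 := by
    rw [hδdef]
    exact (min_le_left _ _).trans ((min_le_left _ _).trans (min_le_right _ _))
  have d3 : δ ≤ δ2 / 2 := by
    rw [hδdef]
    exact (min_le_left _ _).trans ((min_le_right _ _).trans (min_le_left _ _))
  have d4 : δ ≤ δ3 / 2 := by
    rw [hδdef]
    exact (min_le_left _ _).trans ((min_le_right _ _).trans (min_le_right _ _))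
  have d5 : δ ≤ ρ / 2 := by
    rw [hδdef]
    exact (min_le_right _ _).trans (min_le_left _ _)
  have d6 : δ ≤ t / (α + 1) := by
    rw [hδdef]
    exact (min_le_right _ _).trans ((min_le_right _ _).trans (min_le_left _ _))
  have d7 : δ ≤ ε * α / (2 * C * (α + 1) ^ 2) := by
    rw [hδdef]
    exact (min_le_right _ _).trans ((min_le_right _ _).trans (min_le_right _ _))
  obtain ⟨R0, hR0, hsm⟩ := xz_small hμ hα hδ
  obtain ⟨R, hRdef⟩ : ∃ R : ℝ, R = max 2 R0 := ⟨_, rfl⟩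
  have hR2 : 2 ≤ R := by rw [hRdef]; exact le_max_left _ _
  have hx : ∀ ζ : ℂ, R < ζ.re → ‖xz (m - 1) α ζ‖ < δ := fun ζ hζ =>
    hsm ζ (lt_of_le_of_lt (by rw [hRdef]; exact le_max_right _ _) hζ)
  have hx0 : ∀ ζ : ℂ, xz (m - 1) α ζ ≠ 0 := fun ζ => xz_ne _ _ _
  -- pointwise estimates
  have key : ∀ ζ w : ℂ, R < ζ.re → ‖w‖ < 2 → ∃ s E F : ℂ,
      (K (Th c m α ζ w)).1 = xz (m - 1) α ζ * (1 + s) ∧
      s = xz (m - 1) α ζ ^ (m - 1) * (α + E) ∧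
      ‖E‖ ≤ 3 * e ∧ ‖s‖ < t ∧ ‖s‖ ≤ ‖xz (m - 1) α ζ‖ ^ (m - 1) * (α + 1) ∧
      (K (Th c m α ζ w)).2 - c (K (Th c m α ζ w)).1 =
        xz (m - 1) α ζ ^ m * (β * w + F) ∧ ‖F‖ ≤ e * (α + 3) := by
    intro ζ w hζ hw
    have h1 := hx ζ hζ
    have h2 : ‖xz (m - 1) α ζ‖ * (α + 1) < t := by
      have h3 := h1.trans_le d6
      rwa [lt_div_iff₀ (by positivity)] at h3
    obtain ⟨s, E, F, g1, g2, g3, g4, g5, g6, g7⟩ := zab_point hm hα he he1 e1 e2 e3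
      (hx0 ζ) hw (by linarith) (by linarith) (by linarith) (by linarith) (by linarith)
    exact ⟨s, E, F, g1, g2, g3, lt_of_le_of_lt g4 h2, g5, g6, g7⟩
  have key2 : ∀ ζ w : ℂ, R < ζ.re → ‖w‖ < 2 →
      (K (Th c m α ζ w)).1 ≠ 0 ∧ ‖(K (Th c m α ζ w)).1‖ < ρ := by
    intro ζ w hζ hw
    obtain ⟨s, E, F, g1, -, -, g4, -, -, -⟩ := key ζ w hζ hw
    have h1 : (1 : ℂ) + s ≠ 0 := by
      intro h
      have h2 : s = -1 := by linear_combination h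
      rw [h2, norm_neg, norm_one] at g4
      linarith
    refine ⟨by rw [g1]; exact mul_ne_zero (hx0 ζ) h1, ?_⟩
    rw [g1, norm_mul]
    have h3 : ‖(1 : ℂ) + s‖ ≤ 2 := by
      refine (norm_add_le _ _).trans ?_
      rw [norm_one]
      linarith
    have h4 := hx ζ hζ
    have h5 := norm_nonneg (xz (m - 1) α ζ)
    calc ‖xz (m - 1) α ζ‖ * ‖(1 : ℂ) + s‖ ≤ ‖xz (m - 1) α ζ‖ * 2 := by gcongr
      _ < ρ := by linarith
  have hμα : (((m - 1 : ℕ) : ℂ) * (α : ℂ)) ≠ 0 := by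
    refine mul_ne_zero ?_ (by exact_mod_cast hα.ne')
    have : m - 1 ≠ 0 := by omega
    exact_mod_cast this
  -- the bounds
  have hAB : ∀ ζ w : ℂ, R < ζ.re → ‖w‖ < 2 →
      ‖((((m - 1 : ℕ) : ℂ) * (α : ℂ) * (K (Th c m α ζ w)).1 ^ (m - 1))⁻¹ - ζ + 1)‖ ≤ ε ∧
      ‖((K (Th c m α ζ w)).2 - c (K (Th c m α ζ w)).1) / (K (Th c m α ζ w)).1 ^ m - β * w‖ ≤
        ε := by
    intro ζ w hζ hw
    have hζ0 : 0 < ζ.re := by linarith
    obtain ⟨s, E, F, g1, g2, g3, g4, g5, g6, g7⟩ := key ζ w hζ hw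
    have hp := xz_pow hμ hα hζ0
    have hpn := xz_norm hμ hα hζ0
    have hxs := hx ζ hζ
    have hxn := hx0 ζ
    obtain ⟨x, hxdef⟩ : ∃ x : ℂ, x = xz (m - 1) α ζ := ⟨_, rfl⟩
    rw [← hxdef] at g1 g2 g5 g6 hp hpn hxs hxn
    have h1s : (1 : ℂ) + s ≠ 0 := by
      intro h
      have h2 : s = -1 := by linear_combination h
      rw [h2, norm_neg, norm_one] at g4
      linarith
    have hxp : x ^ (m - 1) ≠ 0 := pow_ne_zero _ hxn
    have hαc : (α : ℂ) ≠ 0 := by exact_mod_cast hα.ne'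
    have hαn : ‖(α : ℂ)‖ = α := by
      rw [Complex.norm_real, Real.norm_eq_abs, abs_of_pos hα]
    constructor
    · have e4 : ((((m - 1 : ℕ) : ℂ) * (α : ℂ) * (K (Th c m α ζ w)).1 ^ (m - 1))⁻¹ - ζ + 1) =
          ζ * (((1 + s) ^ (m - 1))⁻¹ - 1 + ((m - 1 : ℕ) : ℂ) * s) - E / α := by
        have h3 : (((m - 1 : ℕ) : ℂ) * (α : ℂ) * (K (Th c m α ζ w)).1 ^ (m - 1))⁻¹ =
            ζ * ((1 + s) ^ (m - 1))⁻¹ := by
          rw [g1, mul_pow]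
          have h5 : (((m - 1 : ℕ) : ℂ) * (α : ℂ) * (x ^ (m - 1) * (1 + s) ^ (m - 1)))⁻¹ =
              (((m - 1 : ℕ) : ℂ) * (α : ℂ) * x ^ (m - 1))⁻¹ * ((1 + s) ^ (m - 1))⁻¹ := by
            rw [← mul_inv]
            congr 1
            ring
          rw [h5]
          congr 1
          refine inv_eq_of_mul_eq_one_right ?_
          linear_combination hp
        have h4 : ζ * (((m - 1 : ℕ) : ℂ) * s) = 1 + E / α := by
          have h5 : ζ * (((m - 1 : ℕ) : ℂ) * s) =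
              (x ^ (m - 1) * (((m - 1 : ℕ) : ℂ) * (α : ℂ) * ζ)) * (1 + E / α) := by
            rw [g2]
            field_simp
          rw [h5, hp, one_mul]
        rw [h3]
        linear_combination (-1) * h4
      rw [e4]
      refine (norm_sub_le _ _).trans ?_
      rw [norm_mul, norm_div, hαn]
      have h6 : ‖E‖ / α ≤ ε / 2 := by
        rw [div_le_iff₀ hα]
        linarith
      have h7 := hinv s (g4.trans_le hts0)
      have h8 : ‖ζ‖ * ‖((1 + s) ^ (m - 1))⁻¹ - 1 + ((m - 1 : ℕ) : ℂ) * s‖ ≤ ε / 2 := by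
        have hn0 : 0 < ‖x‖ := norm_pos_iff.2 hxn
        have hn : ‖x‖ ^ (m - 1) ≤ ‖x‖ := by
          have := pow_le_pow_of_le_one hn0.le (by linarith : ‖x‖ ≤ 1) hμ
          rwa [pow_one] at this
        have hZ0 := norm_nonneg ζ
        have hμR : (1 : ℝ) ≤ ((m - 1 : ℕ) : ℝ) := by exact_mod_cast hμ
        have hZn : ‖ζ‖ * ‖x‖ ^ (m - 1) * α ≤ 1 := by
          have h9 : ‖ζ‖ * ‖x‖ ^ (m - 1) * α * 1 ≤ ‖ζ‖ * ‖x‖ ^ (m - 1) * α * ((m - 1 : ℕ) : ℝ) := by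
            gcongr
          have h10 : ‖ζ‖ * ‖x‖ ^ (m - 1) * α * ((m - 1 : ℕ) : ℝ) = 1 := by
            rw [← hpn]
            ring
          linarith
        have hs2 : ‖s‖ ^ 2 ≤ (‖x‖ ^ (m - 1) * (α + 1)) ^ 2 :=
          pow_le_pow_left₀ (norm_nonneg _) g5 2
        have h11 : ‖ζ‖ * (C * ‖s‖ ^ 2) * α ≤ C * ‖x‖ * (α + 1) ^ 2 := by
          calc ‖ζ‖ * (C * ‖s‖ ^ 2) * α ≤ ‖ζ‖ * (C * (‖x‖ ^ (m - 1) * (α + 1)) ^ 2) * α := by
                gcongr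
            _ = (‖ζ‖ * ‖x‖ ^ (m - 1) * α) * (C * ‖x‖ ^ (m - 1) * (α + 1) ^ 2) := by ring
            _ ≤ 1 * (C * ‖x‖ * (α + 1) ^ 2) := by gcongr
            _ = C * ‖x‖ * (α + 1) ^ 2 := one_mul _
        have h12 : ‖x‖ ≤ ε * α / (2 * C * (α + 1) ^ 2) := hxs.le.trans d7
        rw [le_div_iff₀ (by positivity)] at h12
        have h13 : ‖ζ‖ * (C * ‖s‖ ^ 2) * α ≤ ε / 2 * α := by linarith
        exact (mul_le_mul_of_nonneg_left h7 hZ0).trans (le_of_mul_le_mul_right h13 hα)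
      linarith
    · have e5 : ((K (Th c m α ζ w)).2 - c (K (Th c m α ζ w)).1) / (K (Th c m α ζ w)).1 ^ m -
          β * w = (((1 + s) ^ m)⁻¹ - 1) * (β * w) + ((1 + s) ^ m)⁻¹ * F := by
        rw [g6, g1, mul_pow]
        have h5 : (1 + s) ^ m ≠ 0 := pow_ne_zero _ h1s
        have h6 : x ^ m ≠ 0 := pow_ne_zero _ hxn
        field_simp
        ring
      rw [e5]
      have h7 := hone s (g4.trans_le hts1)
      have h8 : ‖((1 + s) ^ m)⁻¹‖ ≤ 1 + ε / 8 := by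
        have h9 : ((1 + s) ^ m)⁻¹ = 1 + (((1 + s) ^ m)⁻¹ - 1) := by ring
        rw [h9]
        refine (norm_add_le _ _).trans ?_
        rw [norm_one]
        linarith
      have h10 : ‖(β : ℂ) * w‖ ≤ 2 := by
        rw [norm_mul, Complex.norm_real, Real.norm_eq_abs, abs_of_pos hβ]
        have := norm_nonneg w
        nlinarith
      refine (norm_add_le _ _).trans ?_
      have h11 : ‖(((1 + s) ^ m)⁻¹ - 1) * (β * w)‖ ≤ ε / 8 * 2 := by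
        rw [norm_mul (((1 + s) ^ m)⁻¹ - 1)]
        gcongr
      have h12 : ‖((1 + s) ^ m)⁻¹ * F‖ ≤ (1 + ε / 8) * (ε / 4) := by
        have h13 : ‖F‖ ≤ ε / 4 := g7.trans he3
        rw [norm_mul]
        gcongr
      nlinarith
  -- differentiability
  have hmaps : ∀ p : ℂ × ℂ, p ∈ {p : ℂ × ℂ | R < p.1.re ∧ ‖p.2‖ < 2} →
      xz (m - 1) α p.1 ∈ Metric.ball (0 : ℂ) ρ := by
    intro p hp
    rw [mem_ball_zero_iff]
    have := hx p.1 hp.1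
    linarith
  have hxzd : DifferentiableOn ℂ (fun p : ℂ × ℂ => xz (m - 1) α p.1)
      {p : ℂ × ℂ | R < p.1.re ∧ ‖p.2‖ < 2} :=
    (xz_diff hμ hα).comp differentiable_fst.differentiableOn (fun p hp => by
      have h1 : R < p.1.re := hp.1
      have h2 : 0 < p.1.re := by linarith
      exact h2)
  have hcx : DifferentiableOn ℂ (fun p : ℂ × ℂ => c (xz (m - 1) α p.1))
      {p : ℂ × ℂ | R < p.1.re ∧ ‖p.2‖ < 2} := X.nc.diff.comp hxzd hmaps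
  have hTh : DifferentiableOn ℂ (fun p : ℂ × ℂ => Th c m α p.1 p.2)
      {p : ℂ × ℂ | R < p.1.re ∧ ‖p.2‖ < 2} :=
    hxzd.prodMk (hcx.add ((hxzd.pow m).mul differentiable_snd.differentiableOn))
  have hKd : DifferentiableOn ℂ (fun p : ℂ × ℂ => K (Th c m α p.1 p.2))
      {p : ℂ × ℂ | R < p.1.re ∧ ‖p.2‖ < 2} :=
    (H.cd.differentiable (by norm_num)).comp_differentiableOn hTh
  have hK1 : DifferentiableOn ℂ (fun p : ℂ × ℂ => (K (Th c m α p.1 p.2)).1)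
      {p : ℂ × ℂ | R < p.1.re ∧ ‖p.2‖ < 2} := hKd.fst
  have hK2 : DifferentiableOn ℂ (fun p : ℂ × ℂ => (K (Th c m α p.1 p.2)).2)
      {p : ℂ × ℂ | R < p.1.re ∧ ‖p.2‖ < 2} := hKd.snd
  have hcK : DifferentiableOn ℂ (fun p : ℂ × ℂ => c (K (Th c m α p.1 p.2)).1)
      {p : ℂ × ℂ | R < p.1.re ∧ ‖p.2‖ < 2} :=
    X.nc.diff.comp hK1 (fun p hp => by
      rw [mem_ball_zero_iff]
      exact (key2 p.1 p.2 hp.1 hp.2).2)
  refine ⟨R, fun ζ w => (((m - 1 : ℕ) : ℂ) * (α : ℂ) * (K (Th c m α ζ w)).1 ^ (m - 1))⁻¹ - ζ + 1,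
    fun ζ w => ((K (Th c m α ζ w)).2 - c (K (Th c m α ζ w)).1) / (K (Th c m α ζ w)).1 ^ m -
      β * w, hR2, fun ζ hζ => by have := hx ζ hζ; linarith, hAB, ?_, ?_, ?_⟩
  · refine ((DifferentiableOn.inv ?_ ?_).sub differentiable_fst.differentiableOn).add
      (differentiableOn_const _)
    · exact (differentiableOn_const _).mul (hK1.pow _)
    · intro p hp
      exact mul_ne_zero hμα (pow_ne_zero _ (key2 p.1 p.2 hp.1 hp.2).1)
  · simp only [div_eq_mul_inv]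
    refine ((hK2.sub hcK).mul ((hK1.pow m).inv ?_)).sub
      ((differentiableOn_const _).mul differentiable_snd.differentiableOn)
    intro p hp
    exact pow_ne_zero _ (key2 p.1 p.2 hp.1 hp.2).1
  · intro ζ w hζ hw
    have hζ0 : 0 < ζ.re := by linarith
    obtain ⟨s, E, F, g1, -, -, g4, -, -, -⟩ := key ζ w hζ hw
    have hne := (key2 ζ w hζ hw).1
    have hA := (hAB ζ w hζ hw).1
    dsimp only
    obtain ⟨x', hx'⟩ : ∃ x' : ℂ, x' = (K (Th c m α ζ w)).1 := ⟨_, rfl⟩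
    rw [← hx'] at g1 hne hA ⊢
    have hζ' : ζ - 1 + ((((m - 1 : ℕ) : ℂ) * (α : ℂ) * x' ^ (m - 1))⁻¹ - ζ + 1) =
        (((m - 1 : ℕ) : ℂ) * (α : ℂ) * x' ^ (m - 1))⁻¹ := by ring
    have hre : 0 < ((((m - 1 : ℕ) : ℂ) * (α : ℂ) * x' ^ (m - 1))⁻¹).re := by
      rw [← hζ', Complex.add_re, Complex.sub_re, Complex.one_re]
      have h1 := (Complex.abs_re_le_norm _).trans hA
      have h2 := (abs_le.1 h1).1
      linarith
    have hx2 : xz (m - 1) α ((((m - 1 : ℕ) : ℂ) * (α : ℂ) * x' ^ (m - 1))⁻¹) = x' := by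
      rw [hbr ζ s _ hζ0 (g4.le.trans htε0) hre ?_, ← g1]
      rw [← g1]
      have h3 : x' ^ (m - 1) ≠ 0 := pow_ne_zero _ hne
      have h4 : x' ^ (m - 1) * (((m - 1 : ℕ) : ℂ) * (α : ℂ) *
          (((m - 1 : ℕ) : ℂ) * (α : ℂ) * x' ^ (m - 1))⁻¹) =
          (((m - 1 : ℕ) : ℂ) * (α : ℂ) * x' ^ (m - 1)) *
            (((m - 1 : ℕ) : ℂ) * (α : ℂ) * x' ^ (m - 1))⁻¹ := by ring
      rw [h4]
      exact mul_inv_cancel₀ (mul_ne_zero hμα h3)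
    rw [hζ']
    unfold Th
    rw [hx2]
    have h5 : x' ^ m ≠ 0 := pow_ne_zero _ hne
    refine Prod.ext hx'.symm ?_
    show (K (Th c m α ζ w)).2 = c x' + x' ^ m * (β * w +
      (((K (Th c m α ζ w)).2 - c x') / x' ^ m - β * w))
    field_simp
    ring

end Pool.Agent.HF
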