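import Pool.Agent.HF.ZDefs

set_option autoImplicit false

/-!
HF-ZAtt. The invariant graph attracts; backward orbits are on the graph.

The distance to the graph is contracted by the factor `β + 2 ε` at every step.
-/

namespace Pool.Agent.HF

open Set Topology Filter

theorem gt_att {β R ε : ℝ} {A B : ℂ → ℂ → ℂ} (G : GT β R ε A B) {hh : ℂ → ℂ} (I : IG β R A B hh)
    {ζ w : ℂ} (h1 : R < ζ.re) (h2 : ‖w‖ ≤ 1) (h3 : R + 1 < (ζ - 1 + A ζ w).re) :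
    ‖β * w + B ζ w - hh (ζ - 1 + A ζ w)‖ ≤ (β + 2 * ε) * ‖w - hh ζ‖ := by
  have hR : R < (ζ - 1 + A ζ w).re := by linarith
  have hb := I.bd ζ h1
  have hA : ‖A ζ w - A ζ (hh ζ)‖ ≤ ε * ‖w - hh ζ‖ := by
    have h := G.lA ζ w ζ (hh ζ) h1 h1 h2 hb
    rwa [sub_self, norm_zero, zero_add] at h
  have hB : ‖B ζ w - B ζ (hh ζ)‖ ≤ ε * ‖w - hh ζ‖ := by
    have h := G.lB ζ w ζ (hh ζ) h1 h1 h2 hb
    rwa [sub_self, norm_zero, zero_add] at h
  have h2' : ‖w - hh ζ‖ ≤ 2 := by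
    refine (norm_sub_le _ _).trans ?_
    linarith
  have hd : ‖(ζ - 1 + A ζ (hh ζ)) - (ζ - 1 + A ζ w)‖ ≤ ε * ‖w - hh ζ‖ := by
    have e : (ζ - 1 + A ζ (hh ζ)) - (ζ - 1 + A ζ w) = -(A ζ w - A ζ (hh ζ)) := by ring
    rw [e, norm_neg]
    exact hA
  have hR2 : R < (ζ - 1 + A ζ (hh ζ)).re := by
    have h3' := (Complex.abs_re_le_norm ((ζ - 1 + A ζ (hh ζ)) - (ζ - 1 + A ζ w))).trans hd
    rw [Complex.sub_re] at h3'
    have h4 := neg_le_of_abs_le h3'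
    have h5 : ε * ‖w - hh ζ‖ ≤ 1 / 8 := by
      have := G.e1
      have := G.e0
      nlinarith [norm_nonneg (w - hh ζ)]
    linarith
  have hi := I.inv ζ h1 hR2
  have hl := (I.lip _ _ hR2 hR).trans hd
  have e : β * w + B ζ w - hh (ζ - 1 + A ζ w) = β * (w - hh ζ) + (B ζ w - B ζ (hh ζ)) +
      (hh (ζ - 1 + A ζ (hh ζ)) - hh (ζ - 1 + A ζ w)) := by
    rw [hi]
    ring
  rw [e]
  refine (norm_add₃_le).trans ?_
  rw [norm_mul, Complex.norm_real, Real.norm_of_nonneg G.b0.le]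
  linarith

theorem on_graph {β R ε : ℝ} {A B : ℂ → ℂ → ℂ} (G : GT β R ε A B) {hh : ℂ → ℂ}
    (I : IG β R A B hh) {ζ w : ℕ → ℂ} (h1 : ∀ k, R + 1 < (ζ k).re) (h2 : ∀ k, ‖w k‖ ≤ 1)
    (h3 : ∀ k, ζ k = ζ (k + 1) - 1 + A (ζ (k + 1)) (w (k + 1)))
    (h4 : ∀ k, w k = β * w (k + 1) + B (ζ (k + 1)) (w (k + 1))) (k : ℕ) : w k = hh (ζ k) := by
  have hq0 : 0 ≤ β + 2 * ε := by
    have := G.b0
    have := G.e0
    linarith
  have hq1 : β + 2 * ε < 1 := by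
    have := G.e2
    have := G.e0
    linarith
  have hstep : ∀ n, ‖w n - hh (ζ n)‖ ≤ (β + 2 * ε) * ‖w (n + 1) - hh (ζ (n + 1))‖ := by
    intro n
    have h5 : R < (ζ (n + 1)).re := by
      have := h1 (n + 1)
      linarith
    have h := gt_att G I h5 (h2 (n + 1)) (by rw [← h3 n]; exact h1 n)
    rwa [← h3 n, ← h4 n] at h
  have hind : ∀ j, ‖w k - hh (ζ k)‖ ≤ (β + 2 * ε) ^ j * ‖w (k + j) - hh (ζ (k + j))‖ := by
    intro j
    induction j with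
    | zero => simp
    | succ j ih =>
      refine ih.trans ?_
      rw [pow_succ, mul_assoc]
      exact mul_le_mul_of_nonneg_left (hstep (k + j)) (pow_nonneg hq0 j)
  have hle : ∀ j, ‖w k - hh (ζ k)‖ ≤ (β + 2 * ε) ^ j * 2 := by
    intro j
    refine (hind j).trans (mul_le_mul_of_nonneg_left ?_ (pow_nonneg hq0 j))
    refine (norm_sub_le _ _).trans ?_
    have h5 := h2 (k + j)
    have h6 := I.bd (ζ (k + j)) (by have := h1 (k + j); linarith)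
    linarith
  have hlim : Tendsto (fun j : ℕ => (β + 2 * ε) ^ j * 2) atTop (𝓝 (0 * 2)) :=
    (tendsto_pow_atTop_nhds_zero_of_lt_one hq0 hq1).mul_const 2
  rw [zero_mul] at hlim
  have h0 := ge_of_tendsto' hlim hle
  exact sub_eq_zero.1 (norm_le_zero_iff.1 h0)

end Pool.Agent.HF
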