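import Mathlib

set_option autoImplicit false

/-!
HF-ZCau. Cauchy estimates: a bounded holomorphic function of two variables is Lipschitz on a smaller domain. Only Mathlib.
-/

namespace Pool.Agent.HF

open Set Topology Filter

private theorem cauchy1 {f : ℂ → ℂ} {U s : Set ℂ} {ε : ℝ}
    (hU : IsOpen U) (hf : DifferentiableOn ℂ f U) (hb : ∀ z ∈ U, ‖f z‖ ≤ ε)
    (hs : Convex ℝ s) (hsU : ∀ z ∈ s, Metric.closedBall z (1 / 2) ⊆ U) {x y : ℂ}
    (hx : x ∈ s) (hy : y ∈ s) : ‖f y - f x‖ ≤ 2 * ε * ‖y - x‖ := by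
  have hmem : ∀ z ∈ s, z ∈ U := fun z hz =>
    hsU z hz (Metric.mem_closedBall_self (by norm_num))
  refine Convex.norm_image_sub_le_of_norm_deriv_le (𝕜 := ℂ)
    (fun z hz => (hf z (hmem z hz)).differentiableAt (hU.mem_nhds (hmem z hz))) ?_ hs hx hy
  intro z hz
  have h1 : DiffContOnCl ℂ f (Metric.ball z (1 / 2)) := by
    apply DifferentiableOn.diffContOnCl
    rw [closure_ball z (by norm_num)]
    exact hf.mono (hsU z hz)
  have h2 := Complex.norm_deriv_le_of_forall_mem_sphere_norm_le (c := z) (R := 1 / 2) (C := ε)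
    (f := f) (by norm_num) h1 (fun u hu => hb u (hsU z hz (Metric.sphere_subset_closedBall hu)))
  calc ‖deriv f z‖ ≤ ε / (1 / 2) := h2
    _ = 2 * ε := by ring

theorem cauchy2 {A : ℂ → ℂ → ℂ} {R ε : ℝ} (hA : ∀ ζ w : ℂ, R < ζ.re → ‖w‖ < 2 → ‖A ζ w‖ ≤ ε)
    (hd : DifferentiableOn ℂ (fun p : ℂ × ℂ => A p.1 p.2) {p | R < p.1.re ∧ ‖p.2‖ < 2}) :
    ∀ ζ w ζ' w' : ℂ, R + 1 < ζ.re → R + 1 < ζ'.re → ‖w‖ ≤ 1 → ‖w'‖ ≤ 1 →
      ‖A ζ w - A ζ' w'‖ ≤ 2 * ε * (‖ζ - ζ'‖ + ‖w - w'‖) := by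
  intro ζ w ζ' w' hζ hζ' hw hw'
  -- the first variable
  have h1 : ‖A ζ w - A ζ' w‖ ≤ 2 * ε * ‖ζ - ζ'‖ := by
    refine cauchy1 (f := fun z => A z w) (U := {z : ℂ | R < z.re}) (s := {z : ℂ | R + 1 < z.re})
      (isOpen_lt continuous_const Complex.continuous_re) ?_ ?_ (convex_halfSpace_re_gt _) ?_
      hζ' hζ
    · have h2 : DifferentiableOn ℂ (fun z : ℂ => ((z, w) : ℂ × ℂ)) {z : ℂ | R < z.re} :=
        (differentiable_id.prodMk (differentiable_const w)).differentiableOn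
      exact hd.comp h2 (fun z hz => ⟨hz, lt_of_le_of_lt hw (by norm_num)⟩)
    · intro z hz
      exact hA z w hz (lt_of_le_of_lt hw (by norm_num))
    · intro z hz u hu
      have h3 : ‖u - z‖ ≤ 1 / 2 := by rw [← dist_eq_norm]; exact hu
      have h4 : |(u - z).re| ≤ ‖u - z‖ := Complex.abs_re_le_norm _
      rw [Complex.sub_re] at h4
      have h5 := (abs_le.mp (h4.trans h3)).1
      have h6 : R + 1 < z.re := hz
      change R < u.re
      linarith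
  -- the second variable
  have h2 : ‖A ζ' w - A ζ' w'‖ ≤ 2 * ε * ‖w - w'‖ := by
    refine cauchy1 (f := fun z => A ζ' z) (U := {z : ℂ | ‖z‖ < 2}) (s := Metric.closedBall 0 1)
      (isOpen_lt continuous_norm continuous_const) ?_ ?_ (convex_closedBall _ _) ?_
      (by rwa [mem_closedBall_zero_iff]) (by rwa [mem_closedBall_zero_iff])
    · have h3 : DifferentiableOn ℂ (fun z : ℂ => ((ζ', z) : ℂ × ℂ)) {z : ℂ | ‖z‖ < 2} :=
        ((differentiable_const ζ').prodMk differentiable_id).differentiableOn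
      exact hd.comp h3 (fun z hz => ⟨by change R < ζ'.re; linarith, hz⟩)
    · intro z hz
      exact hA ζ' z (by linarith) hz
    · intro z hz u hu
      have h3 : ‖u - z‖ ≤ 1 / 2 := by rw [← dist_eq_norm]; exact hu
      have h4 : ‖z‖ ≤ 1 := by rwa [mem_closedBall_zero_iff] at hz
      have h5 : ‖u‖ ≤ ‖u - z‖ + ‖z‖ := by
        have := norm_add_le (u - z) z
        rwa [sub_add_cancel] at this
      change ‖u‖ < 2
      linarith
  have h3 : ‖A ζ w - A ζ' w'‖ ≤ ‖A ζ w - A ζ' w‖ + ‖A ζ' w - A ζ' w'‖ := by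
    have := norm_add_le (A ζ w - A ζ' w) (A ζ' w - A ζ' w')
    rwa [sub_add_sub_cancel] at this
  calc ‖A ζ w - A ζ' w'‖ ≤ ‖A ζ w - A ζ' w‖ + ‖A ζ' w - A ζ' w'‖ := h3
    _ ≤ 2 * ε * ‖ζ - ζ'‖ + 2 * ε * ‖w - w'‖ := add_le_add h1 h2
    _ = 2 * ε * (‖ζ - ζ'‖ + ‖w - w'‖) := by ring

end Pool.Agent.HF
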