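import Pool.Agent.HF.ZMax

set_option autoImplicit false

/-!
HF-ZDens. The union of the sets `lam ^ n Ω` is dense. Mathlib + ZMax.
-/

namespace Pool.Agent.HF

open Set Topology Filter

/-- the estimate for one set -/
private lemma zd_step {W : Set ℂ} (hW : IsOpen W) {f : ℂ → ℂ} (hf : DifferentiableOn ℂ f W)
    (hi : InjOn f W) {a b t1 : ℂ} (ha : a ∈ W) (hb : b ∈ W) (hfa : deriv f a ≠ 0) {δ q : ℝ}
    (hδ : 0 < δ) (hq : 0 < q) (hW1 : ∀ s ∈ W, δ ≤ ‖s - t1‖)
    (hbd : ∀ t ∈ frontier W, ∀ᶠ s in 𝓝[W] t, q ≤ ‖f s - f a‖)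
    (hN : ‖f b - f a - 1‖ ≤ 1 / 4) :
    ‖b - a‖ / ‖b - t1‖ ^ 2 ≤ 5 / 4 * (1 / δ + ‖t1 - a‖ / δ ^ 2) / q := by
  set N : ℂ := f b - f a with hNd
  have hN1 : ‖N‖ ≤ 5 / 4 := by
    have h1 : ‖N‖ ≤ ‖N - 1‖ + ‖(1 : ℂ)‖ := by
      have := norm_add_le (N - 1) 1
      rwa [sub_add_cancel] at this
    rw [norm_one] at h1
    linarith
  have hN0 : N ≠ 0 := by
    intro h
    rw [h, zero_sub, norm_neg, norm_one] at hN
    norm_num at hN
  set K : ℝ := ‖t1 - a‖ with hK
  have hK0 : 0 ≤ K := norm_nonneg _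
  set Q : ℝ := 1 / δ + K / δ ^ 2 with hQ
  have hQ0 : 0 < Q := by positivity
  have hQs : ∀ s ∈ W, ‖s - a‖ / ‖s - t1‖ ^ 2 ≤ Q := by
    intro s hs
    have h1 := hW1 s hs
    have h0 : 0 < ‖s - t1‖ := lt_of_lt_of_le hδ h1
    have h2 : ‖s - a‖ ≤ ‖s - t1‖ + K := by
      have := norm_add_le (s - t1) (t1 - a)
      rwa [sub_add_sub_cancel] at this
    calc ‖s - a‖ / ‖s - t1‖ ^ 2 ≤ (‖s - t1‖ + K) / ‖s - t1‖ ^ 2 :=
          div_le_div_of_nonneg_right h2 (by positivity)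
      _ = 1 / ‖s - t1‖ + K / ‖s - t1‖ ^ 2 := by
          rw [add_div, sq, div_mul_cancel_left₀ h0.ne', one_div]
      _ ≤ Q := by
          refine add_le_add (one_div_le_one_div_of_le hδ h1) ?_
          exact div_le_div_of_nonneg_left hK0 (by positivity) (pow_le_pow_left₀ hδ.le h1 2)
  set u : ℂ → ℂ := fun t => N / dslope f a t / (t - t1) ^ 2 with hu
  have ht1 : ∀ s ∈ W, s - t1 ≠ 0 := by
    intro s hs h
    have h1 := hW1 s hs
    rw [h, norm_zero] at h1
    linarith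
  have hds : DifferentiableOn ℂ (dslope f a) W :=
    (Complex.differentiableOn_dslope (hW.mem_nhds ha)).2 hf
  have hds0 : ∀ s ∈ W, dslope f a s ≠ 0 := by
    intro s hs
    by_cases h : s = a
    · rw [h, dslope_same]
      exact hfa
    · rw [dslope_of_ne _ h, slope_def_field]
      exact div_ne_zero (sub_ne_zero.2 fun h' => h (hi hs ha h')) (sub_ne_zero.2 h)
  have hud : DifferentiableOn ℂ u W := by
    refine ((differentiableOn_const N).div hds hds0).div ?_ ?_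
    · exact ((differentiableOn_id).sub (differentiableOn_const t1)).pow 2
    · intro s hs
      exact pow_ne_zero 2 (ht1 s hs)
  have hule : ∀ s ∈ W, s ≠ a → ∀ m : ℝ, 0 < m → m ≤ ‖f s - f a‖ →
      ‖u s‖ ≤ 5 / 4 * (‖s - a‖ / ‖s - t1‖ ^ 2) / m := by
    intro s hs hsa m hm hms
    have h0 : 0 < ‖s - t1‖ := norm_pos_iff.2 (ht1 s hs)
    have h1 : 0 < ‖s - a‖ := norm_pos_iff.2 (sub_ne_zero.2 hsa)
    have h2 : 0 < ‖f s - f a‖ := lt_of_lt_of_le hm hms
    have h3 : ‖u s‖ = ‖N‖ * (‖s - a‖ / ‖s - t1‖ ^ 2) / ‖f s - f a‖ := by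
      rw [hu]
      simp only [norm_div, norm_pow]
      rw [dslope_of_ne _ hsa, slope_def_field, norm_div]
      field_simp
    rw [h3]
    exact div_le_div₀ (by positivity) (mul_le_mul_of_nonneg_right hN1 (by positivity)) hm hms
  -- the conclusion from the maximum principle
  have hkey : ‖u b‖ ≤ 5 / 4 * Q / q := by
    refine max_lim hW hud ?_ ?_ b hb
    · intro t ht
      have h1 := hbd t ht
      have h2 : ∀ᶠ s in 𝓝[W] t, s ∈ W := self_mem_nhdsWithin
      filter_upwards [h1, h2] with s hs hsW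
      have hsa : s ≠ a := by
        intro h
        rw [h, sub_self, norm_zero] at hs
        linarith
      refine (hule s hsW hsa q hq hs).trans ?_
      exact div_le_div_of_nonneg_right (mul_le_mul_of_nonneg_left (hQs s hsW) (by norm_num)) hq.le
    · -- a neighbourhood of `a`
      have hst : HasStrictDerivAt f (deriv f a) a :=
        (hf.analyticAt (hW.mem_nhds ha)).hasStrictDerivAt
      obtain ⟨r, hr, hrW⟩ := Metric.isOpen_iff.1 hW a ha
      have h1 : f '' Metric.ball a r ∈ 𝓝 (f a) := by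
        rw [← hst.map_nhds_eq hfa]
        exact image_mem_map (Metric.ball_mem_nhds a hr)
      obtain ⟨d, hd, hdf⟩ := Metric.mem_nhds_iff.1 h1
      have h2 : ∀ s ∈ W, s ∉ Metric.ball a r → d ≤ ‖f s - f a‖ := by
        intro s hs hsr
        by_contra hcon
        push Not at hcon
        obtain ⟨s', hs', he⟩ := hdf (show f s ∈ Metric.ball (f a) d by
          rw [Metric.mem_ball, dist_eq_norm]
          exact hcon)
        have h3 : s' = s := hi (hrW hs') hs he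
        rw [h3] at hs'
        exact hsr hs'
      set L : ℝ := ‖t1‖ + K + 5 / 2 / (d * (5 / 4 * Q / q)) + ‖a‖ + r + 1 with hL
      have hc : 0 < 5 / 4 * Q / q := by positivity
      have hp : 0 < 5 / 2 / (d * (5 / 4 * Q / q)) := by positivity
      refine ⟨L, fun s hs hsL => ?_⟩
      have hsb : s ∉ Metric.ball a r := by
        intro h
        rw [Metric.mem_ball, dist_eq_norm] at h
        have h3 : ‖s‖ ≤ ‖s - a‖ + ‖a‖ := by
          have := norm_add_le (s - a) a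
          rwa [sub_add_cancel] at this
        have h4 := norm_nonneg t1
        linarith
      have hsa : s ≠ a := by
        intro h
        exact hsb (by rw [h]; exact Metric.mem_ball_self hr)
      refine (hule s hs hsa d hd (h2 s hs hsb)).trans ?_
      have h3 : ‖s‖ ≤ ‖s - t1‖ + ‖t1‖ := by
        have := norm_add_le (s - t1) t1
        rwa [sub_add_cancel] at this
      have h4 : K ≤ ‖s - t1‖ := by
        have := norm_nonneg a
        linarith
      have h5 : 5 / 2 / (d * (5 / 4 * Q / q)) ≤ ‖s - t1‖ := by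
        have := norm_nonneg a
        linarith
      have h0 : 0 < ‖s - t1‖ := lt_of_lt_of_le hp h5
      have h6 : ‖s - a‖ ≤ ‖s - t1‖ + K := by
        have := norm_add_le (s - t1) (t1 - a)
        rwa [sub_add_sub_cancel] at this
      have h7 : ‖s - a‖ / ‖s - t1‖ ^ 2 ≤ 2 / ‖s - t1‖ := by
        rw [div_le_div_iff₀ (by positivity) h0]
        have h8 : ‖s - a‖ ≤ 2 * ‖s - t1‖ := by linarith
        calc ‖s - a‖ * ‖s - t1‖ ≤ 2 * ‖s - t1‖ * ‖s - t1‖ :=
              mul_le_mul_of_nonneg_right h8 h0.le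
          _ = 2 * ‖s - t1‖ ^ 2 := by ring
      calc 5 / 4 * (‖s - a‖ / ‖s - t1‖ ^ 2) / d ≤ 5 / 4 * (2 / ‖s - t1‖) / d :=
            div_le_div_of_nonneg_right (mul_le_mul_of_nonneg_left h7 (by norm_num)) hd.le
        _ = 5 / 2 / (d * ‖s - t1‖) := by
            field_simp
            norm_num
        _ ≤ 5 / 4 * Q / q := by
            rw [div_le_iff₀ (by positivity)] at h5 ⊢
            calc (5 : ℝ) / 2 ≤ ‖s - t1‖ * (d * (5 / 4 * Q / q)) := h5
              _ = 5 / 4 * Q / q * (d * ‖s - t1‖) := by ring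
  have hba : b ≠ a := by
    intro h
    apply hN0
    rw [hNd, h, sub_self]
  have hub : u b = (b - a) / (b - t1) ^ 2 := by
    rw [hu]
    simp only
    rw [dslope_of_ne _ hba, slope_def_field, ← hNd]
    have h1 : N / (N / (b - a)) = b - a := by
      rw [div_div_eq_mul_div, mul_div_assoc, mul_comm, div_mul_cancel₀ _ hN0]
    rw [h1]
  rw [hub, norm_div, norm_pow] at hkey
  exact hkey

private lemma zd_mem {lam : ℝ} {Ω : Set ℂ} (hinv : ∀ t ∈ Ω, t / lam ∈ Ω) {t : ℂ} (ht : t ∈ Ω)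
    (n : ℕ) : t / (lam : ℂ) ^ n ∈ Ω := by
  induction n with
  | zero => simpa using ht
  | succ n ih =>
    have h := hinv _ ih
    rwa [div_div, ← pow_succ] at h

private lemma zd_re {lam : ℝ} {Ω : Set ℂ} {Z : ℂ → ℂ} (hinv : ∀ t ∈ Ω, t / lam ∈ Ω)
    (hZ1 : ∀ t ∈ Ω, ‖Z (t / lam) - Z t - 1‖ ≤ 1 / 4) {t : ℂ} (ht : t ∈ Ω) (n : ℕ) :
    (Z t).re + 3 * n / 4 ≤ (Z (t / (lam : ℂ) ^ n)).re := by
  induction n with
  | zero => simp
  | succ n ih =>
    have h1 := hZ1 _ (zd_mem hinv ht n)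
    rw [div_div, ← pow_succ] at h1
    have h2 := (abs_le.1 ((Complex.abs_re_le_norm _).trans h1)).1
    rw [Complex.sub_re, Complex.sub_re, Complex.one_re] at h2
    push_cast
    linarith

theorem dens {lam R : ℝ} (l0 : 0 < lam) (l1 : lam < 1) {Ω : Set ℂ} (hΩ : IsOpen Ω) {Z : ℂ → ℂ}
    (hZ : DifferentiableOn ℂ Z Ω) (hi : InjOn Z Ω) (hZ' : ∀ t ∈ Ω, deriv Z t ≠ 0)
    (hR : ∀ t ∈ Ω, R < (Z t).re) (hinv : ∀ t ∈ Ω, t / lam ∈ Ω)
    (hZ1 : ∀ t ∈ Ω, ‖Z (t / lam) - Z t - 1‖ ≤ 1 / 4) (hne : Ω.Nonempty)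
    (hbd : ∀ t ∈ frontier Ω, ∀ B : ℝ, ∀ᶠ s in 𝓝[Ω] t, (Z s).re ≤ R + 1 ∨ B ≤ ‖Z s‖) :
    Dense {t : ℂ | ∃ n : ℕ, t / (lam : ℂ) ^ n ∈ Ω} := by
  have hl : (lam : ℂ) ≠ 0 := by exact_mod_cast l0.ne'
  have h0 : (0 : ℂ) ∉ Ω := by
    intro h
    have h1 := hZ1 0 h
    rw [zero_div, sub_self, zero_sub, norm_neg, norm_one] at h1
    norm_num at h1
  obtain ⟨ts, hts⟩ := hne
  have hts0 : ts ≠ 0 := fun h => h0 (h ▸ hts)
  by_contra hcon
  unfold Dense at hcon
  push Not at hcon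
  obtain ⟨t1, ht1⟩ := hcon
  rw [Metric.mem_closure_iff] at ht1
  push Not at ht1
  obtain ⟨δ, hδ, hδD⟩ := ht1
  have hD : ∀ (n : ℕ) (s : ℂ), s / (lam : ℂ) ^ n ∈ Ω → δ ≤ ‖s - t1‖ := by
    intro n s hs
    have h1 := hδD s ⟨n, hs⟩
    rwa [dist_comm, dist_eq_norm] at h1
  -- the estimate for every `n`
  have hstep : ∀ n : ℕ, 2 ≤ n → ‖ts / lam - ts‖ / ‖ts / lam - t1‖ ^ 2 ≤
      5 / 4 * (1 / δ + ‖t1 - ts‖ / δ ^ 2) / (3 * n / 4 - 1) := by
    intro n hn
    have hn' : (2 : ℝ) ≤ n := by exact_mod_cast hn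
    have hln : (lam : ℂ) ^ n ≠ 0 := pow_ne_zero n hl
    set g : ℂ → ℂ := fun t => t / (lam : ℂ) ^ n with hg
    have hgc : Continuous g := continuous_id.div_const _
    have hgd : Differentiable ℂ g := differentiable_id.div_const _
    have hW : IsOpen (g ⁻¹' Ω) := hΩ.preimage hgc
    have hfr : ∀ t ∈ frontier (g ⁻¹' Ω), g t ∈ frontier Ω := by
      intro t ht
      have h1 := (Homeomorph.mulRight₀ ((lam : ℂ) ^ n)⁻¹ (inv_ne_zero hln)).preimage_frontier Ω
      have h2 : (Homeomorph.mulRight₀ ((lam : ℂ) ^ n)⁻¹ (inv_ne_zero hln) : ℂ → ℂ) = g := by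
        funext t
        simp [hg, div_eq_mul_inv]
      rw [h2] at h1
      rw [← h1] at ht
      exact ht
    have hcomp : ts / lam / (lam : ℂ) ^ n = ts / (lam : ℂ) ^ n / lam := by
      rw [div_div, div_div, mul_comm]
    refine zd_step (W := g ⁻¹' Ω) (f := Z ∘ g) hW ?_ ?_ ?_ ?_ ?_ hδ (by linarith) ?_ ?_ ?_
    · exact hZ.comp hgd.differentiableOn (fun t ht => ht)
    · intro s hs s' hs' he
      have h1 := hi hs hs' he
      exact (div_left_inj' hln).1 h1
    · exact zd_mem hinv hts n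
    · show ts / lam / (lam : ℂ) ^ n ∈ Ω
      exact zd_mem hinv (hinv ts hts) n
    · have hmem : g ts ∈ Ω := zd_mem hinv hts n
      have h1 : HasDerivAt Z (deriv Z (g ts)) (g ts) :=
        (hZ.differentiableAt (hΩ.mem_nhds hmem)).hasDerivAt
      have h2 : HasDerivAt g (1 / (lam : ℂ) ^ n) ts := (hasDerivAt_id ts).div_const _
      have h3 := (h1.comp ts h2).deriv
      rw [h3]
      exact mul_ne_zero (hZ' _ hmem) (one_div_ne_zero hln)
    · intro s hs
      exact hD n s hs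
    · intro t ht
      have h1 := hbd (g t) (hfr t ht) (‖Z (g ts)‖ + (3 * n / 4 - 1))
      have h2 : Tendsto g (𝓝[g ⁻¹' Ω] t) (𝓝[Ω] (g t)) :=
        (hgc.continuousWithinAt).tendsto_nhdsWithin (fun s hs => hs)
      filter_upwards [h2.eventually h1] with s hs
      show 3 * (n : ℝ) / 4 - 1 ≤ ‖Z (g s) - Z (g ts)‖
      rcases hs with hs | hs
      · have h3 := zd_re hinv hZ1 hts n
        have h4 := hR ts hts
        have h5 : |(Z (g s) - Z (g ts)).re| ≤ ‖Z (g s) - Z (g ts)‖ := Complex.abs_re_le_norm _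
        have h6 := neg_le_abs (Z (g s) - Z (g ts)).re
        rw [Complex.sub_re] at h5 h6
        have h7 : (Z (g ts)).re = (Z (ts / (lam : ℂ) ^ n)).re := rfl
        linarith
      · have h3 : ‖Z (g s)‖ - ‖Z (g ts)‖ ≤ ‖Z (g s) - Z (g ts)‖ := norm_sub_norm_le _ _
        linarith
    · show ‖Z (ts / lam / (lam : ℂ) ^ n) - Z (ts / (lam : ℂ) ^ n) - 1‖ ≤ 1 / 4
      rw [hcomp]
      exact hZ1 _ (zd_mem hinv hts n)
  -- the limit
  have hne : ts / lam - ts ≠ 0 := by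
    intro h
    have h1 : ts / lam = ts := sub_eq_zero.1 h
    rw [div_eq_iff hl] at h1
    have h2 : (lam : ℂ) = 1 := by
      have h3 : ts * 1 = ts * lam := by rw [mul_one]; exact h1
      exact (mul_left_cancel₀ hts0 h3).symm
    have h3 : lam = 1 := by exact_mod_cast h2
    linarith
  have hd1 : 0 < ‖ts / lam - t1‖ := by
    have h1 := hD 0 (ts / lam) (by rw [pow_zero, div_one]; exact hinv ts hts)
    linarith
  have ha : 0 < ‖ts / lam - ts‖ / ‖ts / lam - t1‖ ^ 2 := by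
    have := norm_pos_iff.2 hne
    positivity
  set A : ℝ := ‖ts / lam - ts‖ / ‖ts / lam - t1‖ ^ 2 with hA
  set Q : ℝ := 5 / 4 * (1 / δ + ‖t1 - ts‖ / δ ^ 2) with hQ
  have hQ0 : 0 < Q := by positivity
  obtain ⟨m, hm⟩ := exists_nat_gt (Q / A + 1)
  have h1 := hstep (2 * m + 2) (by omega)
  have h2 : (0 : ℝ) < 3 * ((2 * m + 2 : ℕ) : ℝ) / 4 - 1 := by
    push_cast
    have : (0 : ℝ) ≤ m := Nat.cast_nonneg m
    linarith
  rw [le_div_iff₀ h2] at h1
  have h3 : Q < A * m := by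
    have h4 : Q / A < m := by linarith
    rwa [div_lt_iff₀ ha, mul_comm] at h4
  have h5 : A * m ≤ A * (3 * ((2 * m + 2 : ℕ) : ℝ) / 4 - 1) := by
    refine mul_le_mul_of_nonneg_left ?_ ha.le
    push_cast
    have : (0 : ℝ) ≤ m := Nat.cast_nonneg m
    linarith
  linarith

end Pool.Agent.HF
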