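import Pool.Agent.HF.ZGa

set_option autoImplicit false

/-!
HF-ZGb. The holomorphic graph transform: existence of a holomorphic invariant graph for a small
perturbation of `(ζ, w) ↦ (ζ - 1, β w)` (contraction on the bounded 1-Lipschitz holomorphic functions).
-/

namespace Pool.Agent.HF

open Set Topology Filter

/-- admissible functions -/
private def Adm (R : ℝ) (h : ℂ → ℂ) : Prop :=
  (∀ ζ : ℂ, R < ζ.re → ‖h ζ‖ ≤ 1) ∧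
    (∀ ζ ζ' : ℂ, R < ζ.re → R < ζ'.re → ‖h ζ - h ζ'‖ ≤ ‖ζ - ζ'‖) ∧
    DifferentiableOn ℂ h {ζ | R < ζ.re}

/-- `h'` is the image of `h` -/
private def Stp (β R : ℝ) (A B : ℂ → ℂ → ℂ) (h h' : ℂ → ℂ) : Prop :=
  ∃ E : ℂ → ℂ, (∀ ζ : ℂ, R < ζ.re → R < (E ζ).re ∧ E ζ - 1 + A (E ζ) (h (E ζ)) = ζ) ∧
    (∀ ζ ζ' : ℂ, R < ζ.re → R < ζ'.re → ζ - 1 + A ζ (h ζ) = ζ' → ζ = E ζ') ∧
    ∀ ζ : ℂ, h' ζ = β * h (E ζ) + B (E ζ) (h (E ζ))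

private theorem step_adm {β R ε : ℝ} {A B : ℂ → ℂ → ℂ} (G : GT β R ε A B) {h : ℂ → ℂ}
    (H : Adm R h) : ∃ h' : ℂ → ℂ, Adm R h' ∧ Stp β R A B h h' := by
  obtain ⟨hb, hl, hd⟩ := H
  obtain ⟨E, E1, E2, E3, E4⟩ := solve G hb hl
  have hb0 := G.b0
  have he0 := G.e0
  have he1 := G.e1
  have he2 := G.e2
  have hEU : ∀ ζ : ℂ, R < ζ.re → R < (E ζ).re := fun ζ hζ => by
    have := (E1 ζ hζ).1
    linarith
  refine ⟨fun ζ => β * h (E ζ) + B (E ζ) (h (E ζ)), ⟨?_, ?_, ?_⟩, E,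
    fun ζ hζ => ⟨hEU ζ hζ, (E1 ζ hζ).2.2⟩, E3, fun _ => rfl⟩
  · intro ζ hζ
    have h1 := hb _ (hEU ζ hζ)
    have h2 := G.bB _ _ (hEU ζ hζ) h1
    show ‖(β : ℂ) * h (E ζ) + B (E ζ) (h (E ζ))‖ ≤ 1
    have h3 : ‖(β : ℂ) * h (E ζ)‖ ≤ β * 1 := by
      rw [norm_mul, Complex.norm_real, Real.norm_eq_abs, abs_of_pos hb0]
      exact mul_le_mul_of_nonneg_left h1 hb0.le
    have h4 := norm_add_le ((β : ℂ) * h (E ζ)) (B (E ζ) (h (E ζ)))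
    linarith
  · intro ζ ζ' hζ hζ'
    show ‖(β : ℂ) * h (E ζ) + B (E ζ) (h (E ζ)) - ((β : ℂ) * h (E ζ') + B (E ζ') (h (E ζ')))‖ ≤ _
    have h1 := hl _ _ (hEU ζ hζ) (hEU ζ' hζ')
    have h2 := G.lB _ _ _ _ (hEU ζ hζ) (hEU ζ' hζ') (hb _ (hEU ζ hζ)) (hb _ (hEU ζ' hζ'))
    have h3 := E2 ζ ζ' hζ hζ'
    have h4 : (β : ℂ) * h (E ζ) + B (E ζ) (h (E ζ)) - ((β : ℂ) * h (E ζ') + B (E ζ') (h (E ζ'))) =
        (β : ℂ) * (h (E ζ) - h (E ζ')) + (B (E ζ) (h (E ζ)) - B (E ζ') (h (E ζ'))) := by ring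
    rw [h4]
    have h5 : ‖(β : ℂ) * (h (E ζ) - h (E ζ'))‖ ≤ β * ‖E ζ - E ζ'‖ := by
      rw [norm_mul, Complex.norm_real, Real.norm_eq_abs, abs_of_pos hb0]
      exact mul_le_mul_of_nonneg_left h1 hb0.le
    have h6 := norm_add_le ((β : ℂ) * (h (E ζ) - h (E ζ')))
      (B (E ζ) (h (E ζ)) - B (E ζ') (h (E ζ')))
    have h7 : (0 : ℝ) ≤ ‖E ζ - E ζ'‖ := norm_nonneg _
    have h8 : ε * (‖E ζ - E ζ'‖ + ‖h (E ζ) - h (E ζ')‖) ≤ ε * (2 * ‖E ζ - E ζ'‖) :=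
      mul_le_mul_of_nonneg_left (by linarith) he0.le
    have h9 : (β + 2 * ε) * ‖E ζ - E ζ'‖ ≤ (1 - 2 * ε) * ‖E ζ - E ζ'‖ :=
      mul_le_mul_of_nonneg_right (by linarith) h7
    linarith
  · have hEd := E4 hd
    have hmap : MapsTo E {ζ : ℂ | R < ζ.re} {ζ : ℂ | R < ζ.re} := fun ζ hζ => hEU ζ hζ
    have hhE : DifferentiableOn ℂ (fun ζ => h (E ζ)) {ζ : ℂ | R < ζ.re} := hd.comp hEd hmap
    have hB : DifferentiableOn ℂ (fun ζ : ℂ => (fun p : ℂ × ℂ => B p.1 p.2) (E ζ, h (E ζ)))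
        {ζ : ℂ | R < ζ.re} := by
      refine G.dB.comp (hEd.prodMk hhE) ?_
      intro ζ hζ
      refine ⟨hEU ζ hζ, ?_⟩
      have h2 := hb _ (hEU ζ hζ)
      show ‖h (E ζ)‖ < 2
      linarith
    exact (hhE.const_mul (β : ℂ)).add hB

private theorem step_contr {β R ε : ℝ} {A B : ℂ → ℂ → ℂ} (G : GT β R ε A B)
    {h1 h2 k1 k2 : ℂ → ℂ} (H1 : Adm R h1) (H2 : Adm R h2) (S1 : Stp β R A B h1 k1)
    (S2 : Stp β R A B h2 k2) {D : ℝ} (hD0 : 0 ≤ D)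
    (hD : ∀ ζ : ℂ, R < ζ.re → ‖h1 ζ - h2 ζ‖ ≤ D) :
    ∀ ζ : ℂ, R < ζ.re → ‖k1 ζ - k2 ζ‖ ≤ (β + 4 * ε) * D := by
  obtain ⟨b1, l1, -⟩ := H1
  obtain ⟨b2, l2, -⟩ := H2
  obtain ⟨E1, e1, -, f1⟩ := S1
  obtain ⟨E2, e2, -, f2⟩ := S2
  intro ζ hζ
  obtain ⟨u1, v1⟩ := e1 ζ hζ
  obtain ⟨u2, v2⟩ := e2 ζ hζ
  have hb0 := G.b0
  have he0 := G.e0
  have he1 := G.e1
  have he2 := G.e2
  rw [f1, f2]
  have d1 : ‖h1 (E1 ζ) - h2 (E2 ζ)‖ ≤ D + ‖E1 ζ - E2 ζ‖ := by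
    have e : h1 (E1 ζ) - h2 (E2 ζ) = (h1 (E1 ζ) - h2 (E1 ζ)) + (h2 (E1 ζ) - h2 (E2 ζ)) := by ring
    rw [e]
    exact (norm_add_le _ _).trans (add_le_add (hD _ u1) (l2 _ _ u1 u2))
  have d2 : ‖E1 ζ - E2 ζ‖ ≤ ε * (‖E1 ζ - E2 ζ‖ + ‖h1 (E1 ζ) - h2 (E2 ζ)‖) := by
    have e : E1 ζ - E2 ζ = -(A (E1 ζ) (h1 (E1 ζ)) - A (E2 ζ) (h2 (E2 ζ))) := by
      linear_combination v1 - v2
    have := G.lA _ _ _ _ u1 u2 (b1 _ u1) (b2 _ u2)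
    rw [← norm_neg, ← e] at this
    exact this
  have d3 : (0 : ℝ) ≤ ‖E1 ζ - E2 ζ‖ := norm_nonneg _
  have d4 : ‖E1 ζ - E2 ζ‖ ≤ 2 * ε * D := by
    have h3 : ε * (‖E1 ζ - E2 ζ‖ + ‖h1 (E1 ζ) - h2 (E2 ζ)‖) ≤
        ε * (2 * ‖E1 ζ - E2 ζ‖ + D) := mul_le_mul_of_nonneg_left (by linarith) he0.le
    have h4 : (1 - 2 * ε) * ‖E1 ζ - E2 ζ‖ ≤ ε * D := by linarith
    have h5 : 1 / 2 * ‖E1 ζ - E2 ζ‖ ≤ (1 - 2 * ε) * ‖E1 ζ - E2 ζ‖ :=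
      mul_le_mul_of_nonneg_right (by linarith) d3
    linarith
  have e : (β : ℂ) * h1 (E1 ζ) + B (E1 ζ) (h1 (E1 ζ)) - ((β : ℂ) * h2 (E2 ζ) + B (E2 ζ) (h2 (E2 ζ)))
      = (β : ℂ) * (h1 (E1 ζ) - h2 (E2 ζ)) + (B (E1 ζ) (h1 (E1 ζ)) - B (E2 ζ) (h2 (E2 ζ))) := by ring
  rw [e]
  have g1 : ‖(β : ℂ) * (h1 (E1 ζ) - h2 (E2 ζ))‖ ≤ β * (D + ‖E1 ζ - E2 ζ‖) := by
    rw [norm_mul, Complex.norm_real, Real.norm_eq_abs, abs_of_pos hb0]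
    exact mul_le_mul_of_nonneg_left d1 hb0.le
  have g2 := G.lB _ _ _ _ u1 u2 (b1 _ u1) (b2 _ u2)
  have g3 := norm_add_le ((β : ℂ) * (h1 (E1 ζ) - h2 (E2 ζ)))
    (B (E1 ζ) (h1 (E1 ζ)) - B (E2 ζ) (h2 (E2 ζ)))
  have g4 : ε * (‖E1 ζ - E2 ζ‖ + ‖h1 (E1 ζ) - h2 (E2 ζ)‖) ≤ ε * (2 * (2 * ε * D) + D) :=
    mul_le_mul_of_nonneg_left (by linarith) he0.le
  have g5 : β * (D + ‖E1 ζ - E2 ζ‖) ≤ β * (D + 2 * ε * D) :=
    mul_le_mul_of_nonneg_left (by linarith) hb0.le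
  have g6 : 0 ≤ ε * D := mul_nonneg he0.le hD0
  have g7 : β * (ε * D) ≤ 1 * (ε * D) := mul_le_mul_of_nonneg_right (by linarith) g6
  have g8 : ε * (ε * D) ≤ 1 / 16 * (ε * D) := mul_le_mul_of_nonneg_right he1 g6
  calc ‖(β : ℂ) * (h1 (E1 ζ) - h2 (E2 ζ)) + (B (E1 ζ) (h1 (E1 ζ)) - B (E2 ζ) (h2 (E2 ζ)))‖
      ≤ β * (D + 2 * ε * D) + ε * (2 * (2 * ε * D) + D) := by linarith
    _ = β * D + 2 * (β * (ε * D)) + 4 * (ε * (ε * D)) + ε * D := by ring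
    _ ≤ (β + 4 * ε) * D := by
        have : (β + 4 * ε) * D = β * D + 4 * (ε * D) := by ring
        rw [this]
        linarith

theorem gtrans {β R ε : ℝ} {A B : ℂ → ℂ → ℂ} (G : GT β R ε A B) :
    ∃ hh : ℂ → ℂ, IG β R A B hh := by
  have hb0 := G.b0
  have he0 := G.e0
  have he1 := G.e1
  have he2 := G.e2
  have hUo : IsOpen {ζ : ℂ | R < ζ.re} := isOpen_lt continuous_const Complex.continuous_re
  obtain ⟨κ, hκ⟩ : ∃ κ : ℝ, κ = β + 4 * ε := ⟨_, rfl⟩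
  have hκ0 : 0 < κ := by rw [hκ]; linarith
  have hκ1 : κ < 1 := by rw [hκ]; linarith
  have hstep : ∀ h : ℂ → ℂ, ∃ h' : ℂ → ℂ, Adm R h → Adm R h' ∧ Stp β R A B h h' := by
    intro h
    by_cases H : Adm R h
    · obtain ⟨h', h1, h2⟩ := step_adm G H
      exact ⟨h', fun _ => ⟨h1, h2⟩⟩
    · exact ⟨h, fun H' => absurd H' H⟩
  choose F hF using hstep
  obtain ⟨hs, hs0, hsS⟩ : ∃ hs : ℕ → ℂ → ℂ, hs 0 = (fun _ => 0) ∧ ∀ n, hs (n + 1) = F (hs n) :=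
    ⟨fun n => F^[n] (fun _ => 0), rfl, fun n => Function.iterate_succ_apply' F n _⟩
  have hadm : ∀ n, Adm R (hs n) := by
    intro n
    induction n with
    | zero =>
      rw [hs0]
      refine ⟨fun ζ _ => ?_, fun ζ ζ' _ _ => ?_, differentiableOn_const _⟩
      · rw [norm_zero]
        exact zero_le_one
      · rw [sub_zero, norm_zero]
        exact norm_nonneg _
    | succ n ih =>
      rw [hsS]
      exact (hF _ ih).1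
  have hstp : ∀ n, Stp β R A B (hs n) (hs (n + 1)) := by
    intro n
    rw [hsS]
    exact (hF _ (hadm n)).2
  have hdiff : ∀ n, ∀ ζ : ℂ, R < ζ.re → ‖hs n ζ - hs (n + 1) ζ‖ ≤ 2 * κ ^ n := by
    intro n
    induction n with
    | zero =>
      intro ζ hζ
      have h1 := (hadm 0).1 ζ hζ
      have h2 := (hadm 1).1 ζ hζ
      have h3 := norm_sub_le (hs 0 ζ) (hs 1 ζ)
      rw [pow_zero]
      show ‖hs 0 ζ - hs 1 ζ‖ ≤ 2 * 1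
      linarith
    | succ n ih =>
      intro ζ hζ
      have h1 := step_contr G (hadm n) (hadm (n + 1)) (hstp n) (hstp (n + 1))
        (D := 2 * κ ^ n) (by positivity) ih ζ hζ
      rw [← hκ] at h1
      calc ‖hs (n + 1) ζ - hs (n + 1 + 1) ζ‖ ≤ κ * (2 * κ ^ n) := h1
        _ = 2 * κ ^ (n + 1) := by ring
  have hlim : ∀ ζ : ℂ, ∃ l : ℂ, R < ζ.re → Tendsto (fun n => hs n ζ) atTop (𝓝 l) := by
    intro ζ
    by_cases hζ : R < ζ.re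
    · have hc : CauchySeq (fun n => hs n ζ) :=
        cauchySeq_of_le_geometric κ 2 hκ1 fun n => by
          rw [dist_eq_norm]
          exact hdiff n ζ hζ
      obtain ⟨l, hl⟩ := cauchySeq_tendsto_of_complete hc
      exact ⟨l, fun _ => hl⟩
    · exact ⟨0, fun h => absurd h hζ⟩
  choose hh hhl using hlim
  have hrate : ∀ n, ∀ ζ : ℂ, R < ζ.re → ‖hs n ζ - hh ζ‖ ≤ 2 * κ ^ n / (1 - κ) := by
    intro n ζ hζ
    rw [← dist_eq_norm]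
    exact dist_le_of_le_geometric_of_tendsto κ 2 hκ1 (fun n => by
      rw [dist_eq_norm]
      exact hdiff n ζ hζ) (hhl ζ hζ) n
  have hrate0 : Tendsto (fun n : ℕ => 2 * κ ^ n / (1 - κ)) atTop (𝓝 0) := by
    have h1 := ((tendsto_pow_atTop_nhds_zero_of_lt_one hκ0.le hκ1).const_mul 2).div_const (1 - κ)
    simpa using h1
  have hunif : TendstoUniformlyOn hs hh atTop {ζ : ℂ | R < ζ.re} := by
    rw [Metric.tendstoUniformlyOn_iff]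
    intro δ hδ
    filter_upwards [hrate0.eventually (gt_mem_nhds hδ)] with n hn ζ hζ
    rw [dist_comm, dist_eq_norm]
    exact (hrate n ζ hζ).trans_lt hn
  have hhadm : Adm R hh := by
    refine ⟨?_, ?_, ?_⟩
    · intro ζ hζ
      exact le_of_tendsto' (hhl ζ hζ).norm fun n => (hadm n).1 ζ hζ
    · intro ζ ζ' hζ hζ'
      exact le_of_tendsto' ((hhl ζ hζ).sub (hhl ζ' hζ')).norm fun n => (hadm n).2.1 ζ ζ' hζ hζ'
    · exact hunif.tendstoLocallyUniformlyOn.differentiableOn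
        (Eventually.of_forall fun n => (hadm n).2.2) hUo
  obtain ⟨k, hk1, hk2⟩ := step_adm G hhadm
  have hkh : ∀ ζ : ℂ, R < ζ.re → hh ζ = k ζ := by
    intro ζ hζ
    have h1 : Tendsto (fun n => hs (n + 1) ζ) atTop (𝓝 (hh ζ)) :=
      (hhl ζ hζ).comp (tendsto_add_atTop_nat 1)
    have h2 : Tendsto (fun n => hs (n + 1) ζ) atTop (𝓝 (k ζ)) := by
      rw [tendsto_iff_norm_sub_tendsto_zero]
      have h3 : Tendsto (fun n : ℕ => κ * (2 * κ ^ n / (1 - κ))) atTop (𝓝 0) := by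
        simpa using hrate0.const_mul κ
      refine squeeze_zero (fun n => norm_nonneg _) (fun n => ?_) h3
      have h4 := step_contr G (hadm n) hhadm (hstp n) hk2 (D := 2 * κ ^ n / (1 - κ))
        (div_nonneg (by positivity) (by linarith)) (hrate n) ζ hζ
      rw [← hκ] at h4
      exact h4
    exact tendsto_nhds_unique h1 h2
  obtain ⟨E, E1, E2, E3⟩ := hk2
  refine ⟨hh, hhadm.2.2, hhadm.1, hhadm.2.1, ?_, ?_⟩
  · intro ζ hζ hζ1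
    have h1 := E2 ζ _ hζ hζ1 rfl
    rw [hkh _ hζ1, E3, ← h1]
  · intro ζ' hζ'
    exact ⟨E ζ', (E1 ζ' hζ').1, (E1 ζ' hζ').2⟩

end Pool.Agent.HF
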