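import Pool.Agent.HF.ZOmD

set_option autoImplicit false

/-!
HF-ZOm1. Points of the parameter plane at which the curve is in the petal: injectivity of the petal parametrisation, and the identity theorem
for the defect of the graph equation along the curve.
-/

namespace Pool.Agent.HF

open Set Topology Filter

variable {K : ℂ × ℂ → ℂ × ℂ} {c : ℂ → ℂ} {ρ : ℝ} {m : ℕ} {α R : ℝ} {hh : ℂ → ℂ} {φ : ℂ → ℂ × ℂ}

theorem th_inj (hm : 2 ≤ m) (ha : 0 < α) {ζ w ζ' w' : ℂ} (h1 : 0 < ζ.re) (h2 : 0 < ζ'.re)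
    (h : Th c m α ζ w = Th c m α ζ' w') : ζ = ζ' ∧ w = w' := by
  have hμ : 1 ≤ m - 1 := by omega
  unfold Th at h
  rw [Prod.mk.injEq] at h
  obtain ⟨e1, e2⟩ := h
  have hζ : ζ = ζ' := xz_inj hμ ha h1 h2 e1
  subst hζ
  refine ⟨rfl, ?_⟩
  exact mul_left_cancel₀ (pow_ne_zero m (xz_ne (m - 1) α ζ)) (add_left_cancel e2)

theorem zc_eq (hm : 2 ≤ m) (ha : 0 < α) {ζ w t : ℂ} (h1 : 0 < ζ.re) (h : φ t = Th c m α ζ w) :
    Zc m α φ t = ζ := by
  have hμ : 1 ≤ m - 1 := by omega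
  have h2 : (φ t).1 = xz (m - 1) α ζ := by
    rw [h]
    rfl
  unfold Zc
  rw [h2, one_div]
  symm
  apply eq_inv_of_mul_eq_one_left
  rw [← xz_pow hμ ha h1]
  ring

theorem om_acc (G : GD K c ρ m α R hh) (hφ : Differentiable ℂ φ) {tb ζb : ℂ} (h1 : R < ζb.re)
    (h2 : φ tb = Th c m α ζb (hh ζb)) (h3 : ∃ᶠ t in 𝓝[≠] tb, φ t ∈ Pt c m α R hh) :
    tb ∈ Om0 c m α R hh φ := by
  have hμ : 1 ≤ m - 1 := by have := G.hm; omega
  have hμ0 : (((m - 1 : ℕ) : ℂ) * (α : ℂ)) ≠ 0 := by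
    have h4 : m - 1 ≠ 0 := by omega
    exact mul_ne_zero (by exact_mod_cast h4) (by exact_mod_cast G.ha.ne')
  have hb0 : 0 < ζb.re := G.hR.trans h1
  obtain ⟨x, hx⟩ : ∃ x : ℂ → ℂ, x = fun t => (φ t).1 := ⟨_, rfl⟩
  have hxd : Differentiable ℂ x := by
    rw [hx]
    exact hφ.fst
  have hyd : Differentiable ℂ fun t => (φ t).2 := hφ.snd
  have hxb : x tb = xz (m - 1) α ζb := by
    rw [hx]
    simp only [h2]
    rfl
  have hxb0 : x tb ≠ 0 := by
    rw [hxb]
    exact xz_ne _ _ _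
  obtain ⟨Z, hZ⟩ : ∃ Z : ℂ → ℂ, Z = fun t => Zc m α φ t := ⟨_, rfl⟩
  have hZx : ∀ t, Z t = 1 / (((m - 1 : ℕ) : ℂ) * (α : ℂ) * x t ^ (m - 1)) := by
    intro t
    rw [hZ, hx]
    rfl
  have hZb : Z tb = ζb := by
    rw [hZ]
    exact zc_eq G.hm G.ha hb0 h2
  have hZd : ∀ t, x t ≠ 0 → DifferentiableAt ℂ Z t := by
    intro t ht
    have h4 : Z = fun t => 1 / (((m - 1 : ℕ) : ℂ) * (α : ℂ) * x t ^ (m - 1)) := funext hZx
    rw [h4]
    refine DifferentiableAt.div (differentiableAt_const _)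
      ((differentiableAt_const _).mul ((hxd t).pow _)) ?_
    exact mul_ne_zero hμ0 (pow_ne_zero _ ht)
  obtain ⟨ε0, hε0, hbr⟩ := xz_branch hμ G.ha
  -- the good neighbourhood
  have hN : ∀ᶠ t in 𝓝 tb, x t ≠ 0 ∧ ‖x t‖ < ρ ∧ R < (Z t).re ∧ ‖x t / x tb - 1‖ ≤ ε0 := by
    have c1 : ContinuousAt x tb := (hxd tb).continuousAt
    have c2 : ContinuousAt Z tb := (hZd tb hxb0).continuousAt
    have e1 : ∀ᶠ t in 𝓝 tb, x t ≠ 0 := c1.eventually_ne hxb0
    have e2 : ∀ᶠ t in 𝓝 tb, ‖x t‖ < ρ := by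
      apply c1.norm.eventually_lt continuousAt_const
      rw [hxb]
      exact G.dom ζb h1
    have e3 : ∀ᶠ t in 𝓝 tb, R < (Z t).re := by
      have c3 : ContinuousAt (fun t => (Z t).re) tb := Complex.continuous_re.continuousAt.comp c2
      apply continuousAt_const.eventually_lt c3
      rw [hZb]
      exact h1
    have e4 : ∀ᶠ t in 𝓝 tb, ‖x t / x tb - 1‖ < ε0 := by
      have c4 : ContinuousAt (fun t => ‖x t / x tb - 1‖) tb :=
        ((c1.div_const _).sub continuousAt_const).norm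
      apply c4.eventually_lt continuousAt_const
      rw [div_self hxb0, sub_self, norm_zero]
      exact hε0
    filter_upwards [e1, e2, e3, e4] with t a1 a2 a3 a4
    exact ⟨a1, a2, a3, a4.le⟩
  obtain ⟨d, hd⟩ : ∃ d : ℂ → ℂ, d = fun t => (φ t).2 - c (x t) - x t ^ m * hh (Z t) := ⟨_, rfl⟩
  have hdan : AnalyticAt ℂ d tb := by
    refine DifferentiableOn.analyticAt (s := {t | x t ≠ 0 ∧ ‖x t‖ < ρ ∧ R < (Z t).re}) ?_ ?_
    · intro t ht
      obtain ⟨a1, a2, a3⟩ := ht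
      have dc : DifferentiableAt ℂ c (x t) :=
        G.nc.diff.differentiableAt (Metric.isOpen_ball.mem_nhds (by simpa using a2))
      have ho : IsOpen {ζ : ℂ | R < ζ.re} := isOpen_lt continuous_const Complex.continuous_re
      have dh : DifferentiableAt ℂ hh (Z t) := G.diff.differentiableAt (ho.mem_nhds a3)
      rw [hd]
      apply DifferentiableAt.differentiableWithinAt
      refine ((hyd t).sub (dc.comp t (hxd t))).sub ?_
      exact ((hxd t).pow m).mul (dh.comp t (hZd t a1))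
    · filter_upwards [hN] with t ht
      exact ⟨ht.1, ht.2.1, ht.2.2.1⟩
  have hPd : ∀ t, φ t ∈ Pt c m α R hh → d t = 0 := by
    rintro t ⟨ζ, b1, b2⟩
    have b3 : Z t = ζ := by
      rw [hZ]
      exact zc_eq G.hm G.ha (G.hR.trans b1) b2
    have b4 : x t = xz (m - 1) α ζ := by
      rw [hx]
      simp only [b2]
      rfl
    rw [hd]
    simp only [b3, b4, b2]
    unfold Th
    ring
  have hev := hdan.frequently_zero_iff_eventually_zero.1 (h3.mono hPd)
  unfold Om0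
  rw [mem_interior_iff_mem_nhds]
  filter_upwards [hev, hN] with t ht hn
  obtain ⟨a1, -, a3, a4⟩ := hn
  have hxt : xz (m - 1) α (Z t) = x t := by
    have h5 : xz (m - 1) α ζb * (1 + (x t / x tb - 1)) = x t := by
      rw [← hxb]
      field_simp
      ring
    have h6 := hbr ζb (x t / x tb - 1) (Z t) hb0 a4 (G.hR.trans a3) (by
      rw [h5, hZx]
      have h8 := pow_ne_zero (m - 1) a1
      field_simp
      exact div_self hμ0)
    rw [h6, h5]
  refine ⟨Z t, a3, ?_⟩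
  unfold Th
  rw [hxt]
  rw [hd] at ht
  simp only at ht
  have h7 : (φ t).2 = c (x t) + x t ^ m * hh (Z t) := by linear_combination ht
  ext
  · rw [hx]
  · exact h7

end Pool.Agent.HF
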