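import Pool.Agent.HF.ZDefs

set_option autoImplicit false

/-!
# HF-ZTail

The real tail of the curve is close to the nullcline: writing `v t = y t - c (x t)`, the expansion at
the fixed point gives `‖v t‖ ≤ κ ‖v (t / lam)‖ + C x t ^ m` with `κ < 1` and small `C`, and this is
iterated. The sign of `α` follows from the fact that `x` decreases under the inverse map.
-/

namespace Pool.Agent.HF

open Set Topology Filter

private lemma fst_re {K : ℂ × ℂ → ℂ × ℂ} {lam t0 : ℝ} {φ : ℂ → ℂ × ℂ} (T : TL K lam t0 φ)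
    (t : ℝ) : (φ (t : ℂ)).1 = (((φ (t : ℂ)).1.re : ℝ) : ℂ) := by
  obtain ⟨x, y, h⟩ := T.real t
  rw [h]
  simp

private lemma core {β : ℝ} {K : ℂ × ℂ → ℂ × ℂ} (H : NF β K) {c : ℂ → ℂ} {ρ : ℝ} {m : ℕ} {α : ℝ}
    (X : PX β K c ρ m α) {lam t0 : ℝ} {φ : ℂ → ℂ × ℂ} (T : TL K lam t0 φ) {e η : ℝ} (he : 0 < e)
    (he1 : e ≤ 1) (heβ : β + 2 * e < 1) (hη : e * (|α| + 1) ≤ η * (1 - (β + 2 * e))) :
    ∃ t1 ≥ t0, ∀ t : ℝ, t1 ≤ t →
      ‖(φ (t : ℂ)).2 - c (φ (t : ℂ)).1‖ ≤ η * (φ (t : ℂ)).1.re ^ m ∧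
      (φ (t : ℂ)).1.re - (φ ((t / lam : ℝ) : ℂ)).1.re
        - α * (φ ((t / lam : ℝ) : ℂ)).1.re ^ m ≤
        e * ((φ ((t / lam : ℝ) : ℂ)).1.re ^ m +
          ‖(φ ((t / lam : ℝ) : ℂ)).2 - c (φ ((t / lam : ℝ) : ℂ)).1‖) := by
  obtain ⟨δ1, hδ1, h1⟩ := X.e1 e he
  obtain ⟨δ2, hδ2, h2⟩ := X.e2 e he
  obtain ⟨δ3, hδ3, h3⟩ := X.nc.small e he
  obtain ⟨δ, hδ0, hd1, hd2, hd3⟩ : ∃ δ : ℝ, 0 < δ ∧ δ ≤ δ1 ∧ δ ≤ δ2 ∧ δ ≤ δ3 :=
    ⟨min δ1 (min δ2 δ3), lt_min hδ1 (lt_min hδ2 hδ3), min_le_left _ _,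
      (min_le_right _ _).trans (min_le_left _ _), (min_le_right _ _).trans (min_le_right _ _)⟩
  -- the limits
  have hf1 : Tendsto (fun t : ℝ => (φ (t : ℂ)).1) atTop (𝓝 (0 : ℂ)) :=
    (continuous_fst.tendsto (0 : ℂ × ℂ)).comp T.lim
  have hf2 : Tendsto (fun t : ℝ => (φ (t : ℂ)).2) atTop (𝓝 (0 : ℂ)) :=
    (continuous_snd.tendsto (0 : ℂ × ℂ)).comp T.lim
  have hcc : Tendsto c (𝓝 0) (𝓝 0) := by
    have h := (X.nc.diff.differentiableAt (Metric.ball_mem_nhds 0 X.nc.pos)).continuousAt.tendsto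
    rwa [X.nc.zero] at h
  have hv : Tendsto (fun t : ℝ => (φ (t : ℂ)).2 - c (φ (t : ℂ)).1) atTop (𝓝 (0 : ℂ)) := by
    have h := hf2.sub (hcc.comp hf1)
    rwa [sub_zero] at h
  have hE1 : ∀ᶠ t : ℝ in atTop, ‖(φ (t : ℂ)).1‖ < δ := by
    have h := hf1.norm
    rw [norm_zero] at h
    exact h.eventually_lt_const hδ0
  have hE2 : ∀ᶠ t : ℝ in atTop, ‖(φ (t : ℂ)).2 - c (φ (t : ℂ)).1‖ < δ := by
    have h := hv.norm
    rw [norm_zero] at h
    exact h.eventually_lt_const hδ0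
  obtain ⟨s, hs⟩ := eventually_atTop.1 (hE1.and hE2)
  refine ⟨max s t0, le_max_right _ _, ?_⟩
  have hlam := T.l0
  -- basic facts for large `t`
  have ht0 : ∀ t : ℝ, max s t0 ≤ t → 0 < t := fun t ht =>
    T.tp.trans_le ((le_max_right _ _).trans ht)
  have hdiv : ∀ t : ℝ, max s t0 ≤ t → max s t0 ≤ t / lam := fun t ht => by
    refine ht.trans ?_
    rw [le_div_iff₀ hlam]
    nlinarith [ht0 t ht, T.l1]
  have hx0 : ∀ t : ℝ, max s t0 ≤ t → 0 < (φ (t : ℂ)).1.re := fun t ht =>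
    T.pos t ((le_max_right _ _).trans ht)
  have hxd : ∀ t : ℝ, max s t0 ≤ t → (φ ((t / lam : ℝ) : ℂ)).1.re < (φ (t : ℂ)).1.re := fun t ht =>
    T.dec t ((le_max_right _ _).trans ht)
  have hnx : ∀ t : ℝ, max s t0 ≤ t → ‖(φ (t : ℂ)).1‖ = (φ (t : ℂ)).1.re := fun t ht => by
    conv_lhs => rw [fst_re T t]
    rw [Complex.norm_real, Real.norm_eq_abs, abs_of_pos (hx0 t ht)]
  have hK : ∀ t : ℝ, K (φ ((t / lam : ℝ) : ℂ)) = φ (t : ℂ) := fun t => by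
    rw [T.conj, ← Complex.ofReal_mul, mul_div_cancel₀ t hlam.ne']
  -- the two estimates at one step
  have hS1 : ∀ t : ℝ, max s t0 ≤ t →
      ‖(φ (t : ℂ)).1 - (φ ((t / lam : ℝ) : ℂ)).1 - α * (φ ((t / lam : ℝ) : ℂ)).1 ^ m‖ ≤
        e * ((φ ((t / lam : ℝ) : ℂ)).1.re ^ m +
          ‖(φ ((t / lam : ℝ) : ℂ)).2 - c (φ ((t / lam : ℝ) : ℂ)).1‖) := fun t ht => by
    have hb := hs (t / lam) ((le_max_left _ _).trans (hdiv t ht))
    have h := h1 (φ ((t / lam : ℝ) : ℂ)).1 ((φ ((t / lam : ℝ) : ℂ)).2 - c (φ ((t / lam : ℝ) : ℂ)).1)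
      (hb.1.trans_le hd1) (hb.2.trans_le hd1)
    rw [add_sub_cancel, Prod.mk.eta, hK t, hnx _ (hdiv t ht)] at h
    exact h
  have hS2 : ∀ t : ℝ, max s t0 ≤ t →
      ‖(φ (t : ℂ)).2 - c (φ ((t / lam : ℝ) : ℂ)).1 -
        β * ((φ ((t / lam : ℝ) : ℂ)).2 - c (φ ((t / lam : ℝ) : ℂ)).1)‖ ≤
        e * ‖(φ ((t / lam : ℝ) : ℂ)).2 - c (φ ((t / lam : ℝ) : ℂ)).1‖ := fun t ht => by
    have hb := hs (t / lam) ((le_max_left _ _).trans (hdiv t ht))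
    have h := h2 (φ ((t / lam : ℝ) : ℂ)).1 ((φ ((t / lam : ℝ) : ℂ)).2 - c (φ ((t / lam : ℝ) : ℂ)).1)
      (hb.1.trans_le hd2) (hb.2.trans_le hd2)
    rw [add_sub_cancel, Prod.mk.eta, hK t] at h
    exact h
  have hstep : ∀ t : ℝ, max s t0 ≤ t → ‖(φ (t : ℂ)).2 - c (φ (t : ℂ)).1‖ ≤
      (β + 2 * e) * ‖(φ ((t / lam : ℝ) : ℂ)).2 - c (φ ((t / lam : ℝ) : ℂ)).1‖ +
        e * (|α| + 1) * (φ (t : ℂ)).1.re ^ m := fun t ht => by
    have hA := hS1 t ht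
    have hB := hS2 t ht
    have hb := hs (t / lam) ((le_max_left _ _).trans (hdiv t ht))
    have hb' := hs t ((le_max_left _ _).trans ht)
    have hC := h3 (φ (t : ℂ)).1 (φ ((t / lam : ℝ) : ℂ)).1 (hb'.1.trans_le hd3) (hb.1.trans_le hd3)
    have hn' := hnx _ (hdiv t ht)
    have hmono : (φ ((t / lam : ℝ) : ℂ)).1.re ^ m ≤ (φ (t : ℂ)).1.re ^ m :=
      pow_le_pow_left₀ (hx0 _ (hdiv t ht)).le (hxd t ht).le m
    have hx'0 : 0 ≤ (φ ((t / lam : ℝ) : ℂ)).1.re ^ m := pow_nonneg (hx0 _ (hdiv t ht)).le m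
    set x := (φ (t : ℂ)).1 with hx
    set x' := (φ ((t / lam : ℝ) : ℂ)).1 with hx'
    set v' := (φ ((t / lam : ℝ) : ℂ)).2 - c x' with hv'
    have hv'0 := norm_nonneg v'
    have hxx : ‖x - x'‖ ≤ (|α| + e) * x'.re ^ m + e * ‖v'‖ := by
      have h4 : x - x' = (x - x' - α * x' ^ m) + α * x' ^ m := by ring
      have h5 : ‖x - x'‖ ≤ ‖x - x' - α * x' ^ m‖ + ‖(α : ℂ) * x' ^ m‖ := by
        conv_lhs => rw [h4]
        exact norm_add_le _ _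
      rw [norm_mul, norm_pow, Complex.norm_real, Real.norm_eq_abs, hn'] at h5
      nlinarith
    have h6 : (φ (t : ℂ)).2 - c x = ((φ (t : ℂ)).2 - c x' - β * v') + β * v' - (c x - c x') := by
      ring
    have h7 : ‖(φ (t : ℂ)).2 - c x‖ ≤ ‖(φ (t : ℂ)).2 - c x' - β * v'‖ + β * ‖v'‖ + ‖c x - c x'‖ := by
      rw [h6]
      refine (norm_sub_le _ _).trans ?_
      have h8 := norm_add_le ((φ (t : ℂ)).2 - c x' - β * v') ((β : ℂ) * v')
      rw [norm_mul, Complex.norm_real, Real.norm_eq_abs, abs_of_pos H.b0] at h8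
      linarith
    have h9 : e * ‖x - x'‖ ≤ e * ((|α| + e) * x'.re ^ m + e * ‖v'‖) :=
      mul_le_mul_of_nonneg_left hxx he.le
    have h10 : e * (e * ‖v'‖) ≤ e * ‖v'‖ :=
      mul_le_mul_of_nonneg_left (by nlinarith) he.le
    have h11 : (|α| + e) * x'.re ^ m ≤ (|α| + 1) * x.re ^ m := by
      refine mul_le_mul ?_ hmono hx'0 (by positivity)
      linarith
    have h12 : e * ((|α| + e) * x'.re ^ m) ≤ e * ((|α| + 1) * x.re ^ m) :=
      mul_le_mul_of_nonneg_left h11 he.le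
    nlinarith
  -- iteration
  have hκ0 : 0 ≤ β + 2 * e := by linarith [H.b0]
  have hit : ∀ k : ℕ, ∀ t : ℝ, max s t0 ≤ t → ‖(φ (t : ℂ)).2 - c (φ (t : ℂ)).1‖ ≤
      (β + 2 * e) ^ k * δ + η * (φ (t : ℂ)).1.re ^ m := by
    have hη0 : 0 ≤ η := by
      by_contra hneg
      push Not at hneg
      have h4 : 0 < e * (|α| + 1) := by positivity
      nlinarith
    intro k
    induction k with
    | zero =>
      intro t ht
      have h4 := (hs t ((le_max_left _ _).trans ht)).2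
      have h5 : 0 ≤ η * (φ (t : ℂ)).1.re ^ m := mul_nonneg hη0 (pow_nonneg (hx0 t ht).le m)
      rw [pow_zero, one_mul]
      linarith
    | succ k ih =>
      intro t ht
      have h4 := ih (t / lam) (hdiv t ht)
      have h5 := hstep t ht
      have hmono : (φ ((t / lam : ℝ) : ℂ)).1.re ^ m ≤ (φ (t : ℂ)).1.re ^ m :=
        pow_le_pow_left₀ (hx0 _ (hdiv t ht)).le (hxd t ht).le m
      have h6 : 0 ≤ (φ (t : ℂ)).1.re ^ m := pow_nonneg (hx0 t ht).le m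
      have h7 := mul_le_mul_of_nonneg_left h4 hκ0
      have h8 := mul_le_mul_of_nonneg_right hη h6
      have h9 : (β + 2 * e) * (η * (φ ((t / lam : ℝ) : ℂ)).1.re ^ m) ≤
          (β + 2 * e) * (η * (φ (t : ℂ)).1.re ^ m) :=
        mul_le_mul_of_nonneg_left (mul_le_mul_of_nonneg_left hmono hη0) hκ0
      rw [pow_succ]
      nlinarith
  intro t ht
  refine ⟨?_, ?_⟩
  · have hlim : Tendsto (fun k : ℕ => (β + 2 * e) ^ k * δ + η * (φ (t : ℂ)).1.re ^ m) atTop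
        (𝓝 (0 * δ + η * (φ (t : ℂ)).1.re ^ m)) :=
      ((tendsto_pow_atTop_nhds_zero_of_lt_one hκ0 heβ).mul_const δ).add_const _
    rw [zero_mul, zero_add] at hlim
    exact ge_of_tendsto' hlim fun k => hit k t ht
  · have h := (Complex.re_le_norm _).trans (hS1 t ht)
    rw [fst_re T t, fst_re T (t / lam)] at h
    rw [← Complex.ofReal_pow, ← Complex.ofReal_mul, ← Complex.ofReal_sub, ← Complex.ofReal_sub,
      Complex.ofReal_re, Complex.ofReal_re] at h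
    rw [← fst_re T (t / lam)] at h
    exact h

theorem tail {β : ℝ} {K : ℂ × ℂ → ℂ × ℂ} (H : NF β K) {c : ℂ → ℂ} {ρ : ℝ} {m : ℕ} {α : ℝ}
    (X : PX β K c ρ m α) (hα : α ≠ 0) {lam t0 : ℝ} {φ : ℂ → ℂ × ℂ} (T : TL K lam t0 φ) :
    0 < α ∧ ∀ ε > 0, ∃ t1 ≥ t0, ∀ t : ℝ, t1 ≤ t →
      ‖(φ (t : ℂ)).2 - c (φ (t : ℂ)).1‖ ≤ ε * (φ (t : ℂ)).1.re ^ m := by
  have hβ := H.b1
  -- a good choice of `e`
  have hch : ∀ η : ℝ, 0 < η → ∃ e : ℝ, 0 < e ∧ e ≤ 1 ∧ β + 2 * e < 1 ∧ 2 * e < |α| ∧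
      e * (|α| + 1) ≤ η * (1 - (β + 2 * e)) := fun η hη => by
    have hα0 : 0 < |α| := abs_pos.2 hα
    have hb := H.b0
    refine ⟨min ((1 - β) / 4) (min (|α| / 4) (η * ((1 - β) / 2) / (|α| + 1))), ?_, ?_, ?_, ?_, ?_⟩
    · refine lt_min (by linarith) (lt_min (by linarith) ?_)
      have : 0 < 1 - β := by linarith
      positivity
    · exact (min_le_left _ _).trans (by linarith)
    · have := min_le_left ((1 - β) / 4) (min (|α| / 4) (η * ((1 - β) / 2) / (|α| + 1)))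
      linarith
    · have := (min_le_right ((1 - β) / 4) (min (|α| / 4) (η * ((1 - β) / 2) / (|α| + 1)))).trans
        (min_le_left _ _)
      linarith
    · have h1 := (min_le_right ((1 - β) / 4) (min (|α| / 4) (η * ((1 - β) / 2) / (|α| + 1)))).trans
        (min_le_right _ _)
      rw [le_div_iff₀ (by positivity)] at h1
      refine h1.trans ?_
      have h2 := min_le_left ((1 - β) / 4) (min (|α| / 4) (η * ((1 - β) / 2) / (|α| + 1)))
      exact mul_le_mul_of_nonneg_left (by linarith) hη.le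
  refine ⟨?_, fun ε hε => ?_⟩
  · by_contra hneg
    push Not at hneg
    obtain ⟨e, he, he1, heβ, h2e, hη⟩ := hch 1 one_pos
    obtain ⟨t1, ht1, hcore⟩ := core H X T he he1 heβ hη
    have hlam := T.l0
    have ht10 : 0 < t1 := T.tp.trans_le ht1
    have hdiv : t1 ≤ t1 / lam := by
      rw [le_div_iff₀ hlam]
      nlinarith [T.l1]
    have h1 := (hcore t1 le_rfl).2
    have h2 := (hcore (t1 / lam) hdiv).1
    have h3 := T.dec t1 ht1
    have h4 : 0 < (φ ((t1 / lam : ℝ) : ℂ)).1.re ^ m := pow_pos (T.pos _ (ht1.le.trans hdiv)) m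
    rw [abs_of_nonpos hneg] at h2e
    rw [one_mul] at h2
    have h5 := mul_le_mul_of_nonneg_left h2 he.le
    nlinarith
  · obtain ⟨e, he, he1, heβ, -, hη⟩ := hch ε hε
    obtain ⟨t1, ht1, hcore⟩ := core H X T he he1 heβ hη
    exact ⟨t1, ht1, fun t ht => (hcore t ht).1⟩

end Pool.Agent.HF
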