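import Pool.Agent.HF.ZPX
import Pool.Agent.HF.ZTail
import Pool.Agent.HF.ZAB
import Pool.Agent.HF.ZCau
import Pool.Agent.HF.ZGb
import Pool.Agent.HF.ZAtt
import Pool.Agent.HF.ZOm1

set_option autoImplicit false

/-!
HF-ZGD. Existence of the petal; the real tail is in the petal.

The curve is written in petal coordinates (`ab`, `gtrans`), the points of the real tail form a backward orbit which stays in
the petal domain, so `on_graph` applies.
-/

namespace Pool.Agent.HF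

open Set Topology Filter

theorem gd {β : ℝ} {K : ℂ × ℂ → ℂ × ℂ} (H : NF β K) {lam t0 : ℝ} {φ : ℂ → ℂ × ℂ}
    (T : TL K lam t0 φ) : ∃ (c : ℂ → ℂ) (ρ : ℝ) (m : ℕ) (α R : ℝ) (hh : ℂ → ℂ),
      GD K c ρ m α R hh ∧ ∃ t1 : ℝ, ∀ t : ℝ, t1 ≤ t → φ (t : ℂ) ∈ Pt c m α R hh := by
  obtain ⟨c, ρ, m, α, hα, X⟩ := px H
  obtain ⟨ha, htail⟩ := tail H X hα T
  have hm := X.hm
  have hb0 := H.b0
  have hb1 := H.b1
  obtain ⟨ε, hε, e16, eb⟩ : ∃ ε : ℝ, 0 < ε ∧ 16 * ε ≤ 1 ∧ 16 * ε ≤ 1 - β := by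
    refine ⟨min (1 / 16) ((1 - β) / 16), lt_min (by norm_num) (by linarith), ?_, ?_⟩
    · linarith [min_le_left (1 / 16 : ℝ) ((1 - β) / 16)]
    · linarith [min_le_right (1 / 16 : ℝ) ((1 - β) / 16)]
  obtain ⟨R0, A, B, hR2, hdom, hbd, dA, dB, hconj⟩ :=
    ab H X ha (ε := ε / 2) (half_pos hε) (by linarith)
  have cA := cauchy2 (fun ζ w h1 h2 => (hbd ζ w h1 h2).1) dA
  have cB := cauchy2 (fun ζ w h1 h2 => (hbd ζ w h1 h2).2) dB
  have hsub : {p : ℂ × ℂ | R0 + 1 < p.1.re ∧ ‖p.2‖ < 2} ⊆ {p | R0 < p.1.re ∧ ‖p.2‖ < 2} := by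
    intro p hp
    exact ⟨by have := hp.1; linarith, hp.2⟩
  have G : GT β (R0 + 1) ε A B := by
    refine ⟨hb0, hε, by linarith, by linarith, ?_, ?_, ?_, ?_, dA.mono hsub, dB.mono hsub⟩
    · intro ζ w h1 h2
      have := (hbd ζ w (by linarith) (by linarith)).1
      linarith
    · intro ζ w h1 h2
      have := (hbd ζ w (by linarith) (by linarith)).2
      linarith
    · intro ζ w ζ' w' h1 h2 h3 h4
      have := cA ζ w ζ' w' h1 h2 h3 h4
      rwa [mul_div_cancel₀ ε (two_ne_zero)] at this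
    · intro ζ w ζ' w' h1 h2 h3 h4
      have := cB ζ w ζ' w' h1 h2 h3 h4
      rwa [mul_div_cancel₀ ε (two_ne_zero)] at this
  obtain ⟨hh, I⟩ := gtrans G
  refine ⟨c, ρ, m, α, R0 + 1, hh, ⟨X.nc, hm, ha, by linarith, ?_, I.diff, I.bd, ?_⟩, ?_⟩
  · intro ζ hζ
    exact hdom ζ (by linarith)
  · intro ζ' hζ'
    obtain ⟨ζ, h1, h2⟩ := I.cov ζ' hζ'
    have hb := I.bd ζ h1
    refine ⟨ζ, h1, ?_, ?_⟩
    · have h3 : ζ - ζ' - 1 = -A ζ (hh ζ) := by
        rw [← h2]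
        ring
      rw [h3, norm_neg]
      have := G.bA ζ (hh ζ) h1 hb
      linarith
    · rw [hconj ζ (hh ζ) (by linarith) (by linarith), ← I.inv ζ h1 (by rw [h2]; exact hζ'), h2]
  -- the tail
  have hμ : 1 ≤ m - 1 := by omega
  have hμ0 : (0 : ℝ) < ((m - 1 : ℕ) : ℝ) := by exact_mod_cast hμ
  obtain ⟨ta, hta, h1⟩ := htail 1 one_pos
  obtain ⟨M, hM, hMd⟩ : ∃ M : ℝ, 0 < M ∧ M = ((m - 1 : ℕ) : ℝ) * α * (R0 + 2) := ⟨_, by
    have : 0 < R0 + 2 := by linarith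
    positivity, rfl⟩
  obtain ⟨δ, hδ, hδ1, hδM⟩ : ∃ δ : ℝ, 0 < δ ∧ δ ≤ 1 ∧ M * δ ≤ 1 := by
    refine ⟨min 1 (1 / M), lt_min one_pos (by positivity), min_le_left _ _, ?_⟩
    calc M * min 1 (1 / M) ≤ M * (1 / M) := mul_le_mul_of_nonneg_left (min_le_right _ _) hM.le
      _ = 1 := by field_simp
  have h2 : ∀ᶠ t : ℝ in atTop, ‖φ (t : ℂ)‖ < δ := by
    have := T.lim.norm
    rw [norm_zero] at this
    exact this.eventually (gt_mem_nhds hδ)
  rw [eventually_atTop] at h2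
  obtain ⟨tb, h2⟩ := h2
  -- the properties of a point of the tail
  have key : ∀ t : ℝ, ta ≤ t → tb ≤ t → ∃ ζ w : ℂ, R0 + 2 < ζ.re ∧ ‖w‖ ≤ 1 ∧
      φ (t : ℂ) = Th c m α ζ w := by
    intro t ht1 ht2
    have hx := T.pos t (hta.trans ht1)
    obtain ⟨x, y, hxy⟩ := T.real t
    have hx1 : (φ (t : ℂ)).1 = (x : ℂ) := by rw [hxy]
    have hxr : (φ (t : ℂ)).1.re = x := by rw [hx1, Complex.ofReal_re]
    have h3 := h1 t ht1
    rw [hxr] at hx h3
    rw [hx1, one_mul] at h3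
    have hxδ : x < δ := by
      have h4 : ‖(φ (t : ℂ)).1‖ ≤ ‖φ (t : ℂ)‖ := norm_fst_le _
      rw [hx1, Complex.norm_real, Real.norm_eq_abs, abs_of_pos hx] at h4
      exact lt_of_le_of_lt h4 (h2 t ht2)
    have hxc : (x : ℂ) ≠ 0 := by
      exact_mod_cast hx.ne'
    refine ⟨((1 / (((m - 1 : ℕ) : ℝ) * α * x ^ (m - 1)) : ℝ) : ℂ),
      ((φ (t : ℂ)).2 - c (x : ℂ)) / (x : ℂ) ^ m, ?_, ?_, ?_⟩
    · rw [Complex.ofReal_re, lt_div_iff₀ (by positivity)]
      have h4 : x ^ (m - 1) ≤ x := by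
        calc x ^ (m - 1) ≤ x ^ 1 := pow_le_pow_of_le_one hx.le (by linarith) hμ
          _ = x := pow_one x
      calc (R0 + 2) * (((m - 1 : ℕ) : ℝ) * α * x ^ (m - 1)) = M * x ^ (m - 1) := by
            rw [hMd]
            ring
        _ ≤ M * x := mul_le_mul_of_nonneg_left h4 hM.le
        _ < M * δ := mul_lt_mul_of_pos_left hxδ hM
        _ ≤ 1 := hδM
    · rw [norm_div, norm_pow, Complex.norm_real, Real.norm_eq_abs, abs_of_pos hx,
        div_le_one (by positivity)]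
      exact h3
    · unfold Th
      rw [xz_real hμ ha hx]
      refine Prod.ext hx1 ?_
      dsimp only
      rw [mul_div_cancel₀ _ (pow_ne_zero m hxc)]
      ring
  choose! Z W hZ hW hφ using key
  refine ⟨max (max ta tb) 0, fun t ht => ?_⟩
  have ht0 : 0 ≤ t := (le_max_right _ _).trans ht
  have hta' : ta ≤ t := ((le_max_left _ _).trans (le_max_left _ _)).trans ht
  have htb' : tb ≤ t := ((le_max_right _ _).trans (le_max_left _ _)).trans ht
  have hl0 := T.l0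
  have hl1 := T.l1
  have htk : ∀ k : ℕ, t ≤ t / lam ^ k := by
    intro k
    rw [le_div_iff₀ (pow_pos hl0 k)]
    have : lam ^ k ≤ 1 := pow_le_one₀ hl0.le hl1.le
    nlinarith
  have hcj : ∀ k : ℕ, K (φ ((t / lam ^ (k + 1) : ℝ) : ℂ)) = φ ((t / lam ^ k : ℝ) : ℂ) := by
    intro k
    rw [T.conj]
    congr 1
    rw [← Complex.ofReal_mul]
    congr 1
    rw [pow_succ]
    field_simp
  have hrel : ∀ k : ℕ, Z (t / lam ^ k) = Z (t / lam ^ (k + 1)) - 1 +
        A (Z (t / lam ^ (k + 1))) (W (t / lam ^ (k + 1))) ∧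
      W (t / lam ^ k) = β * W (t / lam ^ (k + 1)) +
        B (Z (t / lam ^ (k + 1))) (W (t / lam ^ (k + 1))) := by
    intro k
    have a1 := hta'.trans (htk k)
    have a2 := htb'.trans (htk k)
    have b1 := hta'.trans (htk (k + 1))
    have b2 := htb'.trans (htk (k + 1))
    have hz1 := hZ _ a1 a2
    have hz2 := hZ _ b1 b2
    have hw2 := hW _ b1 b2
    have h3 := hcj k
    rw [hφ _ a1 a2, hφ _ b1 b2, hconj _ _ (by linarith) (by linarith)] at h3
    have h4 : ‖A (Z (t / lam ^ (k + 1))) (W (t / lam ^ (k + 1)))‖ ≤ ε / 2 :=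
      (hbd _ _ (by linarith) (by linarith)).1
    have h5 := Complex.abs_re_le_norm (A (Z (t / lam ^ (k + 1))) (W (t / lam ^ (k + 1))))
    have h6 := neg_abs_le (A (Z (t / lam ^ (k + 1))) (W (t / lam ^ (k + 1)))).re
    have h7 : 0 < (Z (t / lam ^ (k + 1)) - 1 +
        A (Z (t / lam ^ (k + 1))) (W (t / lam ^ (k + 1)))).re := by
      rw [Complex.add_re, Complex.sub_re, Complex.one_re]
      linarith
    obtain ⟨h8, h9⟩ := th_inj hm ha h7 (by linarith) h3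
    exact ⟨h8.symm, h9.symm⟩
  have hfin := on_graph G I (ζ := fun k => Z (t / lam ^ k)) (w := fun k => W (t / lam ^ k))
    (fun k => by
      have := hZ _ (hta'.trans (htk k)) (htb'.trans (htk k))
      linarith) (fun k => hW _ (hta'.trans (htk k)) (htb'.trans (htk k)))
    (fun k => (hrel k).1) (fun k => (hrel k).2) 0
  rw [pow_zero, div_one] at hfin
  refine ⟨Z t, ?_, ?_⟩
  · have := hZ t hta' htb'
    linarith
  · rw [← hfin]
    exact hφ t hta' htb'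

end Pool.Agent.HF
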