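import Pool.Agent.HF.ZDefs

set_option autoImplicit false

/-!
HF-ZGa. Solving the first coordinate equation on a graph (Banach fixed point theorem).
-/

namespace Pool.Agent.HF

open Set Topology Filter

theorem solve {β R ε : ℝ} {A B : ℂ → ℂ → ℂ} (G : GT β R ε A B) {h : ℂ → ℂ}
    (hb : ∀ ζ : ℂ, R < ζ.re → ‖h ζ‖ ≤ 1)
    (hl : ∀ ζ ζ' : ℂ, R < ζ.re → R < ζ'.re → ‖h ζ - h ζ'‖ ≤ ‖ζ - ζ'‖) :
    ∃ E : ℂ → ℂ, (∀ ζ : ℂ, R < ζ.re → R + 1 / 2 < (E ζ).re ∧ ‖E ζ - ζ - 1‖ ≤ ε ∧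
        E ζ - 1 + A (E ζ) (h (E ζ)) = ζ) ∧
      (∀ ζ ζ' : ℂ, R < ζ.re → R < ζ'.re → (1 - 2 * ε) * ‖E ζ - E ζ'‖ ≤ ‖ζ - ζ'‖) ∧
      (∀ ζ ζ' : ℂ, R < ζ.re → R < ζ'.re → ζ - 1 + A ζ (h ζ) = ζ' → ζ = E ζ') ∧
      (DifferentiableOn ℂ h {ζ | R < ζ.re} → DifferentiableOn ℂ E {ζ | R < ζ.re}) := by
  have he0 := G.e0
  have he1 := G.e1
  obtain ⟨a, ha⟩ : ∃ a : ℂ → ℂ, ∀ ζ, a ζ = A ζ (h ζ) := ⟨_, fun _ => rfl⟩
  have hab : ∀ ζ : ℂ, R < ζ.re → ‖a ζ‖ ≤ ε := by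
    intro ζ hζ
    rw [ha]
    exact G.bA ζ (h ζ) hζ (hb ζ hζ)
  have hal : ∀ ζ ζ' : ℂ, R < ζ.re → R < ζ'.re → ‖a ζ - a ζ'‖ ≤ 2 * ε * ‖ζ - ζ'‖ := by
    intro ζ ζ' hζ hζ'
    rw [ha, ha]
    refine (G.lA ζ (h ζ) ζ' (h ζ') hζ hζ' (hb ζ hζ) (hb ζ' hζ')).trans ?_
    have h1 := mul_le_mul_of_nonneg_left (hl ζ ζ' hζ hζ') he0.le
    linarith
  -- existence
  have hex : ∀ ζ' : ℂ, ∃ ζ : ℂ, R < ζ'.re → R + 1 / 2 < ζ.re ∧ ‖ζ - ζ' - 1‖ ≤ ε ∧
      ζ - 1 + a ζ = ζ' := by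
    intro ζ'
    by_cases hζ' : R < ζ'.re
    swap
    · exact ⟨0, fun h => absurd h hζ'⟩
    obtain ⟨S, hS⟩ : ∃ S, S = Metric.closedBall (ζ' + 1) ε := ⟨_, rfl⟩
    have hSre : ∀ ζ ∈ S, R + 1 / 2 < ζ.re := by
      intro ζ hζ
      rw [hS, Metric.mem_closedBall, dist_eq_norm] at hζ
      have h1 := (Complex.abs_re_le_norm (ζ - (ζ' + 1))).trans hζ
      rw [Complex.sub_re, Complex.add_re, Complex.one_re] at h1
      have h2 := (abs_le.1 h1).1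
      linarith
    obtain ⟨T, hT⟩ : ∃ T : ℂ → ℂ, ∀ ζ, T ζ = ζ' + 1 - a ζ := ⟨_, fun _ => rfl⟩
    have hmaps : MapsTo T S S := by
      intro ζ hζ
      have h1 := hSre ζ hζ
      rw [hS, Metric.mem_closedBall, dist_eq_norm, hT]
      have h2 : ζ' + 1 - a ζ - (ζ' + 1) = -a ζ := by ring
      rw [h2, norm_neg]
      exact hab ζ (by linarith)
    have hSc : IsComplete S := by
      rw [hS]
      exact Metric.isClosed_closedBall.isComplete
    have hcon : ContractingWith (1 / 2 : NNReal) (hmaps.restrict T S S) := by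
      refine ⟨by norm_num, ?_⟩
      refine LipschitzWith.of_dist_le_mul ?_
      rintro ⟨x, hx⟩ ⟨y, hy⟩
      show dist (T x) (T y) ≤ (1 / 2 : NNReal) * dist x y
      rw [dist_eq_norm, dist_eq_norm, hT, hT]
      have h1 := hSre x hx
      have h2 := hSre y hy
      have h3 := hal y x (by linarith) (by linarith)
      have h4 : ζ' + 1 - a x - (ζ' + 1 - a y) = a y - a x := by ring
      rw [h4]
      refine h3.trans ?_
      rw [norm_sub_rev y x]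
      have h5 : (0 : ℝ) ≤ ‖x - y‖ := norm_nonneg _
      have h6 : ((1 / 2 : NNReal) : ℝ) = 1 / 2 := by norm_num
      rw [h6]
      nlinarith
    have hc : ζ' + 1 ∈ S := by
      rw [hS]
      exact Metric.mem_closedBall_self he0.le
    obtain ⟨y, hyS, hy, -⟩ := ContractingWith.exists_fixedPoint' hSc hmaps hcon hc
      (edist_ne_top _ _)
    have hy1 : ζ' + 1 - a y = y := by
      have h1 : T y = y := hy
      rw [hT] at h1
      exact h1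
    refine ⟨y, fun _ => ⟨hSre y hyS, ?_, ?_⟩⟩
    · have h1 : y - ζ' - 1 = -a y := by
        rw [eq_neg_iff_add_eq_zero]
        linear_combination -hy1
      rw [h1, norm_neg]
      exact hab y (by linarith [hSre y hyS])
    · linear_combination -hy1
  choose E hE using hex
  have hElip : ∀ ζ ζ' : ℂ, R < ζ.re → R < ζ'.re → (1 - 2 * ε) * ‖E ζ - E ζ'‖ ≤ ‖ζ - ζ'‖ := by
    intro ζ ζ' hζ hζ'
    obtain ⟨a1, a2, a3⟩ := hE ζ hζ
    obtain ⟨b1, b2, b3⟩ := hE ζ' hζ'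
    have h1 := hal (E ζ) (E ζ') (by linarith) (by linarith)
    have h2 : E ζ - E ζ' = (ζ - ζ') - (a (E ζ) - a (E ζ')) := by
      linear_combination a3 - b3
    have h3 : ‖E ζ - E ζ'‖ ≤ ‖ζ - ζ'‖ + ‖a (E ζ) - a (E ζ')‖ := by
      calc ‖E ζ - E ζ'‖ = ‖(ζ - ζ') - (a (E ζ) - a (E ζ'))‖ := by rw [← h2]
        _ ≤ _ := norm_sub_le _ _
    linarith
  refine ⟨E, ?_, hElip, ?_, ?_⟩
  · intro ζ hζ
    have h1 := hE ζ hζ
    rw [ha] at h1
    exact h1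
  · intro ζ ζ' hζ hζ' heq
    obtain ⟨b1, b2, b3⟩ := hE ζ' hζ'
    rw [← ha] at heq
    have h1 := hal ζ (E ζ') hζ (by linarith)
    have h2 : ζ - E ζ' = -(a ζ - a (E ζ')) := by
      linear_combination heq - b3
    have h3 : ‖ζ - E ζ'‖ = ‖a ζ - a (E ζ')‖ := by
      rw [← norm_neg (a ζ - a (E ζ')), ← h2]
    rw [← h3] at h1
    have h4 : ‖ζ - E ζ'‖ = 0 := by
      have h5 : (0 : ℝ) ≤ ‖ζ - E ζ'‖ := norm_nonneg _
      nlinarith
    exact sub_eq_zero.1 (norm_eq_zero.1 h4)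
  · intro hd
    have hUo : IsOpen {ζ : ℂ | R < ζ.re} := isOpen_lt continuous_const Complex.continuous_re
    obtain ⟨e, he⟩ : ∃ e : ℂ → ℂ, ∀ ζ, e ζ = ζ - 1 + a ζ := ⟨_, fun _ => rfl⟩
    have hed : DifferentiableOn ℂ e {ζ : ℂ | R < ζ.re} := by
      have h1 : DifferentiableOn ℂ (fun ζ : ℂ => (fun p : ℂ × ℂ => A p.1 p.2) (ζ, h ζ))
          {ζ : ℂ | R < ζ.re} := by
        refine G.dA.comp (differentiableOn_id.prodMk hd) ?_
        intro ζ hζ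
        refine ⟨hζ, ?_⟩
        have h2 := hb ζ hζ
        show ‖h ζ‖ < 2
        linarith
      have h2 : DifferentiableOn ℂ (fun ζ : ℂ => ζ - 1) {ζ : ℂ | R < ζ.re} :=
        differentiableOn_id.sub_const 1
      refine (h2.add h1).congr fun ζ _ => ?_
      rw [he, ha]
      rfl
    have hlow : ∀ ζ ζ' : ℂ, R < ζ.re → R < ζ'.re → 7 / 8 * ‖ζ - ζ'‖ ≤ ‖e ζ - e ζ'‖ := by
      intro ζ ζ' hζ hζ'
      have h1 := hal ζ ζ' hζ hζ'
      have h2 : ζ - ζ' = (e ζ - e ζ') - (a ζ - a ζ') := by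
        rw [he, he]
        ring
      have h3 : ‖ζ - ζ'‖ ≤ ‖e ζ - e ζ'‖ + ‖a ζ - a ζ'‖ := by
        calc ‖ζ - ζ'‖ = ‖(e ζ - e ζ') - (a ζ - a ζ')‖ := by rw [← h2]
          _ ≤ _ := norm_sub_le _ _
      have h4 : (0 : ℝ) ≤ ‖ζ - ζ'‖ := norm_nonneg _
      nlinarith
    intro ζ0 hζ0
    have hζ0' : R < ζ0.re := hζ0
    obtain ⟨z1, z2, z3⟩ := hE ζ0 hζ0'
    have hz : R < (E ζ0).re := by linarith
    have hder : HasDerivAt e (deriv e (E ζ0)) (E ζ0) :=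
      ((hed (E ζ0) hz).differentiableAt (hUo.mem_nhds hz)).hasDerivAt
    have hne : deriv e (E ζ0) ≠ 0 := by
      intro h0
      rw [h0] at hder
      have h1 := hder.isLittleO.def (by norm_num : (0 : ℝ) < 1 / 2)
      have h2 : ∀ᶠ z in 𝓝 (E ζ0), R < z.re := hUo.mem_nhds hz
      obtain ⟨r, hr, hball⟩ := Metric.eventually_nhds_iff_ball.1 (h1.and h2)
      have h3 : E ζ0 + ((r / 2 : ℝ) : ℂ) ∈ Metric.ball (E ζ0) r := by
        rw [Metric.mem_ball, dist_eq_norm, add_sub_cancel_left, Complex.norm_real, Real.norm_eq_abs,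
          abs_of_pos (by linarith)]
        linarith
      obtain ⟨h4, h5⟩ := hball _ h3
      have h6 := hlow _ (E ζ0) h5 hz
      have h7 : ‖E ζ0 + ((r / 2 : ℝ) : ℂ) - E ζ0‖ = r / 2 := by
        rw [add_sub_cancel_left, Complex.norm_real, Real.norm_eq_abs, abs_of_pos (by linarith)]
      rw [h7] at h6 h4
      simp only [smul_zero, sub_zero] at h4
      linarith
    have hcont : ContinuousAt E ζ0 := by
      rw [Metric.continuousAt_iff]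
      intro δ hδ
      have h1 : ∀ᶠ z in 𝓝 ζ0, R < z.re := hUo.mem_nhds hζ0'
      obtain ⟨r, hr, hball⟩ := Metric.eventually_nhds_iff_ball.1 h1
      refine ⟨min r (δ / 2), by positivity, ?_⟩
      intro z hzd
      have h2 := hball z (Metric.mem_ball.2 (hzd.trans_le (min_le_left _ _)))
      have h3 := hElip z ζ0 h2 hζ0'
      have h4 := hzd.trans_le (min_le_right _ _)
      rw [dist_eq_norm] at h4 ⊢
      have h5 : (0 : ℝ) ≤ ‖E z - E ζ0‖ := norm_nonneg _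
      nlinarith
    have hinv : ∀ᶠ z in 𝓝 ζ0, e (E z) = z := by
      filter_upwards [hUo.mem_nhds hζ0'] with z hz
      rw [he]
      exact (hE z hz).2.2
    exact (HasDerivAt.of_local_left_inverse hcont hder hne hinv).differentiableAt.differentiableWithinAt

end Pool.Agent.HF
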