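import Mathlib

set_option autoImplicit false

/-!
HF-ZMax. A maximum principle for open sets of the plane. Only Mathlib.
The set where `‖u‖` attains its maximum over the open set is open and closed in the plane and bounded.
-/

namespace Pool.Agent.HF

open Set Topology Filter

private theorem closed_aux {Ω : Set ℂ} (hΩ : IsOpen Ω) {u : ℂ → ℂ} (hu : DifferentiableOn ℂ u Ω)
    {c : ℝ} (hb : ∀ t ∈ frontier Ω, ∀ᶠ s in 𝓝[Ω] t, ‖u s‖ ≤ c) {r : ℝ} (hr : c < r) :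
    IsClosed {s | s ∈ Ω ∧ r ≤ ‖u s‖} := by
  refine isClosed_of_closure_subset fun s hs => ?_
  have hf : ∃ᶠ x in 𝓝 s, x ∈ {s | s ∈ Ω ∧ r ≤ ‖u s‖} := mem_closure_iff_frequently.1 hs
  have hcl : s ∈ closure Ω := closure_mono (fun x hx => hx.1) hs
  by_cases hsΩ : s ∈ Ω
  · refine ⟨hsΩ, ?_⟩
    by_contra hcon
    push Not at hcon
    have hc : ContinuousAt (fun x => ‖u x‖) s :=
      ((hu.differentiableAt (hΩ.mem_nhds hsΩ)).continuousAt).norm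
    have h1 : ∀ᶠ x in 𝓝 s, ‖u x‖ < r := hc.eventually_lt_const hcon
    obtain ⟨x, hx1, hx2⟩ := (hf.and_eventually h1).exists
    exact absurd hx1.2 (not_le.2 hx2)
  · have hfr : s ∈ frontier Ω := by
      rw [hΩ.frontier_eq]
      exact ⟨hcl, hsΩ⟩
    have h1 := eventually_nhdsWithin_iff.1 (hb s hfr)
    obtain ⟨x, hx1, hx2⟩ := (hf.and_eventually h1).exists
    exact absurd (hx1.2.trans (hx2 hx1.1)) (not_le.2 hr)

theorem max_lim {Ω : Set ℂ} (hΩ : IsOpen Ω) {u : ℂ → ℂ} (hu : DifferentiableOn ℂ u Ω) {c : ℝ}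
    (hb : ∀ t ∈ frontier Ω, ∀ᶠ s in 𝓝[Ω] t, ‖u s‖ ≤ c)
    (hinf : ∃ L : ℝ, ∀ s ∈ Ω, L ≤ ‖s‖ → ‖u s‖ ≤ c) : ∀ s ∈ Ω, ‖u s‖ ≤ c := by
  intro s0 hs0
  by_contra hcon
  push Not at hcon
  obtain ⟨L, hL⟩ := hinf
  have hbd : ∀ r : ℝ, c < r → {s | s ∈ Ω ∧ r ≤ ‖u s‖} ⊆ Metric.closedBall 0 L := by
    intro r hr s hs
    rw [mem_closedBall_zero_iff]
    by_contra h
    push Not at h
    exact absurd (hs.2.trans (hL s hs.1 h.le)) (not_le.2 hr)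
  have hcont : ContinuousOn (fun x => ‖u x‖) Ω := hu.continuousOn.norm
  have hcomp : IsCompact {s | s ∈ Ω ∧ ‖u s0‖ ≤ ‖u s‖} :=
    Metric.isCompact_of_isClosed_isBounded (closed_aux hΩ hu hb hcon)
      (Metric.isBounded_closedBall.subset (hbd _ hcon))
  obtain ⟨s1, hs1, hmax⟩ := hcomp.exists_isMaxOn ⟨s0, hs0, le_rfl⟩
    (hcont.mono fun x hx => hx.1)
  have hM : c < ‖u s1‖ := lt_of_lt_of_le hcon hs1.2
  have hle : ∀ s ∈ Ω, ‖u s‖ ≤ ‖u s1‖ := by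
    intro s hs
    rcases le_total ‖u s0‖ ‖u s‖ with h | h
    · exact hmax ⟨hs, h⟩
    · exact h.trans hs1.2
  have hclosed : IsClosed {s | s ∈ Ω ∧ ‖u s1‖ ≤ ‖u s‖} := closed_aux hΩ hu hb hM
  have hopen : IsOpen {s | s ∈ Ω ∧ ‖u s1‖ ≤ ‖u s‖} := by
    rw [isOpen_iff_mem_nhds]
    rintro s ⟨hs, hs2⟩
    have hn : ∀ᶠ z in 𝓝 s, z ∈ Ω := hΩ.mem_nhds hs
    have h1 : ∀ᶠ z in 𝓝 s, DifferentiableAt ℂ u z := by
      filter_upwards [hn] with z hz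
      exact hu.differentiableAt (hΩ.mem_nhds hz)
    have h2 : IsLocalMax (norm ∘ u) s := by
      filter_upwards [hn] with z hz
      exact (hle z hz).trans hs2
    filter_upwards [hn, Complex.eventually_eq_of_isLocalMax_norm h1 h2] with z hz hz2
    refine ⟨hz, ?_⟩
    rw [hz2]
    exact hs2
  rcases isClopen_iff.1 ⟨hclosed, hopen⟩ with h | h
  · have h1 : s1 ∈ {s | s ∈ Ω ∧ ‖u s1‖ ≤ ‖u s‖} := ⟨hs1.1, le_rfl⟩
    rw [h] at h1
    exact h1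
  · have h1 : ((|L| + 1 : ℝ) : ℂ) ∈ {s | s ∈ Ω ∧ ‖u s1‖ ≤ ‖u s‖} := by
      rw [h]
      exact mem_univ _
    have h2 := hbd _ hM h1
    rw [mem_closedBall_zero_iff, Complex.norm_real, Real.norm_eq_abs] at h2
    have h3 := le_abs_self (|L| + 1)
    have h4 := le_abs_self L
    linarith

end Pool.Agent.HF
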