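import Pool.Agent.HF.ZDefs

set_option autoImplicit false

/-!
HF-ZNull. The nullcline `y = c x` of the second coordinate, by the inverse function theorem.
-/

namespace Pool.Agent.HF

open Set Topology Filter

/-- the continuous linear equivalence `(x, y) ↦ (x, (β - 1) y)` -/
private noncomputable def zL (β : ℝ) (hβ : (β : ℂ) - 1 ≠ 0) : (ℂ × ℂ) ≃L[ℂ] (ℂ × ℂ) :=
  (ContinuousLinearEquiv.refl ℂ ℂ).prodCongr
    (ContinuousLinearEquiv.unitsEquivAut ℂ (Units.mk0 ((β : ℂ) - 1) hβ))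

private lemma zL_apply (β : ℝ) (hβ : (β : ℂ) - 1 ≠ 0) (w : ℂ × ℂ) :
    zL β hβ w = (w.1, w.2 * ((β : ℂ) - 1)) := by
  simp [zL]

private lemma zL_symm_apply (β : ℝ) (hβ : (β : ℂ) - 1 ≠ 0) (x : ℂ) :
    (zL β hβ).symm (x, 0) = (x, 0) := by
  rw [ContinuousLinearEquiv.symm_apply_eq, zL_apply]
  simp

/-- the map of the inverse function theorem -/
private noncomputable def zG (K : ℂ × ℂ → ℂ × ℂ) (w : ℂ × ℂ) : ℂ × ℂ := (w.1, (K w).2 - w.2)

private lemma zG_cd {β : ℝ} {K : ℂ × ℂ → ℂ × ℂ} (H : NF β K) : ContDiff ℂ 2 (zG K) := by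
  unfold zG
  exact contDiff_fst.prodMk ((contDiff_snd.comp H.cd).sub contDiff_snd)

private lemma zG_der {β : ℝ} {K : ℂ × ℂ → ℂ × ℂ} (H : NF β K) (hβ : (β : ℂ) - 1 ≠ 0) :
    HasStrictFDerivAt (zG K) (zL β hβ : (ℂ × ℂ) →L[ℂ] (ℂ × ℂ)) 0 := by
  have h1 : HasStrictFDerivAt (fun w : ℂ × ℂ => (K w).2)
      ((ContinuousLinearMap.snd ℂ ℂ ℂ).comp ((ContinuousLinearMap.fst ℂ ℂ ℂ).prod
        ((β : ℂ) • ContinuousLinearMap.snd ℂ ℂ ℂ))) 0 :=
    (hasStrictFDerivAt_snd (𝕜 := ℂ) (p := K 0)).comp 0 H.der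
  have h2 := h1.sub (hasStrictFDerivAt_snd (𝕜 := ℂ) (p := (0 : ℂ × ℂ)))
  have h3 := (hasStrictFDerivAt_fst (𝕜 := ℂ) (p := (0 : ℂ × ℂ))).prodMk h2
  have h4 : (zL β hβ : (ℂ × ℂ) →L[ℂ] (ℂ × ℂ)) = (ContinuousLinearMap.fst ℂ ℂ ℂ).prod
      ((ContinuousLinearMap.snd ℂ ℂ ℂ).comp ((ContinuousLinearMap.fst ℂ ℂ ℂ).prod
        ((β : ℂ) • ContinuousLinearMap.snd ℂ ℂ ℂ)) - ContinuousLinearMap.snd ℂ ℂ ℂ) := by
    apply ContinuousLinearMap.ext
    intro w
    change zL β hβ w = _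
    rw [zL_apply]
    refine Prod.ext ?_ ?_
    · rfl
    · change w.2 * ((β : ℂ) - 1) = (β : ℂ) * w.2 - w.2
      ring
  rw [h4]
  exact h3

private lemma zReal {β : ℝ} {K : ℂ × ℂ → ℂ × ℂ} (H : NF β K) {r : ℝ} (hr : 0 < r)
    (hK : ∀ w : ℂ × ℂ, ‖w‖ < 2 * r → ‖(K w).2 - β * w.2‖ ≤ (1 - β) / 4 * ‖w‖)
    {x : ℝ} (hx : |x| ≤ r) : ∃ y : ℝ, |y| ≤ r ∧ (K ((x : ℂ), (y : ℂ))).2 = (y : ℂ) := by
  have hb1 := H.b1
  have hb0 := H.b0
  have hcont : Continuous (fun y : ℝ => (K ((x : ℂ), (y : ℂ))).2.re - y) := by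
    have h1 : Continuous K := H.cd.continuous
    fun_prop
  have hn1 : ‖(((x : ℂ), ((r : ℝ) : ℂ)) : ℂ × ℂ)‖ = r := by
    rw [Prod.norm_def]
    simp only [Complex.norm_real, Real.norm_eq_abs]
    rw [abs_of_pos hr]
    exact max_eq_right hx
  have hn2 : ‖(((x : ℂ), ((-r : ℝ) : ℂ)) : ℂ × ℂ)‖ = r := by
    rw [Prod.norm_def]
    simp only [Complex.norm_real, Real.norm_eq_abs, abs_neg]
    rw [abs_of_pos hr]
    exact max_eq_right hx
  have key : ∀ y : ℝ, ‖(((x : ℂ), (y : ℂ)) : ℂ × ℂ)‖ = r →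
      |(K ((x : ℂ), (y : ℂ))).2.re - β * y| ≤ (1 - β) / 4 * r := by
    intro y hy
    have h1 := hK ((x : ℂ), (y : ℂ)) (by rw [hy]; linarith)
    rw [hy] at h1
    have h2 : ((K ((x : ℂ), (y : ℂ))).2 - β * (y : ℂ)).re =
        (K ((x : ℂ), (y : ℂ))).2.re - β * y := by
      rw [← Complex.ofReal_mul, Complex.sub_re, Complex.ofReal_re]
    rw [← h2]
    exact (Complex.abs_re_le_norm _).trans h1
  have k1 := key r hn1
  have k2 := key (-r) hn2
  have hpos : 0 < (1 - β) * r := mul_pos (by linarith) hr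
  have hu1 : (K ((x : ℂ), ((r : ℝ) : ℂ))).2.re - r ≤ 0 := by
    have := (abs_le.1 k1).2
    nlinarith
  have hu2 : 0 ≤ (K ((x : ℂ), ((-r : ℝ) : ℂ))).2.re - (-r) := by
    have := (abs_le.1 k2).1
    nlinarith
  have hivt := intermediate_value_Icc' (by linarith : -r ≤ r) hcont.continuousOn
  obtain ⟨y, hy, hy0⟩ := hivt ⟨hu1, hu2⟩
  refine ⟨y, abs_le.2 ⟨hy.1, hy.2⟩, ?_⟩
  obtain ⟨x', y', hxy⟩ := H.real x y
  have hy0' : (K ((x : ℂ), (y : ℂ))).2.re - y = 0 := hy0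
  rw [hxy] at hy0' ⊢
  simp only [Complex.ofReal_re] at hy0'
  have : y' = y := by linarith
  rw [this]

theorem nullcline {β : ℝ} {K : ℂ × ℂ → ℂ × ℂ} (H : NF β K) : ∃ (c : ℂ → ℂ) (ρ : ℝ), NC K c ρ := by
  have hb1 := H.b1
  have hb0 := H.b0
  have hβ : (β : ℂ) - 1 ≠ 0 := by
    intro h
    have h1 : (β : ℂ) = ((1 : ℝ) : ℂ) := by
      rw [Complex.ofReal_one]
      exact sub_eq_zero.1 h
    have h2 : β = 1 := Complex.ofReal_injective h1
    linarith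
  have hG := zG_der H hβ
  have hG0 : zG K 0 = 0 := by
    unfold zG
    rw [H.zero]
    simp
  set S : ℂ × ℂ → ℂ × ℂ := hG.localInverse (zG K) (zL β hβ) 0 with hS
  have hSG : ∀ᶠ w in 𝓝 (0 : ℂ × ℂ), S (zG K w) = w := hG.eventually_left_inverse
  have hGS : ∀ᶠ w in 𝓝 (0 : ℂ × ℂ), zG K (S w) = w := by
    have := hG.eventually_right_inverse
    rw [hG0] at this
    exact this
  have hS0 : S 0 = 0 := by
    have h1 := hG.localInverse_apply_image
    rw [hG0] at h1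
    exact h1
  have hSd : HasStrictFDerivAt S ((zL β hβ).symm : (ℂ × ℂ) →L[ℂ] (ℂ × ℂ)) 0 := by
    have := hG.to_localInverse
    rw [hG0] at this
    exact this
  have hScd : ContDiffAt ℂ 2 S 0 := by
    have h1 : ContDiffAt ℂ 2 (zG K) 0 := (zG_cd H).contDiffAt
    have h2 := h1.to_localInverse (f' := zL β hβ) hG.hasFDerivAt (by norm_num)
    rw [hG0] at h2
    exact h2
  have hSdiff : ∀ᶠ w in 𝓝 (0 : ℂ × ℂ), DifferentiableAt ℂ S w := by
    have h1 := hScd.eventually (by decide)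
    filter_upwards [h1] with w hw
    exact hw.differentiableAt (by norm_num)
  obtain ⟨r1, hr1, hr1S⟩ := Metric.eventually_nhds_iff.1 hSG
  have hKd : ∀ᶠ w in 𝓝 (0 : ℂ × ℂ), ‖(K w).2 - β * w.2‖ ≤ (1 - β) / 4 * ‖w‖ := by
    have h1 := H.der.hasFDerivAt.isLittleO
    have h2 := h1.def (c := (1 - β) / 4) (by linarith)
    filter_upwards [h2] with w hw
    rw [H.zero, sub_zero, sub_zero] at hw
    refine le_trans ?_ hw
    exact norm_snd_le (K w - ((ContinuousLinearMap.fst ℂ ℂ ℂ).prod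
      ((β : ℂ) • ContinuousLinearMap.snd ℂ ℂ ℂ)) w)
  obtain ⟨r2, hr2, hr2K⟩ := Metric.eventually_nhds_iff.1 hKd
  obtain ⟨r3, hr3, hr3D⟩ := Metric.eventually_nhds_iff.1 (hSdiff.and hGS)
  set r := min r1 r2 / 2 with hr
  have hmin : 0 < min r1 r2 := lt_min hr1 hr2
  have hrpos : 0 < r := by rw [hr]; linarith
  have hnx : ∀ x : ℂ, ‖((x, 0) : ℂ × ℂ)‖ = ‖x‖ := by
    intro x
    rw [Prod.norm_def]
    simp
  set ρ := min r r3 with hρ
  have hρpos : 0 < ρ := lt_min hrpos hr3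
  refine ⟨fun x => (S (x, 0)).2, ρ, hρpos, ?_, ?_, ?_, ?_, ?_⟩
  · intro x hx
    rw [Metric.mem_ball, dist_zero_right] at hx
    have h1 : DifferentiableAt ℂ S (x, 0) := by
      refine (hr3D ?_).1
      rw [dist_zero_right, hnx]
      exact lt_of_lt_of_le hx (min_le_right _ _)
    have h2 : DifferentiableAt ℂ (fun x : ℂ => ((x, 0) : ℂ × ℂ)) x :=
      differentiableAt_id.prodMk (differentiableAt_const _)
    have h3 : DifferentiableAt ℂ (fun x : ℂ => S (x, 0)) x :=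
      DifferentiableAt.comp (f := fun x : ℂ => ((x, 0) : ℂ × ℂ)) x h1 h2
    exact h3.snd.differentiableWithinAt
  · change (S 0).2 = 0
    rw [hS0]
    rfl
  · intro x hx
    have h1 : zG K (S (x, 0)) = (x, 0) := by
      refine (hr3D ?_).2
      rw [dist_zero_right, hnx]
      exact lt_of_lt_of_le hx (min_le_right _ _)
    have h2 : (S (x, 0)).1 = x := congrArg Prod.fst h1
    have h3 : (K (S (x, 0))).2 - (S (x, 0)).2 = 0 := congrArg Prod.snd h1
    have h4 : ((x, (S (x, 0)).2) : ℂ × ℂ) = S (x, 0) := Prod.ext h2.symm rfl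
    change (K (x, (S (x, 0)).2)).2 = (S (x, 0)).2
    rw [h4]
    exact sub_eq_zero.1 h3
  · intro x hx
    have hxr : |x| ≤ r := le_of_lt (lt_of_lt_of_le hx (min_le_left _ _))
    have h2r1 : 2 * r ≤ r1 := by
      rw [hr]
      have := min_le_left r1 r2
      linarith
    have h2r2 : 2 * r ≤ r2 := by
      rw [hr]
      have := min_le_right r1 r2
      linarith
    obtain ⟨y, hy, hy0⟩ := zReal H hrpos (fun w hw => hr2K (by
      rw [dist_zero_right]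
      exact lt_of_lt_of_le hw h2r2)) hxr
    have h1 : zG K ((x : ℂ), (y : ℂ)) = ((x : ℂ), 0) := by
      unfold zG
      rw [hy0]
      simp
    have h2 : S (zG K ((x : ℂ), (y : ℂ))) = ((x : ℂ), (y : ℂ)) := by
      refine hr1S ?_
      rw [dist_zero_right, Prod.norm_def]
      simp only [Complex.norm_real, Real.norm_eq_abs]
      refine lt_of_le_of_lt (max_le hxr hy) ?_
      linarith
    rw [h1] at h2
    change (S ((x : ℂ), 0)).2.im = 0
    rw [h2]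
    exact Complex.ofReal_im y
  · intro ε hε
    have h1 := hSd.isLittleO.def hε
    obtain ⟨δ, hδ, hd⟩ := Metric.eventually_nhds_iff.1 h1
    refine ⟨δ, hδ, ?_⟩
    intro x x' hx hx'
    have h2 := @hd ((x, 0), (x', 0)) (by
      rw [Prod.dist_eq]
      refine max_lt ?_ ?_
      · change dist ((x, 0) : ℂ × ℂ) 0 < δ
        rw [dist_zero_right, hnx]
        exact hx
      · change dist ((x', 0) : ℂ × ℂ) 0 < δ
        rw [dist_zero_right, hnx]
        exact hx')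
    have h3 : (((x, 0) : ℂ × ℂ) - (x', 0)) = (x - x', 0) := by
      refine Prod.ext rfl ?_
      change (0 : ℂ) - 0 = 0
      rw [sub_zero]
    have h2' : ‖S (x, 0) - S (x', 0) - (zL β hβ).symm (((x, 0) : ℂ × ℂ) - (x', 0))‖ ≤
        ε * ‖((x, 0) : ℂ × ℂ) - (x', 0)‖ := h2
    rw [h3, zL_symm_apply, hnx] at h2'
    have h4 := (norm_snd_le (S (x, 0) - S (x', 0) - (x - x', 0))).trans h2'
    have h5 : (S (x, 0) - S (x', 0) - (x - x', 0)).2 = (S (x, 0)).2 - (S (x', 0)).2 := by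
      change (S (x, 0)).2 - (S (x', 0)).2 - 0 = _
      rw [sub_zero]
    rw [h5] at h4
    exact h4

end Pool.Agent.HF
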