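import Pool.Agent.HF.ZOm1

set_option autoImplicit false

/-!
# HF-ZOm2: properties of the parameter set of the petal

On the open parameter set `Om0` the curve is `φ t = P (Z t)` with the graph parametrisation `P ζ = Th c m α ζ (hh ζ)` and the petal
coordinate `Z = Zc m α φ`; `Z` is an injective local coordinate, it is translated by about `1` under `t ↦ t / lam`, and it leaves every
compact subset of `{R + 1 < Re ζ}` at the frontier of `Om0`.
-/

namespace Pool.Agent.HF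

open Set Topology Filter

variable {K : ℂ × ℂ → ℂ × ℂ} {c : ℂ → ℂ} {ρ : ℝ} {m : ℕ} {α R : ℝ} {hh : ℂ → ℂ} {φ : ℂ → ℂ × ℂ}

private theorem zo2_hm (G : GD K c ρ m α R hh) : 1 ≤ m - 1 := by
  have := G.hm
  omega

private theorem zo2_P (G : GD K c ρ m α R hh) {ζ : ℂ} (hζ : R < ζ.re) :
    DifferentiableAt ℂ (fun ζ : ℂ => Th c m α ζ (hh ζ)) ζ := by
  have hpos : 0 < ζ.re := G.hR.trans hζ
  have hx : DifferentiableAt ℂ (xz (m - 1) α) ζ :=
    (xz_diff (zo2_hm G) G.ha).differentiableAt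
      ((isOpen_lt continuous_const Complex.continuous_re).mem_nhds hpos)
  have hh1 : DifferentiableAt ℂ hh ζ :=
    G.diff.differentiableAt ((isOpen_lt continuous_const Complex.continuous_re).mem_nhds hζ)
  have hc : DifferentiableAt ℂ c (xz (m - 1) α ζ) := by
    refine G.nc.diff.differentiableAt (Metric.isOpen_ball.mem_nhds ?_)
    rw [Metric.mem_ball, dist_zero_right]
    exact G.dom ζ hζ
  unfold Th
  exact hx.prodMk ((hc.comp ζ hx).add ((hx.pow m).mul hh1))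

private theorem zo2_Z (G : GD K c ρ m α R hh) (hφ : Differentiable ℂ φ) {t : ℂ}
    (ht : (φ t).1 ≠ 0) : DifferentiableAt ℂ (Zc m α φ) t := by
  unfold Zc
  have h1 : (((m - 1 : ℕ) : ℂ)) ≠ 0 := by
    have h2 := zo2_hm G
    have h3 : m - 1 ≠ 0 := by omega
    exact_mod_cast h3
  have h2 : (α : ℂ) ≠ 0 := by exact_mod_cast G.ha.ne'
  refine (differentiableAt_const _).div ?_ (mul_ne_zero (mul_ne_zero h1 h2) (pow_ne_zero _ ht))
  exact ((hφ t).fst.pow _).const_mul _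

theorem om_mem (G : GD K c ρ m α R hh) {t : ℂ} (ht : t ∈ Om0 c m α R hh φ) :
    R < (Zc m α φ t).re ∧ φ t = Th c m α (Zc m α φ t) (hh (Zc m α φ t)) := by
  obtain ⟨ζ, h1, h2⟩ := interior_subset ht
  have h3 := zc_eq G.hm G.ha (G.hR.trans h1) h2
  rw [h3]
  exact ⟨h1, h2⟩

private theorem zo2_ne (G : GD K c ρ m α R hh) {t : ℂ} (ht : t ∈ Om0 c m α R hh φ) :
    (φ t).1 ≠ 0 := by
  rw [(om_mem G ht).2]
  exact xz_ne _ _ _

theorem om_diff (G : GD K c ρ m α R hh) (hφ : Differentiable ℂ φ) :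
    DifferentiableOn ℂ (Zc m α φ) (Om0 c m α R hh φ) :=
  fun _ ht => (zo2_Z G hφ (zo2_ne G ht)).differentiableWithinAt

theorem om_inj (G : GD K c ρ m α R hh) (hi : Function.Injective φ) :
    InjOn (Zc m α φ) (Om0 c m α R hh φ) := by
  intro t ht t' ht' h
  apply hi
  rw [(om_mem G ht).2, (om_mem G ht').2, h]

theorem om_der (G : GD K c ρ m α R hh) (hφ : Differentiable ℂ φ) (hd : ∀ z, deriv φ z ≠ 0) :
    ∀ t ∈ Om0 c m α R hh φ, deriv (Zc m α φ) t ≠ 0 := by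
  intro t ht h0
  have h1 : HasDerivAt (Zc m α φ) (deriv (Zc m α φ) t) t := (zo2_Z G hφ (zo2_ne G ht)).hasDerivAt
  have h2 : HasDerivAt (fun ζ : ℂ => Th c m α ζ (hh ζ))
      (deriv (fun ζ : ℂ => Th c m α ζ (hh ζ)) (Zc m α φ t)) (Zc m α φ t) :=
    (zo2_P G (om_mem G ht).1).hasDerivAt
  have h3 := h2.scomp t h1
  rw [h0, zero_smul] at h3
  have h4 : φ =ᶠ[𝓝 t] (fun ζ : ℂ => Th c m α ζ (hh ζ)) ∘ (Zc m α φ) := by
    filter_upwards [isOpen_interior.mem_nhds ht] with s hs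
    exact (om_mem G hs).2
  exact hd t ((h3.congr_of_eventuallyEq h4).deriv)

theorem om_inv (G : GD K c ρ m α R hh) (hK : Function.Injective K) {lam : ℝ} (l0 : 0 < lam)
    (conj : ∀ z, K (φ z) = φ (lam * z)) : ∀ t ∈ Om0 c m α R hh φ,
      t / (lam : ℂ) ∈ Om0 c m α R hh φ ∧ ‖Zc m α φ (t / lam) - Zc m α φ t - 1‖ ≤ 1 / 4 := by
  have hl : (lam : ℂ) ≠ 0 := by exact_mod_cast l0.ne'
  have key : ∀ s : ℂ, s ∈ φ ⁻¹' Pt c m α R hh → ∃ ζ : ℂ, R < ζ.re ∧
      φ (s / lam) = Th c m α ζ (hh ζ) ∧ ‖ζ - Zc m α φ s - 1‖ ≤ 1 / 4 := by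
    intro s hs
    obtain ⟨ζ', h1, h2⟩ := hs
    obtain ⟨ζ, h3, h4, h5⟩ := G.cov ζ' h1
    refine ⟨ζ, h3, ?_, ?_⟩
    · apply hK
      rw [conj, mul_div_cancel₀ _ hl, h5, h2]
    · rw [zc_eq G.hm G.ha (G.hR.trans h1) h2]
      exact h4
  intro t ht
  constructor
  · refine mem_interior.2 ⟨(fun u : ℂ => (lam : ℂ) * u) ⁻¹' (Om0 c m α R hh φ), ?_, ?_, ?_⟩
    · intro u hu
      obtain ⟨ζ, h1, h2, -⟩ := key _ (interior_subset hu)
      refine ⟨ζ, h1, ?_⟩
      rw [← h2, mul_div_cancel_left₀ _ hl]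
    · exact isOpen_interior.preimage (continuous_const.mul continuous_id)
    · rw [mem_preimage, mul_div_cancel₀ _ hl]
      exact ht
  · obtain ⟨ζ, h1, h2, h3⟩ := key _ (interior_subset ht)
    rw [zc_eq G.hm G.ha (G.hR.trans h1) h2]
    exact h3

theorem om_bd (G : GD K c ρ m α R hh) (hφ : Differentiable ℂ φ) :
    ∀ t ∈ frontier (Om0 c m α R hh φ), ∀ B : ℝ, ∀ᶠ s in 𝓝[Om0 c m α R hh φ] t,
      (Zc m α φ s).re ≤ R + 1 ∨ B ≤ ‖Zc m α φ s‖ := by
  intro t ht B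
  by_contra hcon
  rw [not_eventually] at hcon
  have htn : t ∉ Om0 c m α R hh φ := by
    intro h1
    exact ht.2 (by rw [show interior (Om0 c m α R hh φ) = Om0 c m α R hh φ from interior_interior]
                   exact h1)
  set S : Set ℂ := {s | ¬ ((Zc m α φ s).re ≤ R + 1 ∨ B ≤ ‖Zc m α φ s‖)} with hS
  have hne : NeBot (𝓝[Om0 c m α R hh φ] t ⊓ 𝓟 S) := frequently_mem_iff_neBot.1 hcon
  have hC : IsCompact ({ζ : ℂ | R + 1 ≤ ζ.re} ∩ Metric.closedBall 0 B) :=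
    (isCompact_closedBall (0 : ℂ) B).inter_left (isClosed_le continuous_const Complex.continuous_re)
  have hle : map (Zc m α φ) (𝓝[Om0 c m α R hh φ] t ⊓ 𝓟 S) ≤
      𝓟 ({ζ : ℂ | R + 1 ≤ ζ.re} ∩ Metric.closedBall 0 B) := by
    rw [le_principal_iff, mem_map]
    refine mem_of_superset (mem_inf_of_right (mem_principal_self S)) ?_
    intro s hs
    rw [hS, mem_ofPred_eq, not_or, not_le, not_le] at hs
    refine ⟨hs.1.le, ?_⟩
    rw [Metric.mem_closedBall, dist_zero_right]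
    exact hs.2.le
  obtain ⟨ζb, hζb, hcl⟩ := hC.exists_clusterPt hle
  obtain ⟨U, hU1, hU2⟩ := mapClusterPt_iff_ultrafilter.1 hcl
  have hre : R < ζb.re := lt_of_lt_of_le (by linarith) hζb.1
  have hUO : (U : Filter ℂ) ≤ 𝓝[Om0 c m α R hh φ] t := hU1.trans inf_le_left
  have hUm : ∀ᶠ s in (U : Filter ℂ), s ∈ Om0 c m α R hh φ := hUO self_mem_nhdsWithin
  have h1 : Tendsto φ U (𝓝 (Th c m α ζb (hh ζb))) := by
    have h2 : Tendsto (fun s => Th c m α (Zc m α φ s) (hh (Zc m α φ s))) U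
        (𝓝 (Th c m α ζb (hh ζb))) := ((zo2_P G hre).continuousAt.tendsto).comp hU2
    refine h2.congr' ?_
    filter_upwards [hUm] with s hs
    exact (om_mem G hs).2.symm
  have h2 : Tendsto φ U (𝓝 (φ t)) :=
    (hφ.continuous.tendsto t).mono_left (hUO.trans nhdsWithin_le_nhds)
  have h3 : φ t = Th c m α ζb (hh ζb) := tendsto_nhds_unique h2 h1
  refine htn (om_acc G hφ hre h3 ?_)
  have h4 : (U : Filter ℂ) ≤ 𝓝[≠] t := by
    refine hUO.trans (nhdsWithin_mono t ?_)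
    intro s hs hst
    rw [mem_singleton_iff] at hst
    exact htn (hst ▸ hs)
  have h5 : ∀ᶠ s in (U : Filter ℂ), φ s ∈ Pt c m α R hh := by
    filter_upwards [hUm] with s hs
    have h6 : s ∈ φ ⁻¹' Pt c m α R hh := interior_subset hs
    exact h6
  exact h5.frequently.filter_mono h4

end Pool.Agent.HF
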