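import Pool.Agent.HF.ZXz

set_option autoImplicit false

/-!
HF-ZOmD: the petal, its preimage in the parameter plane, and the petal coordinate there (definitions)
-/

namespace Pool.Agent.HF

open Set Topology Filter

/-- the petal -/
def Pt (c : ℂ → ℂ) (m : ℕ) (α R : ℝ) (hh : ℂ → ℂ) : Set (ℂ × ℂ) :=
  {q | ∃ ζ : ℂ, R < ζ.re ∧ q = Th c m α ζ (hh ζ)}

/-- the parameters near which the curve is in the petal -/
def Om0 (c : ℂ → ℂ) (m : ℕ) (α R : ℝ) (hh : ℂ → ℂ) (φ : ℂ → ℂ × ℂ) : Set ℂ :=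
  interior (φ ⁻¹' Pt c m α R hh)

/-- the petal coordinate along the curve -/
noncomputable def Zc (m : ℕ) (α : ℝ) (φ : ℂ → ℂ × ℂ) (t : ℂ) : ℂ :=
  1 / (((m - 1 : ℕ) : ℂ) * (α : ℂ) * (φ t).1 ^ (m - 1))

end Pool.Agent.HF
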