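import Pool.Agent.HF.ZDefs

set_option autoImplicit false

/-!
# HF-ZOrd: the order of contact of the first coordinate with the identity along the nullcline

The function `d x = (K (x, c x)).1 - x` is analytic at `0` and does not vanish identically near `0`, because `0` is an isolated fixed
point.  So `d x = x ^ m e(x)` with `e 0 ≠ 0`; the derivative of `K` at `0` gives `m ≥ 2` and the real structure gives `e 0 ∈ ℝ`.
-/

namespace Pool.Agent.HF

open Set Topology Filter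

private lemma zo_near {β : ℝ} {K : ℂ × ℂ → ℂ × ℂ} (H : NF β K) {ε : ℝ} (hε : 0 < ε) :
    ∃ δ > 0, ∀ w : ℂ × ℂ, ‖w‖ < δ → ‖(K w).1 - w.1‖ ≤ ε * ‖w‖ := by
  have h1 := (H.der.hasFDerivAt).isLittleO
  have h2 := h1.def hε
  rw [Metric.eventually_nhds_iff] at h2
  obtain ⟨δ, hδ, h3⟩ := h2
  refine ⟨δ, hδ, fun w hw => ?_⟩
  have h4 := h3 (y := w) (by rw [dist_zero_right]; exact hw)
  rw [H.zero, sub_zero, sub_zero] at h4
  refine le_trans ?_ h4
  have h5 : (K w - ((ContinuousLinearMap.fst ℂ ℂ ℂ).prod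
    ((β : ℂ) • ContinuousLinearMap.snd ℂ ℂ ℂ)) w).1 = (K w).1 - w.1 := by
    simp
  rw [← h5]
  exact norm_fst_le _

private lemma zo_c {K : ℂ × ℂ → ℂ × ℂ} {c : ℂ → ℂ} {ρ : ℝ} (N : NC K c ρ) :
    ∃ δ > 0, ∀ x : ℂ, ‖x‖ < δ → ‖((x, c x) : ℂ × ℂ)‖ = ‖x‖ := by
  obtain ⟨δ, hδ, h1⟩ := N.small 1 one_pos
  refine ⟨δ, hδ, fun x hx => ?_⟩
  have h2 := h1 x 0 hx (by rw [norm_zero]; exact hδ)
  rw [N.zero, sub_zero, sub_zero, one_mul] at h2
  rw [Prod.norm_mk]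
  exact max_eq_left h2

private lemma zo_sm {δ : ℝ} (hδ : 0 < δ) : ‖((δ / 2 : ℝ) : ℂ)‖ < δ := by
  rw [Complex.norm_real, Real.norm_eq_abs, abs_of_pos (by linarith)]
  linarith

theorem order {β : ℝ} {K : ℂ × ℂ → ℂ × ℂ} (H : NF β K) {c : ℂ → ℂ} {ρ : ℝ} (N : NC K c ρ) :
    ∃ (m : ℕ) (α : ℝ), 2 ≤ m ∧ α ≠ 0 ∧ ∀ ε > 0, ∃ δ > 0, ∀ x : ℂ, ‖x‖ < δ →
      ‖(K (x, c x)).1 - x - α * x ^ m‖ ≤ ε * ‖x‖ ^ m := by
  have hK : Differentiable ℂ K := H.cd.differentiable (by norm_num)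
  have hdiff : DifferentiableOn ℂ (fun x : ℂ => (K (x, c x)).1 - x) (Metric.ball 0 ρ) := by
    have h1 : DifferentiableOn ℂ (fun x : ℂ => ((x, c x) : ℂ × ℂ)) (Metric.ball 0 ρ) :=
      differentiableOn_id.prodMk N.diff
    have h2 : DifferentiableOn ℂ (fun x : ℂ => K (x, c x)) (Metric.ball 0 ρ) :=
      hK.comp_differentiableOn h1
    exact h2.fst.sub differentiableOn_id
  have han : AnalyticAt ℂ (fun x : ℂ => (K (x, c x)).1 - x) 0 :=
    hdiff.analyticAt (Metric.ball_mem_nhds 0 N.pos)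
  obtain ⟨δc, hδc, hcn⟩ := zo_c N
  have hnz : ¬ ∀ᶠ x in 𝓝 (0 : ℂ), (K (x, c x)).1 - x = 0 := by
    intro h1
    rw [Metric.eventually_nhds_iff] at h1
    obtain ⟨r, hr, h2⟩ := h1
    obtain ⟨δ, hδ, h3⟩ := H.iso
    have hs : 0 < min (min r δ) (min δc ρ) :=
      lt_min (lt_min hr hδ) (lt_min hδc N.pos)
    have hx := zo_sm hs
    set s : ℝ := min (min r δ) (min δc ρ) with hsdef
    have hx1 : ‖((s / 2 : ℝ) : ℂ)‖ < r := lt_of_lt_of_le hx ((min_le_left _ _).trans (min_le_left _ _))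
    have hx2 : ‖((s / 2 : ℝ) : ℂ)‖ < δ := lt_of_lt_of_le hx ((min_le_left _ _).trans (min_le_right _ _))
    have hx3 : ‖((s / 2 : ℝ) : ℂ)‖ < δc := lt_of_lt_of_le hx ((min_le_right _ _).trans (min_le_left _ _))
    have hx4 : ‖((s / 2 : ℝ) : ℂ)‖ < ρ := lt_of_lt_of_le hx ((min_le_right _ _).trans (min_le_right _ _))
    have h4 := h2 (y := ((s / 2 : ℝ) : ℂ)) (by rw [dist_zero_right]; exact hx1)
    have h5 := N.eq _ hx4
    have h6 : K (((s / 2 : ℝ) : ℂ), c ((s / 2 : ℝ) : ℂ)) = (((s / 2 : ℝ) : ℂ), c ((s / 2 : ℝ) : ℂ)) :=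
      Prod.ext (sub_eq_zero.1 h4) h5
    have h7 := h3 _ h6 (by rw [hcn _ hx3]; exact hx2)
    have h8 : ((s / 2 : ℝ) : ℂ) = 0 := congrArg Prod.fst h7
    have h9 : s / 2 = 0 := by exact_mod_cast h8
    linarith
  obtain ⟨m, e, he, he0, hev⟩ := (han.exists_eventuallyEq_pow_smul_nonzero_iff).2 hnz
  have hfac : ∃ r > 0, ∀ x : ℂ, ‖x‖ < r → (K (x, c x)).1 - x = x ^ m * e x := by
    rw [Metric.eventually_nhds_iff] at hev
    obtain ⟨r, hr, h2⟩ := hev
    refine ⟨r, hr, fun x hx => ?_⟩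
    have h3 := h2 (y := x) (by rw [dist_zero_right]; exact hx)
    rw [sub_zero, smul_eq_mul] at h3
    exact h3
  obtain ⟨r, hr, hfac⟩ := hfac
  have hcont : ∀ ε > 0, ∃ δ > 0, ∀ x : ℂ, ‖x‖ < δ → ‖e x - e 0‖ ≤ ε := by
    intro ε hε
    have h1 := he.continuousAt
    rw [Metric.continuousAt_iff] at h1
    obtain ⟨δ, hδ, h2⟩ := h1 ε hε
    refine ⟨δ, hδ, fun x hx => ?_⟩
    have h3 := h2 (x := x) (by rw [dist_zero_right]; exact hx)
    rw [dist_eq_norm] at h3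
    exact h3.le
  have hm2 : 2 ≤ m := by
    by_contra hlt
    have hm : m = 0 ∨ m = 1 := by omega
    rcases hm with hm | hm
    · have h1 := hfac 0 (by rw [norm_zero]; exact hr)
      have h2 : ((0 : ℂ), c 0) = (0 : ℂ × ℂ) := by
        rw [N.zero]
        rfl
      rw [h2, H.zero, hm, pow_zero, one_mul, Prod.fst_zero, sub_zero] at h1
      exact he0 h1.symm
    · have hpos : 0 < ‖e 0‖ / 4 := by
        have := norm_pos_iff.2 he0
        linarith
      obtain ⟨δ1, hδ1, h1⟩ := zo_near H hpos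
      obtain ⟨δ2, hδ2, h2⟩ := hcont _ hpos
      have hs : 0 < min (min r δ1) (min δc δ2) :=
        lt_min (lt_min hr hδ1) (lt_min hδc hδ2)
      have hx := zo_sm hs
      set s : ℝ := min (min r δ1) (min δc δ2) with hsdef
      have hx1 : ‖((s / 2 : ℝ) : ℂ)‖ < r := lt_of_lt_of_le hx ((min_le_left _ _).trans (min_le_left _ _))
      have hx2 : ‖((s / 2 : ℝ) : ℂ)‖ < δ1 := lt_of_lt_of_le hx ((min_le_left _ _).trans (min_le_right _ _))
      have hx3 : ‖((s / 2 : ℝ) : ℂ)‖ < δc := lt_of_lt_of_le hx ((min_le_right _ _).trans (min_le_left _ _))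
      have hx4 : ‖((s / 2 : ℝ) : ℂ)‖ < δ2 := lt_of_lt_of_le hx ((min_le_right _ _).trans (min_le_right _ _))
      have h3 := h1 (((s / 2 : ℝ) : ℂ), c ((s / 2 : ℝ) : ℂ)) (by rw [hcn _ hx3]; exact hx2)
      rw [hcn _ hx3] at h3
      have h4 := hfac _ hx1
      rw [hm, pow_one] at h4
      have h5 : ‖((s / 2 : ℝ) : ℂ) * e ((s / 2 : ℝ) : ℂ)‖ ≤ ‖e 0‖ / 4 * ‖((s / 2 : ℝ) : ℂ)‖ := by
        rw [← h4]
        exact h3
      have hsp : 0 < ‖((s / 2 : ℝ) : ℂ)‖ := by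
        rw [Complex.norm_real, Real.norm_eq_abs, abs_of_pos (by linarith)]
        linarith
      rw [norm_mul, mul_comm (‖e 0‖ / 4)] at h5
      have h6 := le_of_mul_le_mul_left h5 hsp
      have h7 := h2 _ hx4
      have h8 : ‖e 0‖ ≤ ‖e ((s / 2 : ℝ) : ℂ)‖ + ‖e ((s / 2 : ℝ) : ℂ) - e 0‖ := by
        have h9 := norm_sub_le (e ((s / 2 : ℝ) : ℂ)) (e ((s / 2 : ℝ) : ℂ) - e 0)
        rw [sub_sub_cancel] at h9
        exact h9
      linarith
  have him : (e 0).im = 0 := by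
    have hle : ∀ ε > 0, |(e 0).im| ≤ 0 + ε := by
      intro ε hε
      obtain ⟨δ1, hδ1, h1⟩ := hcont ε hε
      have hs : 0 < min (min r δ1) ρ := lt_min (lt_min hr hδ1) N.pos
      have hx := zo_sm hs
      set s : ℝ := min (min r δ1) ρ with hsdef
      have hx1 : ‖((s / 2 : ℝ) : ℂ)‖ < r := lt_of_lt_of_le hx ((min_le_left _ _).trans (min_le_left _ _))
      have hx2 : ‖((s / 2 : ℝ) : ℂ)‖ < δ1 := lt_of_lt_of_le hx ((min_le_left _ _).trans (min_le_right _ _))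
      have hx3 : |s / 2| < ρ := by
        rw [← Real.norm_eq_abs, ← Complex.norm_real]
        exact lt_of_lt_of_le hx (min_le_right _ _)
      have h2 := N.real (s / 2) hx3
      obtain ⟨x', y', h3⟩ := H.real (s / 2) (c ((s / 2 : ℝ) : ℂ)).re
      have h4 : (((c ((s / 2 : ℝ) : ℂ)).re : ℝ) : ℂ) = c ((s / 2 : ℝ) : ℂ) :=
        Complex.ext rfl (by rw [Complex.ofReal_im, h2])
      rw [h4] at h3
      have h5 := hfac _ hx1
      rw [h3] at h5
      have hs2 : (((s / 2 : ℝ) : ℂ)) ^ m ≠ 0 := by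
        refine pow_ne_zero _ ?_
        rw [Complex.ofReal_ne_zero]
        linarith
      have h6 : e ((s / 2 : ℝ) : ℂ) = (((x' - s / 2) / (s / 2) ^ m : ℝ) : ℂ) := by
        have h61 : ∀ u : ℝ, (u : ℂ) ^ m ≠ 0 → (x' : ℂ) - (u : ℂ) = (u : ℂ) ^ m * e u →
            e u = (((x' - u) / u ^ m : ℝ) : ℂ) := by
          intro u hu hh
          rw [Complex.ofReal_div, Complex.ofReal_pow, Complex.ofReal_sub, eq_div_iff hu, mul_comm]
          exact hh.symm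
        exact h61 _ hs2 h5
      have h7 : (e ((s / 2 : ℝ) : ℂ)).im = 0 := by
        rw [h6, Complex.ofReal_im]
      have h8 := h1 _ hx2
      have h9 := Complex.abs_im_le_norm (e ((s / 2 : ℝ) : ℂ) - e 0)
      rw [Complex.sub_im, h7, zero_sub, abs_neg] at h9
      linarith
    have h1 := le_of_forall_pos_le_add hle
    exact abs_eq_zero.1 (le_antisymm h1 (abs_nonneg _))
  have hre : (((e 0).re : ℝ) : ℂ) = e 0 := Complex.ext rfl (by rw [Complex.ofReal_im, him])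
  refine ⟨m, (e 0).re, hm2, ?_, ?_⟩
  · intro h1
    apply he0
    rw [← hre, h1, Complex.ofReal_zero]
  · intro ε hε
    obtain ⟨δ1, hδ1, h1⟩ := hcont ε hε
    refine ⟨min r δ1, lt_min hr hδ1, fun x hx => ?_⟩
    have h2 := hfac x (lt_of_lt_of_le hx (min_le_left _ _))
    have h3 := h1 x (lt_of_lt_of_le hx (min_le_right _ _))
    rw [h2, hre]
    have h4 : x ^ m * e x - e 0 * x ^ m = x ^ m * (e x - e 0) := by ring
    rw [h4, norm_mul, norm_pow, mul_comm]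
    exact mul_le_mul_of_nonneg_right h3 (pow_nonneg (norm_nonneg _) _)

end Pool.Agent.HF
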