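import Pool.Agent.HF.ZNull
import Pool.Agent.HF.ZOrd

set_option autoImplicit false

/-!
HF-ZPX. The expansion at the fixed point: the nullcline of `nullcline`, the order of contact of `order` and the strict derivative at `0`.
-/

namespace Pool.Agent.HF

open Set Topology Filter

private theorem px_diff {β : ℝ} {K : ℂ × ℂ → ℂ × ℂ} (H : NF β K) {c : ℂ → ℂ} {ρ : ℝ} (N : NC K c ρ)
    {ε : ℝ} (hε : 0 < ε) : ∃ δ > 0, ∀ x v : ℂ, ‖x‖ < δ → ‖v‖ < δ →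
      ‖(K (x, c x + v)).1 - (K (x, c x)).1‖ ≤ ε * ‖v‖ ∧
      ‖(K (x, c x + v)).2 - c x - β * v‖ ≤ ε * ‖v‖ := by
  have h1 := H.der.isLittleO.def hε
  obtain ⟨δ1, hδ1, h1⟩ := Metric.eventually_nhds_iff.1 h1
  obtain ⟨δ2, hδ2, h2⟩ := N.small 1 one_pos
  refine ⟨min (δ1 / 2) (min δ2 ρ), lt_min (by positivity) (lt_min hδ2 N.pos), ?_⟩
  intro x v hx hv
  have hx1 : ‖x‖ < δ1 / 2 := lt_of_lt_of_le hx (min_le_left _ _)
  have hx2 : ‖x‖ < δ2 := lt_of_lt_of_le hx ((min_le_right _ _).trans (min_le_left _ _))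
  have hx3 : ‖x‖ < ρ := lt_of_lt_of_le hx ((min_le_right _ _).trans (min_le_right _ _))
  have hv1 : ‖v‖ < δ1 / 2 := lt_of_lt_of_le hv (min_le_left _ _)
  have hc : ‖c x‖ ≤ ‖x‖ := by
    have h3 := h2 x 0 hx2 (by simpa using hδ2)
    rw [N.zero] at h3
    simpa using h3
  have hd : dist ((x, c x + v), (x, c x)) ((0 : ℂ × ℂ), (0 : ℂ × ℂ)) < δ1 := by
    rw [dist_eq_norm]
    have h3 : ‖c x + v‖ < δ1 := by
      have := norm_add_le (c x) v
      linarith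
    simp only [Prod.mk_zero_zero, sub_zero, Prod.norm_def, max_lt_iff]
    refine ⟨⟨by linarith, h3⟩, by linarith, by linarith⟩
  have h3 := h1 hd
  simp only at h3
  have h4 : ((x, c x + v) : ℂ × ℂ) - (x, c x) = (0, v) := by
    ext <;> simp
  rw [h4] at h3
  have h5 : ‖((0 : ℂ), v)‖ = ‖v‖ := by
    simp [Prod.norm_def]
  rw [h5] at h3
  constructor
  · have h6 := (norm_fst_le _).trans h3
    simpa using h6
  · have h6 := (norm_snd_le _).trans h3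
    have h7 := N.eq x hx3
    simp at h6
    rw [h7] at h6
    exact h6

theorem px {β : ℝ} {K : ℂ × ℂ → ℂ × ℂ} (H : NF β K) :
    ∃ (c : ℂ → ℂ) (ρ : ℝ) (m : ℕ) (α : ℝ), α ≠ 0 ∧ PX β K c ρ m α := by
  obtain ⟨c, ρ, N⟩ := nullcline H
  obtain ⟨m, α, hm, hα, ho⟩ := order H N
  refine ⟨c, ρ, m, α, hα, N, hm, ?_, ?_⟩
  · intro ε hε
    obtain ⟨δ1, hδ1, h1⟩ := px_diff H N hε
    obtain ⟨δ2, hδ2, h2⟩ := ho ε hε
    refine ⟨min δ1 δ2, lt_min hδ1 hδ2, fun x v hx hv => ?_⟩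
    have h3 := (h1 x v (lt_of_lt_of_le hx (min_le_left _ _)) (lt_of_lt_of_le hv (min_le_left _ _))).1
    have h4 := h2 x (lt_of_lt_of_le hx (min_le_right _ _))
    have h5 : (K (x, c x + v)).1 - x - α * x ^ m =
        ((K (x, c x + v)).1 - (K (x, c x)).1) + ((K (x, c x)).1 - x - α * x ^ m) := by ring
    rw [h5]
    refine (norm_add_le _ _).trans ?_
    linarith
  · intro ε hε
    obtain ⟨δ1, hδ1, h1⟩ := px_diff H N hε
    exact ⟨δ1, hδ1, fun x v hx hv => (h1 x v hx hv).2⟩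

end Pool.Agent.HF
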