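import Pool.Agent.HF.ZGD
import Pool.Agent.HF.ZOm2
import Pool.Agent.HF.ZDens

set_option autoImplicit false

/-!
HF-ZPet. A curve whose real tail tends to the semi-neutral point backward in time does so on a dense set of complex parameters.
-/

namespace Pool.Agent.HF

open Set Topology Filter

/-- points of the petal with large coordinate are small -/
private theorem th_small {K : ℂ × ℂ → ℂ × ℂ} {c : ℂ → ℂ} {ρ : ℝ} {m : ℕ} {α R : ℝ} {hh : ℂ → ℂ}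
    (G : GD K c ρ m α R hh) {ε : ℝ} (hε : 0 < ε) :
    ∃ R' : ℝ, ∀ ζ : ℂ, R < ζ.re → R' < ζ.re → ‖Th c m α ζ (hh ζ)‖ < ε := by
  have hm := G.hm
  have hm1 : 1 ≤ m - 1 := by omega
  obtain ⟨δ, hδ, hsm⟩ := G.nc.small 1 one_pos
  obtain ⟨R', -, hR'⟩ := xz_small hm1 G.ha (ε := min (min δ (ε / 2)) 1)
    (lt_min (lt_min hδ (by positivity)) one_pos)
  refine ⟨R', fun ζ h1 h2 => ?_⟩
  have h3 := hR' ζ h2
  have hxδ : ‖xz (m - 1) α ζ‖ < δ := lt_of_lt_of_le h3 ((min_le_left _ _).trans (min_le_left _ _))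
  have hxε : ‖xz (m - 1) α ζ‖ < ε / 2 :=
    lt_of_lt_of_le h3 ((min_le_left _ _).trans (min_le_right _ _))
  have hx1 : ‖xz (m - 1) α ζ‖ < 1 := lt_of_lt_of_le h3 (min_le_right _ _)
  have hc : ‖c (xz (m - 1) α ζ)‖ ≤ ‖xz (m - 1) α ζ‖ := by
    have h4 := hsm (xz (m - 1) α ζ) 0 hxδ (by simpa using hδ)
    rw [G.nc.zero, sub_zero, sub_zero, one_mul] at h4
    exact h4
  have hpow : ‖xz (m - 1) α ζ‖ ^ m ≤ ‖xz (m - 1) α ζ‖ := by
    have h5 := pow_le_pow_of_le_one (norm_nonneg (xz (m - 1) α ζ)) hx1.le (show 1 ≤ m by omega)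
    rwa [pow_one] at h5
  have hh1 : ‖xz (m - 1) α ζ ^ m * hh ζ‖ ≤ ‖xz (m - 1) α ζ‖ := by
    rw [norm_mul, norm_pow]
    calc ‖xz (m - 1) α ζ‖ ^ m * ‖hh ζ‖ ≤ ‖xz (m - 1) α ζ‖ ^ m * 1 :=
          mul_le_mul_of_nonneg_left (G.bd ζ h1) (by positivity)
      _ ≤ _ := by rw [mul_one]; exact hpow
  unfold Th
  rw [Prod.norm_mk, max_lt_iff]
  constructor
  · linarith
  · calc ‖c (xz (m - 1) α ζ) + xz (m - 1) α ζ ^ m * hh ζ‖
        ≤ ‖c (xz (m - 1) α ζ)‖ + ‖xz (m - 1) α ζ ^ m * hh ζ‖ := norm_add_le _ _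
      _ < ε := by linarith

theorem petal {β : ℝ} {K : ℂ × ℂ → ℂ × ℂ} (H : NF β K) {lam t0 : ℝ} {φ : ℂ → ℂ × ℂ}
    (T : TL K lam t0 φ) (hφ : Differentiable ℂ φ) (hi : Function.Injective φ)
    (hd : ∀ z, deriv φ z ≠ 0) :
    ∃ D : Set ℂ, Dense D ∧
      ∀ t ∈ D, Tendsto (fun n : ℕ => φ (t / (lam : ℂ) ^ n)) atTop (𝓝 0) := by
  obtain ⟨c, ρ, m, α, R, hh, G, t1, ht1⟩ := gd H T
  have hopen : IsOpen (Om0 c m α R hh φ) := isOpen_interior
  have hne : (Om0 c m α R hh φ).Nonempty := by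
    have h1 : φ ((t1 + 1 : ℝ) : ℂ) ∈ Pt c m α R hh := ht1 (t1 + 1) (by linarith)
    obtain ⟨ζb, hζ, hφb⟩ := h1
    refine ⟨((t1 + 1 : ℝ) : ℂ), om_acc G hφ hζ hφb ?_⟩
    have hev : ∀ᶠ s : ℝ in 𝓝[≠] (t1 + 1), φ (s : ℂ) ∈ Pt c m α R hh := by
      filter_upwards [nhdsWithin_le_nhds (Ioi_mem_nhds (show t1 < t1 + 1 by linarith))] with s hs
      exact ht1 s (le_of_lt hs)
    have hmap : Tendsto (fun s : ℝ => (s : ℂ)) (𝓝[≠] (t1 + 1)) (𝓝[≠] ((t1 + 1 : ℝ) : ℂ)) := by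
      apply tendsto_nhdsWithin_of_tendsto_nhds_of_eventually_within
      · exact (Complex.continuous_ofReal.tendsto _).mono_left nhdsWithin_le_nhds
      · filter_upwards [self_mem_nhdsWithin] with s hs
        intro h
        exact hs (Complex.ofReal_injective h)
    exact hmap.frequently hev.frequently
  have hinv := om_inv G H.inj T.l0 T.conj
  have hD := dens T.l0 T.l1 hopen (om_diff G hφ) (om_inj G hi) (om_der G hφ hd)
    (fun t ht => (om_mem G ht).1) (fun t ht => (hinv t ht).1) (fun t ht => (hinv t ht).2) hne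
    (om_bd G hφ)
  refine ⟨_, hD, ?_⟩
  rintro t ⟨n0, hn0⟩
  have key : ∀ k : ℕ, t / (lam : ℂ) ^ (k + n0) ∈ Om0 c m α R hh φ ∧
      R + 3 / 4 * k ≤ (Zc m α φ (t / (lam : ℂ) ^ (k + n0))).re := by
    intro k
    induction k with
    | zero =>
      rw [zero_add]
      refine ⟨hn0, ?_⟩
      have := (om_mem G hn0).1
      simpa using this.le
    | succ k ih =>
      obtain ⟨h1, h2⟩ := ih
      have h3 := hinv _ h1
      have e : t / (lam : ℂ) ^ (k + 1 + n0) = t / (lam : ℂ) ^ (k + n0) / (lam : ℂ) := by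
        rw [div_div, ← pow_succ]
        congr 2
        ring
      rw [e]
      refine ⟨h3.1, ?_⟩
      have h4 := Complex.abs_re_le_norm
        (Zc m α φ (t / (lam : ℂ) ^ (k + n0) / (lam : ℂ)) - Zc m α φ (t / (lam : ℂ) ^ (k + n0)) - 1)
      have h5 := (abs_le.1 (h4.trans h3.2)).1
      rw [Complex.sub_re, Complex.sub_re, Complex.one_re] at h5
      push_cast
      linarith
  rw [← tendsto_add_atTop_iff_nat n0, Metric.tendsto_atTop]
  intro ε hε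
  obtain ⟨R', hR'⟩ := th_small G hε
  obtain ⟨N, hN⟩ := exists_nat_gt ((R' - R) / (3 / 4))
  refine ⟨N, fun k hk => ?_⟩
  obtain ⟨h1, h2⟩ := key k
  have h3 := om_mem G h1
  rw [dist_zero_right, h3.2]
  apply hR' _ h3.1
  have h4 : (R' - R) / (3 / 4) < k := lt_of_lt_of_le hN (by exact_mod_cast hk)
  rw [div_lt_iff₀ (by norm_num)] at h4
  linarith

end Pool.Agent.HF
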