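import Pool.Agent.HF.ZDefs

set_option autoImplicit false

/-!
HF-ZXz. The variable `x` as a function of the petal coordinate. Only Mathlib + the definition of `xz`.
-/

namespace Pool.Agent.HF

open Set Topology Filter

variable {μ : ℕ} {α : ℝ}

private theorem a_re (hμ : 1 ≤ μ) (hα : 0 < α) {ζ : ℂ} (hζ : 0 < ζ.re) :
    0 < ((μ : ℂ) * (α : ℂ) * ζ).re := by
  have h1 : (μ : ℂ) * (α : ℂ) = ((μ * α : ℝ) : ℂ) := by push_cast; rfl
  rw [h1, Complex.re_ofReal_mul]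
  have h2 : (0 : ℝ) < μ := by exact_mod_cast hμ
  positivity

private theorem a_ne (hμ : 1 ≤ μ) (hα : 0 < α) {ζ : ℂ} (hζ : 0 < ζ.re) :
    (μ : ℂ) * (α : ℂ) * ζ ≠ 0 := by
  intro h
  have h1 := a_re hμ hα hζ
  rw [h, Complex.zero_re] at h1
  exact lt_irrefl _ h1

private theorem a_arg (hμ : 1 ≤ μ) (hα : 0 < α) {ζ : ℂ} (hζ : 0 < ζ.re) :
    |(Complex.log ((μ : ℂ) * (α : ℂ) * ζ)).im| < Real.pi / 2 := by
  rw [Complex.log_im]
  exact Complex.abs_arg_lt_pi_div_two_iff.2 (Or.inl (a_re hμ hα hζ))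

private theorem mu_ne (hμ : 1 ≤ μ) : (μ : ℂ) ≠ 0 := by
  have : μ ≠ 0 := by omega
  exact_mod_cast this

theorem xz_ne (μ : ℕ) (α : ℝ) (ζ : ℂ) : xz μ α ζ ≠ 0 := by
  unfold xz
  exact Complex.exp_ne_zero _

theorem xz_pow (hμ : 1 ≤ μ) (hα : 0 < α) {ζ : ℂ} (hζ : 0 < ζ.re) :
    xz μ α ζ ^ μ * ((μ : ℂ) * (α : ℂ) * ζ) = 1 := by
  have h1 : xz μ α ζ ^ μ = ((μ : ℂ) * (α : ℂ) * ζ)⁻¹ := by
    unfold xz
    rw [← Complex.exp_nat_mul, mul_div_cancel₀ _ (mu_ne hμ), Complex.exp_neg,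
      Complex.exp_log (a_ne hμ hα hζ)]
  rw [h1, inv_mul_cancel₀ (a_ne hμ hα hζ)]

theorem xz_diff (hμ : 1 ≤ μ) (hα : 0 < α) : DifferentiableOn ℂ (xz μ α) {ζ | 0 < ζ.re} := by
  unfold xz
  refine DifferentiableOn.cexp (DifferentiableOn.div_const (DifferentiableOn.neg
    (DifferentiableOn.clog (differentiableOn_id.const_mul _) ?_)) _)
  intro ζ hζ
  exact Or.inl (a_re hμ hα hζ)

theorem xz_norm (hμ : 1 ≤ μ) (hα : 0 < α) {ζ : ℂ} (hζ : 0 < ζ.re) :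
    ‖xz μ α ζ‖ ^ μ * (μ * α * ‖ζ‖) = 1 := by
  have h := congrArg norm (xz_pow hμ hα hζ)
  rw [norm_mul, norm_mul, norm_mul, norm_pow, norm_one, Complex.norm_natCast,
    Complex.norm_real, Real.norm_of_nonneg hα.le] at h
  exact h

theorem xz_small (hμ : 1 ≤ μ) (hα : 0 < α) {ε : ℝ} (hε : 0 < ε) :
    ∃ R > 0, ∀ ζ : ℂ, R < ζ.re → ‖xz μ α ζ‖ < ε := by
  have h2 : (0 : ℝ) < μ := by exact_mod_cast hμ
  have hR : 0 < 1 / (μ * α * ε ^ μ) := by positivity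
  refine ⟨1 / (μ * α * ε ^ μ), hR, fun ζ hζ => ?_⟩
  have h3 : 0 < ζ.re := hR.trans hζ
  have h4 : 1 / (μ * α * ε ^ μ) < ‖ζ‖ := lt_of_lt_of_le hζ (Complex.re_le_norm ζ)
  have h5 := xz_norm hμ hα h3
  have h6 : 0 < ‖ζ‖ := hR.trans h4
  by_contra hcon
  rw [not_lt] at hcon
  have h7 : ε ^ μ ≤ ‖xz μ α ζ‖ ^ μ := pow_le_pow_left₀ hε.le hcon _
  have h8 : ε ^ μ * (μ * α * ‖ζ‖) ≤ 1 := by
    rw [← h5]
    exact mul_le_mul_of_nonneg_right h7 (by positivity)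
  rw [div_lt_iff₀ (by positivity)] at h4
  nlinarith

theorem xz_inj (hμ : 1 ≤ μ) (hα : 0 < α) {ζ ζ' : ℂ} (hζ : 0 < ζ.re) (hζ' : 0 < ζ'.re)
    (h : xz μ α ζ = xz μ α ζ') : ζ = ζ' := by
  have h1 := xz_pow hμ hα hζ
  have h2 := xz_pow hμ hα hζ'
  rw [← h, ← h1] at h2
  have h3 := mul_left_cancel₀ (pow_ne_zero μ (xz_ne μ α ζ)) h2
  have h4 : (μ : ℂ) * (α : ℂ) ≠ 0 := mul_ne_zero (mu_ne hμ) (by exact_mod_cast hα.ne')
  exact (mul_left_cancel₀ h4 h3).symm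

theorem xz_real (hμ : 1 ≤ μ) (hα : 0 < α) {x : ℝ} (hx : 0 < x) :
    xz μ α ((1 / (μ * α * x ^ μ) : ℝ) : ℂ) = (x : ℂ) := by
  have h2 : (0 : ℝ) < μ := by exact_mod_cast hμ
  have h1 : (μ : ℂ) * (α : ℂ) * ((1 / (μ * α * x ^ μ) : ℝ) : ℂ) = ((1 / x ^ μ : ℝ) : ℂ) := by
    rw [← Complex.ofReal_natCast, ← Complex.ofReal_mul, ← Complex.ofReal_mul]
    congr 1
    field_simp
  unfold xz
  rw [h1, ← Complex.ofReal_log (by positivity), one_div, Real.log_inv, Real.log_pow,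
    Complex.ofReal_neg, neg_neg, Complex.ofReal_mul, Complex.ofReal_natCast,
    mul_div_cancel_left₀ _ (mu_ne hμ), Complex.ofReal_log hx.le,
    Complex.exp_log (by exact_mod_cast hx.ne')]

theorem xz_branch (hμ : 1 ≤ μ) (hα : 0 < α) : ∃ ε0 > 0, ∀ ζ s ζ' : ℂ, 0 < ζ.re → ‖s‖ ≤ ε0 →
    0 < ζ'.re → (xz μ α ζ * (1 + s)) ^ μ * ((μ : ℂ) * (α : ℂ) * ζ') = 1 →
      xz μ α ζ' = xz μ α ζ * (1 + s) := by
  have h2 : (0 : ℝ) < μ := by exact_mod_cast hμ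
  have hpi := Real.pi_pos
  refine ⟨min (1 / 2) (Real.pi / (6 * μ)), lt_min (by norm_num) (by positivity), ?_⟩
  intro ζ s ζ' hζ hs hζ' h
  have hs1 : ‖s‖ ≤ 1 / 2 := hs.trans (min_le_left _ _)
  have hs2 : ‖s‖ ≤ Real.pi / (6 * μ) := hs.trans (min_le_right _ _)
  have hs0 : (1 : ℂ) + s ≠ 0 := by
    intro h0
    have : s = -1 := by linear_combination h0
    rw [this, norm_neg, norm_one] at hs1
    norm_num at hs1
  have hlog : ‖Complex.log (1 + s)‖ ≤ Real.pi / (4 * μ) := by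
    refine (Complex.norm_log_one_add_half_le_self hs1).trans ?_
    calc 3 / 2 * ‖s‖ ≤ 3 / 2 * (Real.pi / (6 * μ)) := by
          exact mul_le_mul_of_nonneg_left hs2 (by norm_num)
      _ = Real.pi / (4 * μ) := by field_simp; norm_num
  have him : |(μ : ℝ) * (Complex.log (1 + s)).im| ≤ Real.pi / 4 := by
    rw [abs_mul, abs_of_pos h2]
    calc (μ : ℝ) * |(Complex.log (1 + s)).im| ≤ μ * (Real.pi / (4 * μ)) :=
          mul_le_mul_of_nonneg_left ((Complex.abs_im_le_norm _).trans hlog) h2.le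
      _ = Real.pi / 4 := by field_simp
  set a := (μ : ℂ) * (α : ℂ) * ζ with ha
  set a' := (μ : ℂ) * (α : ℂ) * ζ' with ha'
  set L : ℂ := -Complex.log a / (μ : ℂ) + Complex.log (1 + s) with hL
  have hexpL : Complex.exp L = xz μ α ζ * (1 + s) := by
    rw [hL, Complex.exp_add, Complex.exp_log hs0]
    rfl
  have hmuL : (μ : ℂ) * L = -Complex.log a + (μ : ℂ) * Complex.log (1 + s) := by
    rw [hL, mul_add, mul_div_cancel₀ _ (mu_ne hμ)]
  have hA := a_arg hμ hα hζ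
  have hA' := a_arg hμ hα hζ'
  rw [← ha] at hA
  rw [← ha'] at hA'
  have him1 : ((μ : ℂ) * L).im = -(Complex.log a).im + (μ : ℝ) * (Complex.log (1 + s)).im := by
    rw [hmuL, Complex.add_im, Complex.neg_im]
    congr 1
    rw [← Complex.ofReal_natCast, Complex.im_ofReal_mul]
  have hexp : Complex.exp ((μ : ℂ) * L) = Complex.exp (-Complex.log a') := by
    rw [Complex.exp_nat_mul, hexpL, Complex.exp_neg, Complex.exp_log (a_ne hμ hα hζ')]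
    exact eq_inv_of_mul_eq_one_left h
  rw [abs_lt] at hA hA'
  rw [abs_le] at him
  have heq : (μ : ℂ) * L = -Complex.log a' := by
    refine Complex.exp_inj_of_neg_pi_lt_of_le_pi ?_ ?_ ?_ ?_ hexp
    · rw [him1]; linarith
    · rw [him1]; linarith
    · rw [Complex.neg_im]; linarith
    · rw [Complex.neg_im]; linarith
  have hL2 : L = -Complex.log a' / (μ : ℂ) := by
    rw [← heq, mul_div_cancel_left₀ _ (mu_ne hμ)]
  rw [← hexpL, hL2]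
  rfl

end Pool.Agent.HF
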